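import Mathlib.Data.Nat.Nth
import Mathlib.Computability.Primrec.List
import Mathlib.Tactic.Linarith
import Mathlib.Data.List.Basic
import Mathlib.Data.List.GetD
import Mathlib.Data.List.Nodup
import Mathlib.Computability.Halting
import Mathlib.GroupTheory.FreeGroup.Basic
import Mathlib.Tactic.Group
import Mathlib.SetTheory.Cardinal.NatCard
import Mathlib.Data.Set.Finite.Basic
import Mathlib.Data.Set.Function
import Mathlib.Order.Interval.Finset.Nat
import Mathlib.Computability.PartrecCode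
import Pool.Agent.Lib.MP_0054e7_lc.Stmt
import Pool.Agent.Lib.MP_377195_lc.PrimAux

section

/-!
# The forests used in the construction
-/

namespace Pool.Agent.Dim

/-- A letter `(n, true)` is a step forward along `R n`, and `(n, false)` a step backward. -/
abbrev Letter := ℕ × Bool

/-- Vertices of a forest: a root and a word of steps, the last step first. -/
abbrev Vert := ℕ × List Letter

/-- The vertices of the forest with set of roots `Rt`. At a root `a`, the steps `(n, true)` with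
`Out a n` and the steps `(n, false)` with `C n` lead to new vertices; at any other vertex, all
letters `(n, b)` with `C n` do, except the one that undoes the last step. -/
def Valid (C Rt : ℕ → Prop) (Out : ℕ → ℕ → Prop) (a : ℕ) : List Letter → Prop
  | [] => Rt a
  | [l] => Rt a ∧ ((l.2 = true ∧ Out a l.1) ∨ (l.2 = false ∧ C l.1))
  | l :: l' :: w => Valid C Rt Out a (l' :: w) ∧ C l.1 ∧ (l.1 = l'.1 → l.2 = l'.2)

/-- The edges of the forest with label `n`. -/
def Edge (n : ℕ) (x y : Vert) : Prop :=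
  x.1 = y.1 ∧ (y.2 = (n, true) :: x.2 ∨ x.2 = (n, false) :: y.2)

/-- The enumeration `e` without repetitions of the vertices of the forest. -/
def Enum (C Rt : ℕ → Prop) (Out : ℕ → ℕ → Prop) (e : ℕ → Vert) : Prop :=
  Function.Injective e ∧ ∀ v : Vert, Valid C Rt Out v.1 v.2 ↔ ∃ k, e k = v

end Pool.Agent.Dim
end

section

/-!
# Computable enumerations of the vertices of a forest
-/

namespace Pool.Agent.Dim

open Encodable

/-- An r.e. predicate is the union of an increasing primitive recursive sequence of stages. -/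
theorem exists_stages {α : Type*} [Primcodable α] {p : α → Prop} (hp : REPred p) :
    ∃ s : ℕ → α → Bool, Primrec₂ s ∧ (∀ k k' a, k ≤ k' → s k a = true → s k' a = true) ∧
      ∀ a, p a ↔ ∃ k, s k a = true := by
  obtain ⟨c, hc⟩ := Nat.Partrec.Code.exists_code.1 hp
  refine ⟨fun k a => (c.evaln k (encode a)).isSome, ?_, ?_, ?_⟩
  · exact Primrec.option_isSome.comp (Nat.Partrec.Code.primrec_evaln.comp
      (Primrec.pair (Primrec.pair Primrec.fst (Primrec.const c))
        (Primrec.encode.comp Primrec.snd)))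
  · intro k k' a hk h
    obtain ⟨x, hx⟩ := Option.isSome_iff_exists.1 h
    exact Option.isSome_iff_exists.2 ⟨x, Nat.Partrec.Code.evaln_mono hk hx⟩
  · intro a
    have h1 : p a ↔ (c.eval (encode a)).Dom := by
      rw [hc]
      simp [Part.assert]
    rw [h1, Part.dom_iff_mem]
    constructor
    · rintro ⟨y, hy⟩
      obtain ⟨k, hk⟩ := Nat.Partrec.Code.evaln_complete.1 hy
      exact ⟨k, Option.isSome_iff_exists.2 ⟨y, hk⟩⟩
    · rintro ⟨k, hk⟩
      obtain ⟨y, hy⟩ := Option.isSome_iff_exists.1 hk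
      exact ⟨y, Nat.Partrec.Code.evaln_sound hy⟩

/-- The number of `m < n` with `t m`. -/
def cnt (t : ℕ → Bool) (n : ℕ) : ℕ := Nat.rec 0 (fun m ih => ih + bif t m then 1 else 0) n

theorem cnt_eq (t : ℕ → Bool) (n : ℕ) : cnt t n = Nat.count (fun m => t m = true) n := by
  induction n with
  | zero => simp [cnt]
  | succ n ih =>
    rw [Nat.count_succ, ← ih]
    show cnt t n + (bif t n then 1 else 0) = _
    cases t n <;> simp

theorem primrec_cnt {t : ℕ → Bool} (ht : Primrec t) : Primrec (cnt t) := by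
  have h : Primrec₂ fun (m ih : ℕ) => ih + bif t m then 1 else 0 :=
    Primrec.nat_add.comp Primrec.snd
      (Primrec.cond (ht.comp Primrec.fst) (Primrec.const 1) (Primrec.const 0))
  exact Primrec.nat_rec₁ 0 h

/-- An infinite primitive recursive set of numbers has a computable enumeration. -/
theorem exists_nth {t : ℕ → Bool} (ht : Primrec t) (hinf : {m | t m = true}.Infinite) :
    ∃ f : ℕ → ℕ, Computable f ∧ Function.Injective f ∧ ∀ m, t m = true ↔ ∃ n, f n = m := by
  have hex : ∀ n, ∃ m, t m = true ∧ cnt t m = n := by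
    intro n
    refine ⟨Nat.nth (fun m => t m = true) n, Nat.nth_mem_of_infinite hinf n, ?_⟩
    rw [cnt_eq]
    exact Nat.count_nth_of_infinite hinf n
  have hP : PrimrecPred fun q : ℕ × ℕ => t q.2 = true ∧ cnt t q.2 = q.1 := by
    refine PrimrecPred.and ?_ ?_
    · exact Primrec.eq.comp (ht.comp Primrec.snd) (Primrec.const true)
    · exact Primrec.eq.comp ((primrec_cnt ht).comp Primrec.snd) Primrec.fst
  refine ⟨fun n => Nat.find (hex n), ?_, ?_, ?_⟩
  · exact Computable.find (P := fun n m => t m = true ∧ cnt t m = n) hP.computablePred hex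
  · intro n n' h
    have h1 := (Nat.find_spec (hex n)).2
    have h2 := (Nat.find_spec (hex n')).2
    simp only at h
    rw [← h1, h, h2]
  · intro m
    constructor
    · intro hm
      refine ⟨cnt t m, ?_⟩
      have h1 := Nat.find_spec (hex (cnt t m))
      apply Nat.count_injective (p := fun m => t m = true) h1.1 hm
      rw [← cnt_eq, ← cnt_eq]
      exact h1.2
    · rintro ⟨n, rfl⟩
      exact (Nat.find_spec (hex n)).1

/-- The pairs of an element and the stage at which it appears. -/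
def first {α : Type*} (s : ℕ → α → Bool) (q : ℕ × α) : Bool :=
  s q.1 q.2 && (q.1 == 0 || !(s (q.1 - 1) q.2))

theorem first_unique {α : Type*} {s : ℕ → α → Bool}
    (hmono : ∀ k k' a, k ≤ k' → s k a = true → s k' a = true) {k k' : ℕ} {a : α}
    (h : first s (k, a) = true) (h' : first s (k', a) = true) : k = k' := by
  simp only [first, Bool.and_eq_true, Bool.or_eq_true, beq_iff_eq, Bool.not_eq_true'] at h h'
  by_contra hne
  rcases Nat.lt_or_gt_of_ne hne with hlt | hlt
  · rcases h'.2 with h0 | h0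
    · omega
    · have := hmono k (k' - 1) a (by omega) h.1
      rw [h0] at this
      exact absurd this (by simp)
  · rcases h.2 with h0 | h0
    · omega
    · have := hmono k' (k - 1) a (by omega) h'.1
      rw [h0] at this
      exact absurd this (by simp)

theorem exists_first {α : Type*} {s : ℕ → α → Bool} {a : α}
    (h : ∃ k, s k a = true) : ∃ k, first s (k, a) = true := by
  classical
  refine ⟨Nat.find h, ?_⟩
  simp only [first, Bool.and_eq_true, Bool.or_eq_true, beq_iff_eq, Bool.not_eq_true']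
  refine ⟨Nat.find_spec h, ?_⟩
  by_cases h0 : Nat.find h = 0
  · exact Or.inl h0
  · right
    have := Nat.find_min h (m := Nat.find h - 1) (by omega)
    simpa using this

/-- An infinite union of an increasing primitive recursive sequence has an injective computable
enumeration. -/
theorem exists_enum_of_stages {α : Type*} [Primcodable α] {s : ℕ → α → Bool}
    (hs : Primrec₂ s) (hmono : ∀ k k' a, k ≤ k' → s k a = true → s k' a = true)
    (hinf : {a | ∃ k, s k a = true}.Infinite) :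
    ∃ e : ℕ → α, Computable e ∧ Function.Injective e ∧
      ∀ a, (∃ k, s k a = true) ↔ ∃ n, e n = a := by
  obtain ⟨a0, -⟩ := hinf.nonempty
  let g : ℕ → Option (ℕ × α) := fun m => (decode₂ (ℕ × α) m)
  have hg : Primrec g := Primrec.decode₂
  have hfirst : Primrec (first s) := by
    refine Primrec.and.comp (hs.comp Primrec.fst Primrec.snd) (Primrec.or.comp ?_ ?_)
    · exact Primrec.beq.comp Primrec.fst (Primrec.const 0)
    · exact Primrec.not.comp (hs.comp (Primrec.pred.comp Primrec.fst) Primrec.snd)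
  let t : ℕ → Bool := fun m => ((g m).map (first s)).getD false
  have ht : Primrec t := by
    refine Primrec.option_getD.comp (Primrec.option_map hg (hfirst.comp Primrec.snd))
      (Primrec.const false)
  have ht1 : ∀ q, t (encode q) = first s q := by
    intro q
    simp [t, g]
  have ht2 : ∀ m, t m = true → ∃ q, encode q = m ∧ first s q = true := by
    intro m hm
    cases hq : g m with
    | none => simp [t, hq] at hm
    | some q =>
      refine ⟨q, mem_decode₂.1 hq, ?_⟩
      simpa [t, hq] using hm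
  have htinf : {m | t m = true}.Infinite := by
    classical
    let φ : {a | ∃ k, s k a = true} → ℕ := fun a => encode (Classical.choose (exists_first a.2), a.1)
    have hφ : Function.Injective φ := by
      intro a b h
      have := encode_injective h
      exact Subtype.ext (Prod.ext_iff.1 this).2
    have hrange : Set.range φ ⊆ {m | t m = true} := by
      rintro _ ⟨a, rfl⟩
      show t (encode _) = true
      rw [ht1]
      exact Classical.choose_spec (exists_first a.2)
    have : Infinite {a | ∃ k, s k a = true} := hinf.to_subtype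
    exact (Set.infinite_range_of_injective hφ).mono hrange
  obtain ⟨f, hfc, hfi, hfr⟩ := exists_nth ht htinf
  have hfg : ∀ n, ∃ q, g (f n) = some q ∧ first s q = true ∧ f n = encode q := by
    intro n
    obtain ⟨q, hq, hq1⟩ := ht2 (f n) ((hfr _).2 ⟨n, rfl⟩)
    exact ⟨q, mem_decode₂.2 hq, hq1, hq.symm⟩
  refine ⟨fun n => ((g (f n)).map Prod.snd).getD a0, ?_, ?_, ?_⟩
  · have h1 : Primrec fun m => ((g m).map Prod.snd).getD a0 :=
      Primrec.option_getD.comp (Primrec.option_map hg (Primrec.snd.comp Primrec.snd))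
        (Primrec.const a0)
    exact h1.to_comp.comp hfc
  · intro n n' h
    obtain ⟨q, hq, hq1, hq2⟩ := hfg n
    obtain ⟨q', hq', hq1', hq2'⟩ := hfg n'
    simp only [hq, hq', Option.map_some, Option.getD_some] at h
    obtain ⟨k, a⟩ := q
    obtain ⟨k', a'⟩ := q'
    simp only at h
    subst h
    have := first_unique hmono hq1 hq1'
    subst this
    exact hfi (hq2.trans hq2'.symm)
  · intro a
    constructor
    · intro h
      obtain ⟨k, hk⟩ := exists_first h
      obtain ⟨n, hn⟩ := (hfr (encode (k, a))).1 (by rw [ht1]; exact hk)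
      refine ⟨n, ?_⟩
      simp only [hn, g, encodek₂, Option.map_some, Option.getD_some]
    · rintro ⟨n, rfl⟩
      obtain ⟨q, hq, hq1, -⟩ := hfg n
      simp only [hq, Option.map_some, Option.getD_some]
      simp only [first, Bool.and_eq_true] at hq1
      exact ⟨q.1, hq1.1⟩

section

variable (sC sR : ℕ → ℕ → Bool) (sO : ℕ → ℕ × ℕ → Bool)

/-- The stages of the set of vertices. -/
def stg (k : ℕ) (v : Vert) : Bool :=
  List.recOn v.2 (sR k v.1) fun l t IH =>
    List.casesOn t (sR k v.1 && ((l.2 && sO k (v.1, l.1)) || (!l.2 && sC k l.1)))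
      fun l' _ => IH && (sC k l.1 && (!(l.1 == l'.1) || (l.2 == l'.2)))

theorem stg_nil (k a : ℕ) : stg sC sR sO k (a, []) = sR k a := rfl

theorem stg_one (k a : ℕ) (l : Letter) : stg sC sR sO k (a, [l]) =
    (sR k a && ((l.2 && sO k (a, l.1)) || (!l.2 && sC k l.1))) := rfl

theorem stg_cons (k a : ℕ) (l l' : Letter) (w : List Letter) :
    stg sC sR sO k (a, l :: l' :: w) =
      (stg sC sR sO k (a, l' :: w) && (sC k l.1 && (!(l.1 == l'.1) || (l.2 == l'.2)))) := rfl

variable {sC sR sO}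

theorem primrec_stg (hC : Primrec₂ sC) (hR : Primrec₂ sR) (hO : Primrec₂ sO) :
    Primrec₂ (stg sC sR sO) := by
  have hroot : Primrec fun q : ℕ × Vert => sR q.1 q.2.1 :=
    hR.comp Primrec.fst (Primrec.fst.comp Primrec.snd)
  have hone : Primrec₂ fun (q : ℕ × Vert) (b : Letter × List Letter × Bool) =>
      (sR q.1 q.2.1 && ((b.1.2 && sO q.1 (q.2.1, b.1.1)) || (!b.1.2 && sC q.1 b.1.1))) := by
    have e1 : Primrec fun z : (ℕ × Vert) × (Letter × List Letter × Bool) => z.1.1 :=
      Primrec.fst.comp Primrec.fst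
    have e2 : Primrec fun z : (ℕ × Vert) × (Letter × List Letter × Bool) => z.1.2.1 :=
      Primrec.fst.comp (Primrec.snd.comp Primrec.fst)
    have e3 : Primrec fun z : (ℕ × Vert) × (Letter × List Letter × Bool) => z.2.1.1 :=
      Primrec.fst.comp (Primrec.fst.comp Primrec.snd)
    have e4 : Primrec fun z : (ℕ × Vert) × (Letter × List Letter × Bool) => z.2.1.2 :=
      Primrec.snd.comp (Primrec.fst.comp Primrec.snd)
    exact Primrec.and.comp (hR.comp e1 e2) (Primrec.or.comp
      (Primrec.and.comp e4 (hO.comp e1 (Primrec.pair e2 e3)))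
      (Primrec.and.comp (Primrec.not.comp e4) (hC.comp e1 e3)))
  have htwo : Primrec₂ fun (z : (ℕ × Vert) × (Letter × List Letter × Bool))
      (y : Letter × List Letter) =>
      (z.2.2.2 && (sC z.1.1 z.2.1.1 && (!(z.2.1.1 == y.1.1) || (z.2.1.2 == y.1.2)))) := by
    have e0 : Primrec fun x : ((ℕ × Vert) × (Letter × List Letter × Bool)) ×
        (Letter × List Letter) => x.1.2.2.2 :=
      Primrec.snd.comp (Primrec.snd.comp (Primrec.snd.comp Primrec.fst))
    have e1 : Primrec fun x : ((ℕ × Vert) × (Letter × List Letter × Bool)) ×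
        (Letter × List Letter) => x.1.1.1 :=
      Primrec.fst.comp (Primrec.fst.comp Primrec.fst)
    have e3 : Primrec fun x : ((ℕ × Vert) × (Letter × List Letter × Bool)) ×
        (Letter × List Letter) => x.1.2.1.1 :=
      Primrec.fst.comp (Primrec.fst.comp (Primrec.snd.comp Primrec.fst))
    have e4 : Primrec fun x : ((ℕ × Vert) × (Letter × List Letter × Bool)) ×
        (Letter × List Letter) => x.1.2.1.2 :=
      Primrec.snd.comp (Primrec.fst.comp (Primrec.snd.comp Primrec.fst))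
    have e5 : Primrec fun x : ((ℕ × Vert) × (Letter × List Letter × Bool)) ×
        (Letter × List Letter) => x.2.1.1 :=
      Primrec.fst.comp (Primrec.fst.comp Primrec.snd)
    have e6 : Primrec fun x : ((ℕ × Vert) × (Letter × List Letter × Bool)) ×
        (Letter × List Letter) => x.2.1.2 :=
      Primrec.snd.comp (Primrec.fst.comp Primrec.snd)
    exact Primrec.and.comp e0 (Primrec.and.comp (hC.comp e1 e3)
      (Primrec.or.comp (Primrec.not.comp (Primrec.beq.comp e3 e5)) (Primrec.beq.comp e4 e6)))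
  have hstep : Primrec₂ fun (q : ℕ × Vert) (b : Letter × List Letter × Bool) =>
      (List.casesOn (motive := fun _ => Bool) b.2.1
        (sR q.1 q.2.1 && ((b.1.2 && sO q.1 (q.2.1, b.1.1)) || (!b.1.2 && sC q.1 b.1.1)))
        fun l' _ => b.2.2 && (sC q.1 b.1.1 && (!(b.1.1 == l'.1) || (b.1.2 == l'.2)))) := by
    exact Primrec.list_casesOn (Primrec.fst.comp (Primrec.snd.comp Primrec.snd)) hone htwo
  exact Primrec.list_rec (Primrec.snd.comp Primrec.snd) hroot hstep

theorem stg_mono (hC : ∀ k k' a, k ≤ k' → sC k a = true → sC k' a = true)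
    (hR : ∀ k k' a, k ≤ k' → sR k a = true → sR k' a = true)
    (hO : ∀ k k' a, k ≤ k' → sO k a = true → sO k' a = true)
    (k k' : ℕ) (v : Vert) (hk : k ≤ k') (h : stg sC sR sO k v = true) :
    stg sC sR sO k' v = true := by
  obtain ⟨a, w⟩ := v
  induction w with
  | nil =>
    rw [stg_nil] at h ⊢
    exact hR _ _ _ hk h
  | cons l w ih =>
    cases w with
    | nil =>
      rw [stg_one] at h ⊢
      simp only [Bool.and_eq_true, Bool.or_eq_true] at h ⊢
      exact ⟨hR _ _ _ hk h.1, h.2.imp (fun h => ⟨h.1, hO _ _ _ hk h.2⟩)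
        (fun h => ⟨h.1, hC _ _ _ hk h.2⟩)⟩
    | cons l' w =>
      rw [stg_cons] at h ⊢
      simp only [Bool.and_eq_true] at h ⊢
      exact ⟨ih h.1, hC _ _ _ hk h.2.1, h.2.2⟩

theorem valid_iff_stg {C Rt : ℕ → Prop} {Out : ℕ → ℕ → Prop}
    (hC : ∀ k k' a, k ≤ k' → sC k a = true → sC k' a = true)
    (hR : ∀ k k' a, k ≤ k' → sR k a = true → sR k' a = true)
    (hO : ∀ k k' a, k ≤ k' → sO k a = true → sO k' a = true)
    (hC' : ∀ a, C a ↔ ∃ k, sC k a = true) (hR' : ∀ a, Rt a ↔ ∃ k, sR k a = true)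
    (hO' : ∀ a : ℕ × ℕ, Out a.1 a.2 ↔ ∃ k, sO k a = true) (a : ℕ) (w : List Letter) :
    Valid C Rt Out a w ↔ ∃ k, stg sC sR sO k (a, w) = true := by
  induction w with
  | nil => exact hR' a
  | cons l w ih =>
    cases w with
    | nil =>
      simp only [Valid, stg_one, Bool.and_eq_true, Bool.or_eq_true]
      rw [hR' a, hC' l.1, hO' (a, l.1)]
      constructor
      · rintro ⟨⟨k, hk⟩, ⟨hl, k', hk'⟩ | ⟨hl, k', hk'⟩⟩
        · exact ⟨max k k', hR _ _ _ (le_max_left _ _) hk,
            Or.inl ⟨hl, hO _ _ _ (le_max_right _ _) hk'⟩⟩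
        · exact ⟨max k k', hR _ _ _ (le_max_left _ _) hk,
            Or.inr ⟨by simp [hl], hC _ _ _ (le_max_right _ _) hk'⟩⟩
      · rintro ⟨k, h1, h2 | h2⟩
        · exact ⟨⟨k, h1⟩, Or.inl ⟨h2.1, k, h2.2⟩⟩
        · exact ⟨⟨k, h1⟩, Or.inr ⟨by simpa using h2.1, k, h2.2⟩⟩
    | cons l' w =>
      simp only [Valid, stg_cons, Bool.and_eq_true]
      rw [ih, hC' l.1]
      have hb : (!(l.1 == l'.1) || (l.2 == l'.2)) = true ↔ (l.1 = l'.1 → l.2 = l'.2) := by
        simp only [Bool.or_eq_true, Bool.not_eq_true', beq_eq_false_iff_ne, beq_iff_eq, ne_eq]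
        tauto
      rw [hb]
      constructor
      · rintro ⟨⟨k, hk⟩, ⟨k', hk'⟩, h⟩
        exact ⟨max k k', stg_mono hC hR hO _ _ _ (le_max_left _ _) hk,
          hC _ _ _ (le_max_right _ _) hk', h⟩
      · rintro ⟨k, h1, h2, h3⟩
        exact ⟨⟨k, h1⟩, ⟨k, h2⟩, h3⟩

end

/-- The Boolean version of `Edge`. -/
def edgeB (z : ℕ × Vert × Vert) : Bool :=
  decide (z.2.1.1 = z.2.2.1) && (decide (z.2.2.2 = (z.1, true) :: z.2.1.2) ||
    decide (z.2.1.2 = (z.1, false) :: z.2.2.2))

theorem edgeB_iff (z : ℕ × Vert × Vert) : edgeB z = true ↔ Edge z.1 z.2.1 z.2.2 := by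
  simp only [edgeB, Edge, Bool.and_eq_true, Bool.or_eq_true, decide_eq_true_eq]

theorem primrec_edgeB : Primrec edgeB := by
  have e1 : Primrec fun z : ℕ × Vert × Vert => z.2.1.1 :=
    Primrec.fst.comp (Primrec.fst.comp Primrec.snd)
  have e2 : Primrec fun z : ℕ × Vert × Vert => z.2.2.1 :=
    Primrec.fst.comp (Primrec.snd.comp Primrec.snd)
  have e3 : Primrec fun z : ℕ × Vert × Vert => z.2.1.2 :=
    Primrec.snd.comp (Primrec.fst.comp Primrec.snd)
  have e4 : Primrec fun z : ℕ × Vert × Vert => z.2.2.2 :=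
    Primrec.snd.comp (Primrec.snd.comp Primrec.snd)
  have e5 : Primrec fun z : ℕ × Vert × Vert => (z.1, true) :: z.2.1.2 :=
    Primrec.list_cons.comp (Primrec.pair Primrec.fst (Primrec.const true)) e3
  have e6 : Primrec fun z : ℕ × Vert × Vert => (z.1, false) :: z.2.2.2 :=
    Primrec.list_cons.comp (Primrec.pair Primrec.fst (Primrec.const false)) e4
  exact Primrec.and.comp (Primrec.eq.decide.comp e1 e2)
    (Primrec.or.comp (Primrec.eq.decide.comp e4 e5) (Primrec.eq.decide.comp e3 e6))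

/-- The edges of the copy given by a computable enumeration are computable. -/
theorem isComp_edge {e : ℕ → Vert} (he : Computable e) :
    IsComp fun n x y => Edge n (e x) (e y) := by
  have h3 : Computable fun p : ℕ × ℕ × ℕ => ((p.1, e p.2.1, e p.2.2) : ℕ × Vert × Vert) :=
    Computable.pair Computable.fst (Computable.pair
      (he.comp (Computable.fst.comp Computable.snd)) (he.comp (Computable.snd.comp Computable.snd)))
  refine ComputablePred.computable_iff.2
    ⟨fun p => edgeB (p.1, e p.2.1, e p.2.2), primrec_edgeB.to_comp.comp h3, ?_⟩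
  funext p
  exact propext (edgeB_iff (p.1, e p.2.1, e p.2.2)).symm

/-- The set of the vertices of a forest with r.e. data and infinitely many roots has an injective
computable enumeration, and the edges of the resulting copy are computable. -/
theorem exists_enum {C Rt : ℕ → Prop} {Out : ℕ → ℕ → Prop}
    (hC : REPred C) (hRt : REPred Rt) (hOut : REPred fun p : ℕ × ℕ => Out p.1 p.2)
    (hinf : {a | Rt a}.Infinite) :
    ∃ e : ℕ → Vert, Computable e ∧ Enum C Rt Out e ∧ IsComp fun n x y => Edge n (e x) (e y) := by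
  obtain ⟨sC, hC1, hC2, hC3⟩ := exists_stages hC
  obtain ⟨sR, hR1, hR2, hR3⟩ := exists_stages hRt
  obtain ⟨sO, hO1, hO2, hO3⟩ := exists_stages hOut
  have hV : ∀ v : Vert, Valid C Rt Out v.1 v.2 ↔ ∃ k, stg sC sR sO k v = true :=
    fun v => valid_iff_stg hC2 hR2 hO2 hC3 hR3 hO3 v.1 v.2
  have hinf' : {v : Vert | ∃ k, stg sC sR sO k v = true}.Infinite := by
    have h1 : ((fun a : ℕ => ((a, []) : Vert)) '' {a | Rt a}).Infinite :=
      hinf.image fun a _ b _ h => (Prod.ext_iff.1 h).1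
    refine h1.mono ?_
    rintro _ ⟨a, ha, rfl⟩
    exact (hV (a, [])).1 ha
  obtain ⟨e, he1, he2, he3⟩ := exists_enum_of_stages (primrec_stg hC1 hR1 hO1)
    (stg_mono hC2 hR2 hO2) hinf'
  exact ⟨e, he1, ⟨he2, fun v => (hV v).trans (he3 v)⟩, isComp_edge he1⟩

end Pool.Agent.Dim
end

section

/-!
# The construction
-/

namespace Pool.Agent.Dim

open Nat.Partrec (Code)
open Nat.Partrec.Code
open Pool.Agent.SJT (primrec_filter primrec_all primrec_any)

/-- An object: its location on the first side, on the second side, its two parents, its kind and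
its tag. -/
structure Ob where
  a : ℕ
  b : ℕ
  u : ℕ
  v : ℕ
  kd : ℕ
  tg : ℕ

/-- The record of a node. -/
structure Rec where
  p : ℕ
  dn : Bool
  ck : ℕ
  mu : List (ℕ × ℕ)
  pend : List ℕ
  cnt : ℕ
  low : List ℕ

/-- The state of the construction. -/
structure St where
  obs : List Ob
  dead : List ℕ
  rld : List ℕ
  nodes : List (List Bool × Rec)
  dl : List Bool
  lows : List ℕ
  s : ℕ

def obEquiv : Ob ≃ ℕ × ℕ × ℕ × ℕ × ℕ × ℕ where
  toFun o := (o.a, o.b, o.u, o.v, o.kd, o.tg)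
  invFun p := ⟨p.1, p.2.1, p.2.2.1, p.2.2.2.1, p.2.2.2.2.1, p.2.2.2.2.2⟩
  left_inv _ := rfl
  right_inv _ := rfl

instance : Primcodable Ob := Primcodable.ofEquiv _ obEquiv

def recEquiv : Rec ≃ ℕ × Bool × ℕ × List (ℕ × ℕ) × List ℕ × ℕ × List ℕ where
  toFun r := (r.p, r.dn, r.ck, r.mu, r.pend, r.cnt, r.low)
  invFun q := ⟨q.1, q.2.1, q.2.2.1, q.2.2.2.1, q.2.2.2.2.1, q.2.2.2.2.2.1, q.2.2.2.2.2.2⟩
  left_inv _ := rfl
  right_inv _ := rfl

instance : Primcodable Rec := Primcodable.ofEquiv _ recEquiv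

def stEquiv : St ≃ List Ob × List ℕ × List ℕ × List (List Bool × Rec) × List Bool × List ℕ × ℕ where
  toFun S := (S.obs, S.dead, S.rld, S.nodes, S.dl, S.lows, S.s)
  invFun q := ⟨q.1, q.2.1, q.2.2.1, q.2.2.2.1, q.2.2.2.2.1, q.2.2.2.2.2.1, q.2.2.2.2.2.2⟩
  left_inv _ := rfl
  right_inv _ := rfl

instance : Primcodable St := Primcodable.ofEquiv _ stEquiv

/-! ### Primitive recursiveness of the accessors and constructors -/

section acc

variable {α : Type*} [Primcodable α]

theorem prim_obEquiv : Primrec obEquiv := Primrec.of_equiv (e := obEquiv)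

theorem Ob.prim_a : Primrec Ob.a :=
  (Primrec.fst.comp prim_obEquiv).of_eq fun _ => rfl

theorem Ob.prim_b : Primrec Ob.b :=
  (Primrec.fst.comp (Primrec.snd.comp prim_obEquiv)).of_eq fun _ => rfl

theorem Ob.prim_u : Primrec Ob.u :=
  (Primrec.fst.comp (Primrec.snd.comp (Primrec.snd.comp prim_obEquiv))).of_eq fun _ => rfl

theorem Ob.prim_v : Primrec Ob.v :=
  (Primrec.fst.comp (Primrec.snd.comp (Primrec.snd.comp (Primrec.snd.comp prim_obEquiv)))).of_eq fun _ => rfl

theorem Ob.prim_kd : Primrec Ob.kd :=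
  (Primrec.fst.comp (Primrec.snd.comp (Primrec.snd.comp (Primrec.snd.comp (Primrec.snd.comp prim_obEquiv))))).of_eq fun _ => rfl

theorem Ob.prim_tg : Primrec Ob.tg :=
  (Primrec.snd.comp (Primrec.snd.comp (Primrec.snd.comp (Primrec.snd.comp (Primrec.snd.comp prim_obEquiv))))).of_eq fun _ => rfl

theorem Ob.prim_mk {a b u v kd tg : α → ℕ} (ha : Primrec a) (hb : Primrec b) (hu : Primrec u)
    (hv : Primrec v) (hk : Primrec kd) (ht : Primrec tg) :
    Primrec fun x => (⟨a x, b x, u x, v x, kd x, tg x⟩ : Ob) :=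
  (Primrec.of_equiv_symm (e := obEquiv)).comp
    (ha.pair (hb.pair (hu.pair (hv.pair (hk.pair ht)))))

theorem prim_recEquiv : Primrec recEquiv := Primrec.of_equiv (e := recEquiv)

theorem Rec.prim_p : Primrec Rec.p :=
  (Primrec.fst.comp prim_recEquiv).of_eq fun _ => rfl

theorem Rec.prim_dn : Primrec Rec.dn :=
  (Primrec.fst.comp (Primrec.snd.comp prim_recEquiv)).of_eq fun _ => rfl

theorem Rec.prim_ck : Primrec Rec.ck :=
  (Primrec.fst.comp (Primrec.snd.comp (Primrec.snd.comp prim_recEquiv))).of_eq fun _ => rfl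

theorem Rec.prim_mu : Primrec Rec.mu :=
  (Primrec.fst.comp (Primrec.snd.comp (Primrec.snd.comp (Primrec.snd.comp prim_recEquiv)))).of_eq fun _ => rfl

theorem Rec.prim_pend : Primrec Rec.pend :=
  (Primrec.fst.comp (Primrec.snd.comp (Primrec.snd.comp (Primrec.snd.comp (Primrec.snd.comp prim_recEquiv))))).of_eq fun _ => rfl

theorem Rec.prim_cnt : Primrec Rec.cnt :=
  (Primrec.fst.comp (Primrec.snd.comp (Primrec.snd.comp (Primrec.snd.comp (Primrec.snd.comp (Primrec.snd.comp prim_recEquiv)))))).of_eq fun _ => rfl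

theorem Rec.prim_low : Primrec Rec.low :=
  (Primrec.snd.comp (Primrec.snd.comp (Primrec.snd.comp (Primrec.snd.comp (Primrec.snd.comp (Primrec.snd.comp prim_recEquiv)))))).of_eq fun _ => rfl

theorem Rec.prim_mk {p ck cnt : α → ℕ} {dn : α → Bool} {mu : α → List (ℕ × ℕ)}
    {pend low : α → List ℕ} (hp : Primrec p) (hd : Primrec dn) (hc : Primrec ck)
    (hm : Primrec mu) (hpe : Primrec pend) (hcn : Primrec cnt) (hl : Primrec low) :
    Primrec fun x => (⟨p x, dn x, ck x, mu x, pend x, cnt x, low x⟩ : Rec) :=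
  (Primrec.of_equiv_symm (e := recEquiv)).comp
    (hp.pair (hd.pair (hc.pair (hm.pair (hpe.pair (hcn.pair hl))))))

theorem prim_stEquiv : Primrec stEquiv := Primrec.of_equiv (e := stEquiv)

theorem St.prim_obs : Primrec St.obs :=
  (Primrec.fst.comp prim_stEquiv).of_eq fun _ => rfl

theorem St.prim_dead : Primrec St.dead :=
  (Primrec.fst.comp (Primrec.snd.comp prim_stEquiv)).of_eq fun _ => rfl

theorem St.prim_rld : Primrec St.rld :=
  (Primrec.fst.comp (Primrec.snd.comp (Primrec.snd.comp prim_stEquiv))).of_eq fun _ => rfl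

theorem St.prim_nodes : Primrec St.nodes :=
  (Primrec.fst.comp (Primrec.snd.comp (Primrec.snd.comp (Primrec.snd.comp prim_stEquiv)))).of_eq fun _ => rfl

theorem St.prim_dl : Primrec St.dl :=
  (Primrec.fst.comp (Primrec.snd.comp (Primrec.snd.comp (Primrec.snd.comp (Primrec.snd.comp prim_stEquiv))))).of_eq fun _ => rfl

theorem St.prim_lows : Primrec St.lows :=
  (Primrec.fst.comp (Primrec.snd.comp (Primrec.snd.comp (Primrec.snd.comp (Primrec.snd.comp (Primrec.snd.comp prim_stEquiv)))))).of_eq fun _ => rfl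

theorem St.prim_s : Primrec St.s :=
  (Primrec.snd.comp (Primrec.snd.comp (Primrec.snd.comp (Primrec.snd.comp (Primrec.snd.comp (Primrec.snd.comp prim_stEquiv)))))).of_eq fun _ => rfl

theorem St.prim_mk {obs : α → List Ob} {dead rld lows : α → List ℕ}
    {nodes : α → List (List Bool × Rec)} {dl : α → List Bool} {s : α → ℕ}
    (ho : Primrec obs) (hd : Primrec dead) (hr : Primrec rld)
    (hn : Primrec nodes) (hdl : Primrec dl) (hl : Primrec lows) (hs : Primrec s) :
    Primrec fun x => (⟨obs x, dead x, rld x, nodes x, dl x, lows x, s x⟩ : St) :=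
  (Primrec.of_equiv_symm (e := stEquiv)).comp
    (ho.pair (hd.pair (hr.pair (hn.pair (hdl.pair (hl.pair hs))))))

end acc

/-! ### The functions -/

/-- `σ` is an initial segment of `ρ`. -/
def pf (σ ρ : List Bool) : Bool := decide (ρ.take σ.length = σ)

theorem pf_iff {σ ρ : List Bool} : pf σ ρ = true ↔ σ <+: ρ := by
  rw [pf, decide_eq_true_iff, List.prefix_iff_eq_take, eq_comm]

/-- The record at an address. -/
def lk : List (List Bool × Rec) → List Bool → Option Rec
  | [], _ => none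
  | q :: l, τ => if q.1 = τ then some q.2 else lk l τ

/-- A fresh object. -/
def fr (i k q : ℕ) : Ob := ⟨i, i, i, i, k, q⟩

/-- The object with a given number. -/
def gob (l : List Ob) (i : ℕ) : Ob := l.getD i (fr 0 0 0)

/-- The kind of a child whose first parent has kind `k`. -/
def ckd (k : ℕ) : ℕ := if k = 1 then 1 else if k = 3 then 4 else 0

/-- The child of two objects. -/
def child (l : List Ob) (o o' : ℕ) : Ob :=
  ⟨(gob l o).a, (gob l o').b, o, o', ckd (gob l o).kd, (gob l o).tg⟩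

/-- The living object with given tag and kind. -/
def cur (l : List Ob) (dead : List ℕ) (q k : ℕ) : ℕ :=
  ((List.range l.length).filter fun o =>
    !(decide (o ∈ dead)) && (decide ((gob l o).kd = k) && decide ((gob l o).tg = q))).headI

/-- The cycle of an action. -/
def mid (l : List Ob) (dead : List ℕ) (low : List ℕ) (Y : ℕ) : List ℕ :=
  low.foldr (fun q acc => cur l dead q 1 :: cur l dead q 2 ::
    (acc ++ [cur l dead q 3, cur l dead q 4])) [Y, Y + 1]

/-- The element `x` is seen to have an out-edge with label `k`. -/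
def shw (e s x k : ℕ) : Bool :=
  (List.range s).any fun y =>
    decide (evaln s (Denumerable.ofNat Code e) (Nat.pair k (Nat.pair x y)) = some 1)

/-- The program `e` is seen to fix `Y`. -/
def rdy (e s Y : ℕ) : Bool := decide (evaln s (Denumerable.ofNat Code e) Y = some Y)

/-- The first step of the walker at a node: a new record is made. -/
def create (S : St) : St :=
  ⟨S.obs ++ [fr S.obs.length 1 S.obs.length, fr (S.obs.length + 1) 4 S.obs.length,
      fr (S.obs.length + 2) 2 S.obs.length, fr (S.obs.length + 3) 3 S.obs.length,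
      fr (S.obs.length + 4) 0 0, fr (S.obs.length + 5) 0 0],
    S.dead, S.rld,
    (S.dl, ⟨S.obs.length, false, S.obs.length + 6, [], [], 0, S.lows⟩) ::
      S.nodes.map (fun q => if pf (q.1 ++ [true]) S.dl = true then
        (q.1, ⟨q.2.p, q.2.dn, S.obs.length + 6, q.2.mu, q.2.pend, q.2.cnt, q.2.low⟩) else q),
    [], [], S.s + 1⟩

/-- The cycle of an action at the current node. -/
def cyc (S : St) (r : Rec) : List ℕ := mid S.obs S.dead r.low (r.p + 4)

/-- The new objects of an action. -/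
def newobs (S : St) (r : Rec) : List Ob :=
  ((List.range (cyc S r).length).map fun i =>
      child S.obs ((cyc S r).getD i 0) ((cyc S r).getD ((i + 1) % (cyc S r).length) 0)) ++
    (List.range (2 * r.low.length)).map fun j =>
      fr (S.obs.length + (cyc S r).length + j) (2 + j % 2) (r.low.getD (j / 2) 0)

/-- The number of objects after an action. -/
def newn (S : St) (r : Rec) : ℕ := S.obs.length + (cyc S r).length + 2 * r.low.length

/-- An action at the current node. -/
def act (S : St) (r : Rec) : St :=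
  ⟨S.obs ++ newobs S r, cyc S r ++ S.dead, S.rld,
    (S.nodes.filter (fun q => !(pf S.dl q.1) || decide (q.1 = S.dl))).map fun q =>
      if q.1 = S.dl then (q.1, ⟨q.2.p, true, q.2.ck, [], q.2.pend, q.2.cnt, q.2.low⟩)
      else if pf (q.1 ++ [true]) S.dl = true then
        (q.1, ⟨q.2.p, q.2.dn, newn S r, q.2.mu,
          [cur S.obs S.dead q.2.p 1, cur S.obs S.dead q.2.p 2, cur S.obs S.dead q.2.p 3,
            cur S.obs S.dead q.2.p 4], q.2.cnt, q.2.low⟩)
      else q,
    [], [], S.s + 1⟩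

/-- The living objects that the node has to match. -/
def tset (S : St) (r : Rec) : List ℕ :=
  (List.range r.ck).filter fun o => !(decide (o ∈ S.dead)) &&
    (decide ((gob S.obs o).kd = 0) || !(decide ((gob S.obs o).tg ∈ r.low)))

/-- The first element seen to have an out-edge with label `2 * o`. -/
def mof (e s o : ℕ) : ℕ :=
  (((List.range s).filter fun x => shw e s x (2 * o)).head?).getD s

/-- The new matching. -/
def nmu (S : St) (r : Rec) : List (ℕ × ℕ) :=
  (tset S r).map fun o => (o, mof S.dl.length S.s o)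

def c1 (S : St) (r : Rec) : Bool :=
  (nmu S r).all fun q => decide (q.2 < S.s) &&
    (nmu S r).all fun q' => !(decide (q.2 = q'.2)) || decide (q.1 = q'.1)

def c2 (S : St) (r : Rec) : Bool :=
  r.mu.all fun z => (nmu S r).any fun q => decide (q.2 = z.2) &&
    (decide (q.1 = z.1) || (decide ((gob S.obs q.1).u = z.1) || decide ((gob S.obs q.1).v = z.1)))

def c3 (S : St) (r : Rec) : Bool :=
  (nmu S r).all fun q => decide ((gob S.obs q.1).kd = 0) ||
    !(shw S.dl.length S.s q.2 (2 * (gob S.obs q.1).tg + 1))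

def c4 (S : St) (r : Rec) : Bool :=
  (nmu S r).all fun q => (!(decide ((gob S.obs q.1).kd = 0)) && decide ((gob S.obs q.1).tg = r.p)) ||
    shw S.dl.length S.s q.2 (2 * r.p + 1)

def c5 (S : St) (r : Rec) : Bool :=
  (List.range r.cnt).all fun x => shw S.dl.length S.s x (2 * r.p + 1) ||
    (nmu S r).any fun q => decide (q.2 = x)

/-- The node has recovered. -/
def recov (S : St) (r : Rec) : Bool :=
  c1 S r && (c2 S r && (c3 S r && (c4 S r && c5 S r)))

/-- The step at a recovered node. -/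
def recover (S : St) (r : Rec) : St :=
  ⟨S.obs, S.dead, r.pend ++ S.rld,
    (S.nodes.filter (fun q => !(pf (S.dl ++ [false]) q.1))).map fun q =>
      if q.1 = S.dl then (q.1, ⟨q.2.p, q.2.dn, q.2.ck, nmu S r, [], q.2.cnt + 1, q.2.low⟩) else q,
    S.dl ++ [true], r.low ++ [r.p], S.s + 1⟩

/-- The step at a waiting node. -/
def wait (S : St) (r : Rec) : St :=
  ⟨S.obs, S.dead, S.rld, S.nodes, S.dl ++ [false], r.low, S.s + 1⟩

/-- One step of the construction. -/
def step (S : St) : St :=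
  Option.casesOn (lk S.nodes S.dl) (create S) fun r =>
    bif (!r.dn && rdy S.dl.length S.s (r.p + 4)) then act S r
    else bif recov S r then recover S r else wait S r

/-- The initial state. -/
def init : St := ⟨[], [], [], [], [], [], 0⟩

/-- The construction. -/
def run : ℕ → St
  | 0 => init
  | t + 1 => step (run t)

end Pool.Agent.Dim
end

section

/-!
# The run of the construction: a functional description of the steps
-/

namespace Pool.Agent.Dim

open Nat.Partrec (Code)
open Nat.Partrec.Code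

/-- The number of objects at time `t`. -/
def nn (t : ℕ) : ℕ := (run t).obs.length

/-- The record at an address at time `t`. -/
def N (t : ℕ) (τ : List Bool) : Option Rec := lk (run t).nodes τ

/-- The address of the walker. -/
def dl (t : ℕ) : List Bool := (run t).dl

/-- The list of tags of the walker. -/
def lows (t : ℕ) : List ℕ := (run t).lows

/-- The object is dead. -/
def dead (t o : ℕ) : Prop := o ∈ (run t).dead

/-- The object is released. -/
def rld (t o : ℕ) : Prop := o ∈ (run t).rld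

theorem lk_map (f : List Bool × Rec → List Bool × Rec) (hf : ∀ q, (f q).1 = q.1)
    (l : List (List Bool × Rec)) (τ : List Bool) :
    lk (l.map f) τ = (lk l τ).map fun r => (f (τ, r)).2 := by
  induction l with
  | nil => rfl
  | cons q l ih =>
    rw [List.map_cons, lk, lk, hf q, ih]
    by_cases h : q.1 = τ
    · rw [if_pos h, if_pos h, Option.map_some, ← h]
    · rw [if_neg h, if_neg h]

theorem lk_filter (c : List Bool × Rec → Bool) (d : List Bool → Bool) (hc : ∀ q, c q = d q.1)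
    (l : List (List Bool × Rec)) (τ : List Bool) :
    lk (l.filter c) τ = if d τ = true then lk l τ else none := by
  induction l with
  | nil => simp [lk]
  | cons q l ih =>
    rw [List.filter_cons, lk, hc q]
    by_cases h : q.1 = τ
    · subst h
      by_cases hd : d q.1 = true
      · simp [hd, lk]
      · rw [if_neg hd, ih]
        simp [hd]
    · rw [if_neg h]
      by_cases hd : d q.1 = true
      · rw [if_pos hd, lk, if_neg h, ih]
      · rw [if_neg hd, ih]

/-- The cases of a step. -/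
theorem run_cases (t : ℕ) :
    (N t (dl t) = none ∧ run (t + 1) = create (run t)) ∨
    (∃ r, N t (dl t) = some r ∧ r.dn = false ∧
      rdy (dl t).length (run t).s (r.p + 4) = true ∧ run (t + 1) = act (run t) r) ∨
    (∃ r, N t (dl t) = some r ∧ ¬ (r.dn = false ∧ rdy (dl t).length (run t).s (r.p + 4) = true) ∧
      recov (run t) r = true ∧ run (t + 1) = recover (run t) r) ∨
    (∃ r, N t (dl t) = some r ∧ ¬ (r.dn = false ∧ rdy (dl t).length (run t).s (r.p + 4) = true) ∧
      recov (run t) r = false ∧ run (t + 1) = wait (run t) r) := by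
  have h0 : run (t + 1) = step (run t) := rfl
  rw [h0]
  unfold step
  cases h : lk (run t).nodes (run t).dl with
  | none => exact Or.inl ⟨h, rfl⟩
  | some r =>
    right
    cases hc : (!r.dn && rdy (run t).dl.length (run t).s (r.p + 4)) with
    | true =>
      left
      refine ⟨r, h, ?_, ?_, ?_⟩
      · cases hd : r.dn <;> simp_all
      · cases hd : r.dn <;> simp_all [dl]
      · simp only [hc, cond_true]
    | false =>
      right
      have hn : ¬ (r.dn = false ∧ rdy (dl t).length (run t).s (r.p + 4) = true) := by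
        rintro ⟨h1, h2⟩
        unfold dl at h2
        rw [h1, h2] at hc
        simp at hc
      cases hr : recov (run t) r with
      | true => exact Or.inl ⟨r, h, hn, hr, by simp only [hc, cond_false, hr, cond_true]⟩
      | false => exact Or.inr ⟨r, h, hn, hr, by simp only [hc, cond_false, hr]⟩

theorem run_s (t : ℕ) : (run t).s = t := by
  induction t with
  | zero => rfl
  | succ t ih =>
    rcases run_cases t with ⟨_, h⟩ | ⟨r, _, _, _, h⟩ | ⟨r, _, _, _, h⟩ | ⟨r, _, _, _, h⟩ <;> rw [h] <;>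
      simp [create, act, recover, wait, ih]

theorem obs_step (t : ℕ) : (run t).obs <+: (run (t + 1)).obs := by
  rcases run_cases t with ⟨_, h⟩ | ⟨r, _, _, _, h⟩ | ⟨r, _, _, _, h⟩ | ⟨r, _, _, _, h⟩ <;> rw [h]
  · exact List.prefix_append _ _
  · exact List.prefix_append _ _
  · exact List.prefix_rfl
  · exact List.prefix_rfl

theorem obs_mono {t t' : ℕ} (h : t ≤ t') : (run t).obs <+: (run t').obs := by
  induction t', h using Nat.le_induction with
  | base => exact List.prefix_rfl
  | succ t' _ ih => exact ih.trans (obs_step t')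

theorem nn_mono {t t' : ℕ} (h : t ≤ t') : nn t ≤ nn t' := (obs_mono h).length_le

theorem gob_mono {t t' i : ℕ} (h : t ≤ t') (hi : i < nn t) :
    gob (run t').obs i = gob (run t).obs i := by
  obtain ⟨l, hl⟩ := obs_mono h
  rw [gob, gob, ← hl, List.getD_append _ _ _ _ hi]

open Classical in
/-- The object with number `i`. -/
noncomputable def G (i : ℕ) : Ob :=
  if h : ∃ t, i < nn t then gob (run (Nat.find h)).obs i else fr 0 0 0

theorem G_eq {t i : ℕ} (h : i < nn t) : gob (run t).obs i = G i := by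
  classical
  have hex : ∃ t, i < nn t := ⟨t, h⟩
  rw [G, dif_pos hex]
  exact gob_mono (Nat.find_le h) (Nat.find_spec hex)

/-- Facts on a step of the first kind. -/
structure CreateAt (t : ℕ) : Prop where
  nor : N t (dl t) = none
  nn' : nn (t + 1) = nn t + 6
  g0 : G (nn t) = fr (nn t) 1 (nn t)
  g1 : G (nn t + 1) = fr (nn t + 1) 4 (nn t)
  g2 : G (nn t + 2) = fr (nn t + 2) 2 (nn t)
  g3 : G (nn t + 3) = fr (nn t + 3) 3 (nn t)
  g4 : G (nn t + 4) = fr (nn t + 4) 0 0
  g5 : G (nn t + 5) = fr (nn t + 5) 0 0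
  dead' : ∀ o, dead (t + 1) o ↔ dead t o
  rld' : ∀ o, rld (t + 1) o ↔ rld t o
  dl' : dl (t + 1) = []
  lows' : lows (t + 1) = []
  N' : ∀ τ, N (t + 1) τ = if τ = dl t then some ⟨nn t, false, nn t + 6, [], [], 0, lows t⟩ else
    (N t τ).map fun r => if τ ++ [true] <+: dl t then
      ⟨r.p, r.dn, nn t + 6, r.mu, r.pend, r.cnt, r.low⟩ else r

/-- The cycle of an action. -/
def cy (t : ℕ) (r : Rec) : List ℕ := cyc (run t) r

/-- The current object. -/
def cu (t q k : ℕ) : ℕ := cur (run t).obs (run t).dead q k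

/-- Facts on an action. -/
structure ActAt (t : ℕ) (r : Rec) : Prop where
  isr : N t (dl t) = some r
  dn : r.dn = false
  rdy' : rdy (dl t).length t (r.p + 4) = true
  nn' : nn (t + 1) = nn t + (cy t r).length + 2 * r.low.length
  gc : ∀ i (h : i < (cy t r).length), G (nn t + i) =
    child (run t).obs (cy t r)[i] ((cy t r)[(i + 1) % (cy t r).length]'(Nat.mod_lt _ (by omega)))
  gf : ∀ j, j < 2 * r.low.length → G (nn t + (cy t r).length + j) =
    fr (nn t + (cy t r).length + j) (2 + j % 2) (r.low.getD (j / 2) 0)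
  dead' : ∀ o, dead (t + 1) o ↔ (o ∈ cy t r ∨ dead t o)
  rld' : ∀ o, rld (t + 1) o ↔ rld t o
  dl' : dl (t + 1) = []
  lows' : lows (t + 1) = []
  N' : ∀ τ, N (t + 1) τ = if dl t <+: τ ∧ τ ≠ dl t then none else
    (N t τ).map fun r' => if τ = dl t then ⟨r'.p, true, r'.ck, [], r'.pend, r'.cnt, r'.low⟩
      else if τ ++ [true] <+: dl t then
        ⟨r'.p, r'.dn, nn (t + 1), r'.mu, [cu t r'.p 1, cu t r'.p 2, cu t r'.p 3, cu t r'.p 4],
          r'.cnt, r'.low⟩
      else r'

/-- Facts on a recovery. -/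
structure RecAt (t : ℕ) (r : Rec) : Prop where
  isr : N t (dl t) = some r
  nrdy : ¬ (r.dn = false ∧ rdy (dl t).length t (r.p + 4) = true)
  rcv : recov (run t) r = true
  nn' : nn (t + 1) = nn t
  dead' : ∀ o, dead (t + 1) o ↔ dead t o
  rld' : ∀ o, rld (t + 1) o ↔ (o ∈ r.pend ∨ rld t o)
  dl' : dl (t + 1) = dl t ++ [true]
  lows' : lows (t + 1) = r.low ++ [r.p]
  N' : ∀ τ, N (t + 1) τ = if dl t ++ [false] <+: τ then none else
    (N t τ).map fun r' => if τ = dl t then
      ⟨r'.p, r'.dn, r'.ck, nmu (run t) r, [], r'.cnt + 1, r'.low⟩ else r'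

/-- Facts on a waiting step. -/
structure WaitAt (t : ℕ) (r : Rec) : Prop where
  isr : N t (dl t) = some r
  nrdy : ¬ (r.dn = false ∧ rdy (dl t).length t (r.p + 4) = true)
  rcv : recov (run t) r = false
  nn' : nn (t + 1) = nn t
  dead' : ∀ o, dead (t + 1) o ↔ dead t o
  rld' : ∀ o, rld (t + 1) o ↔ rld t o
  dl' : dl (t + 1) = dl t ++ [false]
  lows' : lows (t + 1) = r.low
  N' : ∀ τ, N (t + 1) τ = N t τ

theorem createAt {t : ℕ} (h0 : N t (dl t) = none) (h : run (t + 1) = create (run t)) :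
    CreateAt t := by
  have hnn : nn (t + 1) = nn t + 6 := by
    simp [nn, h, create]
  have hg : ∀ i o, i < nn (t + 1) → (run (t + 1)).obs[i]? = some o → G i = o := by
    intro i o hi ho
    rw [← G_eq hi, gob, List.getD_eq_getElem?_getD, ho, Option.getD_some]
  have ho : (run (t + 1)).obs = (run t).obs ++ [fr (nn t) 1 (nn t), fr (nn t + 1) 4 (nn t),
      fr (nn t + 2) 2 (nn t), fr (nn t + 3) 3 (nn t), fr (nn t + 4) 0 0, fr (nn t + 5) 0 0] := by
    rw [h]; rfl
  have hg' : ∀ k o, k < 6 → ([fr (nn t) 1 (nn t), fr (nn t + 1) 4 (nn t),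
      fr (nn t + 2) 2 (nn t), fr (nn t + 3) 3 (nn t), fr (nn t + 4) 0 0,
      fr (nn t + 5) 0 0] : List Ob)[k]? = some o → G (nn t + k) = o := by
    intro k o hk ho'
    refine hg _ _ (by omega) ?_
    rw [ho, List.getElem?_append_right (by simp [nn])]
    have : nn t + k - (run t).obs.length = k := by simp [nn]
    rw [this]
    exact ho'
  refine ⟨h0, hnn, hg' 0 _ (by omega) rfl, hg' 1 _ (by omega) rfl, hg' 2 _ (by omega) rfl,
    hg' 3 _ (by omega) rfl, hg' 4 _ (by omega) rfl, hg' 5 _ (by omega) rfl, ?_, ?_, ?_, ?_, ?_⟩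
  · intro o; rw [dead, h]; rfl
  · intro o; rw [rld, h]; rfl
  · rw [dl, h]; rfl
  · rw [lows, h]; rfl
  · intro τ
    rw [N, h]
    show lk ((dl t, _) :: (run t).nodes.map _) τ = _
    rw [lk]
    by_cases hτ : τ = dl t
    · rw [if_pos hτ.symm, if_pos hτ]; rfl
    · rw [if_neg (fun h => hτ h.symm), if_neg hτ, lk_map]
      · rw [N]
        refine congrArg (fun f => Option.map f (lk (run t).nodes τ)) ?_
        funext r
        by_cases hp : τ ++ [true] <+: dl t
        · rw [if_pos hp]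
          have : pf (τ ++ [true]) (run t).dl = true := pf_iff.2 hp
          simp only [this, if_true]
          rfl
        · rw [if_neg hp]
          have : ¬ pf (τ ++ [true]) (run t).dl = true := fun h => hp (pf_iff.1 h)
          simp only [this]
          rfl
      · intro q
        by_cases hp : pf (q.1 ++ [true]) (run t).dl = true <;> simp [hp]

theorem actAt {t : ℕ} {r : Rec} (h0 : N t (dl t) = some r) (hdn : r.dn = false)
    (hrdy : rdy (dl t).length (run t).s (r.p + 4) = true) (h : run (t + 1) = act (run t) r) :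
    ActAt t r := by
  have ho : (run (t + 1)).obs = (run t).obs ++ newobs (run t) r := by
    rw [h]; rfl
  have hnn : nn (t + 1) = nn t + (cy t r).length + 2 * r.low.length := by
    rw [nn, ho]
    simp [nn, newobs, cy]
    omega
  have hg : ∀ k o, k < (cy t r).length + 2 * r.low.length → (newobs (run t) r)[k]? = some o →
      G (nn t + k) = o := by
    intro k o hi hk
    have hlt : nn t + k < nn (t + 1) := by omega
    rw [← G_eq hlt, gob, List.getD_eq_getElem?_getD, ho,
      List.getElem?_append_right (by simp [nn])]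
    have : nn t + k - (run t).obs.length = k := by simp [nn]
    rw [this, hk, Option.getD_some]
  have hnew : nn (t + 1) = newn (run t) r := hnn
  rw [run_s] at hrdy
  refine ⟨h0, hdn, hrdy, hnn, ?_, ?_, ?_, ?_, ?_, ?_, ?_⟩
  · intro i hi
    refine hg i _ (by omega) ?_
    have hi' : i < (cyc (run t) r).length := hi
    rw [newobs, List.getElem?_append_left (by simp [hi'])]
    rw [List.getElem?_map, List.getElem?_range hi', Option.map_some]
    congr 1
    have h1 : (cyc (run t) r).getD i 0 = (cy t r)[i] := by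
      rw [List.getD_eq_getElem _ _ hi']; rfl
    have h2 : (cyc (run t) r).getD ((i + 1) % (cyc (run t) r).length) 0 =
        (cy t r)[(i + 1) % (cy t r).length]'(Nat.mod_lt _ (by omega)) := by
      rw [List.getD_eq_getElem _ _ (Nat.mod_lt _ (by omega))]; rfl
    rw [h1, h2]
    rfl
  · intro j hj
    have := hg ((cy t r).length + j) (fr (nn t + (cy t r).length + j) (2 + j % 2)
      (r.low.getD (j / 2) 0)) (by omega) (by
        rw [newobs, List.getElem?_append_right (by simp [cy])]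
        simp only [List.length_map, List.length_range]
        have : (cy t r).length + j - (cyc (run t) r).length = j := by simp [cy]
        rw [this, List.getElem?_map, List.getElem?_range hj, Option.map_some]
        rfl)
    rw [← Nat.add_assoc] at this
    exact this
  · intro o
    rw [dead, h]
    show o ∈ cyc (run t) r ++ (run t).dead ↔ _
    rw [List.mem_append]; rfl
  · intro o; rw [rld, h]; rfl
  · rw [dl, h]; rfl
  · rw [lows, h]; rfl
  · intro τ
    rw [N, h, act]
    simp only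
    rw [lk_map _ ?_, lk_filter _ (fun a => !(pf (run t).dl a) || decide (a = (run t).dl))
      (fun q => rfl)]
    · by_cases hp : dl t <+: τ ∧ τ ≠ dl t
      · rw [if_pos hp, if_neg]
        · rfl
        · have h1 : pf (run t).dl τ = true := pf_iff.2 hp.1
          have h2 : ¬ τ = (run t).dl := hp.2
          simp [h1, h2]
      · rw [if_neg hp, if_pos]
        · rw [N]
          refine congrArg (fun f => Option.map f (lk (run t).nodes τ)) ?_
          funext r'
          by_cases hτ : τ = dl t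
          · rw [if_pos hτ]
            have : τ = (run t).dl := hτ
            simp only [this, if_true]
          · rw [if_neg hτ]
            have h1 : ¬ τ = (run t).dl := hτ
            by_cases hp2 : τ ++ [true] <+: dl t
            · rw [if_pos hp2]
              have : pf (τ ++ [true]) (run t).dl = true := pf_iff.2 hp2
              simp only [h1, this, if_true, if_false, hnew, cu]
            · rw [if_neg hp2]
              have : ¬ pf (τ ++ [true]) (run t).dl = true := fun h => hp2 (pf_iff.1 h)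
              simp only [h1, this, if_false]
              rfl
        · by_cases h1 : pf (run t).dl τ = true
          · have h2 : τ = (run t).dl := by
              by_contra h2
              exact hp ⟨pf_iff.1 h1, h2⟩
            simp [h2]
          · simp [h1]
    · intro q
      by_cases h1 : q.1 = (run t).dl
      · simp [h1]
      · by_cases h2 : pf (q.1 ++ [true]) (run t).dl = true <;> simp [h1, h2]

theorem recAt {t : ℕ} {r : Rec} (h0 : N t (dl t) = some r)
    (hdn : ¬ (r.dn = false ∧ rdy (dl t).length (run t).s (r.p + 4) = true))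
    (hr : recov (run t) r = true) (h : run (t + 1) = recover (run t) r) :
    RecAt t r := by
  rw [run_s] at hdn
  refine ⟨h0, hdn, hr, ?_, ?_, ?_, ?_, ?_, ?_⟩
  · rw [nn, h]; rfl
  · intro o; rw [dead, h]; rfl
  · intro o
    rw [rld, h]
    show o ∈ r.pend ++ (run t).rld ↔ _
    rw [List.mem_append]; rfl
  · rw [dl, h]; rfl
  · rw [lows, h]; rfl
  · intro τ
    rw [N, h, recover]
    simp only
    rw [lk_map _ ?_, lk_filter _ (fun a => !(pf ((run t).dl ++ [false]) a)) (fun q => rfl)]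
    · by_cases hp : dl t ++ [false] <+: τ
      · rw [if_pos hp, if_neg]
        · rfl
        · have h1 : pf ((run t).dl ++ [false]) τ = true := pf_iff.2 hp
          simp [h1]
      · rw [if_neg hp, if_pos]
        · rw [N]
          refine congrArg (fun f => Option.map f (lk (run t).nodes τ)) ?_
          funext r'
          by_cases hτ : τ = dl t
          · rw [if_pos hτ]
            have : τ = (run t).dl := hτ
            simp only [this, if_true]
          · rw [if_neg hτ]
            have h1 : ¬ τ = (run t).dl := hτ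
            simp only [h1, if_false]
        · have h1 : ¬ pf ((run t).dl ++ [false]) τ = true := fun h => hp (pf_iff.1 h)
          simp [h1]
    · intro q
      by_cases h1 : q.1 = (run t).dl <;> simp [h1]

theorem waitAt {t : ℕ} {r : Rec} (h0 : N t (dl t) = some r)
    (hdn : ¬ (r.dn = false ∧ rdy (dl t).length (run t).s (r.p + 4) = true))
    (hr : recov (run t) r = false) (h : run (t + 1) = wait (run t) r) :
    WaitAt t r := by
  rw [run_s] at hdn
  refine ⟨h0, hdn, hr, ?_, ?_, ?_, ?_, ?_, ?_⟩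
  · rw [nn, h]; rfl
  · intro o; rw [dead, h]; rfl
  · intro o; rw [rld, h]; rfl
  · rw [dl, h]; rfl
  · rw [lows, h]; rfl
  · intro τ; rw [N, h]; rfl

theorem cases_at (t : ℕ) :
    CreateAt t ∨ (∃ r, ActAt t r) ∨ (∃ r, RecAt t r) ∨ (∃ r, WaitAt t r) := by
  rcases run_cases t with ⟨h0, h⟩ | ⟨r, h0, h1, h2, h⟩ | ⟨r, h0, h1, h2, h⟩ | ⟨r, h0, h1, h2, h⟩
  · exact Or.inl (createAt h0 h)
  · exact Or.inr (Or.inl ⟨r, actAt h0 h1 h2 h⟩)
  · exact Or.inr (Or.inr (Or.inl ⟨r, recAt h0 h1 h2 h⟩))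
  · exact Or.inr (Or.inr (Or.inr ⟨r, waitAt h0 h1 h2 h⟩))

end Pool.Agent.Dim
end

section

/-!
# Invariants of the construction: the nodes
-/

namespace Pool.Agent.Dim

/-! ### Addresses -/

theorem pfx_of_snoc {σ τ : List Bool} {b : Bool} (h : σ ++ [b] <+: τ) : σ <+: τ :=
  (List.prefix_append _ _).trans h

theorem pfx_ne {σ τ : List Bool} {b : Bool} (h : σ ++ [b] <+: τ) : σ ≠ τ := by
  rintro rfl
  have := h.length_le
  simp at this

theorem pfx_snoc {σ τ : List Bool} (h : σ <+: τ) (hne : σ ≠ τ) : ∃ b, σ ++ [b] <+: τ := by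
  obtain ⟨l, rfl⟩ := h
  cases l with
  | nil => exact absurd (List.append_nil σ).symm hne
  | cons b l => exact ⟨b, l, by simp⟩

theorem pfx_bool {σ τ : List Bool} {b c : Bool} (h : σ ++ [b] <+: τ) (h' : σ ++ [c] <+: τ) :
    b = c := by
  have h1 := List.prefix_of_prefix_length_le h h' (by simp)
  have h2 := h1.eq_of_length (by simp)
  have h3 := List.append_cancel_left h2
  simpa using h3

theorem pfx_absurd {σ τ : List Bool} (h : σ ++ [true] <+: τ) (h' : σ ++ [false] <+: τ) : False :=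
  Bool.noConfusion (pfx_bool h h')

theorem pfx_cmp {σ τ ν : List Bool} {b c : Bool} (h : σ ++ [b] <+: ν) (h' : τ ++ [c] <+: ν) :
    σ = τ ∨ σ ++ [b] <+: τ ∨ τ ++ [c] <+: σ := by
  rcases List.prefix_or_prefix_of_prefix (pfx_of_snoc h) (pfx_of_snoc h') with h1 | h1
  · by_cases he : σ = τ
    · exact Or.inl he
    · obtain ⟨d, hd⟩ := pfx_snoc h1 he
      have : d = b := pfx_bool (hd.trans (pfx_of_snoc h')) h
      subst this
      exact Or.inr (Or.inl hd)
  · by_cases he : τ = σ
    · exact Or.inl he.symm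
    · obtain ⟨d, hd⟩ := pfx_snoc h1 he
      have : d = c := pfx_bool (hd.trans (pfx_of_snoc h)) h'
      subst this
      exact Or.inr (Or.inr hd)

theorem pfx_last {σ δ : List Bool} {b c : Bool} (h : σ ++ [b] <+: δ ++ [c]) :
    (σ = δ ∧ b = c) ∨ σ ++ [b] <+: δ := by
  rcases List.prefix_concat_iff.1 h with h | h
  · left
    have h2 := congrArg List.length h
    simp at h2
    have h3 := List.append_inj h h2
    exact ⟨h3.1, by simpa using h3.2⟩
  · exact Or.inr h

theorem sep (ν τ : List Bool) : ν <+: τ ∨ τ ++ [true] <+: ν ∨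
    (∃ σ, σ ++ [true] <+: ν ∧ σ ++ [false] <+: τ) ∨
    (∃ σ, σ ++ [false] <+: ν ∧ (σ = τ ∨ σ ++ [true] <+: τ)) := by
  induction ν generalizing τ with
  | nil => exact Or.inl List.nil_prefix
  | cons b ν ih =>
    cases τ with
    | nil =>
      cases b with
      | true => exact Or.inr (Or.inl ⟨ν, rfl⟩)
      | false => exact Or.inr (Or.inr (Or.inr ⟨[], ⟨ν, rfl⟩, Or.inl rfl⟩))
    | cons c τ =>
      by_cases hbc : b = c
      · subst hbc
        rcases ih τ with h | h | ⟨σ, h1, h2⟩ | ⟨σ, h1, h2⟩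
        · exact Or.inl (List.cons_prefix_cons.2 ⟨rfl, h⟩)
        · exact Or.inr (Or.inl (List.cons_prefix_cons.2 ⟨rfl, h⟩))
        · exact Or.inr (Or.inr (Or.inl ⟨b :: σ, List.cons_prefix_cons.2 ⟨rfl, h1⟩,
            List.cons_prefix_cons.2 ⟨rfl, h2⟩⟩))
        · refine Or.inr (Or.inr (Or.inr ⟨b :: σ, List.cons_prefix_cons.2 ⟨rfl, h1⟩, ?_⟩))
          rcases h2 with rfl | h2
          · exact Or.inl rfl
          · exact Or.inr (List.cons_prefix_cons.2 ⟨rfl, h2⟩)
      · cases b with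
        | true =>
          cases c with
          | true => exact absurd rfl hbc
          | false => exact Or.inr (Or.inr (Or.inl ⟨[], ⟨ν, rfl⟩, ⟨τ, rfl⟩⟩))
        | false =>
          cases c with
          | true => exact Or.inr (Or.inr (Or.inr ⟨[], ⟨ν, rfl⟩, Or.inr ⟨τ, rfl⟩⟩))
          | false => exact absurd rfl hbc

/-! ### The records before and after a step -/

theorem CreateAt.inv {t : ℕ} (h : CreateAt t) {τ : List Bool} {r' : Rec}
    (hr : N (t + 1) τ = some r') :
    (τ = dl t ∧ r' = ⟨nn t, false, nn t + 6, [], [], 0, lows t⟩) ∨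
    (τ ≠ dl t ∧ ∃ r, N t τ = some r ∧
      ((τ ++ [true] <+: dl t ∧ r' = ⟨r.p, r.dn, nn t + 6, r.mu, r.pend, r.cnt, r.low⟩) ∨
        (¬ τ ++ [true] <+: dl t ∧ r' = r))) := by
  rw [h.N'] at hr
  by_cases h1 : τ = dl t
  · rw [if_pos h1] at hr
    exact Or.inl ⟨h1, (Option.some_inj.1 hr).symm⟩
  · rw [if_neg h1, Option.map_eq_some_iff] at hr
    obtain ⟨r, hr, he⟩ := hr
    refine Or.inr ⟨h1, r, hr, ?_⟩
    by_cases h2 : τ ++ [true] <+: dl t
    · rw [if_pos h2] at he
      exact Or.inl ⟨h2, he.symm⟩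
    · rw [if_neg h2] at he
      exact Or.inr ⟨h2, he.symm⟩

theorem ActAt.inv {t : ℕ} {r0 : Rec} (h : ActAt t r0) {τ : List Bool} {r' : Rec}
    (hr : N (t + 1) τ = some r') :
    ∃ r, N t τ = some r ∧
      ((τ = dl t ∧ r' = ⟨r.p, true, r.ck, [], r.pend, r.cnt, r.low⟩) ∨
        (τ ++ [true] <+: dl t ∧ r' = ⟨r.p, r.dn, nn (t + 1), r.mu,
          [cu t r.p 1, cu t r.p 2, cu t r.p 3, cu t r.p 4], r.cnt, r.low⟩) ∨
        (¬ dl t <+: τ ∧ ¬ τ ++ [true] <+: dl t ∧ r' = r)) := by
  rw [h.N'] at hr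
  by_cases h0 : dl t <+: τ ∧ τ ≠ dl t
  · rw [if_pos h0] at hr
    cases hr
  · rw [if_neg h0, Option.map_eq_some_iff] at hr
    obtain ⟨r, hr, he⟩ := hr
    refine ⟨r, hr, ?_⟩
    by_cases h1 : τ = dl t
    · rw [if_pos h1] at he
      exact Or.inl ⟨h1, he.symm⟩
    · rw [if_neg h1] at he
      by_cases h2 : τ ++ [true] <+: dl t
      · rw [if_pos h2] at he
        exact Or.inr (Or.inl ⟨h2, he.symm⟩)
      · rw [if_neg h2] at he
        exact Or.inr (Or.inr ⟨fun h3 => h0 ⟨h3, h1⟩, h2, he.symm⟩)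

theorem RecAt.inv {t : ℕ} {r0 : Rec} (h : RecAt t r0) {τ : List Bool} {r' : Rec}
    (hr : N (t + 1) τ = some r') :
    ¬ dl t ++ [false] <+: τ ∧ ∃ r, N t τ = some r ∧
      ((τ = dl t ∧ r = r0 ∧ r' = ⟨r0.p, r0.dn, r0.ck, nmu (run t) r0, [], r0.cnt + 1, r0.low⟩) ∨
        (τ ≠ dl t ∧ r' = r)) := by
  rw [h.N'] at hr
  by_cases h0 : dl t ++ [false] <+: τ
  · rw [if_pos h0] at hr
    cases hr
  · rw [if_neg h0, Option.map_eq_some_iff] at hr
    obtain ⟨r, hr, he⟩ := hr
    refine ⟨h0, r, hr, ?_⟩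
    by_cases h1 : τ = dl t
    · rw [if_pos h1] at he
      have h2 : r = r0 := by
        have := h.isr
        rw [← h1, hr] at this
        exact Option.some_inj.1 this
      subst h2
      exact Or.inl ⟨h1, rfl, he.symm⟩
    · rw [if_neg h1] at he
      exact Or.inr ⟨h1, he.symm⟩

theorem CreateAt.fwd {t : ℕ} (h : CreateAt t) {τ : List Bool} {r : Rec}
    (hr : N t τ = some r) : ∃ r', N (t + 1) τ = some r' := by
  rw [h.N', hr]
  by_cases h1 : τ = dl t
  · rw [if_pos h1]; exact ⟨_, rfl⟩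
  · rw [if_neg h1]; exact ⟨_, rfl⟩

theorem ActAt.fwd {t : ℕ} {r0 : Rec} (h : ActAt t r0) {τ : List Bool} {r : Rec}
    (hr : N t τ = some r) (hn : ¬ (dl t <+: τ ∧ τ ≠ dl t)) : ∃ r', N (t + 1) τ = some r' := by
  rw [h.N', hr, if_neg hn]
  exact ⟨_, rfl⟩

theorem RecAt.fwd {t : ℕ} {r0 : Rec} (h : RecAt t r0) {τ : List Bool} {r : Rec}
    (hr : N t τ = some r) (hn : ¬ dl t ++ [false] <+: τ) : ∃ r', N (t + 1) τ = some r' := by
  rw [h.N', hr, if_neg hn]
  exact ⟨_, rfl⟩

/-! ### The invariants -/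

/-- The numbers of the objects created together with a node. -/
structure Block (p : ℕ) : Prop where
  g0 : G p = fr p 1 p
  g1 : G (p + 1) = fr (p + 1) 4 p
  g2 : G (p + 2) = fr (p + 2) 2 p
  g3 : G (p + 3) = fr (p + 3) 3 p
  g4 : G (p + 4) = fr (p + 4) 0 0
  g5 : G (p + 5) = fr (p + 5) 0 0

structure InvA (t : ℕ) : Prop where
  clos : ∀ {τ r σ}, N t τ = some r → σ <+: τ → ∃ r', N t σ = some r'
  walk : ∀ {σ}, σ <+: dl t → σ ≠ dl t → ∃ r, N t σ = some r
  right : ∀ {τ r σ}, N t τ = some r → σ ++ [true] <+: dl t → σ ++ [false] <+: τ → False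
  l1 : ∀ {τ r τ' r'}, N t τ = some r → N t τ' = some r' → τ ++ [true] <+: τ' →
    r.low ++ [r.p] <+: r'.low
  l2 : ∀ {τ' r' q}, N t τ' = some r' → q ∈ r'.low →
    ∃ τ r, N t τ = some r ∧ τ ++ [true] <+: τ' ∧ r.p = q
  w1 : ∀ {τ r}, N t τ = some r → τ ++ [true] <+: dl t → r.low ++ [r.p] <+: lows t
  w2 : ∀ {q}, q ∈ lows t → ∃ τ r, N t τ = some r ∧ τ ++ [true] <+: dl t ∧ r.p = q
  pd : ∀ {τ r τ' r'}, N t τ = some r → N t τ' = some r' → r.p = r'.p → τ = τ'
  ck1 : ∀ {τ r}, N t τ = some r → r.p + 6 ≤ r.ck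
  ck2 : ∀ {τ r}, N t τ = some r → r.ck ≤ nn t
  nd : ∀ {τ r}, N t τ = some r → r.low.Nodup
  wnd : (lows t).Nodup
  j1 : ∀ {τ r τ' r'}, N t τ = some r → N t τ' = some r' → τ ++ [false] <+: τ' → r.ck ≤ r'.p
  j2 : ∀ {τ r τ' r'}, N t τ = some r → N t τ' = some r' → τ ++ [true] <+: τ' → r'.ck ≤ r.ck
  blk : ∀ {τ r}, N t τ = some r → Block r.p

theorem invA_zero : InvA 0 := by
  have h0 : ∀ τ, N 0 τ = none := fun τ => rfl
  have h1 : dl 0 = [] := rfl
  have h2 : lows 0 = [] := rfl
  constructor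
  all_goals intros
  all_goals simp_all

theorem invA_create {t : ℕ} (ih : InvA t) (h : CreateAt t) : InvA (t + 1) := by
  have hdl := h.dl'
  have hnil : ∀ σ b, ¬ σ ++ [b] <+: dl (t + 1) := by
    intro σ b hσ
    rw [hdl] at hσ
    have := hσ.length_le
    simp at this
  have hN0 := h.nor
  -- the new record is not below another one in a way that matters
  constructor
  · intro τ r' σ hr hσ
    rcases h.inv hr with ⟨rfl, _⟩ | ⟨_, r, hr, _⟩
    · by_cases he : σ = dl t
      · subst he; exact ⟨_, hr⟩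
      · obtain ⟨r1, hr1⟩ := ih.walk hσ he
        exact h.fwd hr1
    · obtain ⟨r1, hr1⟩ := ih.clos hr hσ
      exact h.fwd hr1
  · intro σ h1 h2
    rw [hdl] at h1 h2
    exact absurd (List.prefix_nil.1 h1) h2
  · intro τ r σ _ h1 _
    exact hnil _ _ h1
  · intro τ r' τ' r'' hr hr' hτ
    rcases h.inv hr with ⟨rfl, rfl⟩ | ⟨_, r, hr, h3⟩
    · rcases h.inv hr' with ⟨rfl, rfl⟩ | ⟨_, r1, hr1, _⟩
      · exact absurd rfl (pfx_ne hτ)
      · obtain ⟨r2, hr2⟩ := ih.clos hr1 (pfx_of_snoc hτ)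
        rw [hN0] at hr2; cases hr2
    · have e1 : r'.low = r.low ∧ r'.p = r.p := by
        rcases h3 with ⟨_, rfl⟩ | ⟨_, rfl⟩ <;> exact ⟨rfl, rfl⟩
      rw [e1.1, e1.2]
      rcases h.inv hr' with ⟨rfl, rfl⟩ | ⟨_, r1, hr1, h4⟩
      · exact ih.w1 hr hτ
      · have e2 : r''.low = r1.low := by
          rcases h4 with ⟨_, rfl⟩ | ⟨_, rfl⟩ <;> rfl
        rw [e2]
        exact ih.l1 hr hr1 hτ
  · intro τ' r' q hr hq
    have key : ∃ τ r, N t τ = some r ∧ τ ++ [true] <+: τ' ∧ r.p = q := by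
      rcases h.inv hr with ⟨rfl, rfl⟩ | ⟨_, r, hr, h3⟩
      · exact ih.w2 hq
      · have e1 : r'.low = r.low := by
          rcases h3 with ⟨_, rfl⟩ | ⟨_, rfl⟩ <;> rfl
        rw [e1] at hq
        exact ih.l2 hr hq
    obtain ⟨τ, r, h1, h2, h3⟩ := key
    obtain ⟨r2, hr2⟩ := h.fwd h1
    refine ⟨τ, r2, hr2, h2, ?_⟩
    rcases h.inv hr2 with ⟨rfl, _⟩ | ⟨_, r3, hr3, h4⟩
    · rw [hN0] at h1; cases h1
    · rw [h1] at hr3
      cases hr3
      rcases h4 with ⟨_, rfl⟩ | ⟨_, rfl⟩ <;> exact h3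
  · intro τ r _ h1
    exact absurd h1 (hnil _ _)
  · intro q hq
    rw [h.lows'] at hq
    cases hq
  · intro τ r' τ' r'' hr hr' hp
    rcases h.inv hr with ⟨rfl, rfl⟩ | ⟨_, r, hr, h3⟩
    · rcases h.inv hr' with ⟨rfl, rfl⟩ | ⟨_, r1, hr1, h4⟩
      · rfl
      · have h5 := ih.ck1 hr1
        have h6 := ih.ck2 hr1
        have e2 : r''.p = r1.p := by
          rcases h4 with ⟨_, rfl⟩ | ⟨_, rfl⟩ <;> rfl
        simp only [e2] at hp
        omega
    · have e1 : r'.p = r.p := by
        rcases h3 with ⟨_, rfl⟩ | ⟨_, rfl⟩ <;> rfl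
      rcases h.inv hr' with ⟨rfl, rfl⟩ | ⟨_, r1, hr1, h4⟩
      · have h5 := ih.ck1 hr
        have h6 := ih.ck2 hr
        simp only [e1] at hp
        omega
      · have e2 : r''.p = r1.p := by
          rcases h4 with ⟨_, rfl⟩ | ⟨_, rfl⟩ <;> rfl
        rw [e1, e2] at hp
        exact ih.pd hr hr1 hp
  · intro τ r' hr
    rcases h.inv hr with ⟨rfl, rfl⟩ | ⟨_, r, hr, h3⟩
    · exact le_rfl
    · have h5 := ih.ck1 hr
      have h6 := ih.ck2 hr
      rcases h3 with ⟨_, rfl⟩ | ⟨_, rfl⟩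
      · show r.p + 6 ≤ nn t + 6
        omega
      · exact h5
  · intro τ r' hr
    rw [h.nn']
    rcases h.inv hr with ⟨rfl, rfl⟩ | ⟨_, r, hr, h3⟩
    · exact le_rfl
    · have h6 := ih.ck2 hr
      rcases h3 with ⟨_, rfl⟩ | ⟨_, rfl⟩
      · exact le_rfl
      · omega
  · intro τ r' hr
    rcases h.inv hr with ⟨rfl, rfl⟩ | ⟨_, r, hr, h3⟩
    · exact ih.wnd
    · have e1 : r'.low = r.low := by
        rcases h3 with ⟨_, rfl⟩ | ⟨_, rfl⟩ <;> rfl
      rw [e1]; exact ih.nd hr
  · rw [h.lows']; exact List.nodup_nil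
  · intro τ r' τ' r'' hr hr' hτ
    rcases h.inv hr with ⟨rfl, rfl⟩ | ⟨_, r, hr, h3⟩
    · rcases h.inv hr' with ⟨rfl, rfl⟩ | ⟨_, r1, hr1, _⟩
      · exact absurd rfl (pfx_ne hτ)
      · obtain ⟨r2, hr2⟩ := ih.clos hr1 (pfx_of_snoc hτ)
        rw [hN0] at hr2; cases hr2
    · rcases h.inv hr' with ⟨rfl, rfl⟩ | ⟨_, r1, hr1, h4⟩
      · rcases h3 with ⟨h5, rfl⟩ | ⟨_, rfl⟩
        · exact absurd hτ (fun h => pfx_absurd h5 h)
        · exact ih.ck2 hr
      · have e2 : r''.p = r1.p := by
          rcases h4 with ⟨_, rfl⟩ | ⟨_, rfl⟩ <;> rfl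
        rw [e2]
        rcases h3 with ⟨h5, rfl⟩ | ⟨_, rfl⟩
        · exact absurd hτ (fun h => ih.right hr1 h5 h)
        · exact ih.j1 hr hr1 hτ
  · intro τ r' τ' r'' hr hr' hτ
    rcases h.inv hr with ⟨rfl, rfl⟩ | ⟨_, r, hr, h3⟩
    · rcases h.inv hr' with ⟨rfl, rfl⟩ | ⟨_, r1, hr1, _⟩
      · exact absurd rfl (pfx_ne hτ)
      · obtain ⟨r2, hr2⟩ := ih.clos hr1 (pfx_of_snoc hτ)
        rw [hN0] at hr2; cases hr2
    · rcases h.inv hr' with ⟨rfl, rfl⟩ | ⟨_, r1, hr1, h4⟩
      · rcases h3 with ⟨h5, rfl⟩ | ⟨h5, rfl⟩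
        · exact le_rfl
        · exact absurd hτ h5
      · rcases h4 with ⟨h6, rfl⟩ | ⟨_, rfl⟩
        · rcases h3 with ⟨h5, rfl⟩ | ⟨h5, rfl⟩
          · exact le_rfl
          · exact absurd (hτ.trans (pfx_of_snoc h6)) h5
        · have h7 := ih.j2 hr hr1 hτ
          have h8 := ih.ck2 hr
          rcases h3 with ⟨h5, rfl⟩ | ⟨h5, rfl⟩
          · show r''.ck ≤ nn t + 6
            omega
          · exact h7
  · intro τ r' hr
    rcases h.inv hr with ⟨rfl, rfl⟩ | ⟨_, r, hr, h3⟩
    · exact ⟨h.g0, h.g1, h.g2, h.g3, h.g4, h.g5⟩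
    · have e1 : r'.p = r.p := by
        rcases h3 with ⟨_, rfl⟩ | ⟨_, rfl⟩ <;> rfl
      rw [e1]; exact ih.blk hr

theorem invA_act {t : ℕ} {r0 : Rec} (ih : InvA t) (h : ActAt t r0) : InvA (t + 1) := by
  have hdl := h.dl'
  have hnil : ∀ σ b, ¬ σ ++ [b] <+: dl (t + 1) := by
    intro σ b hσ
    rw [hdl] at hσ
    have := hσ.length_le
    simp at this
  have hnn : nn t ≤ nn (t + 1) := nn_mono (by omega)
  have inv' : ∀ {τ r'}, N (t + 1) τ = some r' → ¬ (dl t <+: τ ∧ τ ≠ dl t) ∧
      ∃ r, N t τ = some r ∧ r'.p = r.p ∧ r'.low = r.low ∧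
        (r'.ck = r.ck ∨ (τ ++ [true] <+: dl t ∧ r'.ck = nn (t + 1))) ∧
        (τ ++ [true] <+: dl t → r'.ck = nn (t + 1)) := by
    intro τ r' hr
    refine ⟨fun hc => ?_, ?_⟩
    · have := h.N' τ
      rw [if_pos hc, hr] at this
      cases this
    · obtain ⟨r, hr, h3⟩ := h.inv hr
      refine ⟨r, hr, ?_⟩
      rcases h3 with ⟨rfl, rfl⟩ | ⟨h4, rfl⟩ | ⟨_, h5, rfl⟩
      · exact ⟨rfl, rfl, Or.inl rfl, fun h6 => absurd rfl (pfx_ne h6)⟩
      · exact ⟨rfl, rfl, Or.inr ⟨h4, rfl⟩, fun _ => rfl⟩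
      · exact ⟨rfl, rfl, Or.inl rfl, fun h6 => absurd h6 h5⟩
  constructor
  · intro τ r' σ hr hσ
    obtain ⟨h1, r, hr, -⟩ := inv' hr
    obtain ⟨r1, hr1⟩ := ih.clos hr hσ
    refine h.fwd hr1 fun h2 => h1 ⟨h2.1.trans hσ, ?_⟩
    rintro rfl
    exact h2.2 (List.IsPrefix.eq_of_length hσ (le_antisymm hσ.length_le h2.1.length_le))
  · intro σ h1 h2
    rw [hdl] at h1 h2
    exact absurd (List.prefix_nil.1 h1) h2
  · intro τ r σ _ h1 _
    exact hnil _ _ h1
  · intro τ r' τ' r'' hr hr' hτ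
    obtain ⟨-, r, hr, e1, e2, -⟩ := inv' hr
    obtain ⟨-, r1, hr1, e3, e4, -⟩ := inv' hr'
    rw [e1, e2, e4]
    exact ih.l1 hr hr1 hτ
  · intro τ' r' q hr hq
    obtain ⟨hx, r, hr, e1, e2, -⟩ := inv' hr
    rw [e2] at hq
    obtain ⟨τ, r1, h1, h2, h3⟩ := ih.l2 hr hq
    obtain ⟨r2, hr2⟩ := h.fwd h1 (fun hc => hx ⟨hc.1.trans (pfx_of_snoc h2), by
      rintro rfl
      have e1 := hc.1.length_le
      have e2 := h2.length_le
      simp at e2
      omega⟩)
    refine ⟨τ, r2, hr2, h2, ?_⟩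
    obtain ⟨-, r3, hr3, e5, -⟩ := inv' hr2
    rw [h1] at hr3
    cases hr3
    rw [e5]; exact h3
  · intro τ r _ h1
    exact absurd h1 (hnil _ _)
  · intro q hq
    rw [h.lows'] at hq
    cases hq
  · intro τ r' τ' r'' hr hr' hp
    obtain ⟨-, r, hr, e1, -⟩ := inv' hr
    obtain ⟨-, r1, hr1, e3, -⟩ := inv' hr'
    rw [e1, e3] at hp
    exact ih.pd hr hr1 hp
  · intro τ r' hr
    obtain ⟨-, r, hr, e1, -, e3, -⟩ := inv' hr
    have h5 := ih.ck1 hr
    have h6 := ih.ck2 hr
    rw [e1]
    rcases e3 with e3 | ⟨_, e3⟩ <;> omega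
  · intro τ r' hr
    obtain ⟨-, r, hr, e1, -, e3, -⟩ := inv' hr
    have h6 := ih.ck2 hr
    rcases e3 with e3 | ⟨_, e3⟩ <;> omega
  · intro τ r' hr
    obtain ⟨-, r, hr, e1, e2, -⟩ := inv' hr
    rw [e2]; exact ih.nd hr
  · rw [h.lows']; exact List.nodup_nil
  · intro τ r' τ' r'' hr hr' hτ
    obtain ⟨-, r, hr, e1, -, e3, -⟩ := inv' hr
    obtain ⟨-, r1, hr1, e4, -⟩ := inv' hr'
    rw [e4]
    rcases e3 with e3 | ⟨h5, e3⟩
    · rw [e3]; exact ih.j1 hr hr1 hτ
    · exact absurd hτ (fun h => ih.right hr1 h5 h)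
  · intro τ r' τ' r'' hr hr' hτ
    obtain ⟨-, r, hr, e1, -, e3, e3'⟩ := inv' hr
    obtain ⟨-, r1, hr1, e4, -, e5, -⟩ := inv' hr'
    have h7 := ih.j2 hr hr1 hτ
    have h8 := ih.ck2 hr
    rcases e5 with e5 | ⟨h5, e5⟩
    · rcases e3 with e3 | ⟨_, e3⟩ <;> omega
    · have := e3' (hτ.trans (pfx_of_snoc h5))
      omega
  · intro τ r' hr
    obtain ⟨-, r, hr, e1, -⟩ := inv' hr
    rw [e1]; exact ih.blk hr

theorem invA_rec {t : ℕ} {r0 : Rec} (ih : InvA t) (h : RecAt t r0) : InvA (t + 1) := by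
  have hdl := h.dl'
  have inv' : ∀ {τ r'}, N (t + 1) τ = some r' → ¬ (dl t ++ [false] <+: τ) ∧
      ∃ r, N t τ = some r ∧ r'.p = r.p ∧ r'.low = r.low ∧ r'.ck = r.ck := by
    intro τ r' hr
    obtain ⟨h1, r, hr, h3⟩ := h.inv hr
    refine ⟨h1, r, hr, ?_⟩
    rcases h3 with ⟨rfl, rfl, rfl⟩ | ⟨_, rfl⟩
    · exact ⟨rfl, rfl, rfl⟩
    · exact ⟨rfl, rfl, rfl⟩
  have fwd' : ∀ {τ r}, N t τ = some r → ¬ (dl t ++ [false] <+: τ) →
      ∃ r', N (t + 1) τ = some r' ∧ r'.p = r.p ∧ r'.low = r.low ∧ r'.ck = r.ck := by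
    intro τ r hr hn
    obtain ⟨r', hr'⟩ := h.fwd hr hn
    obtain ⟨-, r1, hr1, h2⟩ := inv' hr'
    rw [hr] at hr1
    cases hr1
    exact ⟨r', hr', h2⟩
  have hself : ¬ (dl t ++ [false] <+: dl t) := fun h => pfx_ne h rfl
  constructor
  · intro τ r' σ hr hσ
    obtain ⟨h1, r, hr, -⟩ := inv' hr
    obtain ⟨r1, hr1⟩ := ih.clos hr hσ
    obtain ⟨r2, h2, -⟩ := fwd' hr1 (fun h2 => h1 (h2.trans hσ))
    exact ⟨r2, h2⟩
  · intro σ h1 h2
    rw [hdl] at h1 h2
    rcases List.prefix_concat_iff.1 h1 with h3 | h3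
    · exact absurd h3 h2
    · by_cases he : σ = dl t
      · subst he
        obtain ⟨r2, h2, -⟩ := fwd' h.isr hself
        exact ⟨r2, h2⟩
      · obtain ⟨r1, hr1⟩ := ih.walk h3 he
        obtain ⟨r2, h2, -⟩ := fwd' hr1 (fun h4 => hself (h4.trans h3))
        exact ⟨r2, h2⟩
  · intro τ r' σ hr h1 h2
    rw [hdl] at h1
    obtain ⟨h3, r, hr, -⟩ := inv' hr
    rcases pfx_last h1 with ⟨rfl, _⟩ | h4
    · exact h3 h2
    · exact ih.right hr h4 h2
  · intro τ r' τ' r'' hr hr' hτ
    obtain ⟨-, r, hr, e1, e2, -⟩ := inv' hr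
    obtain ⟨-, r1, hr1, e3, e4, -⟩ := inv' hr'
    rw [e1, e2, e4]
    exact ih.l1 hr hr1 hτ
  · intro τ' r' q hr hq
    obtain ⟨hx, r, hr, e1, e2, -⟩ := inv' hr
    rw [e2] at hq
    obtain ⟨τ, r1, h1, h2, h3⟩ := ih.l2 hr hq
    obtain ⟨r2, hr2, e3, -⟩ := fwd' h1 (fun hc => hx (hc.trans (pfx_of_snoc h2)))
    exact ⟨τ, r2, hr2, h2, e3.trans h3⟩
  · intro τ r' hr h1
    rw [hdl] at h1
    obtain ⟨h3, r, hr, e1, e2, -⟩ := inv' hr
    rw [e1, e2, h.lows']
    rcases pfx_last h1 with ⟨rfl, _⟩ | h4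
    · have := h.isr
      rw [hr] at this
      cases this
      exact List.prefix_rfl
    · exact (ih.l1 hr h.isr h4).trans (List.prefix_append _ _)
  · intro q hq
    rw [h.lows', List.mem_append, List.mem_singleton] at hq
    rw [hdl]
    rcases hq with hq | rfl
    · obtain ⟨τ, r1, h1, h2, h3⟩ := ih.l2 h.isr hq
      obtain ⟨r2, hr2, e3, -⟩ := fwd' h1 (fun hc => hself (hc.trans (pfx_of_snoc h2)))
      exact ⟨τ, r2, hr2, h2.trans (List.prefix_append _ _), e3.trans h3⟩
    · obtain ⟨r2, hr2, e3, -⟩ := fwd' h.isr hself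
      exact ⟨dl t, r2, hr2, List.prefix_rfl, e3⟩
  · intro τ r' τ' r'' hr hr' hp
    obtain ⟨-, r, hr, e1, -⟩ := inv' hr
    obtain ⟨-, r1, hr1, e3, -⟩ := inv' hr'
    rw [e1, e3] at hp
    exact ih.pd hr hr1 hp
  · intro τ r' hr
    obtain ⟨-, r, hr, e1, -, e3⟩ := inv' hr
    rw [e1, e3]; exact ih.ck1 hr
  · intro τ r' hr
    obtain ⟨-, r, hr, e1, -, e3⟩ := inv' hr
    rw [e3, h.nn']; exact ih.ck2 hr
  · intro τ r' hr
    obtain ⟨-, r, hr, e1, e2, -⟩ := inv' hr
    rw [e2]; exact ih.nd hr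
  · rw [h.lows']
    refine List.nodup_append.2 ⟨ih.nd h.isr, List.nodup_singleton _, ?_⟩
    intro a ha b hb hab
    rw [List.mem_singleton] at hb
    subst hb hab
    obtain ⟨τ, r1, h1, h2, h3⟩ := ih.l2 h.isr ha
    have := ih.pd h1 h.isr h3
    exact pfx_ne h2 this
  · intro τ r' τ' r'' hr hr' hτ
    obtain ⟨-, r, hr, e1, -, e3⟩ := inv' hr
    obtain ⟨-, r1, hr1, e4, -⟩ := inv' hr'
    rw [e4, e3]; exact ih.j1 hr hr1 hτ
  · intro τ r' τ' r'' hr hr' hτ
    obtain ⟨-, r, hr, e1, -, e3⟩ := inv' hr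
    obtain ⟨-, r1, hr1, e4, -, e5⟩ := inv' hr'
    rw [e3, e5]; exact ih.j2 hr hr1 hτ
  · intro τ r' hr
    obtain ⟨-, r, hr, e1, -⟩ := inv' hr
    rw [e1]; exact ih.blk hr

theorem invA_wait {t : ℕ} {r0 : Rec} (ih : InvA t) (h : WaitAt t r0) : InvA (t + 1) := by
  have hdl := h.dl'
  have hN : ∀ τ, N (t + 1) τ = N t τ := h.N'
  have hself : ¬ (dl t ++ [false] <+: dl t) := fun h => pfx_ne h rfl
  constructor
  · intro τ r' σ hr hσ
    rw [hN] at hr ⊢
    exact ih.clos hr hσ
  · intro σ h1 h2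
    rw [hN]
    rw [hdl] at h1 h2
    rcases List.prefix_concat_iff.1 h1 with h3 | h3
    · exact absurd h3 h2
    · by_cases he : σ = dl t
      · subst he; exact ⟨_, h.isr⟩
      · exact ih.walk h3 he
  · intro τ r' σ hr h1 h2
    rw [hN] at hr
    rw [hdl] at h1
    rcases pfx_last h1 with ⟨_, h3⟩ | h4
    · cases h3
    · exact ih.right hr h4 h2
  · intro τ r' τ' r'' hr hr' hτ
    rw [hN] at hr hr'
    exact ih.l1 hr hr' hτ
  · intro τ' r' q hr hq
    rw [hN] at hr
    obtain ⟨τ, r1, h1, h2, h3⟩ := ih.l2 hr hq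
    exact ⟨τ, r1, by rw [hN]; exact h1, h2, h3⟩
  · intro τ r' hr h1
    rw [hN] at hr
    rw [hdl] at h1
    rw [h.lows']
    rcases pfx_last h1 with ⟨_, h3⟩ | h4
    · cases h3
    · exact ih.l1 hr h.isr h4
  · intro q hq
    rw [h.lows'] at hq
    rw [hdl]
    obtain ⟨τ, r1, h1, h2, h3⟩ := ih.l2 h.isr hq
    exact ⟨τ, r1, by rw [hN]; exact h1, h2.trans (List.prefix_append _ _), h3⟩
  · intro τ r' τ' r'' hr hr' hp
    rw [hN] at hr hr'
    exact ih.pd hr hr' hp
  · intro τ r' hr
    rw [hN] at hr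
    exact ih.ck1 hr
  · intro τ r' hr
    rw [hN] at hr
    rw [h.nn']; exact ih.ck2 hr
  · intro τ r' hr
    rw [hN] at hr
    exact ih.nd hr
  · rw [h.lows']; exact ih.nd h.isr
  · intro τ r' τ' r'' hr hr' hτ
    rw [hN] at hr hr'
    exact ih.j1 hr hr' hτ
  · intro τ r' τ' r'' hr hr' hτ
    rw [hN] at hr hr'
    exact ih.j2 hr hr' hτ
  · intro τ r' hr
    rw [hN] at hr
    exact ih.blk hr

theorem invA (t : ℕ) : InvA t := by
  induction t with
  | zero => exact invA_zero
  | succ t ih =>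
    rcases cases_at t with h | ⟨r, h⟩ | ⟨r, h⟩ | ⟨r, h⟩
    · exact invA_create ih h
    · exact invA_act ih h
    · exact invA_rec ih h
    · exact invA_wait ih h

end Pool.Agent.Dim
end

section

namespace Pool.Agent.Dim

/-- The list `f q₁ 1, f q₁ 2, f q₂ 1, f q₂ 2, ..., Y, Y + 1, ..., f q₂ 3, f q₂ 4, f q₁ 3, f q₁ 4`. -/
def midf (f : ℕ → ℕ → ℕ) (low : List ℕ) (Y : ℕ) : List ℕ :=
  low.foldr (fun q acc => f q 1 :: f q 2 :: (acc ++ [f q 3, f q 4])) [Y, Y + 1]

variable {f : ℕ → ℕ → ℕ} {low : List ℕ} {Y : ℕ}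

theorem midf_nil : midf f [] Y = [Y, Y + 1] := rfl

theorem midf_cons (q : ℕ) (low : List ℕ) :
    midf f (q :: low) Y = f q 1 :: f q 2 :: (midf f low Y ++ [f q 3, f q 4]) := rfl

theorem midf_length : (midf f low Y).length = 4 * low.length + 2 := by
  induction low with
  | nil => rfl
  | cons q low ih =>
    rw [midf_cons]
    simp only [List.length_cons, List.length_append, List.length_nil, ih]
    omega

theorem mem_midf {o : ℕ} : o ∈ midf f low Y ↔
    o = Y ∨ o = Y + 1 ∨ ∃ q ∈ low, ∃ k, 1 ≤ k ∧ k ≤ 4 ∧ o = f q k := by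
  induction low with
  | nil => simp [midf_nil]
  | cons q low ih =>
    rw [midf_cons]
    simp only [List.mem_cons, List.mem_append, ih, List.not_mem_nil, or_false]
    constructor
    · rintro (h | h | (h | h | ⟨q', hq', k, hk, hk', h⟩) | h | h)
      · exact Or.inr (Or.inr ⟨q, Or.inl rfl, 1, le_rfl, by omega, h⟩)
      · exact Or.inr (Or.inr ⟨q, Or.inl rfl, 2, by omega, by omega, h⟩)
      · exact Or.inl h
      · exact Or.inr (Or.inl h)
      · exact Or.inr (Or.inr ⟨q', Or.inr hq', k, hk, hk', h⟩)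
      · exact Or.inr (Or.inr ⟨q, Or.inl rfl, 3, by omega, by omega, h⟩)
      · exact Or.inr (Or.inr ⟨q, Or.inl rfl, 4, by omega, by omega, h⟩)
    · rintro (h | h | ⟨q', hq', k, hk, hk', h⟩)
      · exact Or.inr (Or.inr (Or.inl (Or.inl h)))
      · exact Or.inr (Or.inr (Or.inl (Or.inr (Or.inl h))))
      · rcases hq' with rfl | hq'
        · have hk4 : k = 1 ∨ k = 2 ∨ k = 3 ∨ k = 4 := by omega
          rcases hk4 with rfl | rfl | rfl | rfl
          · exact Or.inl h
          · exact Or.inr (Or.inl h)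
          · exact Or.inr (Or.inr (Or.inr (Or.inl h)))
          · exact Or.inr (Or.inr (Or.inr (Or.inr h)))
        · exact Or.inr (Or.inr (Or.inl (Or.inr (Or.inr ⟨q', hq', k, hk, hk', h⟩))))

theorem midf_nodup (hlow : low.Nodup)
    (hf : ∀ q ∈ low, ∀ q' ∈ low, ∀ k k', 1 ≤ k → k ≤ 4 → 1 ≤ k' → k' ≤ 4 →
      f q k = f q' k' → q = q' ∧ k = k')
    (hY : ∀ q ∈ low, ∀ k, 1 ≤ k → k ≤ 4 → f q k ≠ Y ∧ f q k ≠ Y + 1) :
    (midf f low Y).Nodup := by
  induction low with
  | nil => simp [midf_nil]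
  | cons q low ih =>
    have hq : q ∉ low := (List.nodup_cons.mp hlow).1
    have ih' := ih (List.nodup_cons.mp hlow).2
      (fun a ha b hb => hf a (List.mem_cons_of_mem _ ha) b (List.mem_cons_of_mem _ hb))
      (fun a ha => hY a (List.mem_cons_of_mem _ ha))
    have hnot : ∀ k, 1 ≤ k → k ≤ 4 → f q k ∉ midf f low Y := by
      intro k hk hk' hmem
      rw [mem_midf] at hmem
      have hYq := hY q List.mem_cons_self k hk hk'
      rcases hmem with h | h | ⟨q', hq', k', h1, h2, h⟩
      · exact hYq.1 h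
      · exact hYq.2 h
      · have := hf q List.mem_cons_self q' (List.mem_cons_of_mem _ hq') k k' hk hk' h1 h2 h
        exact hq (this.1 ▸ hq')
    have hne : ∀ k k', 1 ≤ k → k ≤ 4 → 1 ≤ k' → k' ≤ 4 → k ≠ k' → f q k ≠ f q k' := by
      intro k k' h1 h2 h3 h4 hkk h
      exact hkk (hf q List.mem_cons_self q List.mem_cons_self k k' h1 h2 h3 h4 h).2
    rw [midf_cons, List.nodup_cons, List.nodup_cons, List.nodup_append]
    refine ⟨?_, ?_, ih', ?_, ?_⟩
    · simp only [List.mem_cons, List.mem_append, List.not_mem_nil, or_false, not_or]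
      exact ⟨hne 1 2 (by omega) (by omega) (by omega) (by omega) (by omega),
        hnot 1 (by omega) (by omega),
        hne 1 3 (by omega) (by omega) (by omega) (by omega) (by omega),
        hne 1 4 (by omega) (by omega) (by omega) (by omega) (by omega)⟩
    · simp only [List.mem_cons, List.mem_append, List.not_mem_nil, or_false, not_or]
      exact ⟨hnot 2 (by omega) (by omega),
        hne 2 3 (by omega) (by omega) (by omega) (by omega) (by omega),
        hne 2 4 (by omega) (by omega) (by omega) (by omega) (by omega)⟩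
    · simp only [List.nodup_cons, List.mem_cons, List.not_mem_nil, or_false, not_false_eq_true,
        List.nodup_nil, and_true]
      exact hne 3 4 (by omega) (by omega) (by omega) (by omega) (by omega)
    · intro a ha b hb hab
      simp only [List.mem_cons, List.not_mem_nil, or_false] at hb
      subst hab
      rcases hb with rfl | rfl
      · exact hnot 3 (by omega) (by omega) ha
      · exact hnot 4 (by omega) (by omega) ha

theorem midf_head {K T : ℕ → ℕ}
    (hK : ∀ q ∈ low, ∀ k, 1 ≤ k → k ≤ 4 → K (f q k) = k ∧ T (f q k) = q)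
    (hKY : K Y = 0) {o : ℕ} (h : (midf f low Y)[0]? = some o) : K o = 0 ∨ K o = 1 := by
  cases low with
  | nil =>
    simp only [midf_nil, List.getElem?_cons_zero, Option.some.injEq] at h
    subst h; exact Or.inl hKY
  | cons q low =>
    simp only [midf_cons, List.getElem?_cons_zero, Option.some.injEq] at h
    subst h; exact Or.inr (hK q List.mem_cons_self 1 (by omega) (by omega)).1

theorem midf_last {K T : ℕ → ℕ}
    (hK : ∀ q ∈ low, ∀ k, 1 ≤ k → k ≤ 4 → K (f q k) = k ∧ T (f q k) = q)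
    (hKZ : K (Y + 1) = 0) {i o : ℕ} (hi : i + 1 = (midf f low Y).length)
    (h : (midf f low Y)[i]? = some o) : K o = 0 ∨ K o = 4 := by
  cases low with
  | nil =>
    have : i = 1 := by rw [midf_length] at hi; simpa using hi
    subst this
    simp only [midf_nil, List.getElem?_cons_succ, List.getElem?_cons_zero,
      Option.some.injEq] at h
    subst h; exact Or.inl hKZ
  | cons q low =>
    have hlen : i = (midf f low Y).length + 1 + 1 + 1 := by
      rw [midf_length] at hi ⊢
      simp only [List.length_cons] at hi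
      omega
    subst hlen
    rw [midf_cons, List.getElem?_cons_succ, List.getElem?_cons_succ,
      List.getElem?_append_right (by omega)] at h
    have : (midf f low Y).length + 1 - (midf f low Y).length = 1 := by omega
    rw [this] at h
    simp only [List.getElem?_cons_succ, List.getElem?_cons_zero, Option.some.injEq] at h
    subst h; exact Or.inr (hK q List.mem_cons_self 4 (by omega) (by omega)).1

theorem midf_consec {K T : ℕ → ℕ}
    (hK : ∀ q ∈ low, ∀ k, 1 ≤ k → k ≤ 4 → K (f q k) = k ∧ T (f q k) = q)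
    (hKY : K Y = 0) (hKZ : K (Y + 1) = 0) {i o o' : ℕ}
    (hi : (midf f low Y)[i]? = some o) (ho' : (midf f low Y)[i + 1]? = some o') :
    (K o = 1 ↔ K o' = 2) ∧ (K o = 3 ↔ K o' = 4) ∧ (K o = 1 ∨ K o = 3 → T o = T o') := by
  induction low generalizing i o o' with
  | nil =>
    rcases i with _ | i
    · simp only [midf_nil, List.getElem?_cons_succ, List.getElem?_cons_zero,
        Option.some.injEq] at hi ho'
      subst hi; subst ho'
      rw [hKY, hKZ]; omega
    · simp [midf_nil] at ho'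
  | cons q low ih =>
    have hK' : ∀ q ∈ low, ∀ k, 1 ≤ k → k ≤ 4 → K (f q k) = k ∧ T (f q k) = q :=
      fun a ha => hK a (List.mem_cons_of_mem _ ha)
    have hq := hK q List.mem_cons_self
    have hlen : 2 ≤ (midf f low Y).length := by rw [midf_length]; omega
    rw [midf_cons] at hi ho'
    rcases i with _ | i
    · simp only [List.getElem?_cons_succ, List.getElem?_cons_zero,
        Option.some.injEq] at hi ho'
      subst hi; subst ho'
      obtain ⟨h1, h2⟩ := hq 1 (by omega) (by omega)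
      obtain ⟨h3, h4⟩ := hq 2 (by omega) (by omega)
      rw [h1, h2, h3, h4]; omega
    rcases i with _ | i
    · simp only [List.getElem?_cons_succ, List.getElem?_cons_zero,
        Option.some.injEq] at hi ho'
      subst hi
      rw [List.getElem?_append_left (by omega)] at ho'
      have h5 := midf_head hK' hKY ho'
      obtain ⟨h3, h4⟩ := hq 2 (by omega) (by omega)
      rw [h3]; omega
    · simp only [List.getElem?_cons_succ] at hi ho'
      rcases Nat.lt_trichotomy (i + 1) (midf f low Y).length with h | h | h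
      · rw [List.getElem?_append_left (by omega)] at hi ho'
        exact ih hK' hi ho'
      · rw [List.getElem?_append_left (by omega)] at hi
        rw [List.getElem?_append_right (by omega), h, Nat.sub_self] at ho'
        simp only [List.getElem?_cons_zero, Option.some.injEq] at ho'
        subst ho'
        have h5 := midf_last hK' hKZ h hi
        obtain ⟨h3, h4⟩ := hq 3 (by omega) (by omega)
        rw [h3]; omega
      · rw [List.getElem?_append_right (by omega)] at hi ho'
        have h6 : i = (midf f low Y).length ∨ (midf f low Y).length < i := by omega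
        rcases h6 with h6 | h6
        · have h7 : i - (midf f low Y).length = 0 := by omega
          have h8 : i + 1 - (midf f low Y).length = 1 := by omega
          rw [h7] at hi; rw [h8] at ho'
          simp only [List.getElem?_cons_succ, List.getElem?_cons_zero,
            Option.some.injEq] at hi ho'
          subst hi; subst ho'
          obtain ⟨h1, h2⟩ := hq 3 (by omega) (by omega)
          obtain ⟨h3, h4⟩ := hq 4 (by omega) (by omega)
          rw [h1, h2, h3, h4]; omega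
        · rw [List.getElem?_eq_none (by simp only [List.length_cons, List.length_nil]; omega)] at ho'
          exact absurd ho' (by simp)

/-- Cyclically consecutive elements: a kind 1 is followed by the kind 2 of the same tag, and a kind 3
by the kind 4 of the same tag. -/
theorem midf_good {K T : ℕ → ℕ}
    (hK : ∀ q ∈ low, ∀ k, 1 ≤ k → k ≤ 4 → K (f q k) = k ∧ T (f q k) = q)
    (hKY : K Y = 0) (hKZ : K (Y + 1) = 0) {i j o o' : ℕ}
    (hi : (midf f low Y)[i]? = some o) (hj : j = (i + 1) % (midf f low Y).length)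
    (ho' : (midf f low Y)[j]? = some o') :
    (K o = 1 ↔ K o' = 2) ∧ (K o = 3 ↔ K o' = 4) ∧ (K o = 1 ∨ K o = 3 → T o = T o') := by
  have hlt : i < (midf f low Y).length := by
    by_contra hcon
    rw [List.getElem?_eq_none (by omega)] at hi
    exact absurd hi (by simp)
  rcases Nat.lt_or_ge (i + 1) (midf f low Y).length with h | h
  · rw [Nat.mod_eq_of_lt h] at hj
    subst hj
    exact midf_consec hK hKY hKZ hi ho'
  · have h' : i + 1 = (midf f low Y).length := by omega
    rw [h', Nat.mod_self] at hj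
    subst hj
    have h1 := midf_last hK hKZ h' hi
    have h2 := midf_head hK hKY ho'
    omega

theorem midf_Y : ∃ i, (midf f low Y)[i]? = some Y ∧ (midf f low Y)[i + 1]? = some (Y + 1) := by
  induction low with
  | nil => exact ⟨0, rfl, rfl⟩
  | cons q low ih =>
    obtain ⟨i, h1, h2⟩ := ih
    have hlt : i + 1 < (midf f low Y).length := by
      by_contra hcon
      rw [List.getElem?_eq_none (by omega)] at h2
      exact absurd h2 (by simp)
    refine ⟨i + 1 + 1, ?_, ?_⟩
    · rw [midf_cons, List.getElem?_cons_succ, List.getElem?_cons_succ,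
        List.getElem?_append_left (by omega), h1]
    · rw [midf_cons, List.getElem?_cons_succ, List.getElem?_cons_succ,
        List.getElem?_append_left (by omega), h2]

/-- The part of the list inside the element `q` of `low`. -/
theorem midf_seg {pre post : List ℕ} {q i o : ℕ} (hlow : low = pre ++ q :: post)
    (hi : (midf f low Y)[i]? = some o) :
    -- outside the segment, the elements belong to `pre`
    ((i < 2 * pre.length ∨ 2 * pre.length + 4 * post.length + 6 ≤ i) →
      ∃ q' ∈ pre, ∃ k, 1 ≤ k ∧ k ≤ 4 ∧ o = f q' k) ∧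
    -- inside, they do not
    (2 * pre.length ≤ i → i < 2 * pre.length + 4 * post.length + 6 →
      o = Y ∨ o = Y + 1 ∨ ∃ q' ∈ q :: post, ∃ k, 1 ≤ k ∧ k ≤ 4 ∧ o = f q' k) ∧
    -- the ends of the segment
    (i = 2 * pre.length → o = f q 1) ∧
    (i = 2 * pre.length + 4 * post.length + 5 → o = f q 4) := by
  subst hlow
  have hlt : ∀ {l : List ℕ} {j x : ℕ}, l[j]? = some x → j < l.length := by
    intro l j x h
    by_contra hcon
    rw [List.getElem?_eq_none (by omega)] at h
    exact absurd h (by simp)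
  induction pre generalizing i with
  | nil =>
    simp only [List.nil_append, List.length_nil] at hi ⊢
    have hil := hlt hi
    rw [midf_length, List.length_cons] at hil
    refine ⟨fun h => by omega, fun _ _ => ?_, fun h => ?_, fun h => ?_⟩
    · exact mem_midf.mp (List.mem_of_getElem? hi)
    · have h0 : i = 0 := by omega
      subst h0
      simp only [midf_cons, List.getElem?_cons_zero, Option.some.injEq] at hi
      exact hi.symm
    · have h0 : i = (midf f post Y).length + 1 + 1 + 1 := by rw [midf_length]; omega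
      subst h0
      rw [midf_cons, List.getElem?_cons_succ, List.getElem?_cons_succ,
        List.getElem?_append_right (by omega)] at hi
      have : (midf f post Y).length + 1 - (midf f post Y).length = 1 := by omega
      rw [this] at hi
      simp only [List.getElem?_cons_succ, List.getElem?_cons_zero, Option.some.injEq] at hi
      exact hi.symm
  | cons p pre ih =>
    rw [List.cons_append, midf_cons] at hi
    have hL : (midf f (pre ++ q :: post) Y).length
        = 4 * pre.length + 4 * post.length + 6 := by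
      rw [midf_length, List.length_append, List.length_cons]; omega
    simp only [List.length_cons]
    rcases i with _ | i
    · simp only [List.getElem?_cons_zero, Option.some.injEq] at hi
      refine ⟨fun _ => ⟨p, List.mem_cons_self, 1, by omega, by omega, hi.symm⟩,
        fun h => by omega, fun h => by omega, fun h => by omega⟩
    rcases i with _ | i
    · simp only [List.getElem?_cons_succ, List.getElem?_cons_zero, Option.some.injEq] at hi
      refine ⟨fun _ => ⟨p, List.mem_cons_self, 2, by omega, by omega, hi.symm⟩,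
        fun h => by omega, fun h => by omega, fun h => by omega⟩
    simp only [List.getElem?_cons_succ] at hi
    have hil := hlt hi
    simp only [List.length_append, List.length_cons, List.length_nil] at hil
    rcases Nat.lt_or_ge i (midf f (pre ++ q :: post) Y).length with h | h
    · rw [List.getElem?_append_left h] at hi
      obtain ⟨h1, h2, h3, h4⟩ := ih hi
      refine ⟨fun h => ?_, fun ha hb => h2 (by omega) (by omega),
        fun h => h3 (by omega), fun h => h4 (by omega)⟩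
      obtain ⟨q', hq', hk⟩ := h1 (by omega)
      exact ⟨q', List.mem_cons_of_mem _ hq', hk⟩
    · rw [List.getElem?_append_right h] at hi
      have hcase : i - (midf f (pre ++ q :: post) Y).length = 0 ∨
          i - (midf f (pre ++ q :: post) Y).length = 1 := by
        omega
      refine ⟨fun _ => ?_, fun ha hb => by omega, fun h => by omega, fun h => by omega⟩
      rcases hcase with hc | hc
      · rw [hc] at hi
        simp only [List.getElem?_cons_zero, Option.some.injEq] at hi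
        exact ⟨p, List.mem_cons_self, 3, by omega, by omega, hi.symm⟩
      · rw [hc] at hi
        simp only [List.getElem?_cons_succ, List.getElem?_cons_zero, Option.some.injEq] at hi
        exact ⟨p, List.mem_cons_self, 4, by omega, by omega, hi.symm⟩

end Pool.Agent.Dim
end

section

/-!
# Invariants of the construction: the objects
-/

namespace Pool.Agent.Dim

/-- The object is fresh. -/
def Fr (o : ℕ) : Prop := (G o).a = o ∧ (G o).b = o ∧ (G o).u = o ∧ (G o).v = o

/-- The object is derived from two older objects. -/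
structure Dv (o : ℕ) : Prop where
  u : (G o).u < o
  v : (G o).v < o
  uv : (G o).u ≠ (G o).v
  a : (G o).a = (G (G o).u).a
  b : (G o).b = (G (G o).v).b
  kd : (G o).kd = ckd (G (G o).u).kd
  tg : (G o).tg = (G (G o).u).tg
  g1 : (G (G o).u).kd = 1 ↔ (G (G o).v).kd = 2
  g3 : (G (G o).u).kd = 3 ↔ (G (G o).v).kd = 4
  gt : (G (G o).u).kd = 1 ∨ (G (G o).u).kd = 3 → (G (G o).u).tg = (G (G o).v).tg

theorem Fr.not_dv {o : ℕ} (h : Fr o) : ¬ Dv o := fun h' => by
  have := h'.u
  rw [h.2.2.1] at this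
  omega

/-- The location of an object on a side. -/
noncomputable def loc (s : Bool) (o : ℕ) : ℕ := if s then (G o).a else (G o).b

/-- The parent of an object on a side. -/
noncomputable def par (s : Bool) (o : ℕ) : ℕ := if s then (G o).u else (G o).v

/-- The kind of the objects that stay at their location on a side. -/
def skd (s : Bool) : ℕ := if s then 1 else 4

/-- The distance from the tag to the location. -/
def off (s : Bool) : ℕ := if s then 0 else 1

theorem Fr.loc {o : ℕ} (h : Fr o) (s : Bool) : loc s o = o := by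
  cases s
  · exact h.2.1
  · exact h.1

theorem Fr.par {o : ℕ} (h : Fr o) (s : Bool) : par s o = o := by
  cases s
  · exact h.2.2.2
  · exact h.2.2.1

theorem Dv.par_lt {o : ℕ} (h : Dv o) (s : Bool) : par s o < o := by
  cases s
  · exact h.v
  · exact h.u

theorem Dv.loc {o : ℕ} (h : Dv o) (s : Bool) : loc s o = Dim.loc s (Dim.par s o) := by
  cases s
  · exact h.b
  · exact h.a

theorem ckd_one {k : ℕ} : ckd k = 1 ↔ k = 1 := by
  unfold ckd
  split_ifs <;> simp_all

theorem ckd_four {k : ℕ} : ckd k = 4 ↔ k = 3 := by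
  unfold ckd
  split_ifs <;> simp_all

theorem ckd_cases (k : ℕ) : ckd k = 0 ∨ (k = 1 ∧ ckd k = 1) ∨ (k = 3 ∧ ckd k = 4) := by
  unfold ckd
  split_ifs <;> omega

theorem Dv.skd {o : ℕ} (h : Dv o) (s : Bool) : (G o).kd = skd s ↔ (G (Dim.par s o)).kd = Dim.skd s := by
  cases s
  · show (G o).kd = 4 ↔ (G (G o).v).kd = 4
    rw [h.kd, ckd_four, h.g3]
  · show (G o).kd = 1 ↔ (G (G o).u).kd = 1
    rw [h.kd, ckd_one]

theorem Dv.tgp {o : ℕ} (h : Dv o) (s : Bool) (hk : (G o).kd ≠ 0) :
    (G (Dim.par s o)).kd ≠ 0 ∧ (G (Dim.par s o)).tg = (G o).tg := by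
  have h1 : ((G (G o).u).kd = 1 ∨ (G (G o).u).kd = 3) := by
    rcases ckd_cases (G (G o).u).kd with h1 | h1 | h1
    · rw [h.kd] at hk; exact absurd h1 hk
    · exact Or.inl h1.1
    · exact Or.inr h1.1
  cases s
  · refine ⟨?_, ?_⟩
    · show (G (G o).v).kd ≠ 0
      rcases h1 with h1 | h1
      · rw [h.g1.1 h1]; omega
      · rw [h.g3.1 h1]; omega
    · show (G (G o).v).tg = (G o).tg
      rw [← h.gt h1, h.tg]
  · refine ⟨?_, h.tg.symm⟩
    show (G (G o).u).kd ≠ 0
    omega

/-- The tags. -/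
def Tgs (q : ℕ) : Prop := Fr q ∧ (G q).kd = 1 ∧ (G q).tg = q

/-- The object exists and is alive. -/
def al (t o : ℕ) : Prop := o < nn t ∧ ¬ dead t o

structure InvB (t : ℕ) : Prop where
  fd : ∀ {o}, o < nn t → Fr o ∨ (Dv o ∧ dead t (G o).u ∧ dead t (G o).v)
  dn : ∀ {o}, dead t o → o < nn t ∧ ((G o).kd = 0 → Fr o)
  dr : ∀ {o}, dead t o → Dv o → rld t (G o).u ∧ rld t (G o).v
  kid : ∀ {o} s, dead t o → ∃ c < nn t, Dv c ∧ par s c = o
  ku : ∀ {c c'} s, c < nn t → c' < nn t → Dv c → Dv c' → par s c = par s c' → c = c'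
  li : ∀ {o o'} s, al t o → al t o' → loc s o = loc s o' → o = o'
  le : ∀ {x} s, x < nn t → Fr x → ∃ o, al t o ∧ loc s o = x
  tu : ∀ {o o'}, al t o → al t o' → (G o).kd ≠ 0 → (G o).kd = (G o').kd →
    (G o).tg = (G o').tg → o = o'
  te : ∀ {q k}, q < nn t → Tgs q → 1 ≤ k → k ≤ 4 → ∃ o, al t o ∧ (G o).kd = k ∧ (G o).tg = q
  rd : ∀ {o}, rld t o → dead t o ∧ (G o).kd ≠ 0
  tt : ∀ {o}, o < nn t → (G o).kd ≠ 0 → (G o).tg ≤ o ∧ Tgs (G o).tg
  kk : ∀ {o} s, o < nn t → (G o).kd = skd s → loc s o = (G o).tg + off s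
  lf : ∀ {o} s, o < nn t → loc s o ≤ o ∧ Fr (loc s o)
  k4 : ∀ {o}, o < nn t → (G o).kd ≤ 4
  j0 : ∀ {τ r o}, N t τ = some r → o < nn t → (G o).kd ≠ 0 → (G o).tg = r.p → o < r.ck
  pe : ∀ {τ r o}, N t τ = some r → o ∈ r.pend → dead t o ∧ (G o).kd ≠ 0 ∧ (G o).tg = r.p
  dp : ∀ {τ r o}, N t τ = some r → al t o → (G o).kd ≠ 0 → (G o).tg = r.p → Dv o →
    ((G o).u ∈ r.pend ∨ rld t (G o).u) ∧ ((G o).v ∈ r.pend ∨ rld t (G o).v)
  w2 : ∀ {τ r}, N t τ = some r → τ ++ [true] <+: dl t → r.pend = []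
  yy : ∀ {τ r}, N t τ = some r → r.dn = false → ¬ dead t (r.p + 4) ∧ ¬ dead t (r.p + 5)
  n7 : ∀ {τ r}, N t τ = some r → r.dn = true →
    (∃ o < nn t, Dv o ∧ (G o).u = r.p + 4 ∧ (G o).b ≠ r.p + 4 ∧ (G o).kd = 0) ∧
      ∃ s, rdy τ.length s (r.p + 4) = true

/-! ### The blocks -/

theorem fr_iff {i k q : ℕ} (h : G i = fr i k q) : Fr i ∧ (G i).kd = k ∧ (G i).tg = q := by
  refine ⟨⟨?_, ?_, ?_, ?_⟩, ?_, ?_⟩ <;> rw [h] <;> rfl

theorem Block.tgs {p : ℕ} (h : Block p) : Tgs p := fr_iff h.g0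

theorem Block.ne4 {p p' : ℕ} (h : Block p) (h' : Block p') : p ≠ p' + 1 := by
  rintro rfl
  have h1 := (fr_iff h.g0).2.1
  have h2 := (fr_iff h'.g1).2.1
  omega

/-! ### The current objects -/

theorem cu_spec {t q k : ℕ} (hB : InvB t) (hq : q < nn t) (hT : Tgs q) (h1 : 1 ≤ k) (h4 : k ≤ 4) :
    al t (cu t q k) ∧ (G (cu t q k)).kd = k ∧ (G (cu t q k)).tg = q := by
  obtain ⟨o, ho, hk, hg⟩ := hB.te hq hT h1 h4
  have hmem : ∀ x, x ∈ ((List.range (run t).obs.length).filter fun o =>
      !(decide (o ∈ (run t).dead)) && (decide ((gob (run t).obs o).kd = k) &&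
        decide ((gob (run t).obs o).tg = q))) ↔ al t x ∧ (G x).kd = k ∧ (G x).tg = q := by
    intro x
    rw [List.mem_filter, List.mem_range]
    constructor
    · rintro ⟨hx, h⟩
      have hx' : x < nn t := hx
      rw [G_eq hx'] at h
      simp only [Bool.and_eq_true, Bool.not_eq_true', decide_eq_false_iff_not,
        decide_eq_true_iff] at h
      exact ⟨⟨hx, h.1⟩, h.2⟩
    · rintro ⟨⟨hx, hd⟩, h⟩
      refine ⟨hx, ?_⟩
      rw [G_eq hx]
      simp only [Bool.and_eq_true, Bool.not_eq_true', decide_eq_false_iff_not,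
        decide_eq_true_iff]
      exact ⟨hd, h⟩
  have hne : ((List.range (run t).obs.length).filter fun o =>
      !(decide (o ∈ (run t).dead)) && (decide ((gob (run t).obs o).kd = k) &&
        decide ((gob (run t).obs o).tg = q))) ≠ [] := by
    intro h0
    have := (hmem o).2 ⟨ho, hk, hg⟩
    rw [h0] at this
    cases this
  have := (hmem (cu t q k)).1 ?_
  · exact this
  · unfold cu cur
    cases hl : ((List.range (run t).obs.length).filter fun o =>
      !(decide (o ∈ (run t).dead)) && (decide ((gob (run t).obs o).kd = k) &&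
        decide ((gob (run t).obs o).tg = q))) with
    | nil => exact absurd hl hne
    | cons a l => exact List.mem_cons_self

theorem cu_eq {t q k o : ℕ} (hB : InvB t) (hq : q < nn t) (hT : Tgs q) (h1 : 1 ≤ k) (h4 : k ≤ 4)
    (ho : al t o) (hk : (G o).kd = k) (hg : (G o).tg = q) : o = cu t q k := by
  obtain ⟨h5, h6, h7⟩ := cu_spec hB hq hT h1 h4
  exact hB.tu ho h5 (by omega) (hk.trans h6.symm) (hg.trans h7.symm)

theorem cy_eq (t : ℕ) (r : Rec) : cy t r = midf (cu t) r.low (r.p + 4) := rfl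

/-- Tags of the lower nodes. -/
theorem low_tgs {t : ℕ} (hA : InvA t) {τ : List Bool} {r : Rec} (hr : N t τ = some r) {q : ℕ}
    (hq : q ∈ r.low) : q < nn t ∧ Tgs q := by
  obtain ⟨τ', r', h1, h2, rfl⟩ := hA.l2 hr hq
  have h3 := hA.ck1 h1
  have h4 := hA.ck2 h1
  exact ⟨by omega, (hA.blk h1).tgs⟩

/-- What an action does with objects. -/
structure ActF (t : ℕ) (r : Rec) : Prop where
  nd : (cy t r).Nodup
  al : ∀ {o}, o ∈ cy t r → al t o
  mem : ∀ {o}, o ∈ cy t r ↔ (o = r.p + 4 ∨ o = r.p + 5 ∨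
    (Dim.al t o ∧ (G o).kd ≠ 0 ∧ (G o).tg ∈ r.low))
  dv : ∀ {i o o'}, (cy t r)[i]? = some o → (cy t r)[(i + 1) % (cy t r).length]? = some o' →
    Dv (nn t + i) ∧ (G (nn t + i)).u = o ∧ (G (nn t + i)).v = o'
  kid : ∀ {o} s, o ∈ cy t r → ∃ c, nn t ≤ c ∧ c < nn t + (cy t r).length ∧ Dv c ∧ par s c = o
  pm : ∀ {c}, nn t ≤ c → c < nn t + (cy t r).length → Dv c ∧ ∀ s, par s c ∈ cy t r
  pu : ∀ {c c'} s, nn t ≤ c → c < nn t + (cy t r).length → nn t ≤ c' →
    c' < nn t + (cy t r).length → par s c = par s c' → c = c'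
  fr : ∀ {x}, nn t + (cy t r).length ≤ x → x < nn (t + 1) →
    Fr x ∧ ((G x).kd = 2 ∨ (G x).kd = 3) ∧ (G x).tg ∈ r.low
  fu : ∀ {x x'}, nn t + (cy t r).length ≤ x → x < nn (t + 1) →
    nn t + (cy t r).length ≤ x' → x' < nn (t + 1) → (G x).kd = (G x').kd →
    (G x).tg = (G x').tg → x = x'
  fe : ∀ {q k}, q ∈ r.low → (k = 2 ∨ k = 3) → ∃ x, nn t + (cy t r).length ≤ x ∧ x < nn (t + 1) ∧
    (G x).kd = k ∧ (G x).tg = q
  nn : nn t + (cy t r).length ≤ Dim.nn (t + 1)
  yy : ∃ c < Dim.nn (t + 1), Dv c ∧ (G c).u = r.p + 4 ∧ (G c).b ≠ r.p + 4 ∧ (G c).kd = 0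

theorem actF {t : ℕ} {r : Rec} (hA : InvA t) (hB : InvB t) (h : ActAt t r) : ActF t r := by
  have hblk := hA.blk h.isr
  have hck1 := hA.ck1 h.isr
  have hck2 := hA.ck2 h.isr
  have h4 := fr_iff hblk.g4
  have h5 := fr_iff hblk.g5
  have hcu : ∀ q ∈ r.low, ∀ k, 1 ≤ k → k ≤ 4 →
      al t (cu t q k) ∧ (G (cu t q k)).kd = k ∧ (G (cu t q k)).tg = q := by
    intro q hq k h1 h4
    obtain ⟨h2, h3⟩ := low_tgs hA h.isr hq
    exact cu_spec hB h2 h3 h1 h4
  have hy4 : al t (r.p + 4) := ⟨by omega, (hB.yy h.isr h.dn).1⟩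
  have hy5 : al t (r.p + 5) := ⟨by omega, (hB.yy h.isr h.dn).2⟩
  have hnd : (cy t r).Nodup := by
    rw [cy_eq]
    refine midf_nodup (hA.nd h.isr) ?_ ?_
    · intro q hq q' hq' k k' h1 h2 h3 h4 he
      have e1 := hcu q hq k h1 h2
      have e2 := hcu q' hq' k' h3 h4
      rw [he] at e1
      exact ⟨e1.2.2.symm.trans e2.2.2, e1.2.1.symm.trans e2.2.1⟩
    · intro q hq k h1 h2
      have e1 := hcu q hq k h1 h2
      constructor
      · intro he
        rw [he] at e1
        omega
      · intro he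
        have he' : cu t q k = r.p + 5 := he
        rw [he'] at e1
        omega
  have hal : ∀ o, o ∈ cy t r → al t o := by
    intro o ho
    rw [cy_eq, mem_midf] at ho
    rcases ho with rfl | rfl | ⟨q, hq, k, h1, h2, rfl⟩
    · exact hy4
    · exact hy5
    · exact (hcu q hq k h1 h2).1
  have hmem : ∀ o, o ∈ cy t r ↔ (o = r.p + 4 ∨ o = r.p + 5 ∨
      (al t o ∧ (G o).kd ≠ 0 ∧ (G o).tg ∈ r.low)) := by
    intro o
    rw [cy_eq, mem_midf]
    constructor
    · rintro (rfl | rfl | ⟨q, hq, k, h1, h2, rfl⟩)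
      · exact Or.inl rfl
      · exact Or.inr (Or.inl rfl)
      · obtain ⟨e1, e2, e3⟩ := hcu q hq k h1 h2
        exact Or.inr (Or.inr ⟨e1, by omega, by rw [e3]; exact hq⟩)
    · rintro (rfl | rfl | ⟨h1, h2, h3⟩)
      · exact Or.inl rfl
      · exact Or.inr (Or.inl rfl)
      · obtain ⟨h6, h7⟩ := low_tgs hA h.isr h3
        exact Or.inr (Or.inr ⟨(G o).tg, h3, (G o).kd, by omega, hB.k4 h1.1,
          cu_eq hB h6 h7 (by omega) (hB.k4 h1.1) h1 rfl rfl⟩)
  have hlen : (cy t r).length = 4 * r.low.length + 2 := by rw [cy_eq, midf_length]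
  have hlt : ∀ i, (i + 1) % (cy t r).length < (cy t r).length := fun i =>
    Nat.mod_lt _ (by omega)
  have hgood : ∀ i o o', (cy t r)[i]? = some o → (cy t r)[(i + 1) % (cy t r).length]? = some o' →
      ((G o).kd = 1 ↔ (G o').kd = 2) ∧ ((G o).kd = 3 ↔ (G o').kd = 4) ∧
      ((G o).kd = 1 ∨ (G o).kd = 3 → (G o).tg = (G o').tg) := by
    intro i o o' ho ho'
    rw [cy_eq] at ho ho'
    exact midf_good (K := fun x => (G x).kd) (T := fun x => (G x).tg)
      (fun q hq k h1 h2 => (hcu q hq k h1 h2).2) h4.2.1 h5.2.1 ho rfl ho'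
  have hdv : ∀ i o o', (cy t r)[i]? = some o → (cy t r)[(i + 1) % (cy t r).length]? = some o' →
      Dv (nn t + i) ∧ (G (nn t + i)).u = o ∧ (G (nn t + i)).v = o' := by
    intro i o o' ho ho'
    obtain ⟨hi, ho1⟩ := List.getElem?_eq_some_iff.1 ho
    obtain ⟨hi', ho1'⟩ := List.getElem?_eq_some_iff.1 ho'
    have hg := h.gc i hi
    rw [ho1, ho1'] at hg
    have hoa := hal o (List.mem_of_getElem? ho)
    have hoa' := hal o' (List.mem_of_getElem? ho')
    unfold child at hg
    rw [G_eq hoa.1, G_eq hoa'.1] at hg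
    have hu : (G (nn t + i)).u = o := by rw [hg]
    have hv : (G (nn t + i)).v = o' := by rw [hg]
    obtain ⟨e1, e2, e3⟩ := hgood i o o' ho ho'
    have h1 := hoa.1
    have h2 := hoa'.1
    refine ⟨⟨?_, ?_, ?_, ?_, ?_, ?_, ?_, ?_, ?_, ?_⟩, hu, hv⟩
    · rw [hu]; omega
    · rw [hv]; omega
    · rw [hu, hv]
      intro he
      subst he
      have h6 := (List.Nodup.getElem_inj_iff hnd (hi := hi) (hj := hi')).1 (ho1.trans ho1'.symm)
      by_cases h7 : i + 1 < (cy t r).length
      · rw [Nat.mod_eq_of_lt h7] at h6; omega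
      · have h8 : i + 1 = (cy t r).length := by omega
        rw [h8, Nat.mod_self] at h6
        omega
    · rw [hu, hg]
    · rw [hv, hg]
    · rw [hu, hg]
    · rw [hu, hg]
    · rw [hu, hv]; exact e1
    · rw [hu, hv]; exact e2
    · rw [hu, hv]; exact e3
  have hdv' : ∀ i, i < (cy t r).length → ∃ o o', (cy t r)[i]? = some o ∧
      (cy t r)[(i + 1) % (cy t r).length]? = some o' ∧
      Dv (nn t + i) ∧ (G (nn t + i)).u = o ∧ (G (nn t + i)).v = o' := by
    intro i hi
    exact ⟨_, _, List.getElem?_eq_getElem hi, List.getElem?_eq_getElem (hlt i),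
      hdv i _ _ (List.getElem?_eq_getElem hi) (List.getElem?_eq_getElem (hlt i))⟩
  have hfr : ∀ j, j < 2 * r.low.length → Fr (nn t + (cy t r).length + j) ∧
      (G (nn t + (cy t r).length + j)).kd = 2 + j % 2 ∧
      (G (nn t + (cy t r).length + j)).tg = r.low.getD (j / 2) 0 := by
    intro j hj
    exact fr_iff (h.gf j hj)
  have hget : ∀ j (hj : j < 2 * r.low.length), r.low.getD (j / 2) 0 = r.low[j / 2]'(by omega) := by
    intro j hj
    exact List.getD_eq_getElem _ _ (by omega)
  refine ⟨hnd, fun {o} ho => hal o ho, fun {o} => hmem o, fun {i o o'} h1 h2 => hdv i o o' h1 h2,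
    ?_, ?_, ?_, ?_, ?_, ?_, ?_, ?_⟩
  · intro o s ho
    obtain ⟨i, hi, hio⟩ := List.getElem_of_mem ho
    cases s with
    | true =>
      obtain ⟨o1, o2, e1, e2, e3, e4, e5⟩ := hdv' i hi
      refine ⟨nn t + i, by omega, by omega, e3, ?_⟩
      show (G (nn t + i)).u = o
      rw [List.getElem?_eq_getElem hi, hio] at e1
      rw [e4]
      exact (Option.some_inj.1 e1).symm
    | false =>
      have hi2 : (i + (cy t r).length - 1) % (cy t r).length < (cy t r).length :=
        Nat.mod_lt _ (by omega)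
      obtain ⟨o1, o2, e1, e2, e3, e4, e5⟩ := hdv' _ hi2
      refine ⟨nn t + (i + (cy t r).length - 1) % (cy t r).length, by omega, by omega, e3, ?_⟩
      show (G (nn t + _)).v = o
      have h6 : ((i + (cy t r).length - 1) % (cy t r).length + 1) % (cy t r).length = i := by
        by_cases hi0 : i = 0
        · subst hi0
          have : (0 + (cy t r).length - 1) % (cy t r).length = (cy t r).length - 1 := by
            rw [Nat.mod_eq_of_lt (by omega)]; omega
          rw [this]
          have : (cy t r).length - 1 + 1 = (cy t r).length := by omega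
          rw [this, Nat.mod_self]
        · have h7 : i + (cy t r).length - 1 = (i - 1) + (cy t r).length := by omega
          rw [h7, Nat.add_mod_right, Nat.mod_eq_of_lt (a := i - 1) (by omega)]
          have : i - 1 + 1 = i := by omega
          rw [this, Nat.mod_eq_of_lt hi]
      rw [h6, List.getElem?_eq_getElem hi, hio] at e2
      rw [e5]
      exact (Option.some_inj.1 e2).symm
  · intro c h1 h2
    obtain ⟨o1, o2, e1, e2, e3, e4, e5⟩ := hdv' (c - nn t) (by omega)
    have : nn t + (c - nn t) = c := by omega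
    rw [this] at e3 e4 e5
    refine ⟨e3, fun s => ?_⟩
    cases s
    · show (G c).v ∈ _
      rw [e5]; exact List.mem_of_getElem? e2
    · show (G c).u ∈ _
      rw [e4]; exact List.mem_of_getElem? e1
  · intro c c' s h1 h2 h3 h4 he
    obtain ⟨o1, o2, e1, e2, e3, e4, e5⟩ := hdv' (c - nn t) (by omega)
    obtain ⟨o1', o2', e1', e2', e3', e4', e5'⟩ := hdv' (c' - nn t) (by omega)
    have hc : nn t + (c - nn t) = c := by omega
    have hc' : nn t + (c' - nn t) = c' := by omega
    rw [hc] at e4 e5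
    rw [hc'] at e4' e5'
    have hinj : ∀ (i j o : ℕ), (cy t r)[i]? = some o → (cy t r)[j]? = some o → i = j := by
      intro i j o hi hj
      obtain ⟨hi1, hi2⟩ := List.getElem?_eq_some_iff.1 hi
      obtain ⟨hj1, hj2⟩ := List.getElem?_eq_some_iff.1 hj
      exact (List.Nodup.getElem_inj_iff hnd).1 (hi2.trans hj2.symm)
    cases s with
    | true =>
      have he' : (G c).u = (G c').u := he
      rw [e4, e4'] at he'
      subst he'
      have := hinj _ _ _ e1 e1'
      omega
    | false =>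
      have he' : (G c).v = (G c').v := he
      rw [e5, e5'] at he'
      subst he'
      have h6 := hinj _ _ _ e2 e2'
      have key : ∀ i, i < (cy t r).length → (i + 1) % (cy t r).length =
          if i + 1 = (cy t r).length then 0 else i + 1 := by
        intro i hi
        split_ifs with h7
        · rw [h7, Nat.mod_self]
        · exact Nat.mod_eq_of_lt (by omega)
      rw [key _ (by omega), key _ (by omega)] at h6
      split_ifs at h6 <;> omega
  · intro x h1 h2
    rw [h.nn'] at h2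
    have hx : nn t + (cy t r).length + (x - (nn t + (cy t r).length)) = x := by omega
    have hj : x - (nn t + (cy t r).length) < 2 * r.low.length := by omega
    obtain ⟨e1, e2, e3⟩ := hfr _ hj
    rw [hget _ hj] at e3
    rw [hx] at e1 e2 e3
    refine ⟨e1, by omega, ?_⟩
    rw [e3]
    exact List.getElem_mem _
  · intro x x' h1 h2 h1' h2' hk hg
    rw [h.nn'] at h2 h2'
    have hx : nn t + (cy t r).length + (x - (nn t + (cy t r).length)) = x := by omega
    have hj : x - (nn t + (cy t r).length) < 2 * r.low.length := by omega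
    obtain ⟨e1, e2, e3⟩ := hfr _ hj
    rw [hget _ hj] at e3
    rw [hx] at e1 e2 e3
    have hx' : nn t + (cy t r).length + (x' - (nn t + (cy t r).length)) = x' := by omega
    have hj' : x' - (nn t + (cy t r).length) < 2 * r.low.length := by omega
    obtain ⟨e1', e2', e3'⟩ := hfr _ hj'
    rw [hget _ hj'] at e3'
    rw [hx'] at e1' e2' e3'
    rw [e2, e2'] at hk
    rw [e3, e3'] at hg
    have := (List.Nodup.getElem_inj_iff (hA.nd h.isr)).1 hg
    omega
  · intro q k hq hk
    obtain ⟨i, hi, rfl⟩ := List.getElem_of_mem hq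
    have hj : 2 * i + (k - 2) < 2 * r.low.length := by omega
    obtain ⟨e1, e2, e3⟩ := hfr _ hj
    rw [hget _ hj] at e3
    refine ⟨nn t + (cy t r).length + (2 * i + (k - 2)), Nat.le_add_right _ _, ?_, ?_, ?_⟩
    · rw [h.nn']; omega
    · rw [e2]; omega
    · rw [e3]
      congr 1
      omega
  · rw [h.nn']; omega
  · obtain ⟨i, e1, e2⟩ := midf_Y (f := cu t) (low := r.low) (Y := r.p + 4)
    rw [← cy_eq] at e1 e2
    obtain ⟨hi, -⟩ := List.getElem?_eq_some_iff.1 e1
    obtain ⟨hi', -⟩ := List.getElem?_eq_some_iff.1 e2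
    have e2' : (cy t r)[(i + 1) % (cy t r).length]? = some (r.p + 5) := by
      rw [Nat.mod_eq_of_lt hi']
      exact e2
    obtain ⟨f1, f2, f3⟩ := hdv i _ _ e1 e2'
    refine ⟨nn t + i, ?_, f1, f2, ?_, ?_⟩
    · rw [h.nn']; omega
    · rw [f1.b, f3, h5.1.2.1]; omega
    · rw [f1.kd, f2, h4.2.1]; rfl

end Pool.Agent.Dim
end

section

/-!
# Invariants of the construction: the objects, continued
-/

namespace Pool.Agent.Dim

theorem invB_zero : InvB 0 := by
  have h0 : ∀ τ, N 0 τ = none := fun τ => rfl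
  have h1 : nn 0 = 0 := rfl
  have h2 : ∀ o, ¬ dead 0 o := fun o h => by cases h
  have h3 : ∀ o, ¬ rld 0 o := fun o h => by cases h
  have h4 : ∀ o, ¬ al 0 o := fun o h => by
    have := h.1
    omega
  constructor
  all_goals intros
  all_goals simp_all

theorem Dv.ne {o : ℕ} (h : Dv o) : ¬ Fr o := fun h' => h'.not_dv h

theorem invB_act {t : ℕ} {r0 : Rec} (hA : InvA t) (ih : InvB t) (h : ActAt t r0) :
    InvB (t + 1) := by
  have F := actF hA ih h
  have hnn : nn t ≤ nn (t + 1) := nn_mono (by omega)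
  have hn1 : nn t + (cy t r0).length ≤ nn (t + 1) := F.nn
  have hd := h.dead'
  have hrl := h.rld'
  have hdead : ∀ {o}, dead t o → dead (t + 1) o := fun h1 => (hd _).2 (Or.inr h1)
  have hblk := hA.blk h.isr
  have hck1 := hA.ck1 h.isr
  have hck2 := hA.ck2 h.isr
  have hcl : ∀ {o}, o ∈ cy t r0 → o < nn t := fun ho => (F.al ho).1
  -- living objects after the step
  have hal' : ∀ {o}, al (t + 1) o → (al t o ∧ o ∉ cy t r0) ∨ nn t ≤ o := by
    rintro o ⟨h1, h2⟩
    rw [hd] at h2
    by_cases h3 : o < nn t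
    · exact Or.inl ⟨⟨h3, fun h4 => h2 (Or.inr h4)⟩, fun h4 => h2 (Or.inl h4)⟩
    · exact Or.inr (by omega)
  have hnew : ∀ {o}, nn t ≤ o → o < nn (t + 1) → al (t + 1) o := by
    intro o h1 h2
    refine ⟨h2, fun h3 => ?_⟩
    rw [hd] at h3
    rcases h3 with h3 | h3
    · have := hcl h3; omega
    · have := (ih.dn h3).1; omega
  have hold : ∀ {o}, al t o → o ∉ cy t r0 → al (t + 1) o := by
    intro o h1 h2
    refine ⟨by have := h1.1; omega, fun h3 => ?_⟩
    rw [hd] at h3
    rcases h3 with h3 | h3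
    · exact h2 h3
    · exact h1.2 h3
  -- tags of new objects
  have hntag : ∀ {o}, nn t ≤ o → o < nn (t + 1) → (G o).kd ≠ 0 →
      (G o).tg ∈ r0.low ∧ ((o < nn t + (cy t r0).length ∧ Dv o ∧
        ((G (G o).u).kd = 1 ∧ (G o).kd = 1 ∨ (G (G o).u).kd = 3 ∧ (G o).kd = 4)) ∨
        (nn t + (cy t r0).length ≤ o ∧ Fr o ∧ ((G o).kd = 2 ∨ (G o).kd = 3))) := by
    intro o h1 h2 h3
    by_cases h4 : o < nn t + (cy t r0).length
    · obtain ⟨h5, h6⟩ := F.pm h1 h4
      have h7 := h5.tgp true h3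
      have h8 : (G o).u ∈ cy t r0 := h6 true
      have h9 : (G (G o).u).kd ≠ 0 := h7.1
      have h10 : (G (G o).u).tg = (G o).tg := h7.2
      refine ⟨?_, Or.inl ⟨h4, h5, ?_⟩⟩
      · rcases F.mem.1 h8 with h11 | h11 | ⟨_, _, h11⟩
        · rw [h11, (fr_iff hblk.g4).2.1] at h9; exact absurd rfl h9
        · rw [h11, (fr_iff hblk.g5).2.1] at h9; exact absurd rfl h9
        · rw [← h10]; exact h11
      · have h12 := h5.kd
        rcases ckd_cases (G (G o).u).kd with h11 | ⟨h11, h13⟩ | ⟨h11, h13⟩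
        · rw [h12] at h3; exact absurd h11 h3
        · exact Or.inl ⟨h11, h12.trans h13⟩
        · exact Or.inr ⟨h11, h12.trans h13⟩
    · obtain ⟨h5, h6, h7⟩ := F.fr (not_lt.1 h4) h2
      exact ⟨h7, Or.inr ⟨not_lt.1 h4, h5, h6⟩⟩
  -- new tagged objects belong to a node above
  have hnode : ∀ {τ r o}, N t τ = some r → nn t ≤ o → o < nn (t + 1) → (G o).kd ≠ 0 →
      (G o).tg = r.p → τ ++ [true] <+: dl t := by
    intro τ r o hr h1 h2 h3 h4
    obtain ⟨h5, -⟩ := hntag h1 h2 h3
    obtain ⟨τ', r', h6, h7, h8⟩ := hA.l2 h.isr h5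
    have := hA.pd h6 hr (h8.trans h4)
    rw [← this]; exact h7
  constructor
  · -- fd
    intro o ho
    by_cases h1 : o < nn t
    · rcases ih.fd h1 with h2 | ⟨h2, h3, h4⟩
      · exact Or.inl h2
      · exact Or.inr ⟨h2, hdead h3, hdead h4⟩
    · by_cases h4 : o < nn t + (cy t r0).length
      · obtain ⟨h5, h6⟩ := F.pm (not_lt.1 h1) h4
        exact Or.inr ⟨h5, (hd _).2 (Or.inl (h6 true)), (hd _).2 (Or.inl (h6 false))⟩
      · exact Or.inl (F.fr (not_lt.1 h4) ho).1
  · -- dn
    intro o ho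
    rw [hd] at ho
    rcases ho with ho | ho
    · refine ⟨by have := hcl ho; omega, fun h1 => ?_⟩
      rcases F.mem.1 ho with h11 | h11 | ⟨_, h11, _⟩
      · rw [h11]; exact (fr_iff hblk.g4).1
      · rw [h11]; exact (fr_iff hblk.g5).1
      · exact absurd h1 h11
    · have := ih.dn ho
      exact ⟨by omega, this.2⟩
  · -- dr
    intro o ho hdv
    rw [hrl, hrl]
    rw [hd] at ho
    rcases ho with ho | ho
    · rcases F.mem.1 ho with h11 | h11 | ⟨h10, h11, h12⟩
      · rw [h11] at hdv; exact absurd (fr_iff hblk.g4).1 hdv.ne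
      · rw [h11] at hdv; exact absurd (fr_iff hblk.g5).1 hdv.ne
      · obtain ⟨τ, r, h1, h2, h3⟩ := hA.l2 h.isr h12
        have h4 := ih.w2 h1 h2
        obtain ⟨h5, h6⟩ := ih.dp h1 h10 h11 h3.symm hdv
        rw [h4] at h5 h6
        refine ⟨?_, ?_⟩
        · rcases h5 with h5 | h5
          · cases h5
          · exact h5
        · rcases h6 with h6 | h6
          · cases h6
          · exact h6
    · exact ih.dr ho hdv
  · -- kid
    intro o s ho
    rw [hd] at ho
    rcases ho with ho | ho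
    · obtain ⟨c, h1, h2, h3, h4⟩ := F.kid s ho
      exact ⟨c, by omega, h3, h4⟩
    · obtain ⟨c, h1, h2, h3⟩ := ih.kid s ho
      exact ⟨c, by omega, h2, h3⟩
  · -- ku
    have key : ∀ {c c'} s, c < nn t → ¬ c' < nn t → c' < nn (t + 1) → Dv c → Dv c' →
        par s c = par s c' → False := by
      intro c c' s h1 h2 h3 h4 h5 h6
      have h7 : c' < nn t + (cy t r0).length := by
        by_contra h7
        exact h5.ne (F.fr (not_lt.1 h7) h3).1
      obtain ⟨-, h8⟩ := F.pm (not_lt.1 h2) h7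
      have h9 : dead t (par s c) := by
        rcases ih.fd h1 with h10 | ⟨_, h10, h11⟩
        · exact absurd h10 h4.ne
        · cases s
          · exact h11
          · exact h10
      rw [h6] at h9
      exact (F.al (h8 s)).2 h9
    intro c c' s h1 h2 h3 h4 h5
    by_cases h6 : c < nn t
    · by_cases h7 : c' < nn t
      · exact ih.ku s h6 h7 h3 h4 h5
      · exact (key s h6 h7 h2 h3 h4 h5).elim
    · by_cases h7 : c' < nn t
      · exact (key s h7 h6 h1 h4 h3 h5.symm).elim
      · refine F.pu s (not_lt.1 h6) ?_ (not_lt.1 h7) ?_ h5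
        · by_contra h8
          exact h3.ne (F.fr (not_lt.1 h8) h1).1
        · by_contra h8
          exact h4.ne (F.fr (not_lt.1 h8) h2).1
  · -- li
    have key : ∀ {o o'} s, al t o → o ∉ cy t r0 → nn t ≤ o' → o' < nn (t + 1) →
        loc s o = loc s o' → False := by
      intro o o' s h1 h2 h3 h4 h5
      by_cases h6 : o' < nn t + (cy t r0).length
      · obtain ⟨h7, h8⟩ := F.pm h3 h6
        rw [h7.loc s] at h5
        have := ih.li s h1 (F.al (h8 s)) h5
        rw [this] at h2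
        exact h2 (h8 s)
      · have h7 := (F.fr (not_lt.1 h6) h4).1
        rw [h7.loc s] at h5
        have := (ih.lf s h1.1).1
        have := h1.1
        omega
    intro o o' s h1 h2 h3
    have h1' := h1.1
    have h2' := h2.1
    rcases hal' h1 with ⟨h4, h5⟩ | h4
    · rcases hal' h2 with ⟨h6, h7⟩ | h6
      · exact ih.li s h4 h6 h3
      · exact (key s h4 h5 h6 h2' h3).elim
    · rcases hal' h2 with ⟨h6, h7⟩ | h6
      · exact (key s h6 h7 h4 h1' h3.symm).elim
      · by_cases h8 : o < nn t + (cy t r0).length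
        · obtain ⟨h9, h10⟩ := F.pm h4 h8
          rw [h9.loc s] at h3
          by_cases h11 : o' < nn t + (cy t r0).length
          · obtain ⟨h12, h13⟩ := F.pm h6 h11
            rw [h12.loc s] at h3
            exact F.pu s h4 h8 h6 h11 (ih.li s (F.al (h10 s)) (F.al (h13 s)) h3)
          · have h12 := (F.fr (not_lt.1 h11) h2').1
            rw [h12.loc s] at h3
            have := (ih.lf s (hcl (h10 s))).1
            have := hcl (h10 s)
            omega
        · have h9 := (F.fr (not_lt.1 h8) h1').1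
          rw [h9.loc s] at h3
          by_cases h11 : o' < nn t + (cy t r0).length
          · obtain ⟨h12, h13⟩ := F.pm h6 h11
            rw [h12.loc s] at h3
            have := (ih.lf s (hcl (h13 s))).1
            have := hcl (h13 s)
            omega
          · have h12 := (F.fr (not_lt.1 h11) h2').1
            rw [h12.loc s] at h3
            exact h3
  · -- le
    intro x s hx hf
    by_cases h1 : x < nn t
    · obtain ⟨o, h2, h3⟩ := ih.le s h1 hf
      by_cases h4 : o ∈ cy t r0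
      · obtain ⟨c, h5, h6, h7, h8⟩ := F.kid s h4
        refine ⟨c, hnew h5 (by omega), ?_⟩
        rw [h7.loc s, h8]; exact h3
      · exact ⟨o, hold h2 h4, h3⟩
    · exact ⟨x, hnew (not_lt.1 h1) hx, hf.loc s⟩
  · -- tu
    have key : ∀ {o o'}, al t o → o ∉ cy t r0 → nn t ≤ o' → o' < nn (t + 1) →
        (G o').kd ≠ 0 → (G o).kd = (G o').kd → (G o).tg = (G o').tg → False := by
      intro o o' h1 h2 h3 h4 h5 h6 h7
      obtain ⟨h8, -⟩ := hntag h3 h4 h5
      refine h2 (F.mem.2 (Or.inr (Or.inr ⟨h1, by omega, ?_⟩)))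
      rw [h7]; exact h8
    intro o o' h1 h2 h3 h4 h5
    have h1' := h1.1
    have h2' := h2.1
    have h3' : (G o').kd ≠ 0 := by omega
    rcases hal' h1 with ⟨h6, h7⟩ | h6
    · rcases hal' h2 with ⟨h8, h9⟩ | h8
      · exact ih.tu h6 h8 h3 h4 h5
      · exact (key h6 h7 h8 h2' h3' h4 h5).elim
    · rcases hal' h2 with ⟨h8, h9⟩ | h8
      · exact (key h8 h9 h6 h1' h3 h4.symm h5.symm).elim
      · obtain ⟨-, h10⟩ := hntag h6 h1' h3
        obtain ⟨-, h11⟩ := hntag h8 h2' h3'
        rcases h10 with ⟨h12, h13, h14⟩ | ⟨h12, h13, h14⟩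
        · rcases h11 with ⟨h15, h16, h17⟩ | ⟨h15, h16, h17⟩
          · have e1 : (G (G o).u).kd = (G (G o').u).kd := by
              rcases h14 with h14 | h14 <;> rcases h17 with h17 | h17 <;> omega
            have e2 := h13.tg
            have e3 := h16.tg
            have e4 := (F.pm h6 h12).2 true
            have e5 := (F.pm h8 h15).2 true
            refine F.pu true h6 h12 h8 h15 (ih.tu (F.al e4) (F.al e5) ?_ e1 ?_)
            · show (G (G o).u).kd ≠ 0
              omega
            · show (G (G o).u).tg = (G (G o').u).tg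
              rw [← e2, ← e3]; exact h5
          · omega
        · rcases h11 with ⟨h15, h16, h17⟩ | ⟨h15, h16, h17⟩
          · omega
          · exact F.fu h12 h1' h15 h2' h4 h5
  · -- te
    intro q k hq hT h1 h4
    have hq' : q < nn t := by
      by_contra hq'
      by_cases h6 : q < nn t + (cy t r0).length
      · exact (F.pm (not_lt.1 hq') h6).1.ne hT.1
      · have := (F.fr (not_lt.1 h6) hq).2.1
        have := hT.2.1
        omega
    by_cases h5 : q ∈ r0.low
    · have hex : ∀ k', 1 ≤ k' → k' ≤ 4 → (k' = 1 ∨ k' = 3) →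
          ∃ o, al (t + 1) o ∧ (G o).kd = ckd k' ∧ (G o).tg = q := by
        intro k' h6 h7 h8
        obtain ⟨h9, h10, h11⟩ := cu_spec ih hq' hT h6 h7
        have h12 : cu t q k' ∈ cy t r0 :=
          F.mem.2 (Or.inr (Or.inr ⟨h9, by omega, by rw [h11]; exact h5⟩))
        obtain ⟨c, h13, h14, h15, h16⟩ := F.kid true h12
        have h16' : (G c).u = cu t q k' := h16
        refine ⟨c, hnew h13 (by omega), ?_, ?_⟩
        · rw [h15.kd, h16', h10]
        · rw [h15.tg, h16', h11]
      have hk : k = 1 ∨ k = 2 ∨ k = 3 ∨ k = 4 := by omega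
      rcases hk with rfl | rfl | rfl | rfl
      · obtain ⟨o, h6, h7, h8⟩ := hex 1 (by omega) (by omega) (by omega)
        exact ⟨o, h6, h7, h8⟩
      · obtain ⟨x, h6, h7, h8, h9⟩ := F.fe h5 (Or.inl rfl)
        exact ⟨x, hnew (by omega) h7, h8, h9⟩
      · obtain ⟨x, h6, h7, h8, h9⟩ := F.fe h5 (Or.inr rfl)
        exact ⟨x, hnew (by omega) h7, h8, h9⟩
      · obtain ⟨o, h6, h7, h8⟩ := hex 3 (by omega) (by omega) (by omega)
        exact ⟨o, h6, h7, h8⟩
    · obtain ⟨o, h6, h7, h8⟩ := ih.te hq' hT h1 h4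
      refine ⟨o, hold h6 ?_, h7, h8⟩
      intro h9
      rcases F.mem.1 h9 with h11 | h11 | ⟨_, _, h12⟩
      · rw [h11, (fr_iff hblk.g4).2.1] at h7; omega
      · rw [h11, (fr_iff hblk.g5).2.1] at h7; omega
      · rw [h8] at h12; exact h5 h12
  · -- rd
    intro o ho
    rw [hrl] at ho
    exact ⟨hdead (ih.rd ho).1, (ih.rd ho).2⟩
  · -- tt
    intro o ho hk
    by_cases h1 : o < nn t
    · exact ih.tt h1 hk
    · obtain ⟨h2, h3⟩ := hntag (not_lt.1 h1) ho hk
      obtain ⟨h4, h5⟩ := low_tgs hA h.isr h2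
      exact ⟨by omega, h5⟩
  · -- kk
    intro o s ho hk
    by_cases h1 : o < nn t
    · exact ih.kk s h1 hk
    · by_cases h4 : o < nn t + (cy t r0).length
      · obtain ⟨h5, h6⟩ := F.pm (not_lt.1 h1) h4
        have h7 := (h5.skd s).1 hk
        have h8 : (G o).kd ≠ 0 := by
          rw [hk]; cases s <;> simp [skd]
        rw [h5.loc s, ih.kk s (hcl (h6 s)) h7, (h5.tgp s h8).2]
      · have h5 := (F.fr (not_lt.1 h4) ho).2.1
        rw [hk] at h5
        cases s <;> simp [skd] at h5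
  · -- lf
    intro o s ho
    by_cases h1 : o < nn t
    · exact ih.lf s h1
    · by_cases h4 : o < nn t + (cy t r0).length
      · obtain ⟨h5, h6⟩ := F.pm (not_lt.1 h1) h4
        rw [h5.loc s]
        have h7 := ih.lf s (hcl (h6 s))
        have h8 := hcl (h6 s)
        exact ⟨by omega, h7.2⟩
      · have h5 := (F.fr (not_lt.1 h4) ho).1
        rw [h5.loc s]
        exact ⟨le_rfl, h5⟩
  · -- k4
    intro o ho
    by_cases h1 : o < nn t
    · exact ih.k4 h1
    · by_cases h2 : (G o).kd = 0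
      · omega
      · obtain ⟨-, h3⟩ := hntag (not_lt.1 h1) ho h2
        rcases h3 with ⟨_, _, h3⟩ | ⟨_, _, h3⟩ <;> omega
  · -- j0
    intro τ r' o hr ho hk hg
    obtain ⟨r, hr1, h3⟩ := h.inv hr
    clear hr
    rename' hr1 => hr
    rcases h3 with ⟨h4, rfl⟩ | ⟨h4, rfl⟩ | ⟨h4, h5, rfl⟩
    · by_cases h1 : o < nn t
      · have h9 := ih.j0 hr h1 hk hg
        exact h9
      · exact absurd h4 (pfx_ne (hnode hr (not_lt.1 h1) ho hk hg))
    · exact ho
    · by_cases h1 : o < nn t
      · exact ih.j0 hr h1 hk hg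
      · exact absurd (hnode hr (not_lt.1 h1) ho hk hg) h5
  · -- pe
    intro τ r' o hr ho
    obtain ⟨r, hr1, h3⟩ := h.inv hr
    clear hr
    rename' hr1 => hr
    rcases h3 with ⟨h4, rfl⟩ | ⟨h4, rfl⟩ | ⟨h4, h5, rfl⟩
    · have := ih.pe hr ho
      exact ⟨hdead this.1, this.2⟩
    · have h5 := hA.ck1 hr
      have h6 := hA.ck2 hr
      have h7 := (hA.blk hr).tgs
      have h8 : r.p ∈ r0.low :=
        (hA.l1 hr h.isr h4).subset (List.mem_append_right _ (List.mem_singleton_self _))
      have h9 : ∀ k, 1 ≤ k → k ≤ 4 → dead (t + 1) (cu t r.p k) ∧ (G (cu t r.p k)).kd ≠ 0 ∧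
          (G (cu t r.p k)).tg = r.p := by
        intro k h10 h11
        obtain ⟨h12, h13, h14⟩ := cu_spec ih (by omega : r.p < nn t) h7 h10 h11
        refine ⟨(hd _).2 (Or.inl (F.mem.2 (Or.inr (Or.inr ⟨h12, by omega, ?_⟩)))), by omega, h14⟩
        rw [h14]; exact h8
      have ho' : o ∈ [cu t r.p 1, cu t r.p 2, cu t r.p 3, cu t r.p 4] := ho
      simp only [List.mem_cons, List.not_mem_nil, or_false] at ho'
      rcases ho' with rfl | rfl | rfl | rfl
      · exact h9 1 (by omega) (by omega)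
      · exact h9 2 (by omega) (by omega)
      · exact h9 3 (by omega) (by omega)
      · exact h9 4 (by omega) (by omega)
    · have := ih.pe hr ho
      exact ⟨hdead this.1, this.2⟩
  · -- dp
    intro τ r' o hr ho hk hg hdv
    rw [hrl, hrl]
    obtain ⟨r, hr1, h3⟩ := h.inv hr
    clear hr
    rename' hr1 => hr
    rcases h3 with ⟨h4, rfl⟩ | ⟨h4, rfl⟩ | ⟨h4, h5, rfl⟩
    · rcases hal' ho with ⟨h6, h7⟩ | h6
      · have h9 := ih.dp hr h6 hk hg hdv
        exact h9
      · exact absurd h4 (pfx_ne (hnode hr h6 ho.1 hk hg))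
    · have h5 := hA.ck1 hr
      have h6 := hA.ck2 hr
      have h7 := (hA.blk hr).tgs
      have h8 : r.p ∈ r0.low :=
        (hA.l1 hr h.isr h4).subset (List.mem_append_right _ (List.mem_singleton_self _))
      rcases hal' ho with ⟨h9, h10⟩ | h9
      · exact absurd (F.mem.2 (Or.inr (Or.inr ⟨h9, hk, by rw [hg]; exact h8⟩))) h10
      · have h10 : o < nn t + (cy t r0).length := by
          by_contra h11
          exact hdv.ne (F.fr (not_lt.1 h11) ho.1).1
        have h11 := (F.pm h9 h10).2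
        have key : ∀ s, par s o ∈ [cu t r.p 1, cu t r.p 2, cu t r.p 3, cu t r.p 4] := by
          intro s
          obtain ⟨h12, h13⟩ := hdv.tgp s hk
          have hg' : (G o).tg = r.p := hg
          rw [hg'] at h13
          have h14 := ih.k4 (hcl (h11 s))
          have h15 := cu_eq ih (by omega : r.p < nn t) h7 (by omega) h14 (F.al (h11 s)) rfl h13
          have h16 : (G (par s o)).kd = 1 ∨ (G (par s o)).kd = 2 ∨ (G (par s o)).kd = 3 ∨
              (G (par s o)).kd = 4 := by omega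
          rw [h15]
          rcases h16 with h16 | h16 | h16 | h16 <;> rw [h16] <;> simp
        exact ⟨Or.inl (key true), Or.inl (key false)⟩
    · rcases hal' ho with ⟨h6, h7⟩ | h6
      · exact ih.dp hr h6 hk hg hdv
      · exact absurd (hnode hr h6 ho.1 hk hg) h5
  · -- w2
    intro τ r' hr hτ
    rw [h.dl'] at hτ
    have := hτ.length_le
    simp at this
  · -- yy
    intro τ r' hr hdn
    obtain ⟨r, hr1, h3⟩ := h.inv hr
    clear hr
    rename' hr1 => hr
    have key : r.dn = false → τ ≠ dl t → ¬ dead (t + 1) (r.p + 4) ∧ ¬ dead (t + 1) (r.p + 5) := by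
      intro h4 h5
      obtain ⟨h6, h7⟩ := ih.yy hr h4
      have hb := hA.blk hr
      have h8 := (fr_iff hb.g4).2.1
      have h9 := (fr_iff hb.g5).2.1
      have h10 : r.p ≠ r0.p := fun he => h5 (hA.pd hr h.isr he)
      have h11 := hb.ne4 hblk
      have h12 := hblk.ne4 hb
      constructor
      · rw [hd]
        rintro (h13 | h13)
        · rcases F.mem.1 h13 with h14 | h14 | ⟨_, h14, _⟩
          · omega
          · omega
          · exact h14 h8
        · exact h6 h13
      · rw [hd]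
        rintro (h13 | h13)
        · rcases F.mem.1 h13 with h14 | h14 | ⟨_, h14, _⟩
          · omega
          · omega
          · exact h14 h9
        · exact h7 h13
    rcases h3 with ⟨h4, rfl⟩ | ⟨h4, rfl⟩ | ⟨h4, h5, rfl⟩
    · cases hdn
    · exact key hdn (pfx_ne h4)
    · refine key hdn ?_
      rintro rfl
      exact h4 List.prefix_rfl
  · -- n7
    intro τ r' hr hdn
    obtain ⟨r, hr1, h3⟩ := h.inv hr
    clear hr
    rename' hr1 => hr
    rcases h3 with ⟨h4, rfl⟩ | ⟨h4, rfl⟩ | ⟨h4, h5, rfl⟩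
    · have h5 : r = r0 := by
        have := h.isr
        rw [← h4, hr] at this
        exact Option.some_inj.1 this
      subst h5
      refine ⟨F.yy, t, ?_⟩
      rw [h4]; exact h.rdy'
    · obtain ⟨⟨o, h6, h7⟩, h8⟩ := ih.n7 hr hdn
      exact ⟨⟨o, by omega, h7⟩, h8⟩
    · obtain ⟨⟨o, h6, h7⟩, h8⟩ := ih.n7 hr hdn
      exact ⟨⟨o, by omega, h7⟩, h8⟩

end Pool.Agent.Dim
end

section

/-!
# Invariants of the construction: the objects, concluded
-/

namespace Pool.Agent.Dim

theorem invB_create {t : ℕ} (hA : InvA t) (ih : InvB t) (h : CreateAt t) : InvB (t + 1) := by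
  have hnn := h.nn'
  have hd := h.dead'
  have hrl := h.rld'
  have b0 := fr_iff h.g0
  have b1 := fr_iff h.g1
  have b2 := fr_iff h.g2
  have b3 := fr_iff h.g3
  have b4 := fr_iff h.g4
  have b5 := fr_iff h.g5
  have hnew : ∀ {o}, nn t ≤ o → o < nn (t + 1) → o = nn t ∨ o = nn t + 1 ∨ o = nn t + 2 ∨
      o = nn t + 3 ∨ o = nn t + 4 ∨ o = nn t + 5 := by
    intro o h1 h2; omega
  have hfr : ∀ {o}, nn t ≤ o → o < nn (t + 1) → Fr o := by
    intro o h1 h2
    rcases hnew h1 h2 with rfl | rfl | rfl | rfl | rfl | rfl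
    · exact b0.1
    · exact b1.1
    · exact b2.1
    · exact b3.1
    · exact b4.1
    · exact b5.1
  have hntag : ∀ {o}, nn t ≤ o → o < nn (t + 1) → (G o).kd ≠ 0 →
      (G o).tg = nn t ∧ ((o = nn t ∧ (G o).kd = 1) ∨ (o = nn t + 1 ∧ (G o).kd = 4) ∨
        (o = nn t + 2 ∧ (G o).kd = 2) ∨ (o = nn t + 3 ∧ (G o).kd = 3)) := by
    intro o h1 h2 h3
    rcases hnew h1 h2 with rfl | rfl | rfl | rfl | rfl | rfl
    · exact ⟨b0.2.2, Or.inl ⟨rfl, b0.2.1⟩⟩
    · exact ⟨b1.2.2, Or.inr (Or.inl ⟨rfl, b1.2.1⟩)⟩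
    · exact ⟨b2.2.2, Or.inr (Or.inr (Or.inl ⟨rfl, b2.2.1⟩))⟩
    · exact ⟨b3.2.2, Or.inr (Or.inr (Or.inr ⟨rfl, b3.2.1⟩))⟩
    · exact absurd b4.2.1 h3
    · exact absurd b5.2.1 h3
  have hal' : ∀ {o}, al (t + 1) o → al t o ∨ nn t ≤ o := by
    rintro o ⟨h1, h2⟩
    rw [hd] at h2
    by_cases h3 : o < nn t
    · exact Or.inl ⟨h3, h2⟩
    · exact Or.inr (not_lt.1 h3)
  have haln : ∀ {o}, nn t ≤ o → o < nn (t + 1) → al (t + 1) o := by
    intro o h1 h2
    refine ⟨h2, fun h3 => ?_⟩
    rw [hd] at h3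
    have := (ih.dn h3).1
    omega
  have halo : ∀ {o}, al t o → al (t + 1) o := by
    intro o h1
    exact ⟨by have := h1.1; omega, fun h3 => h1.2 ((hd _).1 h3)⟩
  have hold : ∀ {τ r'}, N (t + 1) τ = some r' →
      (τ = dl t ∧ r' = ⟨nn t, false, nn t + 6, [], [], 0, lows t⟩) ∨
      (∃ r, N t τ = some r ∧ r'.p = r.p ∧ r'.dn = r.dn ∧ r'.pend = r.pend ∧ r.ck ≤ r'.ck) := by
    intro τ r' hr
    rcases h.inv hr with h1 | ⟨_, r, hr1, h3⟩
    · exact Or.inl h1
    · have h6 := hA.ck2 hr1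
      rcases h3 with ⟨_, rfl⟩ | ⟨_, rfl⟩
      · refine Or.inr ⟨r, hr1, rfl, rfl, rfl, ?_⟩
        show r.ck ≤ nn t + 6
        omega
      · exact Or.inr ⟨r', hr1, rfl, rfl, rfl, le_rfl⟩
  constructor
  · intro o ho
    by_cases h1 : o < nn t
    · rcases ih.fd h1 with h2 | ⟨h2, h3, h4⟩
      · exact Or.inl h2
      · exact Or.inr ⟨h2, (hd _).2 h3, (hd _).2 h4⟩
    · exact Or.inl (hfr (not_lt.1 h1) ho)
  · intro o ho
    rw [hd] at ho
    have := ih.dn ho
    exact ⟨by omega, this.2⟩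
  · intro o ho hdv
    rw [hrl, hrl]
    rw [hd] at ho
    exact ih.dr ho hdv
  · intro o s ho
    rw [hd] at ho
    obtain ⟨c, h1, h2, h3⟩ := ih.kid s ho
    exact ⟨c, by omega, h2, h3⟩
  · intro c c' s h1 h2 h3 h4 h5
    have h6 : c < nn t := by
      by_contra h6
      exact h3.ne (hfr (not_lt.1 h6) h1)
    have h7 : c' < nn t := by
      by_contra h7
      exact h4.ne (hfr (not_lt.1 h7) h2)
    exact ih.ku s h6 h7 h3 h4 h5
  · intro o o' s h1 h2 h3
    have h1' := h1.1
    have h2' := h2.1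
    rcases hal' h1 with h4 | h4
    · rcases hal' h2 with h5 | h5
      · exact ih.li s h4 h5 h3
      · rw [(hfr h5 h2').loc s] at h3
        have := (ih.lf s h4.1).1
        have := h4.1
        omega
    · rcases hal' h2 with h5 | h5
      · rw [(hfr h4 h1').loc s] at h3
        have := (ih.lf s h5.1).1
        have := h5.1
        omega
      · rw [(hfr h4 h1').loc s, (hfr h5 h2').loc s] at h3
        exact h3
  · intro x s hx hf
    by_cases h1 : x < nn t
    · obtain ⟨o, h2, h3⟩ := ih.le s h1 hf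
      exact ⟨o, halo h2, h3⟩
    · exact ⟨x, haln (not_lt.1 h1) hx, hf.loc s⟩
  · intro o o' h1 h2 h3 h4 h5
    have h1' := h1.1
    have h2' := h2.1
    have h3' : (G o').kd ≠ 0 := by omega
    rcases hal' h1 with h6 | h6
    · rcases hal' h2 with h7 | h7
      · exact ih.tu h6 h7 h3 h4 h5
      · obtain ⟨h8, -⟩ := hntag h7 h2' h3'
        have h9 := (ih.tt h6.1 h3).1
        have := h6.1
        omega
    · rcases hal' h2 with h7 | h7
      · obtain ⟨h8, -⟩ := hntag h6 h1' h3
        have h9 := (ih.tt h7.1 h3').1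
        have := h7.1
        omega
      · obtain ⟨-, h8⟩ := hntag h6 h1' h3
        obtain ⟨-, h9⟩ := hntag h7 h2' h3'
        omega
  · intro q k hq hT h1 h4
    by_cases h5 : q < nn t
    · obtain ⟨o, h6, h7⟩ := ih.te h5 hT h1 h4
      exact ⟨o, halo h6, h7⟩
    · have h6 : q = nn t := by
        have h7 := hT.2.1
        obtain ⟨-, h8⟩ := hntag (not_lt.1 h5) hq (by omega)
        omega
      subst h6
      have hk : k = 1 ∨ k = 2 ∨ k = 3 ∨ k = 4 := by omega
      rcases hk with rfl | rfl | rfl | rfl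
      · exact ⟨_, haln (by omega) (by omega), b0.2⟩
      · exact ⟨_, haln (by omega) (by omega), b2.2⟩
      · exact ⟨_, haln (by omega) (by omega), b3.2⟩
      · exact ⟨_, haln (by omega) (by omega), b1.2⟩
  · intro o ho
    rw [hrl] at ho
    exact ⟨(hd _).2 (ih.rd ho).1, (ih.rd ho).2⟩
  · intro o ho hk
    by_cases h1 : o < nn t
    · exact ih.tt h1 hk
    · obtain ⟨h8, h9⟩ := hntag (not_lt.1 h1) ho hk
      rw [h8]
      exact ⟨not_lt.1 h1, b0⟩
  · intro o s ho hk
    by_cases h1 : o < nn t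
    · exact ih.kk s h1 hk
    · have hk0 : (G o).kd ≠ 0 := by
        rw [hk]; cases s <;> simp [skd]
      obtain ⟨h8, h9⟩ := hntag (not_lt.1 h1) ho hk0
      rw [(hfr (not_lt.1 h1) ho).loc s, h8]
      cases s <;> simp [skd] at hk <;> simp [off] <;> omega
  · intro o s ho
    by_cases h1 : o < nn t
    · exact ih.lf s h1
    · rw [(hfr (not_lt.1 h1) ho).loc s]
      exact ⟨le_rfl, hfr (not_lt.1 h1) ho⟩
  · intro o ho
    by_cases h1 : o < nn t
    · exact ih.k4 h1
    · by_cases h2 : (G o).kd = 0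
      · omega
      · obtain ⟨-, h3⟩ := hntag (not_lt.1 h1) ho h2
        omega
  · intro τ r' o hr ho hk hg
    rcases hold hr with ⟨_, rfl⟩ | ⟨r, hr1, e1, e2, e3, e4⟩
    · show o < nn t + 6
      omega
    · rw [e1] at hg
      by_cases h1 : o < nn t
      · have := ih.j0 hr1 h1 hk hg
        omega
      · obtain ⟨h8, -⟩ := hntag (not_lt.1 h1) ho hk
        have h9 := hA.ck1 hr1
        have h10 := hA.ck2 hr1
        omega
  · intro τ r' o hr ho
    rcases hold hr with ⟨_, rfl⟩ | ⟨r, hr1, e1, e2, e3, e4⟩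
    · cases ho
    · rw [e3] at ho
      rw [e1, hd]
      exact ih.pe hr1 ho
  · intro τ r' o hr ho hk hg hdv
    have h1 : o < nn t := by
      by_contra h1
      exact hdv.ne (hfr (not_lt.1 h1) ho.1)
    rw [hrl, hrl]
    rcases hold hr with ⟨_, rfl⟩ | ⟨r, hr1, e1, e2, e3, e4⟩
    · exfalso
      have h9 := (ih.tt h1 hk).1
      have hg' : (G o).tg = nn t := hg
      omega
    · rw [e3]
      rw [e1] at hg
      exact ih.dp hr1 ⟨h1, fun h3 => ho.2 ((hd _).2 h3)⟩ hk hg hdv
  · intro τ r' hr hτ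
    rw [h.dl'] at hτ
    have := hτ.length_le
    simp at this
  · intro τ r' hr hdn
    rw [hd, hd]
    rcases hold hr with ⟨_, rfl⟩ | ⟨r, hr1, e1, e2, e3, e4⟩
    · refine ⟨fun h1 => ?_, fun h1 => ?_⟩
      · have h2 : nn t + 4 < nn t := (ih.dn h1).1
        omega
      · have h2 : nn t + 5 < nn t := (ih.dn h1).1
        omega
    · rw [e1]
      rw [e2] at hdn
      exact ih.yy hr1 hdn
  · intro τ r' hr hdn
    rcases hold hr with ⟨_, rfl⟩ | ⟨r, hr1, e1, e2, e3, e4⟩
    · cases hdn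
    · rw [e1]
      rw [e2] at hdn
      obtain ⟨⟨o, h6, h7⟩, h8⟩ := ih.n7 hr1 hdn
      exact ⟨⟨o, by omega, h7⟩, h8⟩

theorem invB_static {t : ℕ} (ih : InvB t) (hnn : nn (t + 1) = nn t)
    (hd : ∀ o, dead (t + 1) o ↔ dead t o) (hrl : ∀ o, rld t o → rld (t + 1) o)
    (hr1 : ∀ o, rld (t + 1) o → dead t o ∧ (G o).kd ≠ 0)
    (hN : ∀ {τ r'}, N (t + 1) τ = some r' → ∃ r, N t τ = some r ∧ r'.p = r.p ∧ r'.dn = r.dn ∧
      r'.ck = r.ck ∧ ((r'.pend = r.pend ∧ (τ ++ [true] <+: dl (t + 1) → τ ++ [true] <+: dl t)) ∨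
        (r'.pend = [] ∧ ∀ o ∈ r.pend, rld (t + 1) o))) : InvB (t + 1) := by
  have hal : ∀ o, al (t + 1) o ↔ al t o := by
    intro o
    unfold al
    rw [hnn, hd]
  constructor
  · intro o ho
    rw [hnn] at ho
    rw [hd, hd]
    exact ih.fd ho
  · intro o ho
    rw [hd] at ho
    rw [hnn]
    exact ih.dn ho
  · intro o ho hdv
    rw [hd] at ho
    have := ih.dr ho hdv
    exact ⟨hrl _ this.1, hrl _ this.2⟩
  · intro o s ho
    rw [hd] at ho
    rw [hnn]
    exact ih.kid s ho
  · intro c c' s h1 h2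
    rw [hnn] at h1 h2
    exact ih.ku s h1 h2
  · intro o o' s h1 h2
    rw [hal] at h1 h2
    exact ih.li s h1 h2
  · intro x s hx hf
    rw [hnn] at hx
    obtain ⟨o, h1, h2⟩ := ih.le s hx hf
    exact ⟨o, (hal _).2 h1, h2⟩
  · intro o o' h1 h2
    rw [hal] at h1 h2
    exact ih.tu h1 h2
  · intro q k hq hT h1 h4
    rw [hnn] at hq
    obtain ⟨o, h1, h2⟩ := ih.te hq hT h1 h4
    exact ⟨o, (hal _).2 h1, h2⟩
  · intro o ho
    rw [hd]
    exact hr1 o ho
  · intro o ho
    rw [hnn] at ho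
    exact ih.tt ho
  · intro o s ho
    rw [hnn] at ho
    exact ih.kk s ho
  · intro o s ho
    rw [hnn] at ho
    exact ih.lf s ho
  · intro o ho
    rw [hnn] at ho
    exact ih.k4 ho
  · intro τ r' o hr ho hk hg
    obtain ⟨r, hr1, e1, e2, e3, e4⟩ := hN hr
    rw [hnn] at ho
    rw [e1] at hg
    rw [e3]
    exact ih.j0 hr1 ho hk hg
  · intro τ r' o hr ho
    obtain ⟨r, hr1, e1, e2, e3, e4⟩ := hN hr
    rw [hd, e1]
    rcases e4 with ⟨e4, _⟩ | ⟨e4, _⟩
    · rw [e4] at ho
      exact ih.pe hr1 ho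
    · rw [e4] at ho
      cases ho
  · intro τ r' o hr ho hk hg hdv
    obtain ⟨r, hr1, e1, e2, e3, e4⟩ := hN hr
    rw [hal] at ho
    rw [e1] at hg
    obtain ⟨h1, h2⟩ := ih.dp hr1 ho hk hg hdv
    rcases e4 with ⟨e4, _⟩ | ⟨e4, e5⟩
    · rw [e4]
      exact ⟨h1.imp id (hrl _), h2.imp id (hrl _)⟩
    · exact ⟨Or.inr (h1.elim (e5 _) (hrl _)), Or.inr (h2.elim (e5 _) (hrl _))⟩
  · intro τ r' hr hτ
    obtain ⟨r, hr1, e1, e2, e3, e4⟩ := hN hr
    rcases e4 with ⟨e4, e5⟩ | ⟨e4, e5⟩
    · rw [e4]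
      exact ih.w2 hr1 (e5 hτ)
    · exact e4
  · intro τ r' hr hdn
    obtain ⟨r, hr1, e1, e2, e3, e4⟩ := hN hr
    rw [hd, hd, e1]
    rw [e2] at hdn
    exact ih.yy hr1 hdn
  · intro τ r' hr hdn
    obtain ⟨r, hr1, e1, e2, e3, e4⟩ := hN hr
    rw [hnn, e1]
    rw [e2] at hdn
    exact ih.n7 hr1 hdn

theorem invB_rec {t : ℕ} {r0 : Rec} (ih : InvB t) (h : RecAt t r0) : InvB (t + 1) := by
  refine invB_static ih h.nn' h.dead' (fun o ho => (h.rld' o).2 (Or.inr ho)) ?_ ?_
  · intro o ho
    rw [h.rld'] at ho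
    rcases ho with ho | ho
    · have := ih.pe h.isr ho
      exact ⟨this.1, this.2.1⟩
    · exact ih.rd ho
  · intro τ r' hr
    obtain ⟨h1, r, hr1, h3⟩ := h.inv hr
    refine ⟨r, hr1, ?_⟩
    rcases h3 with ⟨h4, rfl, rfl⟩ | ⟨h4, rfl⟩
    · exact ⟨rfl, rfl, rfl, Or.inr ⟨rfl, fun o ho => (h.rld' o).2 (Or.inl ho)⟩⟩
    · refine ⟨rfl, rfl, rfl, Or.inl ⟨rfl, fun h5 => ?_⟩⟩
      rw [h.dl'] at h5
      rcases pfx_last h5 with ⟨h6, _⟩ | h6
      · exact absurd h6 h4
      · exact h6

theorem invB_wait {t : ℕ} {r0 : Rec} (ih : InvB t) (h : WaitAt t r0) : InvB (t + 1) := by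
  refine invB_static ih h.nn' h.dead' (fun o ho => (h.rld' o).2 ho) ?_ ?_
  · intro o ho
    rw [h.rld'] at ho
    exact ih.rd ho
  · intro τ r' hr
    rw [h.N'] at hr
    refine ⟨r', hr, rfl, rfl, rfl, Or.inl ⟨rfl, fun h5 => ?_⟩⟩
    rw [h.dl'] at h5
    rcases pfx_last h5 with ⟨_, h6⟩ | h6
    · cases h6
    · exact h6

theorem invB (t : ℕ) : InvB t := by
  induction t with
  | zero => exact invB_zero
  | succ t ih =>
    rcases cases_at t with h | ⟨r, h⟩ | ⟨r, h⟩ | ⟨r, h⟩
    · exact invB_create (invA t) ih h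
    · exact invB_act (invA t) ih h
    · exact invB_rec ih h
    · exact invB_wait ih h

end Pool.Agent.Dim
end

section

/-!
# Invariants of the construction: the matchings
-/

namespace Pool.Agent.Dim

/-- The object is ignored by the node. -/
def lo (r : Rec) (o : ℕ) : Prop := (G o).kd ≠ 0 ∧ (G o).tg ∈ r.low

theorem mem_tset {t : ℕ} {τ : List Bool} {r : Rec} (hA : InvA t) (hr : N t τ = some r) {o : ℕ} :
    o ∈ tset (run t) r ↔ o < r.ck ∧ ¬ dead t o ∧ ¬ lo r o := by
  unfold tset
  rw [List.mem_filter, List.mem_range]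
  constructor
  · rintro ⟨h1, h2⟩
    have h3 : o < nn t := lt_of_lt_of_le h1 (hA.ck2 hr)
    rw [G_eq h3] at h2
    simp only [Bool.and_eq_true, Bool.or_eq_true, Bool.not_eq_true', decide_eq_false_iff_not,
      decide_eq_true_iff] at h2
    exact ⟨h1, h2.1, fun h4 => h2.2.elim h4.1 fun h5 => h5 h4.2⟩
  · rintro ⟨h1, h2, h4⟩
    have h3 : o < nn t := lt_of_lt_of_le h1 (hA.ck2 hr)
    refine ⟨h1, ?_⟩
    rw [G_eq h3]
    simp only [Bool.and_eq_true, Bool.or_eq_true, Bool.not_eq_true', decide_eq_false_iff_not,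
      decide_eq_true_iff]
    refine ⟨h2, ?_⟩
    by_cases h5 : (G o).kd = 0
    · exact Or.inl h5
    · exact Or.inr fun h6 => h4 ⟨h5, h6⟩

theorem mem_nmu {t : ℕ} {r : Rec} {o m : ℕ} : (o, m) ∈ nmu (run t) r ↔
    o ∈ tset (run t) r ∧ m = mof (dl t).length t o := by
  unfold nmu
  rw [List.mem_map, run_s]
  constructor
  · rintro ⟨o', h1, h2⟩
    simp only [Prod.mk.injEq] at h2
    obtain ⟨rfl, rfl⟩ := h2
    exact ⟨h1, rfl⟩
  · rintro ⟨h1, rfl⟩
    exact ⟨o, h1, rfl⟩

theorem mof_spec {e s o : ℕ} (h : mof e s o < s) : shw e s (mof e s o) (2 * o) = true := by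
  unfold mof at h ⊢
  cases hc : ((List.range s).filter fun x => shw e s x (2 * o)).head? with
  | none =>
    rw [hc] at h
    simp at h
  | some a =>
    have := List.mem_of_mem_head? hc
    rw [List.mem_filter] at this
    exact this.2

theorem c1_iff {t : ℕ} {r : Rec} : c1 (run t) r = true ↔
    ∀ o m, (o, m) ∈ nmu (run t) r → m < t ∧ ∀ o', (o', m) ∈ nmu (run t) r → o = o' := by
  unfold c1
  rw [List.all_eq_true]
  constructor
  · intro h o m hm
    have := h _ hm
    rw [run_s, Bool.and_eq_true, decide_eq_true_iff, List.all_eq_true] at this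
    refine ⟨this.1, fun o' ho' => ?_⟩
    have h2 := this.2 _ ho'
    simpa using h2
  · rintro h ⟨o, m⟩ hm
    obtain ⟨h1, h2⟩ := h o m hm
    rw [run_s, Bool.and_eq_true, decide_eq_true_iff, List.all_eq_true]
    refine ⟨h1, ?_⟩
    rintro ⟨o', m'⟩ ho'
    by_cases h3 : m = m'
    · subst h3
      have := h2 o' ho'
      simp [this]
    · simp [h3]

structure InvW (t : ℕ) : Prop where
  k1 : ∀ {τ r o m}, N t τ = some r → (o, m) ∈ r.mu → o < r.ck ∧ ¬ lo r o ∧ ¬ rld t o ∧
    ∃ s, shw τ.length s m (2 * o) = true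
  k2 : ∀ {τ r o m m'}, N t τ = some r → (o, m) ∈ r.mu → (o, m') ∈ r.mu → m = m'
  k3 : ∀ {τ r o o' m}, N t τ = some r → (o, m) ∈ r.mu → (o', m) ∈ r.mu → o = o'
  k4 : ∀ {τ r o o' m m'}, N t τ = some r → (o, m) ∈ r.mu → (o', m') ∈ r.mu → (G o).kd ≠ 0 →
    (G o).kd = (G o').kd → (G o).tg = (G o').tg → o = o'
  a1 : ∀ {τ r o m}, N t τ = some r → τ ++ [true] <+: dl t → (o, m) ∈ r.mu → ¬ dead t o
  a2 : ∀ {τ r o}, N t τ = some r → τ ++ [true] <+: dl t → al t o → o < r.ck → ¬ lo r o →
    ∃ m, (o, m) ∈ r.mu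
  d : ∀ {τ r o m}, N t τ = some r → (o, m) ∈ r.mu → dead t o → ∃ cA cB,
    (al t cA ∧ cA < r.ck ∧ ¬ lo r cA ∧ Dv cA ∧ (G cA).u = o) ∧
    (al t cB ∧ cB < r.ck ∧ ¬ lo r cB ∧ Dv cB ∧ (G cB).v = o) ∧
    (((G o).kd = 1 ∧ (G o).tg = r.p) ∨
      (cB + 1 = cA ∧ dead t (G cB).u ∧ ∃ m', ((G cB).u, m') ∈ r.mu)) ∧
    (((G o).kd = 4 ∧ (G o).tg = r.p) ∨ (dead t (G cA).v ∧ (∃ m', ((G cA).v, m') ∈ r.mu) ∧
      ¬ ((G (G cA).v).kd = 1 ∧ (G (G cA).v).tg = r.p)))

theorem invW_zero : InvW 0 := by
  have h0 : ∀ τ, N 0 τ = none := fun τ => rfl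
  constructor
  all_goals intros
  all_goals simp_all

/-- The node `τ` is separated from the address `ν` by a node `σ`. -/
theorem sep_ck {t : ℕ} (hA : InvA t) {τ ν σ : List Bool} {r r0 : Rec} (hr : N t τ = some r)
    (hr0 : N t ν = some r0) (h1 : σ ++ [false] <+: ν) (h2 : σ = τ ∨ σ ++ [true] <+: τ) :
    r.ck ≤ r0.p := by
  rcases h2 with rfl | h2
  · exact hA.j1 hr hr0 h1
  · obtain ⟨r1, hr1⟩ := hA.clos hr (pfx_of_snoc h2)
    exact (hA.j2 hr1 hr h2).trans (hA.j1 hr1 hr0 h1)

theorem frozen {t : ℕ} {r0 : Rec} (hA : InvA t) (hB : InvB t) (h : ActAt t r0) {τ : List Bool}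
    {r : Rec} (hr : N t τ = some r) (h1 : ¬ τ ++ [true] <+: dl t) (h2 : ¬ dl t <+: τ) {o : ℕ}
    (ho : o ∈ cy t r0) (hck : o < r.ck) : lo r o := by
  have F := actF hA hB h
  rcases sep (dl t) τ with h3 | h3 | ⟨σ, h3, h4⟩ | ⟨σ, h3, h4⟩
  · exact absurd h3 h2
  · exact absurd h3 h1
  · exact (hA.right hr h3 h4).elim
  · have h5 := sep_ck hA hr h.isr h3 h4
    have h6 := hA.ck1 h.isr
    rcases F.mem.1 ho with h7 | h7 | ⟨h7, h8, h9⟩
    · omega
    · omega
    · obtain ⟨τ1, r1, h10, h11, h12⟩ := hA.l2 h.isr h9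
      rcases pfx_cmp h3 h11 with h13 | h13 | h13
      · subst h13
        exact (pfx_absurd h11 h3).elim
      · have h14 := sep_ck hA hr h10 h13 h4
        have h15 := (hB.tt h7.1 h8).1
        omega
      · have h14 : τ1 ++ [true] <+: τ := by
          rcases h4 with rfl | h4
          · exact h13
          · exact h13.trans (pfx_of_snoc h4)
        have h15 := (hA.l1 h10 hr h14).subset
          (List.mem_append_right _ (List.mem_singleton_self _))
        rw [h12] at h15
        exact ⟨h8, h15⟩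

theorem seg_act {t : ℕ} {r0 : Rec} (hA : InvA t) (hB : InvB t) (hW : InvW t) (h : ActAt t r0)
    {τ : List Bool} {r : Rec} (hr : N t τ = some r) (hτ : τ ++ [true] <+: dl t) {o : ℕ}
    (ho : o ∈ cy t r0) (hlo : ¬ lo r o) :
    ∃ cA cB, (nn t ≤ cA ∧ cA < nn (t + 1) ∧ ¬ lo r cA ∧ Dv cA ∧ (G cA).u = o) ∧
    (nn t ≤ cB ∧ cB < nn (t + 1) ∧ ¬ lo r cB ∧ Dv cB ∧ (G cB).v = o) ∧
    (((G o).kd = 1 ∧ (G o).tg = r.p) ∨
      (cB + 1 = cA ∧ (G cB).u ∈ cy t r0 ∧ ∃ m', ((G cB).u, m') ∈ r.mu)) ∧
    (((G o).kd = 4 ∧ (G o).tg = r.p) ∨ ((G cA).v ∈ cy t r0 ∧ (∃ m', ((G cA).v, m') ∈ r.mu) ∧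
      ¬ ((G (G cA).v).kd = 1 ∧ (G (G cA).v).tg = r.p))) := by
  have F := actF hA hB h
  obtain ⟨post, hpost⟩ := hA.l1 hr h.isr hτ
  have hlow : r0.low = r.low ++ r.p :: post := by rw [← hpost]; simp
  have hlen : (cy t r0).length = 4 * r.low.length + 4 * post.length + 6 := by
    rw [cy_eq, midf_length, hlow]
    simp
    omega
  have hF := F.nn
  have hnd0 := hA.nd h.isr
  have hp5 := hA.ck1 h.isr
  have hj2 := hA.j2 hr h.isr hτ
  -- elements of the cycle that are not ignored are keys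
  have hkey : ∀ {x}, x ∈ cy t r0 → ¬ lo r x → ∃ m', (x, m') ∈ r.mu := by
    intro x hx hl
    refine hW.a2 hr hτ (F.al hx) ?_ hl
    rcases F.mem.1 hx with h7 | h7 | ⟨h7, h8, h9⟩
    · omega
    · omega
    · obtain ⟨τ1, r1, h10, h11, h12⟩ := hA.l2 h.isr h9
      have h13 := hB.j0 h10 h7.1 h8 h12.symm
      rcases pfx_cmp hτ h11 with h14 | h14 | h14
      · subst h14
        rw [hr] at h10
        cases h10
        exact h13
      · have := hA.j2 hr h10 h14
        omega
      · have h15 := (hA.l1 h10 hr h14).subset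
          (List.mem_append_right _ (List.mem_singleton_self _))
        rw [h12] at h15
        exact absurd ⟨h8, h15⟩ hl
  -- the kinds and tags of the current objects
  have hcu : ∀ q ∈ r0.low, ∀ k, 1 ≤ k → k ≤ 4 →
      al t (cu t q k) ∧ (G (cu t q k)).kd = k ∧ (G (cu t q k)).tg = q := by
    intro q hq k h1 h4
    obtain ⟨h2, h3⟩ := low_tgs hA h.isr hq
    exact cu_spec hB h2 h3 h1 h4
  have hb := hA.blk h.isr
  have h4 := (fr_iff hb.g4).2.1
  have h5 := (fr_iff hb.g5).2.1
  -- positions inside the segment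
  have hin : ∀ {i x : ℕ}, (cy t r0)[i]? = some x → 2 * r.low.length ≤ i →
      i < 2 * r.low.length + 4 * post.length + 6 → ¬ lo r x := by
    intro i x hi h1 h2 hl
    rw [cy_eq] at hi
    rcases (midf_seg hlow hi).2.1 h1 h2 with h3 | h3 | ⟨q', hq', k, h6, h7, h8⟩
    · rw [h3] at hl; exact hl.1 h4
    · rw [h3] at hl; exact hl.1 h5
    · have hq0 : q' ∈ r0.low := by rw [hlow]; exact List.mem_append_right _ hq'
      have h9 := hcu q' hq0 k h6 h7
      rw [← h8] at h9
      have h10 := hl.2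
      rw [h9.2.2] at h10
      rw [hlow] at hnd0
      exact (List.nodup_append.1 hnd0).2.2 _ h10 _ hq' rfl
  obtain ⟨i, hi, hio⟩ := List.getElem_of_mem ho
  have hio' : (cy t r0)[i]? = some o := by rw [List.getElem?_eq_getElem hi, hio]
  have hout : 2 * r.low.length ≤ i ∧ i < 2 * r.low.length + 4 * post.length + 6 := by
    by_contra hcon
    have h1 : i < 2 * r.low.length ∨ 2 * r.low.length + 4 * post.length + 6 ≤ i := by omega
    have hi2 := hio'
    rw [cy_eq] at hi2
    obtain ⟨q', hq', k, h6, h7, h8⟩ := (midf_seg hlow hi2).1 h1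
    have hq0 : q' ∈ r0.low := by rw [hlow]; exact List.mem_append_left _ hq'
    have h9 := hcu q' hq0 k h6 h7
    rw [← h8] at h9
    exact hlo ⟨by omega, by rw [h9.2.2]; exact hq'⟩
  have hmod : (i + 1) % (cy t r0).length < (cy t r0).length := Nat.mod_lt _ (by omega)
  obtain ⟨e1, e2, e3⟩ := F.dv hio' (List.getElem?_eq_getElem hmod)
  -- the child on the second side
  have hB' : ∃ j, j < (cy t r0).length ∧ (j + 1) % (cy t r0).length = i ∧
      (0 < i → j + 1 = i) := by
    by_cases hi0 : i = 0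
    · refine ⟨(cy t r0).length - 1, by omega, ?_, fun h => by omega⟩
      have : (cy t r0).length - 1 + 1 = (cy t r0).length := by omega
      rw [this, Nat.mod_self, hi0]
    · refine ⟨i - 1, by omega, ?_, fun _ => by omega⟩
      have : i - 1 + 1 = i := by omega
      rw [this, Nat.mod_eq_of_lt hi]
  obtain ⟨j, hj1, hj2', hj3⟩ := hB'
  obtain ⟨f1, f2, f3⟩ := F.dv (List.getElem?_eq_getElem hj1) (by rw [hj2']; exact hio')
  refine ⟨nn t + i, nn t + j, ⟨by omega, by omega, ?_, e1, e2⟩,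
    ⟨by omega, by omega, ?_, f1, f3⟩, ?_, ?_⟩
  · intro hl
    obtain ⟨h6, h7⟩ := e1.tgp true hl.1
    have h6' : (G (G (nn t + i)).u).kd ≠ 0 := h6
    have h7' : (G (G (nn t + i)).u).tg = (G (nn t + i)).tg := h7
    rw [e2] at h6' h7'
    exact hlo ⟨h6', by rw [h7']; exact hl.2⟩
  · intro hl
    obtain ⟨h6, h7⟩ := f1.tgp false hl.1
    have h6' : (G (G (nn t + j)).v).kd ≠ 0 := h6
    have h7' : (G (G (nn t + j)).v).tg = (G (nn t + j)).tg := h7
    rw [f3] at h6' h7'
    exact hlo ⟨h6', by rw [h7']; exact hl.2⟩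
  · by_cases hi2 : i = 2 * r.low.length
    · left
      have hi3 := hio'
      rw [cy_eq] at hi3
      have h6 := (midf_seg hlow hi3).2.2.1 hi2
      have h7 := hcu r.p (by rw [hlow]; simp) 1 (by omega) (by omega)
      rw [← h6] at h7
      exact h7.2
    · right
      have hj4 := hj3 (by omega)
      have h6 : (G (nn t + j)).u ∈ cy t r0 := by rw [f2]; exact List.getElem_mem _
      refine ⟨by omega, h6, hkey h6 ?_⟩
      rw [f2]
      exact hin (List.getElem?_eq_getElem hj1) (by omega) (by omega)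
  · by_cases hi2 : i = 2 * r.low.length + 4 * post.length + 5
    · left
      have hi3 := hio'
      rw [cy_eq] at hi3
      have h6 := (midf_seg hlow hi3).2.2.2 hi2
      have h7 := hcu r.p (by rw [hlow]; simp) 4 (by omega) (by omega)
      rw [← h6] at h7
      exact h7.2
    · right
      have h6 : (G (nn t + i)).v ∈ cy t r0 := by rw [e3]; exact List.getElem_mem _
      have h7 : (i + 1) % (cy t r0).length = i + 1 := Nat.mod_eq_of_lt (by omega)
      refine ⟨h6, hkey h6 ?_, ?_⟩
      · rw [e3]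
        exact hin (List.getElem?_eq_getElem hmod) (by omega) (by omega)
      · rw [e3]
        rintro ⟨h8, h9⟩
        have h10 : 2 * r.low.length < (cy t r0).length := by omega
        have h11 : (midf (cu t) r0.low (r0.p + 4))[2 * r.low.length]? =
            some ((cy t r0)[2 * r.low.length]) := List.getElem?_eq_getElem h10
        have h12 := (midf_seg hlow h11).2.2.1 rfl
        have h13 := hcu r.p (by rw [hlow]; simp) 1 (by omega) (by omega)
        have h14 := hB.tu (F.al (List.getElem_mem hmod)) h13.1 (by rw [h8]; omega)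
          (by rw [h8, h13.2.1]) (by rw [h9, h13.2.2])
        rw [← h12] at h14
        have h15 := (List.Nodup.getElem_inj_iff F.nd (hi := hmod) (hj := h10)).1 h14
        omega

theorem invW_act {t : ℕ} {r0 : Rec} (hA : InvA t) (hB : InvB t) (ih : InvW t) (h : ActAt t r0) :
    InvW (t + 1) := by
  have F := actF hA hB h
  have hd := h.dead'
  have hrl := h.rld'
  have hnil : ∀ σ b, ¬ σ ++ [b] <+: dl (t + 1) := by
    intro σ b hσ
    rw [h.dl'] at hσ
    have := hσ.length_le
    simp at this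
  have hnn : nn t ≤ nn (t + 1) := nn_mono (by omega)
  have hnew : ∀ {o}, nn t ≤ o → o < nn (t + 1) → al (t + 1) o := by
    intro o h1 h2
    refine ⟨h2, fun h3 => ?_⟩
    rw [hd] at h3
    rcases h3 with h3 | h3
    · have := (F.al h3).1; omega
    · have := (hB.dn h3).1; omega
  have hold : ∀ {o}, al t o → o ∉ cy t r0 → al (t + 1) o := by
    intro o h1 h2
    refine ⟨by have := h1.1; omega, fun h3 => ?_⟩
    rw [hd] at h3
    rcases h3 with h3 | h3
    · exact h2 h3
    · exact h1.2 h3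
  constructor
  · intro τ r' o m hr hm
    obtain ⟨r, hr1, h3⟩ := h.inv hr
    rw [hrl]
    rcases h3 with ⟨h4, rfl⟩ | ⟨h4, rfl⟩ | ⟨h4, h5, rfl⟩
    · cases hm
    · obtain ⟨h6, h7⟩ := ih.k1 hr1 hm
      have := hA.ck2 hr1
      exact ⟨by show o < nn (t + 1); omega, h7⟩
    · exact ih.k1 hr1 hm
  · intro τ r' o m m' hr hm hm'
    obtain ⟨r, hr1, h3⟩ := h.inv hr
    rcases h3 with ⟨h4, rfl⟩ | ⟨h4, rfl⟩ | ⟨h4, h5, rfl⟩
    · cases hm
    · exact ih.k2 hr1 hm hm'
    · exact ih.k2 hr1 hm hm'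
  · intro τ r' o m m' hr hm hm'
    obtain ⟨r, hr1, h3⟩ := h.inv hr
    rcases h3 with ⟨h4, rfl⟩ | ⟨h4, rfl⟩ | ⟨h4, h5, rfl⟩
    · cases hm
    · exact ih.k3 hr1 hm hm'
    · exact ih.k3 hr1 hm hm'
  · intro τ r' o o' m m' hr hm hm' e1 e2 e3
    obtain ⟨r, hr1, h3⟩ := h.inv hr
    rcases h3 with ⟨h4, rfl⟩ | ⟨h4, rfl⟩ | ⟨h4, h5, rfl⟩
    · cases hm
    · exact ih.k4 hr1 hm hm' e1 e2 e3
    · exact ih.k4 hr1 hm hm' e1 e2 e3
  · intro τ r o m _ h1
    exact absurd h1 (hnil _ _)
  · intro τ r o _ h1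
    exact absurd h1 (hnil _ _)
  · intro τ r' o m hr hm hdo
    obtain ⟨r, hr1, h3⟩ := h.inv hr
    rcases h3 with ⟨h4, rfl⟩ | ⟨h4, rfl⟩ | ⟨h4, h5, rfl⟩
    · cases hm
    · have h6 := ih.a1 hr1 h4 hm
      have h7 : o ∈ cy t r0 := by
        rw [hd] at hdo
        exact hdo.resolve_right h6
      obtain ⟨cA, cB, ⟨a1, a2, a3, a4, a5⟩, ⟨b1, b2, b3, b4, b5⟩, h10, h11⟩ :=
        seg_act hA hB ih h hr1 h4 h7 (ih.k1 hr1 hm).2.1
      refine ⟨cA, cB, ⟨hnew a1 a2, a2, a3, a4, a5⟩, ⟨hnew b1 b2, b2, b3, b4, b5⟩, ?_, ?_⟩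
      · exact h10.imp id fun ⟨h12, h13, h14⟩ => ⟨h12, (hd _).2 (Or.inl h13), h14⟩
      · exact h11.imp id fun ⟨h13, h14⟩ => ⟨(hd _).2 (Or.inl h13), h14⟩
    · have hfz : ∀ {x}, x < r'.ck → ¬ lo r' x → x ∉ cy t r0 := fun h6 h7 h8 =>
        h7 (frozen hA hB h hr1 h5 h4 h8 h6)
      obtain ⟨h6, h7, h8⟩ := ih.k1 hr1 hm
      have h9 : dead t o := by
        rw [hd] at hdo
        exact hdo.resolve_left (hfz h6 h7)
      obtain ⟨cA, cB, ⟨a1, a2, a3, a4⟩, ⟨b1, b2, b3, b4⟩, h10, h11⟩ := ih.d hr1 hm h9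
      refine ⟨cA, cB, ⟨hold a1 (hfz a2 a3), a2, a3, a4⟩, ⟨hold b1 (hfz b2 b3), b2, b3, b4⟩, ?_, ?_⟩
      · exact h10.imp id fun ⟨h12, h13, h14⟩ => ⟨h12, (hd _).2 (Or.inr h13), h14⟩
      · exact h11.imp id fun ⟨h13, h14⟩ => ⟨(hd _).2 (Or.inr h13), h14⟩

theorem invW_create {t : ℕ} (hA : InvA t) (ih : InvW t) (h : CreateAt t) :
    InvW (t + 1) := by
  have hd := h.dead'
  have hrl := h.rld'
  have hnil : ∀ σ b, ¬ σ ++ [b] <+: dl (t + 1) := by
    intro σ b hσ
    rw [h.dl'] at hσ
    have := hσ.length_le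
    simp at this
  have halo : ∀ {o}, al t o → al (t + 1) o := by
    intro o h1
    exact ⟨by have := h1.1; have := h.nn'; omega, fun h3 => h1.2 ((hd _).1 h3)⟩
  have hold : ∀ {τ r'}, N (t + 1) τ = some r' → (r'.mu = [] ∨
      (∃ r, N t τ = some r ∧ r'.p = r.p ∧ r'.low = r.low ∧ r'.mu = r.mu ∧ r.ck ≤ r'.ck)) := by
    intro τ r' hr
    rcases h.inv hr with ⟨_, rfl⟩ | ⟨_, r, hr1, h3⟩
    · exact Or.inl rfl
    · have h6 := hA.ck2 hr1
      rcases h3 with ⟨_, rfl⟩ | ⟨_, rfl⟩
      · refine Or.inr ⟨r, hr1, rfl, rfl, rfl, ?_⟩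
        show r.ck ≤ nn t + 6
        omega
      · exact Or.inr ⟨r', hr1, rfl, rfl, rfl, le_rfl⟩
  have hlo : ∀ {r r' : Rec} (o : ℕ), r'.low = r.low → (lo r' o ↔ lo r o) := by
    intro r r' o h1
    unfold lo
    rw [h1]
  constructor
  · intro τ r' o m hr hm
    rw [hrl]
    rcases hold hr with h1 | ⟨r, hr1, e1, e2, e3, e4⟩
    · rw [h1] at hm; cases hm
    · rw [e3] at hm
      rw [hlo o e2]
      obtain ⟨h6, h7⟩ := ih.k1 hr1 hm
      exact ⟨by omega, h7⟩
  · intro τ r' o m m' hr hm hm'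
    rcases hold hr with h1 | ⟨r, hr1, e1, e2, e3, e4⟩
    · rw [h1] at hm; cases hm
    · rw [e3] at hm hm'
      exact ih.k2 hr1 hm hm'
  · intro τ r' o m m' hr hm hm'
    rcases hold hr with h1 | ⟨r, hr1, e1, e2, e3, e4⟩
    · rw [h1] at hm; cases hm
    · rw [e3] at hm hm'
      exact ih.k3 hr1 hm hm'
  · intro τ r' o o' m m' hr hm hm' f1 f2 f3
    rcases hold hr with h1 | ⟨r, hr1, e1, e2, e3, e4⟩
    · rw [h1] at hm; cases hm
    · rw [e3] at hm hm'
      exact ih.k4 hr1 hm hm' f1 f2 f3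
  · intro τ r o m _ h1
    exact absurd h1 (hnil _ _)
  · intro τ r o _ h1
    exact absurd h1 (hnil _ _)
  · intro τ r' o m hr hm hdo
    rw [hd] at hdo
    rcases hold hr with h1 | ⟨r, hr1, e1, e2, e3, e4⟩
    · rw [h1] at hm; cases hm
    · rw [e3] at hm ⊢
      rw [e1]
      obtain ⟨cA, cB, ⟨a1, a2, a3, a4⟩, ⟨b1, b2, b3, b4⟩, h10, h11⟩ := ih.d hr1 hm hdo
      refine ⟨cA, cB, ⟨halo a1, by omega, fun h => a3 ((hlo _ e2).1 h), a4⟩,
        ⟨halo b1, by omega, fun h => b3 ((hlo _ e2).1 h), b4⟩, ?_, ?_⟩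
      · exact h10.imp id fun ⟨h12, h13, h14⟩ => ⟨h12, (hd _).2 h13, h14⟩
      · exact h11.imp id fun ⟨h13, h14⟩ => ⟨(hd _).2 h13, h14⟩

theorem invW_rec {t : ℕ} {r0 : Rec} (hA : InvA t) (hB : InvB t) (ih : InvW t) (h : RecAt t r0) :
    InvW (t + 1) := by
  have hd := h.dead'
  have hrl := h.rld'
  have hc1 : c1 (run t) r0 = true := by
    have := h.rcv
    unfold recov at this
    simp only [Bool.and_eq_true] at this
    exact this.1
  rw [c1_iff] at hc1
  have hal : ∀ o, al (t + 1) o ↔ al t o := by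
    intro o
    unfold al
    rw [h.nn', hd]
  -- released objects are not keys
  have hpk : ∀ {τ r o m}, N t τ = some r → τ ≠ dl t → ¬ dl t ++ [false] <+: τ →
      (o, m) ∈ r.mu → o ∉ r0.pend := by
    intro τ r o m hr h1 h2 hm ho
    obtain ⟨h3, h4, h5⟩ := hB.pe h.isr ho
    obtain ⟨h6, h7, -⟩ := ih.k1 hr hm
    rcases sep (dl t) τ with h8 | h8 | ⟨σ, h8, h9⟩ | ⟨σ, h8, h9⟩
    · obtain ⟨b, hb⟩ := pfx_snoc h8 (fun h => h1 h.symm)
      cases b with
      | false => exact h2 hb
      | true =>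
        have h10 := (hA.l1 h.isr hr hb).subset
          (List.mem_append_right _ (List.mem_singleton_self _))
        exact h7 ⟨h4, by rw [h5]; exact h10⟩
    · exact ih.a1 hr h8 hm h3
    · exact hA.right hr h8 h9
    · have h10 := sep_ck hA hr h.isr h8 h9
      have h11 := (hB.tt (hB.dn h3).1 h4).1
      omega
  constructor
  · intro τ r' o m hr hm
    rw [hrl]
    obtain ⟨h1, r, hr1, h3⟩ := h.inv hr
    rcases h3 with ⟨rfl, rfl, rfl⟩ | ⟨h4, rfl⟩
    · have hm' : (o, m) ∈ nmu (run t) r := hm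
      obtain ⟨h5, h6⟩ := mem_nmu.1 hm'
      obtain ⟨h7, h8, h9⟩ := (mem_tset hA hr1).1 h5
      refine ⟨h7, h9, ?_, t, ?_⟩
      · rintro (h10 | h10)
        · exact h8 (hB.pe hr1 h10).1
        · exact h8 (hB.rd h10).1
      · have h10 := (hc1 o m hm').1
        rw [h6] at h10 ⊢
        exact mof_spec h10
    · obtain ⟨h5, h6, h7, h8⟩ := ih.k1 hr1 hm
      refine ⟨h5, h6, ?_, h8⟩
      rintro (h10 | h10)
      · exact hpk hr1 h4 h1 hm h10
      · exact h7 h10
  · intro τ r' o m m' hr hm hm'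
    obtain ⟨h1, r, hr1, h3⟩ := h.inv hr
    rcases h3 with ⟨rfl, rfl, rfl⟩ | ⟨h4, rfl⟩
    · exact (mem_nmu.1 hm).2.trans (mem_nmu.1 hm').2.symm
    · exact ih.k2 hr1 hm hm'
  · intro τ r' o o' m hr hm hm'
    obtain ⟨h1, r, hr1, h3⟩ := h.inv hr
    rcases h3 with ⟨rfl, rfl, rfl⟩ | ⟨h4, rfl⟩
    · exact (hc1 o m hm).2 o' hm'
    · exact ih.k3 hr1 hm hm'
  · intro τ r' o o' m m' hr hm hm' f1 f2 f3
    obtain ⟨h1, r, hr1, h3⟩ := h.inv hr
    rcases h3 with ⟨rfl, rfl, rfl⟩ | ⟨h4, rfl⟩
    · have h5 := (mem_tset hA hr1).1 (mem_nmu.1 hm).1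
      have h6 := (mem_tset hA hr1).1 (mem_nmu.1 hm').1
      have h7 := hA.ck2 hr1
      exact hB.tu ⟨lt_of_lt_of_le h5.1 h7, h5.2.1⟩ ⟨lt_of_lt_of_le h6.1 h7, h6.2.1⟩ f1 f2 f3
    · exact ih.k4 hr1 hm hm' f1 f2 f3
  · intro τ r' o m hr hτ hm
    rw [hd]
    rw [h.dl'] at hτ
    obtain ⟨h1, r, hr1, h3⟩ := h.inv hr
    rcases h3 with ⟨rfl, rfl, rfl⟩ | ⟨h4, rfl⟩
    · exact ((mem_tset hA hr1).1 (mem_nmu.1 hm).1).2.1
    · rcases pfx_last hτ with ⟨h6, _⟩ | h6
      · exact absurd h6 h4
      · exact ih.a1 hr1 h6 hm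
  · intro τ r' o hr hτ ho hck hl
    rw [hal] at ho
    rw [h.dl'] at hτ
    obtain ⟨h1, r, hr1, h3⟩ := h.inv hr
    rcases h3 with ⟨rfl, rfl, rfl⟩ | ⟨h4, rfl⟩
    · exact ⟨_, mem_nmu.2 ⟨(mem_tset hA hr1).2 ⟨hck, ho.2, hl⟩, rfl⟩⟩
    · rcases pfx_last hτ with ⟨h6, _⟩ | h6
      · exact absurd h6 h4
      · exact ih.a2 hr1 h6 ho hck hl
  · intro τ r' o m hr hm hdo
    rw [hd] at hdo
    obtain ⟨h1, r, hr1, h3⟩ := h.inv hr
    rcases h3 with ⟨rfl, rfl, rfl⟩ | ⟨h4, rfl⟩
    · exact absurd hdo ((mem_tset hA hr1).1 (mem_nmu.1 hm).1).2.1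
    · obtain ⟨cA, cB, ⟨a1, a2⟩, ⟨b1, b2⟩, h10, h11⟩ := ih.d hr1 hm hdo
      refine ⟨cA, cB, ⟨(hal _).2 a1, a2⟩, ⟨(hal _).2 b1, b2⟩, ?_, ?_⟩
      · exact h10.imp id fun ⟨h12, h13, h14⟩ => ⟨h12, (hd _).2 h13, h14⟩
      · exact h11.imp id fun ⟨h13, h14⟩ => ⟨(hd _).2 h13, h14⟩

theorem invW_wait {t : ℕ} {r0 : Rec} (ih : InvW t) (h : WaitAt t r0) : InvW (t + 1) := by
  have hd := h.dead'
  have hrl := h.rld'
  have hal : ∀ o, al (t + 1) o ↔ al t o := by
    intro o
    unfold al
    rw [h.nn', hd]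
  have hdl : ∀ {τ : List Bool}, τ ++ [true] <+: dl (t + 1) → τ ++ [true] <+: dl t := by
    intro τ hτ
    rw [h.dl'] at hτ
    rcases pfx_last hτ with ⟨_, h6⟩ | h6
    · cases h6
    · exact h6
  constructor
  · intro τ r o m hr hm
    rw [h.N'] at hr
    rw [hrl]
    exact ih.k1 hr hm
  · intro τ r o m m' hr
    rw [h.N'] at hr
    exact ih.k2 hr
  · intro τ r o m m' hr
    rw [h.N'] at hr
    exact ih.k3 hr
  · intro τ r o o' m m' hr
    rw [h.N'] at hr
    exact ih.k4 hr
  · intro τ r o m hr hτ hm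
    rw [h.N'] at hr
    rw [hd]
    exact ih.a1 hr (hdl hτ) hm
  · intro τ r o hr hτ ho
    rw [h.N'] at hr
    rw [hal] at ho
    exact ih.a2 hr (hdl hτ) ho
  · intro τ r o m hr hm hdo
    rw [h.N'] at hr
    rw [hd] at hdo
    obtain ⟨cA, cB, ⟨a1, a2⟩, ⟨b1, b2⟩, h10, h11⟩ := ih.d hr hm hdo
    refine ⟨cA, cB, ⟨(hal _).2 a1, a2⟩, ⟨(hal _).2 b1, b2⟩, ?_, ?_⟩
    · exact h10.imp id fun ⟨h12, h13, h14⟩ => ⟨h12, (hd _).2 h13, h14⟩
    · exact h11.imp id fun ⟨h13, h14⟩ => ⟨(hd _).2 h13, h14⟩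

theorem invW (t : ℕ) : InvW t := by
  induction t with
  | zero => exact invW_zero
  | succ t ih =>
    rcases cases_at t with h | ⟨r, h⟩ | ⟨r, h⟩ | ⟨r, h⟩
    · exact invW_create (invA t) ih h
    · exact invW_act (invA t) (invB t) ih h
    · exact invW_rec (invA t) (invB t) ih h
    · exact invW_wait ih h

end Pool.Agent.Dim
end

section

/-!
# The limit of the construction
-/

namespace Pool.Agent.Dim

/-- The roots: the fresh objects. -/
def Rt (x : ℕ) : Prop := ∃ t, x < nn t ∧ Fr x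

/-- The tags. -/
def TG (q : ℕ) : Prop := ∃ t, q < nn t ∧ Tgs q

/-- The released objects. -/
def RL (o : ℕ) : Prop := ∃ t, rld t o

/-- The labels that occur everywhere. -/
def CC (n : ℕ) : Prop := (n % 2 = 0 ∧ RL (n / 2)) ∨ (n % 2 = 1 ∧ TG (n / 2))

/-- The labels of the out-edges of the roots, on each side. -/
def Out (s : Bool) (x n : ℕ) : Prop :=
  (n % 2 = 0 ∧ (RL (n / 2) ∨
    ∃ t o, o < nn t ∧ loc s o = x ∧ (n / 2 = o ∨ n / 2 = (G o).u ∨ n / 2 = (G o).v))) ∨
  (n % 2 = 1 ∧ TG (n / 2) ∧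
    ∃ t o, o < nn t ∧ loc s o = x ∧ ¬ ((G o).kd ≠ 0 ∧ (G o).tg = n / 2))

end Pool.Agent.Dim
end

section

/-!
# The step function is primitive recursive
-/

namespace Pool.Agent.Dim

open Nat.Partrec (Code)
open Nat.Partrec.Code
open Pool.Agent.SJT (primrec_filter primrec_all primrec_any)

theorem prim_mem : Primrec fun p : List ℕ × ℕ => decide (p.2 ∈ p.1) := by
  have h : Primrec fun p : List ℕ × ℕ => p.1.any fun x => decide (x = p.2) :=
    primrec_any Primrec.fst ((Primrec.eq.decide).comp Primrec.snd (Primrec.snd.comp Primrec.fst))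
  refine h.of_eq fun p => ?_
  rw [Bool.eq_iff_iff]
  simp

theorem prim_pf : Primrec fun p : List Bool × List Bool => pf p.1 p.2 :=
  (Primrec.eq.decide).comp (Primrec.list_take.comp (Primrec.list_length.comp Primrec.fst)
    Primrec.snd) Primrec.fst

theorem lk_eq (l : List (List Bool × Rec)) (τ : List Bool) :
    lk l τ = l.foldr (fun q acc => bif decide (q.1 = τ) then some q.2 else acc) none := by
  induction l with
  | nil => rfl
  | cons q l ih =>
    rw [List.foldr_cons, ← ih, lk]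
    by_cases h : q.1 = τ <;> simp [h]

theorem prim_lk : Primrec fun p : List (List Bool × Rec) × List Bool => lk p.1 p.2 := by
  have h : Primrec fun p : List (List Bool × Rec) × List Bool =>
      p.1.foldr (fun q acc => bif decide (q.1 = p.2) then some q.2 else acc) none := by
    refine Primrec.list_foldr
      (h := fun (p : List (List Bool × Rec) × List Bool) (q : (List Bool × Rec) × Option Rec) =>
        bif decide (q.1.1 = p.2) then some q.1.2 else q.2) Primrec.fst (Primrec.const none) ?_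
    refine Primrec.cond ?_ ?_ ?_
    · exact (Primrec.eq.decide).comp (Primrec.fst.comp (Primrec.fst.comp Primrec.snd))
        (Primrec.snd.comp Primrec.fst)
    · exact Primrec.option_some.comp (Primrec.snd.comp (Primrec.fst.comp Primrec.snd))
    · exact Primrec.snd.comp Primrec.snd
  exact h.of_eq fun p => (lk_eq p.1 p.2).symm

theorem prim_fr : Primrec fun p : ℕ × ℕ × ℕ => fr p.1 p.2.1 p.2.2 :=
  Ob.prim_mk Primrec.fst Primrec.fst Primrec.fst Primrec.fst (Primrec.fst.comp Primrec.snd)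
    (Primrec.snd.comp Primrec.snd)

theorem prim_gob : Primrec fun p : List Ob × ℕ => gob p.1 p.2 :=
  (Primrec.list_getD (fr 0 0 0)).comp Primrec.fst Primrec.snd

theorem prim_ckd : Primrec ckd :=
  Primrec.ite (Primrec.eq.comp Primrec.id (Primrec.const 1)) (Primrec.const 1)
    (Primrec.ite (Primrec.eq.comp Primrec.id (Primrec.const 3)) (Primrec.const 4)
      (Primrec.const 0))

theorem prim_child : Primrec fun p : List Ob × ℕ × ℕ => child p.1 p.2.1 p.2.2 := by
  have h1 : Primrec fun p : List Ob × ℕ × ℕ => gob p.1 p.2.1 :=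
    prim_gob.comp (Primrec.fst.pair (Primrec.fst.comp Primrec.snd))
  have h2 : Primrec fun p : List Ob × ℕ × ℕ => gob p.1 p.2.2 :=
    prim_gob.comp (Primrec.fst.pair (Primrec.snd.comp Primrec.snd))
  exact Ob.prim_mk (Ob.prim_a.comp h1) (Ob.prim_b.comp h2) (Primrec.fst.comp Primrec.snd)
    (Primrec.snd.comp Primrec.snd) (prim_ckd.comp (Ob.prim_kd.comp h1)) (Ob.prim_tg.comp h1)

theorem prim_cur : Primrec fun p : (List Ob × List ℕ) × ℕ × ℕ => cur p.1.1 p.1.2 p.2.1 p.2.2 := by
  refine Primrec.list_headI.comp (primrec_filter (Primrec.list_range.comp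
    (Primrec.list_length.comp (Primrec.fst.comp Primrec.fst))) ?_)
  have h1 : Primrec fun z : ((List Ob × List ℕ) × ℕ × ℕ) × ℕ => gob z.1.1.1 z.2 :=
    prim_gob.comp ((Primrec.fst.comp (Primrec.fst.comp Primrec.fst)).pair Primrec.snd)
  refine Primrec.and.comp ?_ (Primrec.and.comp ?_ ?_)
  · exact Primrec.not.comp (prim_mem.comp ((Primrec.snd.comp (Primrec.fst.comp Primrec.fst)).pair
      Primrec.snd))
  · exact (Primrec.eq.decide).comp (Ob.prim_kd.comp h1)
      (Primrec.snd.comp (Primrec.snd.comp Primrec.fst))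
  · exact (Primrec.eq.decide).comp (Ob.prim_tg.comp h1)
      (Primrec.fst.comp (Primrec.snd.comp Primrec.fst))

theorem prim_mid : Primrec fun p : (List Ob × List ℕ) × List ℕ × ℕ =>
    mid p.1.1 p.1.2 p.2.1 p.2.2 := by
  refine Primrec.list_foldr
    (h := fun (p : (List Ob × List ℕ) × List ℕ × ℕ) (z : ℕ × List ℕ) =>
      cur p.1.1 p.1.2 z.1 1 :: cur p.1.1 p.1.2 z.1 2 ::
        (z.2 ++ [cur p.1.1 p.1.2 z.1 3, cur p.1.1 p.1.2 z.1 4]))
    (Primrec.fst.comp Primrec.snd) ?_ ?_
  · exact Primrec.list_cons.comp (Primrec.snd.comp Primrec.snd)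
      (Primrec.list_cons.comp (Primrec.succ.comp (Primrec.snd.comp Primrec.snd))
        (Primrec.const []))
  · have hc : ∀ k : ℕ, Primrec fun z : ((List Ob × List ℕ) × List ℕ × ℕ) × ℕ × List ℕ =>
        cur z.1.1.1 z.1.1.2 z.2.1 k := fun k =>
      prim_cur.comp ((Primrec.fst.comp Primrec.fst).pair
        ((Primrec.fst.comp Primrec.snd).pair (Primrec.const k)))
    exact Primrec.list_cons.comp (hc 1) (Primrec.list_cons.comp (hc 2)
      (Primrec.list_append.comp (Primrec.snd.comp Primrec.snd)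
        (Primrec.list_cons.comp (hc 3) (Primrec.list_cons.comp (hc 4) (Primrec.const [])))))

theorem prim_shw : Primrec fun p : (ℕ × ℕ) × ℕ × ℕ => shw p.1.1 p.1.2 p.2.1 p.2.2 := by
  refine primrec_any (Primrec.list_range.comp (Primrec.snd.comp Primrec.fst)) ?_
  refine (Primrec.eq.decide).comp ?_ (Primrec.const (some 1))
  refine primrec_evaln.comp (Primrec.pair (Primrec.pair ?_ ?_) ?_)
  · exact Primrec.snd.comp (Primrec.fst.comp Primrec.fst)
  · exact (Primrec.ofNat Code).comp (Primrec.fst.comp (Primrec.fst.comp Primrec.fst))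
  · exact Primrec₂.natPair.comp (Primrec.snd.comp (Primrec.snd.comp Primrec.fst))
      (Primrec₂.natPair.comp (Primrec.fst.comp (Primrec.snd.comp Primrec.fst)) Primrec.snd)

theorem prim_rdy : Primrec fun p : (ℕ × ℕ) × ℕ => rdy p.1.1 p.1.2 p.2 := by
  refine (Primrec.eq.decide).comp ?_ (Primrec.option_some.comp Primrec.snd)
  refine primrec_evaln.comp (Primrec.pair (Primrec.pair ?_ ?_) ?_)
  · exact Primrec.snd.comp Primrec.fst
  · exact (Primrec.ofNat Code).comp (Primrec.fst.comp Primrec.fst)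
  · exact Primrec.snd

theorem prim_create : Primrec create := by
  have hn : Primrec fun S : St => S.obs.length := Primrec.list_length.comp St.prim_obs
  have hadd : ∀ k : ℕ, Primrec fun S : St => S.obs.length + k := fun k =>
    Primrec.nat_add.comp hn (Primrec.const k)
  have hf : ∀ k j : ℕ, Primrec fun S : St => fr (S.obs.length + k) j S.obs.length := fun k j =>
    prim_fr.comp ((hadd k).pair ((Primrec.const j).pair hn))
  have hf0 : ∀ k : ℕ, Primrec fun S : St => fr (S.obs.length + k) 0 0 := fun k =>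
    prim_fr.comp ((hadd k).pair ((Primrec.const 0).pair (Primrec.const 0)))
  refine St.prim_mk ?_ St.prim_dead St.prim_rld ?_ (Primrec.const []) (Primrec.const [])
    (Primrec.succ.comp St.prim_s)
  · exact Primrec.list_append.comp St.prim_obs (Primrec.list_cons.comp (hf 0 1)
      (Primrec.list_cons.comp (hf 1 4) (Primrec.list_cons.comp (hf 2 2)
        (Primrec.list_cons.comp (hf 3 3) (Primrec.list_cons.comp (hf0 4)
          (Primrec.list_cons.comp (hf0 5) (Primrec.const [])))))))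
  · refine Primrec.list_cons.comp (Primrec.pair St.prim_dl ?_) ?_
    · exact Rec.prim_mk hn (Primrec.const false) (hadd 6) (Primrec.const []) (Primrec.const [])
        (Primrec.const 0) St.prim_lows
    · refine Primrec.list_map St.prim_nodes ?_
      have hr : Primrec fun z : St × List Bool × Rec => z.2.2 := Primrec.snd.comp Primrec.snd
      refine Primrec.ite ?_ ?_ Primrec.snd
      · refine Primrec.eq.comp ?_ (Primrec.const true)
        exact prim_pf.comp ((Primrec.list_append.comp (Primrec.fst.comp Primrec.snd)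
          (Primrec.const [true])).pair (St.prim_dl.comp Primrec.fst))
      · exact (Primrec.fst.comp Primrec.snd).pair (Rec.prim_mk (Rec.prim_p.comp hr)
          (Rec.prim_dn.comp hr) ((hadd 6).comp Primrec.fst) (Rec.prim_mu.comp hr)
          (Rec.prim_pend.comp hr) (Rec.prim_cnt.comp hr) (Rec.prim_low.comp hr))

theorem prim_cyc : Primrec fun z : St × Rec => cyc z.1 z.2 :=
  prim_mid.comp (((St.prim_obs.comp Primrec.fst).pair (St.prim_dead.comp Primrec.fst)).pair
    ((Rec.prim_low.comp Primrec.snd).pair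
      (Primrec.nat_add.comp (Rec.prim_p.comp Primrec.snd) (Primrec.const 4))))

theorem prim_cycn : Primrec fun z : St × Rec => (cyc z.1 z.2).length :=
  Primrec.list_length.comp prim_cyc

theorem prim_newobs : Primrec fun z : St × Rec => newobs z.1 z.2 := by
  refine Primrec.list_append.comp ?_ ?_
  · refine Primrec.list_map (Primrec.list_range.comp prim_cycn) ?_
    refine prim_child.comp ((St.prim_obs.comp (Primrec.fst.comp Primrec.fst)).pair
      (Primrec.pair ?_ ?_))
    · exact (Primrec.list_getD 0).comp (prim_cyc.comp Primrec.fst) Primrec.snd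
    · exact (Primrec.list_getD 0).comp (prim_cyc.comp Primrec.fst)
        (Primrec.nat_mod.comp (Primrec.succ.comp Primrec.snd) (prim_cycn.comp Primrec.fst))
  · have hlow : Primrec fun z : St × Rec => z.2.low := Rec.prim_low.comp Primrec.snd
    refine Primrec.list_map (Primrec.list_range.comp (Primrec.nat_mul.comp (Primrec.const 2)
      (Primrec.list_length.comp hlow))) ?_
    refine prim_fr.comp (Primrec.pair ?_ (Primrec.pair ?_ ?_))
    · exact Primrec.nat_add.comp (Primrec.nat_add.comp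
        (Primrec.list_length.comp (St.prim_obs.comp (Primrec.fst.comp Primrec.fst)))
        (prim_cycn.comp Primrec.fst)) Primrec.snd
    · exact Primrec.nat_add.comp (Primrec.const 2)
        (Primrec.nat_mod.comp Primrec.snd (Primrec.const 2))
    · exact (Primrec.list_getD 0).comp (hlow.comp Primrec.fst)
        (Primrec.nat_div.comp Primrec.snd (Primrec.const 2))

theorem prim_newn : Primrec fun z : St × Rec => newn z.1 z.2 :=
  Primrec.nat_add.comp (Primrec.nat_add.comp (Primrec.list_length.comp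
    (St.prim_obs.comp Primrec.fst)) prim_cycn) (Primrec.nat_mul.comp (Primrec.const 2)
      (Primrec.list_length.comp (Rec.prim_low.comp Primrec.snd)))

theorem prim_act : Primrec fun z : St × Rec => act z.1 z.2 := by
  refine St.prim_mk ?_ ?_ (St.prim_rld.comp Primrec.fst) ?_ (Primrec.const []) (Primrec.const [])
    (Primrec.succ.comp (St.prim_s.comp Primrec.fst))
  · exact Primrec.list_append.comp (St.prim_obs.comp Primrec.fst) prim_newobs
  · exact Primrec.list_append.comp prim_cyc (St.prim_dead.comp Primrec.fst)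
  · refine Primrec.list_map (primrec_filter (St.prim_nodes.comp Primrec.fst) ?_) ?_
    · refine Primrec.or.comp (Primrec.not.comp ?_) ?_
      · exact prim_pf.comp ((St.prim_dl.comp (Primrec.fst.comp Primrec.fst)).pair
          (Primrec.fst.comp Primrec.snd))
      · exact (Primrec.eq.decide).comp (Primrec.fst.comp Primrec.snd)
          (St.prim_dl.comp (Primrec.fst.comp Primrec.fst))
    · have hS : Primrec fun z : (St × Rec) × List Bool × Rec => z.1.1 :=
        Primrec.fst.comp Primrec.fst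
      have ha : Primrec fun z : (St × Rec) × List Bool × Rec => z.2.1 :=
        Primrec.fst.comp Primrec.snd
      have hr : Primrec fun z : (St × Rec) × List Bool × Rec => z.2.2 :=
        Primrec.snd.comp Primrec.snd
      have hc : ∀ k : ℕ, Primrec fun z : (St × Rec) × List Bool × Rec =>
          cur z.1.1.obs z.1.1.dead z.2.2.p k := fun k =>
        prim_cur.comp (((St.prim_obs.comp hS).pair (St.prim_dead.comp hS)).pair
          ((Rec.prim_p.comp hr).pair (Primrec.const k)))
      refine Primrec.ite ?_ ?_ (Primrec.ite ?_ ?_ Primrec.snd)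
      · exact Primrec.eq.comp ha (St.prim_dl.comp hS)
      · exact ha.pair (Rec.prim_mk (Rec.prim_p.comp hr) (Primrec.const true)
          (Rec.prim_ck.comp hr) (Primrec.const []) (Rec.prim_pend.comp hr)
          (Rec.prim_cnt.comp hr) (Rec.prim_low.comp hr))
      · exact Primrec.eq.comp (prim_pf.comp ((Primrec.list_append.comp ha
          (Primrec.const [true])).pair (St.prim_dl.comp hS))) (Primrec.const true)
      · exact ha.pair (Rec.prim_mk (Rec.prim_p.comp hr) (Rec.prim_dn.comp hr)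
          (prim_newn.comp Primrec.fst) (Rec.prim_mu.comp hr)
          (Primrec.list_cons.comp (hc 1) (Primrec.list_cons.comp (hc 2)
            (Primrec.list_cons.comp (hc 3) (Primrec.list_cons.comp (hc 4) (Primrec.const [])))))
          (Rec.prim_cnt.comp hr) (Rec.prim_low.comp hr))

theorem prim_tset : Primrec fun z : St × Rec => tset z.1 z.2 := by
  refine primrec_filter (Primrec.list_range.comp (Rec.prim_ck.comp Primrec.snd)) ?_
  have hg : Primrec fun z : (St × Rec) × ℕ => gob z.1.1.obs z.2 :=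
    prim_gob.comp ((St.prim_obs.comp (Primrec.fst.comp Primrec.fst)).pair Primrec.snd)
  refine Primrec.and.comp (Primrec.not.comp (prim_mem.comp
    ((St.prim_dead.comp (Primrec.fst.comp Primrec.fst)).pair Primrec.snd))) ?_
  refine Primrec.or.comp ((Primrec.eq.decide).comp (Ob.prim_kd.comp hg) (Primrec.const 0)) ?_
  exact Primrec.not.comp (prim_mem.comp ((Rec.prim_low.comp (Primrec.snd.comp Primrec.fst)).pair
    (Ob.prim_tg.comp hg)))

theorem prim_mof : Primrec fun p : (ℕ × ℕ) × ℕ => mof p.1.1 p.1.2 p.2 := by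
  refine Primrec.option_getD.comp (Primrec.list_head?.comp (primrec_filter
    (Primrec.list_range.comp (Primrec.snd.comp Primrec.fst)) ?_)) (Primrec.snd.comp Primrec.fst)
  exact prim_shw.comp ((Primrec.fst.comp Primrec.fst).pair (Primrec.snd.pair
    (Primrec.nat_mul.comp (Primrec.const 2) (Primrec.snd.comp Primrec.fst))))

theorem prim_nmu : Primrec fun z : St × Rec => nmu z.1 z.2 := by
  refine Primrec.list_map prim_tset ?_
  have hS : Primrec fun z : (St × Rec) × ℕ => z.1.1 := Primrec.fst.comp Primrec.fst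
  exact Primrec.pair Primrec.snd (prim_mof.comp (((Primrec.list_length.comp
    (St.prim_dl.comp hS)).pair (St.prim_s.comp hS)).pair Primrec.snd))

theorem prim_shwS {α : Type*} [Primcodable α] {S : α → St} {x k : α → ℕ} (hS : Primrec S)
    (hx : Primrec x) (hk : Primrec k) :
    Primrec fun a => shw (S a).dl.length (S a).s (x a) (k a) :=
  prim_shw.comp (((Primrec.list_length.comp (St.prim_dl.comp hS)).pair (St.prim_s.comp hS)).pair
    (hx.pair hk))

theorem prim_c1 : Primrec fun z : St × Rec => c1 z.1 z.2 := by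
  refine primrec_all prim_nmu ?_
  refine Primrec.and.comp ?_ ?_
  · exact (Primrec.nat_lt.decide).comp (Primrec.snd.comp Primrec.snd)
      (St.prim_s.comp (Primrec.fst.comp Primrec.fst))
  · refine primrec_all (prim_nmu.comp Primrec.fst) ?_
    refine Primrec.or.comp (Primrec.not.comp ?_) ?_
    · exact (Primrec.eq.decide).comp (Primrec.snd.comp (Primrec.snd.comp Primrec.fst))
        (Primrec.snd.comp Primrec.snd)
    · exact (Primrec.eq.decide).comp (Primrec.fst.comp (Primrec.snd.comp Primrec.fst))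
        (Primrec.fst.comp Primrec.snd)

theorem prim_c2 : Primrec fun z : St × Rec => c2 z.1 z.2 := by
  refine primrec_all (Rec.prim_mu.comp Primrec.snd) ?_
  refine primrec_any (prim_nmu.comp Primrec.fst) ?_
  have hq : Primrec fun w : ((St × Rec) × ℕ × ℕ) × ℕ × ℕ => w.2.1 := Primrec.fst.comp Primrec.snd
  have hz : Primrec fun w : ((St × Rec) × ℕ × ℕ) × ℕ × ℕ => w.1.2.1 :=
    Primrec.fst.comp (Primrec.snd.comp Primrec.fst)
  have hg : Primrec fun w : ((St × Rec) × ℕ × ℕ) × ℕ × ℕ => gob w.1.1.1.obs w.2.1 :=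
    prim_gob.comp ((St.prim_obs.comp (Primrec.fst.comp (Primrec.fst.comp Primrec.fst))).pair hq)
  refine Primrec.and.comp ?_ (Primrec.or.comp ?_ (Primrec.or.comp ?_ ?_))
  · exact (Primrec.eq.decide).comp (Primrec.snd.comp Primrec.snd)
      (Primrec.snd.comp (Primrec.snd.comp Primrec.fst))
  · exact (Primrec.eq.decide).comp hq hz
  · exact (Primrec.eq.decide).comp (Ob.prim_u.comp hg) hz
  · exact (Primrec.eq.decide).comp (Ob.prim_v.comp hg) hz

theorem prim_c3 : Primrec fun z : St × Rec => c3 z.1 z.2 := by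
  refine primrec_all prim_nmu ?_
  have hg : Primrec fun w : (St × Rec) × ℕ × ℕ => gob w.1.1.obs w.2.1 :=
    prim_gob.comp ((St.prim_obs.comp (Primrec.fst.comp Primrec.fst)).pair
      (Primrec.fst.comp Primrec.snd))
  refine Primrec.or.comp ((Primrec.eq.decide).comp (Ob.prim_kd.comp hg) (Primrec.const 0))
    (Primrec.not.comp ?_)
  exact prim_shwS (Primrec.fst.comp Primrec.fst) (Primrec.snd.comp Primrec.snd)
    (Primrec.nat_double_succ.comp (Ob.prim_tg.comp hg))

theorem prim_c4 : Primrec fun z : St × Rec => c4 z.1 z.2 := by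
  refine primrec_all prim_nmu ?_
  have hg : Primrec fun w : (St × Rec) × ℕ × ℕ => gob w.1.1.obs w.2.1 :=
    prim_gob.comp ((St.prim_obs.comp (Primrec.fst.comp Primrec.fst)).pair
      (Primrec.fst.comp Primrec.snd))
  have hp : Primrec fun w : (St × Rec) × ℕ × ℕ => w.1.2.p :=
    Rec.prim_p.comp (Primrec.snd.comp Primrec.fst)
  refine Primrec.or.comp (Primrec.and.comp (Primrec.not.comp
    ((Primrec.eq.decide).comp (Ob.prim_kd.comp hg) (Primrec.const 0)))
    ((Primrec.eq.decide).comp (Ob.prim_tg.comp hg) hp)) ?_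
  exact prim_shwS (Primrec.fst.comp Primrec.fst) (Primrec.snd.comp Primrec.snd)
    (Primrec.nat_double_succ.comp hp)

theorem prim_c5 : Primrec fun z : St × Rec => c5 z.1 z.2 := by
  refine primrec_all (Primrec.list_range.comp (Rec.prim_cnt.comp Primrec.snd)) ?_
  refine Primrec.or.comp ?_ ?_
  · exact prim_shwS (Primrec.fst.comp Primrec.fst) Primrec.snd
      (Primrec.nat_double_succ.comp (Rec.prim_p.comp (Primrec.snd.comp Primrec.fst)))
  · refine primrec_any (prim_nmu.comp Primrec.fst) ?_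
    exact (Primrec.eq.decide).comp (Primrec.snd.comp Primrec.snd)
      (Primrec.snd.comp Primrec.fst)

theorem prim_recov : Primrec fun z : St × Rec => recov z.1 z.2 :=
  Primrec.and.comp prim_c1 (Primrec.and.comp prim_c2 (Primrec.and.comp prim_c3
    (Primrec.and.comp prim_c4 prim_c5)))

theorem prim_recover : Primrec fun z : St × Rec => recover z.1 z.2 := by
  have hS : Primrec fun z : St × Rec => z.1 := Primrec.fst
  refine St.prim_mk (St.prim_obs.comp hS) (St.prim_dead.comp hS) ?_ ?_ ?_ ?_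
    (Primrec.succ.comp (St.prim_s.comp hS))
  · exact Primrec.list_append.comp (Rec.prim_pend.comp Primrec.snd) (St.prim_rld.comp hS)
  · refine Primrec.list_map (primrec_filter (St.prim_nodes.comp hS) ?_) ?_
    · exact Primrec.not.comp (prim_pf.comp ((Primrec.list_append.comp
        (St.prim_dl.comp (Primrec.fst.comp Primrec.fst)) (Primrec.const [false])).pair
          (Primrec.fst.comp Primrec.snd)))
    · have hr : Primrec fun z : (St × Rec) × List Bool × Rec => z.2.2 :=
        Primrec.snd.comp Primrec.snd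
      refine Primrec.ite ?_ ?_ Primrec.snd
      · exact Primrec.eq.comp (Primrec.fst.comp Primrec.snd)
          (St.prim_dl.comp (Primrec.fst.comp Primrec.fst))
      · exact (Primrec.fst.comp Primrec.snd).pair (Rec.prim_mk (Rec.prim_p.comp hr)
          (Rec.prim_dn.comp hr) (Rec.prim_ck.comp hr) (prim_nmu.comp Primrec.fst)
          (Primrec.const []) (Primrec.succ.comp (Rec.prim_cnt.comp hr)) (Rec.prim_low.comp hr))
  · exact Primrec.list_append.comp (St.prim_dl.comp hS) (Primrec.const [true])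
  · exact Primrec.list_append.comp (Rec.prim_low.comp Primrec.snd) (Primrec.list_cons.comp
      (Rec.prim_p.comp Primrec.snd) (Primrec.const []))

theorem prim_wait : Primrec fun z : St × Rec => wait z.1 z.2 := by
  have hS : Primrec fun z : St × Rec => z.1 := Primrec.fst
  exact St.prim_mk (St.prim_obs.comp hS) (St.prim_dead.comp hS) (St.prim_rld.comp hS)
    (St.prim_nodes.comp hS) (Primrec.list_append.comp (St.prim_dl.comp hS)
      (Primrec.const [false])) (Rec.prim_low.comp Primrec.snd)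
    (Primrec.succ.comp (St.prim_s.comp hS))

theorem prim_step : Primrec step := by
  refine Primrec.option_casesOn (prim_lk.comp (St.prim_nodes.pair St.prim_dl)) prim_create ?_
  refine Primrec.cond ?_ prim_act (Primrec.cond prim_recov prim_recover prim_wait)
  refine Primrec.and.comp (Primrec.not.comp (Rec.prim_dn.comp Primrec.snd)) ?_
  exact prim_rdy.comp (((Primrec.list_length.comp (St.prim_dl.comp Primrec.fst)).pair
    (St.prim_s.comp Primrec.fst)).pair (Primrec.nat_add.comp (Rec.prim_p.comp Primrec.snd)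
      (Primrec.const 4)))

theorem prim_run : Primrec run := by
  have h : Primrec fun t : ℕ => (Nat.rec init (fun _ S => step S) t : St) :=
    Primrec.nat_rec₁ init (prim_step.comp Primrec.snd).to₂
  refine h.of_eq fun t => ?_
  induction t with
  | zero => rfl
  | succ t ih => rw [run, ← ih]

end Pool.Agent.Dim
end

section

open FirstOrder Language

namespace Pool.Agent.Dim

section Formulas

/-- The relation with label `n` in a structure. -/
def Rel (M : Type) [Lang.Structure M] (n : ℕ) (x y : M) : Prop :=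
  Structure.RelMap (L := Lang) (Sym.R n : Lang.Relations 2) ![x, y]

/-- Atomic formula. -/
def fRel (n i j : ℕ) : Lang.Formula ℕ :=
  Relations.formula₂ (Sym.R n : Lang.Relations 2) (Term.var i) (Term.var j)

/-- Equality. -/
def fEq (i j : ℕ) : Lang.Formula ℕ := Term.equal (Term.var i) (Term.var j)

/-- Existential quantification over the variable `i`. -/
noncomputable def fEx (i : ℕ) (φ : Lang.Formula ℕ) : Lang.Formula ℕ :=
  Formula.iExs Unit (φ.relabel (fun j => if j = i then Sum.inr () else Sum.inl j))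

variable {M : Type} [Lang.Structure M]

@[simp] theorem realize_fRel (n i j : ℕ) (v : ℕ → M) :
    (fRel n i j).Realize v ↔ Rel M n (v i) (v j) := by
  exact Formula.realize_rel₂ (L := Lang) (R := Sym.R n)

@[simp] theorem realize_fEq (i j : ℕ) (v : ℕ → M) :
    (fEq i j).Realize v ↔ v i = v j := by
  simp [fEq]

@[simp] theorem realize_fEx (i : ℕ) (φ : Lang.Formula ℕ) (v : ℕ → M) :
    (fEx i φ).Realize v ↔ ∃ m : M, φ.Realize (Function.update v i m) := by
  have key : ∀ f : Unit → M, (Sum.elim v f) ∘ (fun j => if j = i then Sum.inr () else Sum.inl j) =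
      Function.update v i (f ()) := by
    intro f
    funext j
    by_cases h : j = i
    · subst h; simp
    · simp [h]
  simp only [fEx, Formula.realize_iExs, Formula.realize_relabel, key]
  constructor
  · rintro ⟨f, hf⟩; exact ⟨_, hf⟩
  · rintro ⟨m, hm⟩; exact ⟨fun _ => m, hm⟩

theorem realize_exClosure_iff [Nonempty M] (φ : Lang.Formula ℕ) :
    M ⊨ φ.exClosure ↔ ∃ v : ℕ → M, φ.Realize v := by
  classical
  rw [Formula.realize_exClosure]
  constructor
  · rintro ⟨v, hv⟩
    let v' : ℕ → M := fun k => if h : k ∈ φ.freeVarFinset then v ⟨k, h⟩ else Classical.arbitrary M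
    refine ⟨v', ?_⟩
    have := BoundedFormula.realize_restrictFreeVar (φ := φ) (f := id) (v := v)
      (xs := (default : Fin 0 → M)) v' (by rintro ⟨a, ha⟩; simp [v', ha])
    exact this.1 hv
  · rintro ⟨v, hv⟩
    refine ⟨fun a => v a, ?_⟩
    have := BoundedFormula.realize_restrictFreeVar (φ := φ) (f := id) (v := fun a => v a)
      (xs := (default : Fin 0 → M)) v (by rintro ⟨a, ha⟩; simp)
    exact this.2 hv

/-- Transfer of valid formulas. -/
theorem transfer {A : ℕ → ℕ → ℕ → Prop} [Nonempty M] (hM : M ⊨ theory A) (φ : Lang.Formula ℕ)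
    (h : ∀ v : ℕ → ℕ, @Formula.Realize Lang ℕ (str A) ℕ φ v) (v : ℕ → M) : φ.Realize v := by
  by_contra hv
  have h1 : M ⊨ φ.not.exClosure := (realize_exClosure_iff _).2 ⟨v, by simpa using hv⟩
  have h2 : φ.not.exClosure.not ∈ theory A := by
    let _ := str A
    change (ℕ ⊨ φ.not.exClosure.not)
    rw [Sentence.realize_not, realize_exClosure_iff]
    rintro ⟨v, hv⟩
    exact hv (h v)
  have h3 := hM.realize_of_mem _ h2
  rw [Sentence.realize_not] at h3
  exact h3 h1

end Formulas

/-! ### Paths and definable points -/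

/-- `y` is reached from `x` by the word of steps `w`, the last step first. -/
def Path {M : Type} (R : ℕ → M → M → Prop) : List Letter → M → M → Prop
  | [], x, y => x = y
  | (n, true) :: w, x, y => ∃ z, Path R w x z ∧ R n z y
  | (n, false) :: w, x, y => ∃ z, Path R w x z ∧ R n y z

/-- The point `x` has a step forward with label `n` (for `true`) or has none (for `false`). -/
def Dr {M : Type} (R : ℕ → M → M → Prop) (n : ℕ) : Bool → M → Prop
  | true, x => ∃ y, R n x y
  | false, x => ¬ ∃ y, R n x y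

/-- `y` is reached by the word of `c` from a point described by `c`. -/
def Dl {M : Type} (R : ℕ → M → M → Prop) (c : ℕ × Bool × List Letter) (y : M) : Prop :=
  ∃ x, Dr R c.1 c.2.1 x ∧ Path R c.2.2 x y

/-- The formula for `Path`. -/
noncomputable def fPath : List Letter → ℕ → ℕ → Lang.Formula ℕ
  | [], i, j => fEq i j
  | (n, true) :: w, i, j => fEx (j + 1) (fPath w i (j + 1) ⊓ fRel n (j + 1) j)
  | (n, false) :: w, i, j => fEx (j + 1) (fPath w i (j + 1) ⊓ fRel n j (j + 1))

/-- The formula for `Dr`. -/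
noncomputable def fDr (n : ℕ) (i : ℕ) : Bool → Lang.Formula ℕ
  | true => fEx (i + 1) (fRel n i (i + 1))
  | false => (fEx (i + 1) (fRel n i (i + 1))).not

/-- The formula for `Dl`. -/
noncomputable def fDl (c : ℕ × Bool × List Letter) (j : ℕ) : Lang.Formula ℕ :=
  fEx 0 (fDr c.1 0 c.2.1 ⊓ fPath c.2.2 0 j)

section
variable {M : Type} [Lang.Structure M]

theorem realize_fPath (w : List Letter) : ∀ (i j : ℕ) (_ : i ≤ j) (v : ℕ → M),
    (fPath w i j).Realize v ↔ Path (Rel M) w (v i) (v j) := by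
  induction w with
  | nil => intro i j _ v; simp [fPath, Path]
  | cons l w ih =>
    rcases l with ⟨n, b⟩
    intro i j hij v
    have h1 : i ≠ j + 1 := by omega
    have h2 : j ≠ j + 1 := by omega
    cases b <;>
    · simp only [fPath, Path, realize_fEx, Formula.realize_inf, realize_fRel,
        ih i (j + 1) (by omega), Function.update_self, Function.update_of_ne h1,
        Function.update_of_ne h2]

theorem realize_fDr (n i : ℕ) (b : Bool) (v : ℕ → M) :
    (fDr n i b).Realize v ↔ Dr (Rel M) n b (v i) := by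
  cases b <;> simp [fDr, Dr]

theorem realize_fDl (c : ℕ × Bool × List Letter) (j : ℕ) (hj : j ≠ 0) (v : ℕ → M) :
    (fDl c j).Realize v ↔ Dl (Rel M) c (v j) := by
  simp [fDl, Dl, realize_fDr, realize_fPath, hj]

/-- An assignment of three values. -/
def asg (x y z : M) : ℕ → M
  | 1 => x
  | 2 => y
  | _ => z

theorem rel_str (A : ℕ → ℕ → ℕ → Prop) (n x y : ℕ) : @Rel ℕ (str A) n x y ↔ A n x y := Iff.rfl

theorem rel_str' (A : ℕ → ℕ → ℕ → Prop) : @Rel ℕ (str A) = A := rfl

section
variable {A : ℕ → ℕ → ℕ → Prop} [Nonempty M] (hM : M ⊨ theory A)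
include hM

theorem tr_inj (hinj : ∀ n x y y', A n x y → A n x y' → y = y') (n : ℕ) (x y y' : M)
    (h : Rel M n x y) (h' : Rel M n x y') : y = y' := by
  have := transfer hM (((fRel n 1 2) ⊓ (fRel n 1 3)).imp (fEq 2 3)) (by
    let _ := str A
    intro v
    simp only [Formula.realize_imp, Formula.realize_inf, realize_fRel, realize_fEq, rel_str]
    rintro ⟨h1, h2⟩
    exact hinj _ _ _ _ h1 h2) (asg x y y')
  simp only [Formula.realize_imp, Formula.realize_inf, realize_fRel, realize_fEq, asg] at this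
  exact this ⟨h, h'⟩

theorem tr_inj' (hinj : ∀ n x x' y, A n x y → A n x' y → x = x') (n : ℕ) (x x' y : M)
    (h : Rel M n x y) (h' : Rel M n x' y) : x = x' := by
  have := transfer hM (((fRel n 1 3) ⊓ (fRel n 2 3)).imp (fEq 1 2)) (by
    let _ := str A
    intro v
    simp only [Formula.realize_imp, Formula.realize_inf, realize_fRel, realize_fEq, rel_str]
    rintro ⟨h1, h2⟩
    exact hinj _ _ _ _ h1 h2) (asg x x' y)
  simp only [Formula.realize_imp, Formula.realize_inf, realize_fRel, realize_fEq, asg] at this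
  exact this ⟨h, h'⟩

theorem tr_pre {n : ℕ} (hpre : ∀ y, ∃ x, A n x y) (y : M) : ∃ x, Rel M n x y := by
  have := transfer hM (fEx 1 (fRel n 1 2)) (by
    let _ := str A
    intro v
    simpa [rel_str] using hpre (v 2)) (asg y y y)
  simpa [asg] using this

variable {c : ℕ → ℕ × Bool × List Letter} (hc : ∀ k y, Dl A (c k) y ↔ y = k)
include hc

theorem exists_F : ∃ F : ℕ → M, ∀ k y, Dl (Rel M) (c k) y ↔ y = F k := by
  have h1 : ∀ k, ∃ y : M, Dl (Rel M) (c k) y := by
    intro k
    have := transfer hM (fEx 1 (fDl (c k) 1)) (by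
      let _ := str A
      intro v
      simp only [realize_fEx, realize_fDl _ 1 one_ne_zero, rel_str']
      exact ⟨k, (hc k _).2 (by simp)⟩) (fun _ => Classical.arbitrary M)
    simpa [realize_fDl] using this
  choose F hF using h1
  refine ⟨F, fun k y => ⟨fun h => ?_, fun h => h ▸ hF k⟩⟩
  have := transfer hM (((fDl (c k) 1) ⊓ (fDl (c k) 2)).imp (fEq 1 2)) (by
    let _ := str A
    intro v
    simp only [Formula.realize_imp, Formula.realize_inf, realize_fDl _ 1 one_ne_zero,
      realize_fDl _ 2 two_ne_zero, rel_str', realize_fEq]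
    rintro ⟨h1, h2⟩
    rw [(hc k _).1 h1, (hc k _).1 h2]) (asg y (F k) y)
  simp only [Formula.realize_imp, Formula.realize_inf, realize_fDl _ 1 one_ne_zero,
      realize_fDl _ 2 two_ne_zero, realize_fEq, asg] at this
  exact this ⟨h, hF k⟩

variable {F : ℕ → M} (hF : ∀ k y, Dl (Rel M) (c k) y ↔ y = F k)
include hF

theorem tr_two (k k' : ℕ) (ψ : Lang.Formula ℕ)
    (h : ∀ u : ℕ → ℕ, u 1 = k → u 2 = k' → @Formula.Realize Lang ℕ (str A) ℕ ψ u) :
    ψ.Realize (asg (F k) (F k') (F k)) := by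
  have := transfer hM (((fDl (c k) 1) ⊓ (fDl (c k') 2)).imp ψ) (by
    let _ := str A
    intro v
    simp only [Formula.realize_imp, Formula.realize_inf, realize_fDl _ 1 one_ne_zero,
      realize_fDl _ 2 two_ne_zero, rel_str']
    rintro ⟨h1, h2⟩
    exact h v ((hc _ _).1 h1) ((hc _ _).1 h2)) (asg (F k) (F k') (F k))
  simp only [Formula.realize_imp, Formula.realize_inf, realize_fDl _ 1 one_ne_zero,
      realize_fDl _ 2 two_ne_zero, asg, hF] at this
  exact this (by simp)

theorem F_inj : Function.Injective F := by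
  intro k k' h
  by_contra hne
  have := tr_two hM hc hF k k' (fEq 1 2).not (by
    let _ := str A
    intro u h1 h2
    simpa [h1, h2] using hne)
  simp only [Formula.realize_not, realize_fEq, asg] at this
  exact this h

theorem F_rel (n k k' : ℕ) : A n k k' ↔ Rel M n (F k) (F k') := by
  constructor
  · intro h
    have := tr_two hM hc hF k k' (fRel n 1 2) (by
      let _ := str A
      intro u h1 h2
      simpa [h1, h2, rel_str] using h)
    simpa [asg] using this
  · intro h
    by_contra hne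
    have := tr_two hM hc hF k k' (fRel n 1 2).not (by
      let _ := str A
      intro u h1 h2
      simpa [h1, h2, rel_str] using hne)
    simp only [Formula.realize_not, realize_fRel, asg] at this
    exact this h

theorem F_succ (n k : ℕ) (y : M) (h : Rel M n (F k) y) : ∃ k', A n k k' := by
  by_contra hne
  have := tr_two hM hc hF k k (fEx 2 (fRel n 1 2)).not (by
      let _ := str A
      intro u h1 h2
      simpa [h1, rel_str] using hne)
  simp only [Formula.realize_not, realize_fEx, realize_fRel, not_exists] at this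
  exact this y (by simpa [asg] using h)

theorem tr_finC {n : ℕ} (hfin : {x | ¬ ∃ y, A n x y}.Finite) (x : M) (hx : ¬ ∃ y, Rel M n x y) :
    ∃ k, x = F k := by
  have : Finite {x // ¬ ∃ y, A n x y} := hfin
  have := transfer hM ((fEx 2 (fRel n 1 2)) ⊔
      (Formula.iSup fun k : {x // ¬ ∃ y, A n x y} => fDl (c k) 1)) (by
    let _ := str A
    intro v
    simp only [Formula.realize_sup, realize_fEx, realize_fRel, Formula.realize_iSup,
      realize_fDl _ 1 one_ne_zero, rel_str', hc]
    by_cases h : ∃ y, A n (v 1) y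
    · left; simpa using h
    · right; exact ⟨⟨v 1, h⟩, rfl⟩) (asg x x x)
  simp only [Formula.realize_sup, realize_fEx, realize_fRel, Formula.realize_iSup,
    realize_fDl _ 1 one_ne_zero, hF] at this
  rcases this with ⟨m, h⟩ | ⟨k, h⟩
  · exact absurd ⟨m, by simpa [asg] using h⟩ hx
  · exact ⟨_, h⟩

theorem tr_finN {n : ℕ} (hfin : {x | ∃ y, A n x y}.Finite) (x y : M) (hx : Rel M n x y) :
    ∃ k, x = F k := by
  have : Finite {x // ∃ y, A n x y} := hfin
  have := transfer hM ((fRel n 1 2).imp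
      (Formula.iSup fun k : {x // ∃ y, A n x y} => fDl (c k) 1)) (by
    let _ := str A
    intro v
    simp only [Formula.realize_imp, realize_fRel, Formula.realize_iSup,
      realize_fDl _ 1 one_ne_zero, rel_str', hc]
    intro h
    exact ⟨⟨v 1, _, h⟩, rfl⟩) (asg x y y)
  simp only [Formula.realize_imp, realize_fRel, Formula.realize_iSup,
    realize_fDl _ 1 one_ne_zero, hF] at this
  obtain ⟨k, h⟩ := this hx
  exact ⟨_, h⟩

omit hc hF in
theorem tr_path {φ : ℕ → FreeGroup ℕ} (hφ : ∀ n x y, A n x y → φ y = FreeGroup.of n * φ x)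
    (w : List Letter) (hw : FreeGroup.mk w ≠ 1) (x : M) : ¬ Path (Rel M) w x x := by
  have key : ∀ (w : List Letter) x y, Path A w x y → φ y = FreeGroup.mk w * φ x := by
    intro w
    induction w with
    | nil => intro x y h; simp [Path] at h; simp [h, ← FreeGroup.one_eq_mk]
    | cons l w ih =>
      rcases l with ⟨n, b⟩
      have e : FreeGroup.mk ((n, b) :: w) = FreeGroup.mk [(n, b)] * FreeGroup.mk w := by
        simp [FreeGroup.mul_mk]
      intro x y h
      cases b with
      | true =>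
        obtain ⟨z, h1, h2⟩ := h
        rw [e, hφ _ _ _ h2, ih _ _ h1, mul_assoc]
        rfl
      | false =>
        obtain ⟨z, h1, h2⟩ := h
        have h3 := hφ _ _ _ h2
        rw [e, mul_assoc, ← ih _ _ h1, h3]
        have : (FreeGroup.mk [(n, false)] : FreeGroup ℕ) = (FreeGroup.of n)⁻¹ := by
          simp [FreeGroup.of, FreeGroup.inv_mk, FreeGroup.invRev]
        rw [this]; group
  have := transfer hM (fPath w 1 1).not (by
    let _ := str A
    intro v
    simp only [Formula.realize_not, realize_fPath w 1 1 le_rfl, rel_str']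
    intro h
    have := key w _ _ h
    exact hw (by simpa using this)) (asg x x x)
  simp only [Formula.realize_not, realize_fPath w 1 1 le_rfl, asg] at this
  exact this

end
end

/-! ### The structure of models -/

/-- The standard model: the relations of `A`, and copies of the free group. -/
def Std (A : ℕ → ℕ → ℕ → Prop) (C : ℕ → Prop) (Q : Type) (n : ℕ) :
    ℕ ⊕ (Q × FreeGroup {n // C n}) → ℕ ⊕ (Q × FreeGroup {n // C n}) → Prop
  | Sum.inl x, Sum.inl y => A n x y
  | Sum.inr p, Sum.inr q => ∃ h : C n, q = (p.1, FreeGroup.of ⟨n, h⟩ * p.2)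
  | _, _ => False

theorem exists_std {A : ℕ → ℕ → ℕ → Prop} {C : ℕ → Prop} {c : ℕ → ℕ × Bool × List Letter}
    {φ : ℕ → FreeGroup ℕ}
    (hinj : ∀ n x y y', A n x y → A n x y' → y = y')
    (hinj' : ∀ n x x' y, A n x y → A n x' y → x = x')
    (hc : ∀ k y, Dl A (c k) y ↔ y = k)
    (hpre : ∀ n, C n → ∀ y, ∃ x, A n x y)
    (hfinC : ∀ n, C n → {x | ¬ ∃ y, A n x y}.Finite)
    (hfinN : ∀ n, ¬ C n → {x | ∃ y, A n x y}.Finite)
    (hφ : ∀ n x y, A n x y → φ y = FreeGroup.of n * φ x)
    (M : Type) [Lang.Structure M] [Nonempty M] (hM : M ⊨ theory A) :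
    ∃ (Q : Type) (f : ℕ ⊕ (Q × FreeGroup {n // C n}) ≃ M),
      ∀ n a b, Rel M n (f a) (f b) ↔ Std A C Q n a b := by
  classical
  obtain ⟨F, hF⟩ := exists_F hM hc
  have Finj := F_inj hM hc hF
  have Frel := F_rel hM hc hF
  have minj := tr_inj hM hinj
  have minj' := tr_inj' hM hinj'
  -- the forward and backward closure
  have hcl1 : ∀ n k y, Rel M n (F k) y → ∃ k', y = F k' := by
    intro n k y h
    obtain ⟨k', hk'⟩ := F_succ hM hc hF n k y h
    exact ⟨k', minj n _ _ _ h ((Frel n k k').1 hk')⟩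
  have hcl2 : ∀ n x k, Rel M n x (F k) → ∃ k', x = F k' := by
    intro n x k h
    by_cases hn : C n
    · obtain ⟨k', hk'⟩ := hpre n hn k
      exact ⟨k', minj' n _ _ _ h ((Frel n k' k).1 hk')⟩
    · exact tr_finN hM hc hF (hfinN n hn) x _ h
  let K : Type := {y : M // ¬ ∃ k, y = F k}
  have hsucc : ∀ n : {n // C n}, ∀ x : K, ∃ y : K, Rel M n x.1 y.1 := by
    rintro ⟨n, hn⟩ ⟨x, hx⟩
    by_cases h : ∃ y, Rel M n x y
    · obtain ⟨y, hy⟩ := h
      refine ⟨⟨y, ?_⟩, hy⟩
      rintro ⟨k, rfl⟩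
      exact hx (hcl2 n x k hy)
    · exact absurd (tr_finC hM hc hF (hfinC n hn) x h) hx
  have hpred : ∀ n : {n // C n}, ∀ y : K, ∃ x : K, Rel M n x.1 y.1 := by
    rintro ⟨n, hn⟩ ⟨y, hy⟩
    obtain ⟨x, hx⟩ := tr_pre hM (hpre n hn) y
    refine ⟨⟨x, ?_⟩, hx⟩
    rintro ⟨k, rfl⟩
    exact hy (hcl1 n k y hx)
  choose s hs using hsucc
  have sbij : ∀ n, Function.Bijective (s n) := by
    intro n
    constructor
    · intro x x' h
      have h1 := hs n x
      have h2 := hs n x'
      rw [← h] at h2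
      exact Subtype.ext (minj' _ _ _ _ h1 h2)
    · intro y
      obtain ⟨x, hx⟩ := hpred n y
      exact ⟨x, Subtype.ext (minj _ _ _ _ (hs n x) hx)⟩
  let pm : {n // C n} → Equiv.Perm K := fun n => Equiv.ofBijective (s n) (sbij n)
  have hpm : ∀ n (x y : K), Rel M n.1 x.1 y.1 ↔ pm n x = y := by
    intro n x y
    constructor
    · intro h
      exact Subtype.ext (minj _ _ _ _ (hs n x) h)
    · rintro rfl
      exact hs n x
  let hom : FreeGroup {n // C n} →* Equiv.Perm K := FreeGroup.lift pm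
  have hof : ∀ n, hom (FreeGroup.of n) = pm n := fun n => FreeGroup.lift_apply_of
  have hpath : ∀ (w : List ({n // C n} × Bool)) (x : K),
      Path (Rel M) (w.map fun p => (p.1.1, p.2)) x.1 (hom (FreeGroup.mk w) x).1 := by
    intro w
    induction w with
    | nil =>
      intro x
      have : hom (FreeGroup.mk []) = 1 := by rw [← FreeGroup.one_eq_mk, map_one]
      rw [this]
      simp [Path]
    | cons l w ih =>
      rcases l with ⟨n, b⟩
      intro x
      have e : FreeGroup.mk ((n, b) :: w) = FreeGroup.mk [(n, b)] * FreeGroup.mk w := by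
        simp [FreeGroup.mul_mk]
      have e2 : hom (FreeGroup.mk ((n, b) :: w)) x =
          hom (FreeGroup.mk [(n, b)]) (hom (FreeGroup.mk w) x) := by
        rw [e, map_mul]; rfl
      cases b with
      | true =>
        refine ⟨_, ih x, ?_⟩
        rw [e2]
        refine (hpm n _ _).2 ?_
        rw [← hof n]; rfl
      | false =>
        refine ⟨_, ih x, ?_⟩
        rw [e2]
        refine (hpm n _ _).2 ?_
        have e3 : (FreeGroup.mk [(n, false)] : FreeGroup {n // C n}) = (FreeGroup.of n)⁻¹ := by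
          simp [FreeGroup.of, FreeGroup.inv_mk, FreeGroup.invRev]
        rw [e3, map_inv, ← hof n]
        simp
  have hfree : ∀ (g : FreeGroup {n // C n}) (x : K), hom g x = x → g = 1 := by
    intro g x h
    obtain ⟨w, rfl⟩ : ∃ w, FreeGroup.mk w = g := Quot.exists_rep g
    by_contra hne
    have h1 := hpath w x
    rw [h] at h1
    refine tr_path hM hφ _ ?_ _ h1
    intro h2
    apply hne
    apply FreeGroup.map_injective (f := (Subtype.val : {n // C n} → ℕ)) Subtype.val_injective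
    rw [FreeGroup.map.mk, h2, map_one]
  -- orbits
  let S : Setoid K :=
    { r := fun x y => ∃ g, hom g x = y
      iseqv := ⟨fun x => ⟨1, by simp⟩, fun {x y} ⟨g, hg⟩ => ⟨g⁻¹, by rw [← hg, map_inv]; simp⟩,
        fun {x y z} ⟨g, hg⟩ ⟨g', hg'⟩ => ⟨g' * g, by rw [map_mul, ← hg', ← hg]; rfl⟩⟩ }
  let rep : Quotient S → K := Quotient.out
  have hrep : ∀ q, Quotient.mk S (rep q) = q := fun q => Quotient.out_eq q
  have hinjK : ∀ q g q' g', hom g (rep q) = hom g' (rep q') → q = q' ∧ g = g' := by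
    intro q g q' g' h
    have h0 : hom (g'⁻¹ * g) (rep q) = rep q' := by
      rw [map_mul, Equiv.Perm.mul_apply, h, map_inv]; simp
    have h1 : q = q' := by
      rw [← hrep q, ← hrep q']
      exact Quotient.sound ⟨_, h0⟩
    subst h1
    refine ⟨rfl, ?_⟩
    have := hfree _ _ h0
    rw [inv_mul_eq_one] at this
    exact this.symm
  let f0 : ℕ ⊕ (Quotient S × FreeGroup {n // C n}) → M :=
    Sum.elim F fun p => (hom p.2 (rep p.1)).1
  have f0inj : Function.Injective f0 := by
    rintro (k | p) (k' | p') h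
    · exact congrArg _ (Finj h)
    · exact absurd ⟨k, h.symm⟩ (hom p'.2 (rep p'.1)).2
    · exact absurd ⟨k', h⟩ (hom p.2 (rep p.1)).2
    · obtain ⟨h1, h2⟩ := hinjK _ _ _ _ (Subtype.ext h)
      exact congrArg _ (Prod.ext h1 h2)
  have f0surj : Function.Surjective f0 := by
    intro y
    by_cases hy : ∃ k, y = F k
    · obtain ⟨k, rfl⟩ := hy
      exact ⟨Sum.inl k, rfl⟩
    · have : (rep (Quotient.mk S ⟨y, hy⟩)) ≈ (⟨y, hy⟩ : K) := Quotient.mk_out (s := S) _
      obtain ⟨g, hg⟩ := this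
      exact ⟨Sum.inr (_, g), congrArg Subtype.val hg⟩
  refine ⟨Quotient S, Equiv.ofBijective f0 ⟨f0inj, f0surj⟩, ?_⟩
  intro n a b
  change Rel M n (f0 a) (f0 b) ↔ _
  rcases a with k | p <;> rcases b with k' | p'
  · exact (Frel n k k').symm
  · simp only [Std, iff_false]
    intro h
    exact (hom p'.2 (rep p'.1)).2 (hcl1 n k _ h)
  · simp only [Std, iff_false]
    intro h
    exact (hom p.2 (rep p.1)).2 (hcl2 n _ k' h)
  · simp only [Std]
    constructor
    · intro h
      by_cases hn : C n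
      · refine ⟨hn, ?_⟩
        have h1 := (hpm ⟨n, hn⟩ (hom p.2 (rep p.1)) (hom p'.2 (rep p'.1))).1 h
        rw [← hof] at h1
        have h2 : hom (FreeGroup.of ⟨n, hn⟩ * p.2) (rep p.1) = hom p'.2 (rep p'.1) := by
          rw [← h1, map_mul]; rfl
        obtain ⟨h3, h4⟩ := hinjK _ _ _ _ h2
        exact Prod.ext h3.symm h4.symm
      · exact absurd (tr_finN hM hc hF (hfinN n hn) _ _ h) (hom p.2 (rep p.1)).2
    · rintro ⟨hn, rfl⟩
      refine (hpm ⟨n, hn⟩ (hom p.2 (rep p.1)) _).2 ?_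
      rw [← hof, map_mul]; rfl

theorem card_orbits {κ : Cardinal.{0}} (hκ : Cardinal.aleph0 < κ) {Q G : Type} [Countable G]
    [Nonempty G] (h : Cardinal.mk (ℕ ⊕ (Q × G)) = κ) : Cardinal.mk Q = κ := by
  apply le_antisymm
  · rw [← h]
    exact Cardinal.mk_le_of_injective (f := fun q => Sum.inr (q, Classical.arbitrary G))
      (fun q q' h => by simpa using h)
  · by_contra hlt
    rw [not_le] at hlt
    have hG : Cardinal.mk G ≤ Cardinal.aleph0 := Cardinal.mk_le_aleph0
    have h1 : Cardinal.mk Q * Cardinal.mk G < κ :=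
      lt_of_le_of_lt (Cardinal.mul_le_max _ _) (max_lt (max_lt hlt (lt_of_le_of_lt hG hκ)) hκ)
    have h2 : Cardinal.mk (ℕ ⊕ (Q × G)) < κ := by
      rw [Cardinal.mk_sum, Cardinal.mk_prod]
      simp only [Cardinal.lift_id]
      exact Cardinal.add_lt_of_lt hκ.le (by rw [Cardinal.mk_nat]; exact hκ) h1
    exact absurd h h2.ne

/-! ### The forest -/

section Forest

variable {C Rt : ℕ → Prop} {Out : ℕ → ℕ → Prop}

theorem valid_tail {a : ℕ} {l : Letter} {w : List Letter} (h : Valid C Rt Out a (l :: w)) :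
    Valid C Rt Out a w := by
  cases w with
  | nil => exact h.1
  | cons l' w => exact h.1

theorem valid_root {a : ℕ} {w : List Letter} (h : Valid C Rt Out a w) : Rt a := by
  induction w with
  | nil => exact h
  | cons l w ih => exact ih (valid_tail h)

theorem edge_up {a n : ℕ} {w : List Letter} (h : Valid C Rt Out a ((n, true) :: w)) (v : Vert) :
    Edge n (a, w) v ↔ v = (a, (n, true) :: w) := by
  constructor
  · rintro ⟨h1, h2 | h2⟩
    · exact Prod.ext h1.symm h2
    · simp only at h2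
      rw [h2] at h
      exact absurd (h.2.2 rfl) (by simp)
  · rintro rfl
    exact ⟨rfl, Or.inl rfl⟩

theorem edge_down {a n : ℕ} {w : List Letter} (h : Valid C Rt Out a ((n, false) :: w)) (v : Vert) :
    Edge n v (a, w) ↔ v = (a, (n, false) :: w) := by
  constructor
  · rintro ⟨h1, h2 | h2⟩
    · simp only at h2
      rw [h2] at h
      exact absurd (h.2.2 rfl) (by simp)
    · exact Prod.ext h1 h2
  · rintro rfl
    exact ⟨rfl, Or.inr rfl⟩

theorem edge_inj {n : ℕ} {x y y' : Vert} (hy : Valid C Rt Out y.1 y.2)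
    (hy' : Valid C Rt Out y'.1 y'.2) (h : Edge n x y) (h' : Edge n x y') : y = y' := by
  rcases x with ⟨a, w⟩
  rcases y with ⟨b, u⟩
  rcases y' with ⟨b', u'⟩
  obtain ⟨h1, h2⟩ := h
  obtain ⟨h1', h2'⟩ := h'
  simp only at h1 h1' h2 h2' hy hy'
  subst h1
  subst h1'
  rcases h2 with h2 | h2
  · subst h2
    exact ((edge_up hy (a, u')).1 ⟨rfl, h2'⟩).symm
  · rcases h2' with h2' | h2'
    · subst h2'
      exact ((edge_up hy' (a, u)).1 ⟨rfl, Or.inr h2⟩)
    · rw [h2] at h2'
      simp only [List.cons.injEq, true_and] at h2'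
      rw [h2']

theorem edge_inj' {n : ℕ} {x x' y : Vert} (hx : Valid C Rt Out x.1 x.2)
    (hx' : Valid C Rt Out x'.1 x'.2) (h : Edge n x y) (h' : Edge n x' y) : x = x' := by
  rcases x with ⟨a, w⟩
  rcases x' with ⟨a', w'⟩
  rcases y with ⟨b, u⟩
  obtain ⟨h1, h2⟩ := h
  obtain ⟨h1', h2'⟩ := h'
  simp only at h1 h1' h2 h2' hx hx'
  subst h1
  subst h1'
  rcases h2 with h2 | h2
  · rcases h2' with h2' | h2'
    · rw [h2] at h2'
      simp only [List.cons.injEq, true_and] at h2'
      rw [h2']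
    · subst h2'
      exact ((edge_down hx' _).1 ⟨rfl, Or.inl h2⟩)
  · subst h2
    exact ((edge_down hx (_, w')).1 ⟨rfl, h2'⟩).symm

theorem edge_free {n : ℕ} {x y : Vert} (h : Edge n x y) :
    FreeGroup.mk y.2 = FreeGroup.of n * FreeGroup.mk x.2 := by
  obtain ⟨h1, h2 | h2⟩ := h
  · rw [h2]
    simp [FreeGroup.of, FreeGroup.mul_mk]
  · rw [h2]
    have : (FreeGroup.mk ((n, false) :: y.2)) = (FreeGroup.of n)⁻¹ * FreeGroup.mk y.2 := by
      simp [FreeGroup.of, FreeGroup.inv_mk, FreeGroup.invRev, FreeGroup.mul_mk]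
    rw [this]
    group

/-- Predecessors. -/
theorem exists_pred {a n : ℕ} {w : List Letter} (hn : C n) (h : Valid C Rt Out a w) :
    ∃ x : Vert, Valid C Rt Out x.1 x.2 ∧ Edge n x (a, w) := by
  rcases w with _ | ⟨l, w⟩
  · exact ⟨(a, [(n, false)]), ⟨h, Or.inr ⟨rfl, hn⟩⟩, rfl, Or.inr rfl⟩
  · by_cases hl : l = (n, true)
    · exact ⟨(a, w), valid_tail h, rfl, Or.inl (by rw [hl])⟩
    · refine ⟨(a, (n, false) :: l :: w), ⟨h, hn, ?_⟩, rfl, Or.inr rfl⟩
      intro h1
      rcases l with ⟨m, b⟩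
      simp only at h1
      subst h1
      cases b with
      | true => exact absurd rfl hl
      | false => rfl

/-- Successors. -/
theorem exists_succ {a n : ℕ} {w : List Letter} (hn : C n) (h : Valid C Rt Out a w)
    (hw : ¬ (w = [] ∧ ¬ Out a n)) :
    ∃ x : Vert, Valid C Rt Out x.1 x.2 ∧ Edge n (a, w) x := by
  rcases w with _ | ⟨l, w⟩
  · have : Out a n := by
      by_contra h1
      exact hw ⟨rfl, h1⟩
    exact ⟨(a, [(n, true)]), ⟨h, Or.inl ⟨rfl, this⟩⟩, rfl, Or.inl rfl⟩
  · by_cases hl : l = (n, false)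
    · exact ⟨(a, w), valid_tail h, rfl, Or.inr (by rw [hl])⟩
    · refine ⟨(a, (n, true) :: l :: w), ⟨h, hn, ?_⟩, rfl, Or.inl rfl⟩
      intro h1
      rcases l with ⟨m, b⟩
      simp only at h1
      subst h1
      cases b with
      | false => exact absurd rfl hl
      | true => rfl

theorem root_of_edge {n : ℕ} {x y : Vert} (hn : ¬ C n) (hx : Valid C Rt Out x.1 x.2)
    (hy : Valid C Rt Out y.1 y.2) (h : Edge n x y) : x = (x.1, []) ∧ Out x.1 n := by
  rcases x with ⟨a, w⟩
  rcases y with ⟨b, u⟩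
  obtain ⟨h1, h2⟩ := h
  simp only at h1 h2 hx hy
  subst h1
  rcases h2 with h2 | h2
  · subst h2
    rcases w with _ | ⟨l, w⟩
    · refine ⟨rfl, ?_⟩
      rcases hy.2 with h | h
      · exact h.2
      · exact absurd h.1 (by simp)
    · exact absurd hy.2.1 hn
  · subst h2
    rcases u with _ | ⟨l, w⟩
    · rcases hx.2 with h | h
      · exact absurd h.1 (by simp)
      · exact absurd h.2 hn
    · exact absurd hx.2.1 hn

variable {e : ℕ → Vert} (he : Enum C Rt Out e)
include he

theorem enum_valid (k : ℕ) : Valid C Rt Out (e k).1 (e k).2 := (he.2 _).2 ⟨k, rfl⟩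

theorem path_iff {a x : ℕ} (hx : e x = (a, [])) : ∀ (w : List Letter) (_ : Valid C Rt Out a w)
    (y : ℕ), Path (fun n x y => Edge n (e x) (e y)) w x y ↔ e y = (a, w) := by
  intro w
  induction w with
  | nil =>
    intro _ y
    simp only [Path]
    constructor
    · rintro rfl; exact hx
    · intro h
      exact he.1 (hx.trans h.symm)
  | cons l w ih =>
    intro hw y
    have hw' := valid_tail hw
    obtain ⟨z, hz⟩ := (he.2 (a, w)).1 hw'
    rcases l with ⟨n, b⟩
    cases b with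
    | true =>
      simp only [Path]
      constructor
      · rintro ⟨z', h1, h2⟩
        rw [(ih hw' z').1 h1, edge_up hw] at h2
        exact h2
      · intro h
        refine ⟨z, (ih hw' z).2 hz, ?_⟩
        rw [hz, edge_up hw]
        exact h
    | false =>
      simp only [Path]
      constructor
      · rintro ⟨z', h1, h2⟩
        rw [(ih hw' z').1 h1, edge_down hw] at h2
        exact h2
      · intro h
        refine ⟨z, (ih hw' z).2 hz, ?_⟩
        rw [hz, edge_down hw]
        exact h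

theorem exists_code
    (h3 : ∀ a, Rt a → (∃ n, ¬ C n ∧ ∀ b, Rt b → (Out b n ↔ b = a)) ∨
      (∃ n, C n ∧ ∀ b, Rt b → (¬ Out b n ↔ b = a))) (k : ℕ) :
    ∃ c : ℕ × Bool × List Letter, ∀ y, Dl (fun n x y => Edge n (e x) (e y)) c y ↔ y = k := by
  obtain ⟨a, w, hk⟩ : ∃ a w, e k = (a, w) := ⟨_, _, rfl⟩
  have hv : Valid C Rt Out a w := by
    have := enum_valid he k
    rwa [hk] at this
  have ha := valid_root hv
  have main : ∀ n b, (∀ x, Dr (fun n x y => Edge n (e x) (e y)) n b x ↔ e x = (a, [])) →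
      ∀ y, Dl (fun n x y => Edge n (e x) (e y)) (n, b, w) y ↔ y = k := by
    intro n b h y
    simp only [Dl, h]
    constructor
    · rintro ⟨x, hx, h1⟩
      rw [path_iff he hx w hv] at h1
      exact he.1 (h1.trans hk.symm)
    · rintro rfl
      obtain ⟨x, hx⟩ := (he.2 (a, [])).1 ha
      exact ⟨x, hx, (path_iff he hx w hv _).2 hk⟩
  rcases h3 a ha with ⟨n, hn, h⟩ | ⟨n, hn, h⟩
  · refine ⟨(n, true, w), main n true ?_⟩
    intro x
    simp only [Dr]
    constructor
    · rintro ⟨y, hy⟩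
      obtain ⟨h1, h2⟩ := root_of_edge hn (enum_valid he x) (enum_valid he y) hy
      rw [h1, (h _ (valid_root (enum_valid he x))).1 h2]
    · intro hx
      have h1 : Valid C Rt Out a [(n, true)] := ⟨ha, Or.inl ⟨rfl, (h a ha).2 rfl⟩⟩
      obtain ⟨y, hy⟩ := (he.2 (a, [(n, true)])).1 h1
      refine ⟨y, ?_⟩
      rw [hx, hy]
      exact ⟨rfl, Or.inl rfl⟩
  · refine ⟨(n, false, w), main n false ?_⟩
    intro x
    simp only [Dr]
    constructor
    · intro hy
      have h1 : (e x).2 = [] ∧ ¬ Out (e x).1 n := by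
        by_contra h1
        obtain ⟨y, hy1, hy2⟩ := exists_succ hn (enum_valid he x) h1
        obtain ⟨y', hy'⟩ := (he.2 y).1 hy1
        exact hy ⟨y', by rw [hy']; exact hy2⟩
      exact Prod.ext ((h _ (valid_root (enum_valid he x))).1 h1.2) h1.1
    · rintro hx ⟨y, hy⟩
      rw [hx] at hy
      obtain ⟨h1, h2 | h2⟩ := hy
      · have h4 := enum_valid he y
        rw [← h1, h2] at h4
        rcases h4.2 with h5 | h5
        · exact (h a ha).2 rfl h5.2
        · exact absurd h5.1 (by simp)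
      · simp at h2

end Forest

/-- L1. -/
theorem categorical {C Rt : ℕ → Prop} {Out : ℕ → ℕ → Prop} {e : ℕ → Vert}
    (he : Enum C Rt Out e)
    (h1 : ∀ n, ¬ C n → {a | Rt a ∧ Out a n}.Finite)
    (h2 : ∀ n, C n → {a | Rt a ∧ ¬ Out a n}.Finite)
    (h3 : ∀ a, Rt a → (∃ n, ¬ C n ∧ ∀ b, Rt b → (Out b n ↔ b = a)) ∨
      (∃ n, C n ∧ ∀ b, Rt b → (¬ Out b n ↔ b = a)))
    (κ : Cardinal.{0}) (hκ : Cardinal.aleph0 < κ) :
    κ.Categorical (theory fun n x y => Edge n (e x) (e y)) := by
  choose c hc using exists_code he h3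
  have hval := enum_valid he
  have key := exists_std (A := fun n x y => Edge n (e x) (e y)) (C := C) (c := c)
    (φ := fun k => FreeGroup.mk (e k).2)
    (fun n x y y' h h' => he.1 (edge_inj (hval _) (hval _) h h'))
    (fun n x y y' h h' => he.1 (edge_inj' (hval _) (hval _) h h'))
    hc
    (by
      intro n hn y
      obtain ⟨x, hx1, hx2⟩ := exists_pred hn (hval y)
      obtain ⟨x', rfl⟩ := (he.2 x).1 hx1
      exact ⟨x', hx2⟩)
    (by
      intro n hn
      refine Set.Finite.subset (((h2 n hn).image fun a => ((a, []) : Vert)).preimage he.1.injOn) ?_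
      intro x hx
      have h4 : (e x).2 = [] ∧ ¬ Out (e x).1 n := by
        by_contra h4
        obtain ⟨y, hy1, hy2⟩ := exists_succ hn (hval x) h4
        obtain ⟨y', rfl⟩ := (he.2 y).1 hy1
        exact hx ⟨y', hy2⟩
      exact ⟨(e x).1, ⟨valid_root (hval x), h4.2⟩, Prod.ext rfl h4.1.symm⟩)
    (by
      intro n hn
      refine Set.Finite.subset (((h1 n hn).image fun a => ((a, []) : Vert)).preimage he.1.injOn) ?_
      rintro x ⟨y, hy⟩
      obtain ⟨h4, h5⟩ := root_of_edge hn (hval x) (hval y) hy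
      exact ⟨(e x).1, ⟨valid_root (hval x), h5⟩, h4.symm⟩)
    (fun n x y h => edge_free h)
  intro M N hM hN
  obtain ⟨Q, f, hf⟩ := key M M.is_model
  obtain ⟨Q', f', hf'⟩ := key N N.is_model
  have cG : Countable (FreeGroup {n // C n}) :=
    Function.Surjective.countable (f := (FreeGroup.mk : List ({n // C n} × Bool) → _))
      (fun g => Quot.exists_rep g)
  have q1 : Cardinal.mk Q = κ := card_orbits hκ ((Cardinal.mk_congr f).trans hM)
  have q2 : Cardinal.mk Q' = κ := card_orbits hκ ((Cardinal.mk_congr f').trans hN)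
  obtain ⟨g⟩ := Cardinal.eq.1 (q1.trans q2.symm)
  let m : ℕ ⊕ (Q × FreeGroup {n // C n}) ≃ ℕ ⊕ (Q' × FreeGroup {n // C n}) :=
    Equiv.sumCongr (Equiv.refl _) (Equiv.prodCongr g (Equiv.refl _))
  have hm : ∀ n a b, Std (fun n x y => Edge n (e x) (e y)) C Q' n (m a) (m b) ↔
      Std (fun n x y => Edge n (e x) (e y)) C Q n a b := by
    intro n a b
    rcases a with k | p <;> rcases b with k' | p'
    · exact Iff.rfl
    · exact Iff.rfl
    · exact Iff.rfl
    · simp only [m, Std, Equiv.sumCongr_apply, Sum.map_inr, Equiv.prodCongr_apply, Prod.ext_iff]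
      simp
  let F : M ≃ N := f.symm.trans (m.trans f')
  have hF : ∀ n x y, Rel N n (F x) (F y) ↔ Rel M n x y := by
    intro n x y
    obtain ⟨a, rfl⟩ := f.surjective x
    obtain ⟨b, rfl⟩ := f.surjective y
    have e1 : ∀ a, F (f a) = f' (m a) := fun a => by simp [F]
    rw [e1, e1, hf', hm, hf]
  refine ⟨⟨F, ?_, ?_⟩⟩
  · intro n φ
    exact Empty.elim φ
  · intro n r x
    cases r with
    | R k =>
      have h := hF k (x 0) (x 1)
      have e1 : x = ![x 0, x 1] := funext fun i => match i with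
        | 0 => rfl
        | 1 => rfl
      have e2 : F.toFun ∘ x = ![F (x 0), F (x 1)] := funext fun i => match i with
        | 0 => rfl
        | 1 => rfl
      change Structure.RelMap (L := Lang) (Sym.R k : Lang.Relations 2) (F.toFun ∘ x) ↔
        Structure.RelMap (L := Lang) (Sym.R k : Lang.Relations 2) x
      rw [e2]
      conv_rhs => rw [e1]
      exact h

end Pool.Agent.Dim
end

section

/-!
# Two computable copies with an r.e. correspondence of the roots are computably isomorphic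
-/

namespace Pool.Agent.Dim

open Nat.Partrec Encodable

theorem exists_select {W : ℕ → ℕ → Prop} (hW : REPred fun p : ℕ × ℕ => W p.1 p.2)
    {tb : ℕ → Option ℕ} (htb : Primrec tb) :
    ∃ s : ℕ →. ℕ, Partrec s ∧ (∀ x m, m ∈ s x → tb x = some m ∨ W m x) ∧
      ∀ x, (∃ m, tb x = some m ∨ W m x) → (s x).Dom := by
  obtain ⟨c, hc⟩ := Code.exists_code.1 hW
  have key : ∀ p : ℕ × ℕ, (∃ y, y ∈ c.eval (encode p)) ↔ W p.1 p.2 := by
    intro p
    simp only [hc, encodek, Part.coe_some, Part.bind_some, Part.mem_map_iff, Part.mem_assert_iff]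
    simp
  refine ⟨fun x => Nat.rfindOpt fun k => (tb x) <|>
    ((c.evaln k.unpair.2 (encode (k.unpair.1, x))).map fun _ => k.unpair.1), ?_, ?_, ?_⟩
  · apply Partrec.rfindOpt
    have h1 : Primrec fun p : ℕ × ℕ => p.2.unpair := Primrec.unpair.comp Primrec.snd
    have h2 : Primrec fun p : ℕ × ℕ => c.evaln p.2.unpair.2 (encode (p.2.unpair.1, p.1)) :=
      Code.primrec_evaln.comp (((Primrec.snd.comp h1).pair (Primrec.const c)).pair
        (Primrec.encode.comp ((Primrec.fst.comp h1).pair Primrec.fst)))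
    have h3 : Primrec fun p : ℕ × ℕ => ((c.evaln p.2.unpair.2 (encode (p.2.unpair.1, p.1))).map
        fun _ => p.2.unpair.1) :=
      Primrec.option_map h2 ((Primrec.fst.comp h1).comp Primrec.fst).to₂
    exact (Primrec.option_orElse.comp (htb.comp Primrec.fst) h3).to_comp.to₂
  · intro x m hm
    obtain ⟨k, hk⟩ := Nat.rfindOpt_spec hm
    rw [Option.mem_def] at hk
    rcases htx : tb x with _ | m'
    · right
      rw [htx] at hk
      simp only [Option.orElse_eq_orElse, Option.orElse_none, Option.map_eq_some_iff] at hk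
      obtain ⟨y, hy, rfl⟩ := hk
      exact (key (k.unpair.1, x)).1 ⟨y, Code.evaln_sound hy⟩
    · left
      rw [htx] at hk
      simpa using hk
  · rintro x ⟨m, hm⟩
    rw [Nat.rfindOpt_dom]
    rcases htx : tb x with _ | m'
    · rw [htx] at hm
      have hm' : W m x := by simpa using hm
      obtain ⟨y, hy⟩ := (key (m, x)).2 hm'
      obtain ⟨k, hk⟩ := Code.evaln_complete.1 hy
      refine ⟨Nat.pair m k, m, ?_⟩
      simp only [Nat.unpair_pair, Option.orElse_eq_orElse, Option.orElse_none, Option.mem_def, Option.map_eq_some_iff]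
      exact ⟨y, hk, trivial⟩
    · exact ⟨0, m', by simp⟩

theorem primrec_table (t : ℕ → ℕ) (E : Finset ℕ) :
    Primrec fun x => if x ∈ E then some (t x) else none := by
  classical
  induction E using Finset.induction_on with
  | empty => simpa using Primrec.const none
  | insert a E ha ih =>
    have h : (fun x => if x ∈ insert a E then some (t x) else none) =
        fun x => if x = a then some (t a) else if x ∈ E then some (t x) else none := by
      funext x
      by_cases hx : x = a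
      · subst hx; simp
      · simp [hx]
    rw [h]
    exact Primrec.ite (Primrec.eq.comp Primrec.id (Primrec.const a)) (Primrec.const _) ih

/-- The step with letter `l` leads from `p` to `q` in `M`. -/
def Step (M : ℕ → ℕ → ℕ → Prop) (l : Letter) (p q : ℕ) : Prop :=
  (l.2 = true ∧ M l.1 p q) ∨ (l.2 = false ∧ M l.1 q p)

/-- Follow the path with the given word, starting at the vertex found by `s`. -/
noncomputable def follow (M : ℕ → ℕ → ℕ → Prop) (s : ℕ →. ℕ) (x : ℕ) : List Letter → Part ℕ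
  | [] => s x
  | l :: w => (follow M s x w).bind fun p => Nat.rfind fun q =>
      Part.some (@decide (Step M l p q) (Classical.dec _))

theorem partrec_follow {M : ℕ → ℕ → ℕ → Prop} (hM : IsComp M) {s : ℕ →. ℕ} (hs : Partrec s) :
    Partrec fun v : Vert => follow M s v.1 v.2 := by
  classical
  obtain ⟨d, hd, hMd⟩ : ∃ d : ℕ × ℕ × ℕ → Bool, Computable d ∧
      ∀ p, d p = true ↔ M p.1 p.2.1 p.2.2 := by
    obtain ⟨d, hd, h⟩ := ComputablePred.computable_iff.1 hM
    exact ⟨d, hd, fun p => (iff_of_eq (congrFun h p)).symm⟩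
  -- the step, as a Boolean function
  obtain ⟨D, hD, hDS⟩ : ∃ D : Letter × ℕ × ℕ → Bool, Computable D ∧
      ∀ l p q, D (l, p, q) = @decide (Step M l p q) (Classical.dec _) := by
    have e1 : Computable fun p : Letter × ℕ × ℕ => d (p.1.1, p.2.1, p.2.2) :=
      hd.comp ((Computable.fst.comp Computable.fst).pair
        ((Computable.fst.comp Computable.snd).pair (Computable.snd.comp Computable.snd)))
    have e2 : Computable fun p : Letter × ℕ × ℕ => d (p.1.1, p.2.2, p.2.1) :=
      hd.comp ((Computable.fst.comp Computable.fst).pair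
        ((Computable.snd.comp Computable.snd).pair (Computable.fst.comp Computable.snd)))
    refine ⟨_, Computable.cond (Computable.snd.comp Computable.fst) e1 e2, ?_⟩
    rintro ⟨n, b⟩ i j
    cases b
    · rw [Bool.eq_iff_iff]
      simp [Step, hMd]
    · rw [Bool.eq_iff_iff]
      simp [Step, hMd]
  have hstep : Computable fun p : (Vert × ℕ × ℕ) × ℕ =>
      (p.1.1.2.reverse[p.1.2.1]?).elim false fun l : Letter =>
        @decide (Step M l p.1.2.2 p.2) (Classical.dec _) := by
    have f1 : Computable fun p : (Vert × ℕ × ℕ) × ℕ => p.1.1.2.reverse[p.1.2.1]? :=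
      Computable.list_getElem?.comp
        (Computable.list_reverse.comp
          (Computable.snd.comp (Computable.fst.comp Computable.fst)))
        (Computable.fst.comp (Computable.snd.comp Computable.fst))
    have f2 : Computable fun p : ((Vert × ℕ × ℕ) × ℕ) × Letter =>
        D (p.2, p.1.1.2.2, p.1.2) :=
      hD.comp (Computable.snd.pair
        ((Computable.snd.comp (Computable.snd.comp (Computable.fst.comp Computable.fst))).pair
          (Computable.snd.comp Computable.fst)))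
    refine (Computable.option_casesOn f1 (Computable.const false) f2.to₂).of_eq ?_
    intro p
    cases p.1.1.2.reverse[p.1.2.1]? with
    | none => rfl
    | some l => exact hDS _ _ _
  have key : ∀ (x : ℕ) (w : List Letter) (k : ℕ), k ≤ w.length →
      Nat.rec (motive := fun _ => Part ℕ) (s x) (fun y IH => IH.bind fun i => Nat.rfind fun q =>
        Part.some ((w.reverse[y]?).elim false fun l : Letter =>
          @decide (Step M l i q) (Classical.dec _))) k = follow M s x (w.reverse.take k).reverse := by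
    intro x w k hk
    induction k with
    | zero => simp [follow]
    | succ k ih =>
      have h1 : w.reverse.take (k + 1) = w.reverse.take k ++ [w.reverse[k]'(by simp; omega)] :=
        (List.take_append_getElem _).symm
      have h2 : w.reverse[k]? = some (w.reverse[k]'(by simp; omega)) :=
        List.getElem?_eq_getElem _
      rw [h1, List.reverse_append]
      simp only [List.reverse_singleton, List.singleton_append, follow]
      rw [← ih (by omega)]
      simp only [h2, Option.elim_some]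
  refine (Partrec.nat_rec (f := fun v : Vert => v.2.length) (g := fun v => s v.1)
    (h := fun v p => Nat.rfind fun q =>
      Part.some ((v.2.reverse[p.1]?).elim false fun l : Letter =>
          @decide (Step M l p.2 q) (Classical.dec _))) ?_ ?_ ?_).of_eq ?_
  · exact Computable.list_length.comp Computable.snd
  · exact hs.comp Computable.fst
  · exact Partrec.rfind hstep.partrec
  · intro v
    refine (key v.1 v.2 _ le_rfl).trans ?_
    rw [← List.length_reverse, List.take_length, List.reverse_reverse]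

theorem follow_spec {C Rt : ℕ → Prop} {Out : ℕ → ℕ → Prop}
    {M : ℕ → ℕ → ℕ → Prop} {θ : ℕ → Vert} (hθ : Enum C Rt Out θ)
    (hθM : ∀ n x y, M n x y ↔ Edge n (θ x) (θ y)) {s : ℕ →. ℕ}
    (hs1 : ∀ x m, Rt x → m ∈ s x → θ m = (x, [])) (hs2 : ∀ x, Rt x → (s x).Dom)
    (x : ℕ) (w : List Letter) (hw : Valid C Rt Out x w) :
    ∃ m, m ∈ follow M s x w ∧ θ m = (x, w) := by
  classical
  induction w with
  | nil =>
    have h := Part.get_mem (hs2 x hw)
    exact ⟨_, h, hs1 x _ hw h⟩
  | cons l w ih =>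
    have hw' : Valid C Rt Out x w := by
      cases w with
      | nil => exact hw.1
      | cons l' w => exact hw.1
    have hred : ∀ w', w = (l.1, !l.2) :: w' → False := by
      rintro w' rfl
      have := hw.2.2 rfl
      revert this
      cases l.2 <;> simp
    obtain ⟨m', hm', hθm'⟩ := ih hw'
    obtain ⟨q0, hq0⟩ := (hθ.2 (x, l :: w)).1 hw
    have hstep0 : Step M l m' q0 := by
      obtain ⟨n, b⟩ := l
      cases b
      · right
        refine ⟨rfl, ?_⟩
        rw [hθM, hq0, hθm']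
        exact ⟨rfl, Or.inr rfl⟩
      · left
        refine ⟨rfl, ?_⟩
        rw [hθM, hq0, hθm']
        exact ⟨rfl, Or.inl rfl⟩
    have huniq : ∀ q, Step M l m' q → θ q = (x, l :: w) := by
      intro q hq
      obtain ⟨n, b⟩ := l
      rcases hq with ⟨hb, hq⟩ | ⟨hb, hq⟩
      · simp only at hb
        subst hb
        rw [hθM, hθm'] at hq
        obtain ⟨h1, h2 | h2⟩ := hq
        · exact Prod.ext h1.symm h2
        · exact (hred _ h2).elim
      · simp only at hb
        subst hb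
        rw [hθM, hθm'] at hq
        obtain ⟨h1, h2 | h2⟩ := hq
        · exact (hred _ h2).elim
        · exact Prod.ext h1 h2
    have hdom : (Nat.rfind fun q => Part.some (@decide (Step M l m' q) (Classical.dec _))).Dom := by
      exact Nat.rfind_dom.2 ⟨q0, by simp [hstep0], fun _ => trivial⟩
    have hmem := Part.get_mem hdom
    have hS := Nat.rfind_spec hmem
    refine ⟨_, Part.mem_bind hm' hmem, huniq _ ?_⟩
    simpa using hS

/-- L3 (file CompIso.lean). -/
theorem exists_compIso {C Rt : ℕ → Prop} {Out : ℕ → ℕ → Prop} {e : ℕ → Vert}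
    (hec : Computable e) (he : Enum C Rt Out e)
    {M : ℕ → ℕ → ℕ → Prop} (hM : IsComp M)
    {θ : ℕ → Vert} (hθ : Enum C Rt Out θ) (hθM : ∀ n x y, M n x y ↔ Edge n (θ x) (θ y))
    {W : ℕ → ℕ → Prop} (hW : REPred fun p : ℕ × ℕ => W p.1 p.2)
    (hW1 : ∀ m x, W m x → θ m = (x, []))
    (E : Finset ℕ) (hW2 : ∀ x, Rt x → x ∉ E → ∃ m, W m x) :
    ∃ f : ℕ ≃ ℕ, Computable f ∧ ∀ n x y, M n x y ↔ Edge n (e (f x)) (e (f y)) := by
  classical
  obtain ⟨t, ht⟩ : ∃ t : ℕ → ℕ, ∀ x, Rt x → θ (t x) = (x, []) := by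
    have hroot : ∀ x, Rt x → ∃ m, θ m = (x, []) := fun x hx => (hθ.2 (x, [])).1 hx
    choose! t ht using hroot
    exact ⟨t, ht⟩
  obtain ⟨s, hs, hs1, hs2⟩ := exists_select hW (primrec_table t E)
  have hs1' : ∀ x m, Rt x → m ∈ s x → θ m = (x, []) := by
    intro x m hx hm
    rcases hs1 x m hm with h | h
    · split_ifs at h
      rw [← Option.some.inj h]
      exact ht x hx
    · exact hW1 m x h
  have hs2' : ∀ x, Rt x → (s x).Dom := by
    intro x hx
    apply hs2
    by_cases hxE : x ∈ E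
    · exact ⟨t x, Or.inl (by simp [hxE])⟩
    · obtain ⟨m, hm⟩ := hW2 x hx hxE
      exact ⟨m, Or.inr hm⟩
  have hval : ∀ k, Valid C Rt Out (e k).1 (e k).2 := fun k => (he.2 (e k)).2 ⟨k, rfl⟩
  choose g hg1 hg2 using fun k => follow_spec hθ hθM hs1' hs2' (e k).1 (e k).2 (hval k)
  have hgc : Computable g :=
    Partrec.of_eq_tot ((partrec_follow hM hs).comp hec) hg1
  have hginj : Function.Injective g := by
    intro k k' h
    apply he.1
    have h1 := hg2 k
    rw [h, hg2 k'] at h1
    exact h1.symm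
  have hgsurj : Function.Surjective g := by
    intro m
    obtain ⟨k, hk⟩ := (he.2 (θ m)).1 ((hθ.2 (θ m)).2 ⟨m, rfl⟩)
    refine ⟨k, hθ.1 ?_⟩
    rw [hg2 k]
    exact hk
  let F : ℕ ≃ ℕ := (Equiv.ofBijective g ⟨hginj, hgsurj⟩).symm
  have hgF : ∀ m, g (F m) = m := fun m => Equiv.ofBijective_apply_symm_apply g _ m
  have heF : ∀ m, e (F m) = θ m := by
    intro m
    have := hg2 (F m)
    rw [hgF] at this
    exact this.symm
  refine ⟨F, ?_, ?_⟩
  · have hp : Computable₂ fun (m k : ℕ) => decide (g k = m) :=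
      (Primrec.eq (α := ℕ)).decide.to_comp.comp (hgc.comp Computable.snd) Computable.fst
    refine Partrec.of_eq_tot (Partrec.rfind hp.partrec₂) ?_
    intro m
    rw [Nat.mem_rfind]
    refine ⟨by simp [hgF], ?_⟩
    intro k hk
    have : g k ≠ m := by
      intro h
      rw [← hgF m] at h
      exact hk.ne (hginj h)
    simp [this]
  · intro n x y
    rw [heF, heF]
    exact hθM n x y

end Pool.Agent.Dim
end

section

/-!
# From the recursion theoretic data to a structure of computable dimension two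
-/

open FirstOrder Language

namespace Pool.Agent.Dim

/-- The inverse of a computable bijection is computable. -/
theorem computable_symm {f : ℕ ≃ ℕ} (hf : Computable f) : Computable f.symm := by
  have hp : Computable₂ fun (m k : ℕ) => decide (f k = m) :=
    (Primrec.eq (α := ℕ)).decide.to_comp.comp (hf.comp Computable.snd) Computable.fst
  refine Partrec.of_eq_tot (Partrec.rfind hp.partrec₂) ?_
  intro m
  rw [Nat.mem_rfind]
  refine ⟨by simp, ?_⟩
  intro k hk
  have : f k ≠ m := by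
    intro h
    rw [← h, Equiv.symm_apply_apply] at hk
    exact hk.ne rfl
  simp [this]

theorem compIso_refl (A : ℕ → ℕ → ℕ → Prop) : CompIso A A :=
  ⟨Equiv.refl ℕ, Computable.id, fun _ _ _ => Iff.rfl⟩

theorem compIso_symm {A B : ℕ → ℕ → ℕ → Prop} (h : CompIso A B) : CompIso B A := by
  obtain ⟨f, hf, h⟩ := h
  refine ⟨f.symm, computable_symm hf, ?_⟩
  intro n x y
  rw [h n, Equiv.apply_symm_apply, Equiv.apply_symm_apply]

theorem compIso_trans {A B D : ℕ → ℕ → ℕ → Prop} (h : CompIso A B) (h' : CompIso B D) :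
    CompIso A D := by
  obtain ⟨f, hf, h⟩ := h
  obtain ⟨g, hg, h'⟩ := h'
  refine ⟨f.trans g, hg.comp hf, ?_⟩
  intro n x y
  rw [h n, h' n]
  rfl

/-- If every computable copy of `A` is computably isomorphic to `A` or to `B`, and these two copies
are not computably isomorphic, then the dimension of `A` is two. -/
theorem dim_eq_two {A B : ℕ → ℕ → ℕ → Prop} (hA : IsComp A) (hB : IsComp B) (hAB : Iso A B)
    (hne : ¬ CompIso A B)
    (h : ∀ M : ℕ → ℕ → ℕ → Prop, IsComp M → Iso A M → CompIso M A ∨ CompIso M B) : dim A = 2 := by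
  classical
  let cA : Copies A := ⟨A, hA, Equiv.refl ℕ, fun _ _ _ => Iff.rfl⟩
  let cB : Copies A := ⟨B, hB, hAB⟩
  let r : Copies A → Copies A → Prop := fun B B' => CompIso B.1 B'.1
  have heq : Equivalence r := ⟨fun x => compIso_refl x.1, fun h => compIso_symm h,
    fun h h' => compIso_trans h h'⟩
  have hcard : Nat.card (Quot r) = 2 := by
    rw [Nat.card_eq_two_iff]
    refine ⟨Quot.mk r cA, Quot.mk r cB, ?_, ?_⟩
    · intro hq
      exact hne ((heq.eqvGen_iff).1 (Quot.eqvGen_exact hq))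
    · ext x
      constructor
      · intro _
        trivial
      · intro _
        induction x using Quot.ind with
        | mk x =>
          rcases h x.1 x.2.1 x.2.2 with hx | hx
          · exact Or.inl (Quot.sound hx)
          · exact Or.inr (Quot.sound hx)
  have hfin : Finite (Quot r) := Nat.finite_of_card_ne_zero (by rw [hcard]; decide)
  show ENat.card (Quot r) = 2
  rw [ENat.card_eq_coe_natCard, hcard]
  rfl

/-- A correspondence of two enumerated sets gives a permutation of the indices. -/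
theorem exists_equiv {e e' : ℕ → Vert} (σ : Vert → Vert) (he : Function.Injective e)
    (he' : Function.Injective e') (h : ∀ k, ∃ k', e' k' = σ (e k))
    (h' : ∀ k', ∃ k, σ (e k) = e' k') (hinj : ∀ k l, σ (e k) = σ (e l) → e k = e l) :
    ∃ f : ℕ ≃ ℕ, ∀ k, e' (f k) = σ (e k) := by
  choose g hg using h
  refine ⟨Equiv.ofBijective g ⟨?_, ?_⟩, hg⟩
  · intro k l hkl
    apply he
    apply hinj
    rw [← hg k, ← hg l, hkl]
  · intro k'
    obtain ⟨k, hk⟩ := h' k'
    exact ⟨k, he' ((hg k).trans hk)⟩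

section Shift

variable {C Rt : ℕ → Prop} {OA OB : ℕ → ℕ → Prop} {s : ℕ → ℕ}

/-- The map of the vertices given by a map of the roots. -/
def shift (s : ℕ → ℕ) (v : Vert) : Vert := (s v.1, v.2)

theorem valid_shift (hs : Set.BijOn s {a | Rt a} {a | Rt a})
    (hsO : ∀ a, Rt a → ∀ n, (OA a n ↔ OB (s a) n)) {a : ℕ} (ha : Rt a) :
    ∀ w : List Letter, Valid C Rt OA a w ↔ Valid C Rt OB (s a) w := by
  have hsa : Rt (s a) := hs.mapsTo ha
  intro w
  induction w with
  | nil => exact ⟨fun _ => hsa, fun _ => ha⟩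
  | cons l w ih =>
    cases w with
    | nil =>
      simp only [Valid, ha, hsa, hsO a ha, true_and]
    | cons l' w =>
      simp only [Valid] at ih ⊢
      rw [ih]

theorem shift_inj (hs : Set.BijOn s {a | Rt a} {a | Rt a}) {u v : Vert}
    (hu : Rt u.1) (hv : Rt v.1) (h : shift s u = shift s v) : u = v := by
  obtain ⟨h1, h2⟩ := Prod.ext_iff.1 h
  exact Prod.ext (hs.injOn hu hv h1) h2

theorem edge_shift (hs : Set.BijOn s {a | Rt a} {a | Rt a}) {u v : Vert}
    (hu : Rt u.1) (hv : Rt v.1) (n : ℕ) : Edge n (shift s u) (shift s v) ↔ Edge n u v := by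
  have h : s u.1 = s v.1 ↔ u.1 = v.1 := ⟨fun h => hs.injOn hu hv h, fun h => congrArg s h⟩
  simp only [Edge, shift, h]

theorem enum_shift (hs : Set.BijOn s {a | Rt a} {a | Rt a})
    (hsO : ∀ a, Rt a → ∀ n, (OA a n ↔ OB (s a) n)) {θ : ℕ → Vert} (hθ : Enum C Rt OA θ) :
    Enum C Rt OB fun m => shift s (θ m) := by
  have hr : ∀ m, Rt (θ m).1 := fun m => valid_root (enum_valid hθ m)
  refine ⟨fun m m' h => hθ.1 (shift_inj hs (hr m) (hr m') h), ?_⟩
  rintro ⟨y, w⟩
  constructor
  · intro hv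
    obtain ⟨x, hx, rfl⟩ := hs.surjOn (valid_root hv)
    obtain ⟨m, hm⟩ := (hθ.2 (x, w)).1 ((valid_shift hs hsO hx w).2 hv)
    exact ⟨m, by simp only [hm, shift]⟩
  · rintro ⟨m, hm⟩
    have h := (valid_shift (C := C) hs hsO (hr m) (θ m).2).1 (enum_valid hθ m)
    obtain ⟨h1, h2⟩ := Prod.ext_iff.1 hm
    simp only [shift] at h1 h2
    simp only
    rw [← h1, ← h2]
    exact h

end Shift

/-- The vertex `x` of the second forest corresponding to the root `a` of the first one. -/
theorem root_iso {C Rt : ℕ → Prop} {OA OB : ℕ → ℕ → Prop}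
    (h3 : ∀ a, Rt a → (∃ n, ¬ C n ∧ ∀ b, Rt b → (OA b n ↔ b = a)) ∨
      (∃ n, C n ∧ ∀ b, Rt b → (¬ OA b n ↔ b = a)))
    (s : ℕ → ℕ) (hs : Set.BijOn s {a | Rt a} {a | Rt a})
    (hsO : ∀ a, Rt a → ∀ n, (OA a n ↔ OB (s a) n))
    {eA eB : ℕ → Vert} (heA : Enum C Rt OA eA) (heB : Enum C Rt OB eB)
    (f : ℕ ≃ ℕ) (hf : ∀ n x y, Edge n (eA x) (eA y) ↔ Edge n (eB (f x)) (eB (f y)))
    {a k : ℕ} (ha : Rt a) (hk : eA k = (a, [])) : eB (f k) = (s a, []) := by
  have hroot : Rt (eB (f k)).1 := valid_root (enum_valid heB _)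
  obtain ⟨x, hx, hxs⟩ := hs.surjOn hroot
  have hx' : Rt x := hx
  rcases h3 a ha with ⟨n, hn, h⟩ | ⟨n, hn, h⟩
  · have h1 : Valid C Rt OA a [(n, true)] := ⟨ha, Or.inl ⟨rfl, (h a ha).2 rfl⟩⟩
    obtain ⟨y, hy⟩ := (heA.2 (a, [(n, true)])).1 h1
    have hE : Edge n (eA k) (eA y) := by
      rw [hk, hy]
      exact ⟨rfl, Or.inl rfl⟩
    rw [hf] at hE
    obtain ⟨h2, h4⟩ := root_of_edge hn (enum_valid heB _) (enum_valid heB _) hE
    rw [← hxs, ← hsO x hx', h x hx'] at h4
    rw [h2, ← hxs, h4]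
  · have hno : ∀ y, ¬ Edge n (eA k) (eA y) := by
      intro y hy
      rw [hk] at hy
      obtain ⟨h1, h2 | h2⟩ := hy
      · have h4 := enum_valid heA y
        rw [← h1, h2] at h4
        rcases h4.2 with h5 | h5
        · exact (h a ha).2 rfl h5.2
        · exact absurd h5.1 (by simp)
      · simp at h2
    have h1 : (eB (f k)).2 = [] ∧ ¬ OB (eB (f k)).1 n := by
      by_contra h1
      obtain ⟨y, hy1, hy2⟩ := exists_succ hn (enum_valid heB (f k)) h1
      obtain ⟨y', hy'⟩ := (heB.2 y).1 hy1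
      apply hno (f.symm y')
      rw [hf, Equiv.apply_symm_apply, hy']
      exact hy2
    have h4 := h1.2
    rw [← hxs, ← hsO x hx', h x hx'] at h4
    exact Prod.ext (by rw [← hxs, h4]) h1.1

/-- L4 (file Assemble.lean). -/
theorem assemble {C Rt : ℕ → Prop} {OA OB : ℕ → ℕ → Prop}
    (hC : REPred C) (hRt : REPred Rt) (hOA : REPred fun p : ℕ × ℕ => OA p.1 p.2)
    (hOB : REPred fun p : ℕ × ℕ => OB p.1 p.2) (hinf : {a | Rt a}.Infinite)
    (h1 : ∀ n, ¬ C n → {a | Rt a ∧ OA a n}.Finite)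
    (h2 : ∀ n, C n → {a | Rt a ∧ ¬ OA a n}.Finite)
    (h3 : ∀ a, Rt a → (∃ n, ¬ C n ∧ ∀ b, Rt b → (OA b n ↔ b = a)) ∨
      (∃ n, C n ∧ ∀ b, Rt b → (¬ OA b n ↔ b = a)))
    (s : ℕ → ℕ) (hs : Set.BijOn s {a | Rt a} {a | Rt a})
    (hsO : ∀ a, Rt a → ∀ n, (OA a n ↔ OB (s a) n))
    (hN : ∀ g : ℕ →. ℕ, Partrec g → ∃ a, Rt a ∧ s a ∉ g a)
    (hM : ∀ M : ℕ → ℕ → ℕ → Prop, IsComp M → ∀ θ : ℕ → Vert, Enum C Rt OA θ →
      (∀ n x y, M n x y ↔ Edge n (θ x) (θ y)) →
      ∃ W : ℕ → ℕ → Prop, (REPred fun p : ℕ × ℕ => W p.1 p.2) ∧ ∃ E : Finset ℕ,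
        ((∀ m x, W m x → θ m = (x, [])) ∧ ∀ x, Rt x → x ∉ E → ∃ m, W m x) ∨
        ((∀ m y, W m y → ∃ x, θ m = (x, []) ∧ s x = y) ∧ ∀ y, Rt y → y ∉ E → ∃ m, W m y)) :
    ∃ A : ℕ → ℕ → ℕ → Prop, IsComp A ∧ UncountablyCategorical (theory A) ∧ dim A = 2 := by
  classical
  obtain ⟨eA, heAc, heA, hAc⟩ := exists_enum hC hRt hOA hinf
  obtain ⟨eB, heBc, heB, hBc⟩ := exists_enum hC hRt hOB hinf
  have hrA : ∀ k, Rt (eA k).1 := fun k => valid_root (enum_valid heA k)
  refine ⟨fun n x y => Edge n (eA x) (eA y), hAc, ⟨?_, ?_⟩, ?_⟩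
  · let _ : Lang.Structure ℕ := str fun n x y => Edge n (eA x) (eA y)
    have hT : ℕ ⊨ theory fun n x y => Edge n (eA x) (eA y) :=
      inferInstanceAs (ℕ ⊨ Lang.completeTheory ℕ)
    exact ⟨Theory.ModelType.of (theory fun n x y => Edge n (eA x) (eA y)) ℕ,
      inferInstanceAs (Infinite ℕ)⟩
  · intro κ hκ
    exact categorical heA h1 h2 h3 κ hκ
  · refine dim_eq_two (B := fun n x y => Edge n (eB x) (eB y)) hAc hBc ?_ ?_ ?_
    · -- the two copies are isomorphic
      have hsh := enum_shift hs hsO heA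
      obtain ⟨f, hf⟩ := exists_equiv (shift s) heA.1 heB.1
        (fun k => (heB.2 (shift s (eA k))).1 ((hsh.2 _).2 ⟨k, rfl⟩))
        (fun k' => (hsh.2 (eB k')).1 (enum_valid heB k'))
        (fun k l h => shift_inj hs (hrA k) (hrA l) h)
      refine ⟨f, ?_⟩
      intro n x y
      show Edge n (eA x) (eA y) ↔ Edge n (eB (f x)) (eB (f y))
      rw [hf, hf, edge_shift hs (hrA x) (hrA y)]
    · -- they are not computably isomorphic
      rintro ⟨f, hfc, hf⟩
      have hp : Computable₂ fun (a k : ℕ) => decide (eA k = (a, ([] : List Letter))) :=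
        (Primrec.eq (α := Vert)).decide.to_comp.comp (heAc.comp Computable.snd)
          (Computable.fst.pair (Computable.const []))
      have hg : Partrec fun a : ℕ =>
          (Nat.rfind fun k => Part.some (decide (eA k = (a, ([] : List Letter))))).map
            fun k => (eB (f k)).1 := by
        refine Partrec.map (Partrec.rfind hp.partrec₂) ?_
        exact (Computable.fst.comp (heBc.comp (hfc.comp Computable.snd))).to₂
      obtain ⟨a, ha, hna⟩ := hN _ hg
      apply hna
      obtain ⟨k, hk⟩ := (heA.2 (a, [])).1 ha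
      refine (Part.mem_map_iff _).2 ⟨k, ?_, ?_⟩
      · refine Nat.mem_rfind.2 ⟨by simp [hk], ?_⟩
        intro m hm
        have : eA m ≠ (a, []) := by
          intro h
          rw [← hk] at h
          exact hm.ne (heA.1 h)
        simp [this]
      · rw [root_iso h3 s hs hsO heA heB f hf ha hk]
    · -- each computable copy is computably isomorphic to one of them
      rintro M hMc ⟨φ, hφ⟩
      have hθ : Enum C Rt OA fun m => eA (φ.symm m) := by
        refine ⟨heA.1.comp φ.symm.injective, ?_⟩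
        intro v
        rw [heA.2 v]
        constructor
        · rintro ⟨k, hk⟩
          exact ⟨φ k, by simp only [Equiv.symm_apply_apply]; exact hk⟩
        · rintro ⟨k, hk⟩
          exact ⟨φ.symm k, hk⟩
      have hθM : ∀ n x y, M n x y ↔ Edge n (eA (φ.symm x)) (eA (φ.symm y)) := by
        intro n x y
        have := hφ n (φ.symm x) (φ.symm y)
        rw [Equiv.apply_symm_apply, Equiv.apply_symm_apply] at this
        exact this.symm
      obtain ⟨W, hW, E, ⟨hW1, hW2⟩ | ⟨hW1, hW2⟩⟩ := hM M hMc _ hθ hθM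
      · left
        obtain ⟨f, hfc, hf⟩ := exists_compIso heAc heA hMc hθ hθM hW hW1 E hW2
        exact ⟨f, hfc, hf⟩
      · right
        obtain ⟨f, hfc, hf⟩ := exists_compIso heBc heB hMc (enum_shift hs hsO hθ)
          (fun n x y => (hθM n x y).trans (edge_shift hs (hrA _) (hrA _) n).symm) hW
          (by
            intro m y hmy
            obtain ⟨x, hx, rfl⟩ := hW1 m y hmy
            simp only [shift]
            rw [hx]) E hW2
        exact ⟨f, hfc, hf⟩

end Pool.Agent.Dim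
end

section

/-!
# The limit of the construction: the two sides
-/

namespace Pool.Agent.Dim

theorem dead_step {t o : ℕ} (h : dead t o) : dead (t + 1) o := by
  rcases cases_at t with h1 | ⟨r, h1⟩ | ⟨r, h1⟩ | ⟨r, h1⟩
  · exact (h1.dead' o).2 h
  · exact (h1.dead' o).2 (Or.inr h)
  · exact (h1.dead' o).2 h
  · exact (h1.dead' o).2 h

theorem dead_mono {t t' o : ℕ} (ht : t ≤ t') (h : dead t o) : dead t' o := by
  induction t', ht using Nat.le_induction with
  | base => exact h
  | succ t' _ ih => exact dead_step ih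

theorem rld_step {t o : ℕ} (h : rld t o) : rld (t + 1) o := by
  rcases cases_at t with h1 | ⟨r, h1⟩ | ⟨r, h1⟩ | ⟨r, h1⟩
  · exact (h1.rld' o).2 h
  · exact (h1.rld' o).2 h
  · exact (h1.rld' o).2 (Or.inr h)
  · exact (h1.rld' o).2 h

theorem rld_mono {t t' o : ℕ} (ht : t ≤ t') (h : rld t o) : rld t' o := by
  induction t', ht using Nat.le_induction with
  | base => exact h
  | succ t' _ ih => exact rld_step ih

/-- The object is created at some time. -/
def cr (o : ℕ) : Prop := ∃ t, o < nn t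

/-- The object is created and never dies. -/
def Fin (o : ℕ) : Prop := cr o ∧ ∀ t, ¬ dead t o

/-- All objects with the tag `q` die. -/
def Inf (q : ℕ) : Prop := TG q ∧ ∀ o, cr o → (G o).kd ≠ 0 → (G o).tg = q → ∃ t, dead t o

theorem cr_of_dead {t o : ℕ} (h : dead t o) : cr o := ⟨t, ((invB t).dn h).1⟩

theorem fd_cr {o : ℕ} (h : cr o) : Fr o ∨ Dv o := by
  obtain ⟨t, ht⟩ := h
  rcases (invB t).fd ht with h | ⟨h, _⟩
  · exact Or.inl h
  · exact Or.inr h

theorem Dv.dead_par {o : ℕ} (h : Dv o) (hc : cr o) (s : Bool) : ∃ t, dead t (Dim.par s o) := by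
  obtain ⟨t, ht⟩ := hc
  rcases (invB t).fd ht with h1 | ⟨_, h1, h2⟩
  · exact absurd h1 h.ne
  · cases s
    · exact ⟨t, h2⟩
    · exact ⟨t, h1⟩

/-- The parents of a dead derived object are released. -/
theorem Dv.rl {o t : ℕ} (h : Dv o) (hd : dead t o) : RL (G o).u ∧ RL (G o).v := by
  obtain ⟨h1, h2⟩ := (invB t).dr hd h
  exact ⟨⟨t, h1⟩, ⟨t, h2⟩⟩

theorem RL.dead {o : ℕ} (h : RL o) : ∃ t, Dim.dead t o := by
  obtain ⟨t, ht⟩ := h
  exact ⟨t, ((invB t).rd ht).1⟩

theorem Fin.not_rl {o : ℕ} (h : Fin o) : ¬ RL o := fun h1 => by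
  obtain ⟨t, ht⟩ := h1.dead
  exact h.2 t ht

theorem ku_cr {c c' : ℕ} (s : Bool) (h1 : cr c) (h2 : cr c') (h3 : Dv c) (h4 : Dv c')
    (h5 : par s c = par s c') : c = c' := by
  obtain ⟨t1, h1⟩ := h1
  obtain ⟨t2, h2⟩ := h2
  have h6 := nn_mono (le_max_left t1 t2)
  have h7 := nn_mono (le_max_right t1 t2)
  exact (invB (max t1 t2)).ku s (by omega) (by omega) h3 h4 h5

theorem kid_dead {t o : ℕ} (s : Bool) (h : dead t o) : ∃ c, cr c ∧ Dv c ∧ par s c = o := by
  obtain ⟨c, h1, h2, h3⟩ := (invB t).kid s h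
  exact ⟨c, ⟨t, h1⟩, h2, h3⟩

theorem tt_cr {o : ℕ} (h : cr o) (hk : (G o).kd ≠ 0) : TG (G o).tg := by
  obtain ⟨t, ht⟩ := h
  obtain ⟨h1, h2⟩ := (invB t).tt ht hk
  exact ⟨t, by omega, h2⟩

theorem kk_cr {o : ℕ} (s : Bool) (h : cr o) (hk : (G o).kd = skd s) :
    loc s o = (G o).tg + off s := by
  obtain ⟨t, ht⟩ := h
  exact (invB t).kk s ht hk

theorem lf_cr {o : ℕ} (s : Bool) (h : cr o) : Rt (loc s o) := by
  obtain ⟨t, ht⟩ := h
  obtain ⟨h1, h2⟩ := (invB t).lf s ht
  exact ⟨t, by omega, h2⟩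

theorem Rt.cr {x : ℕ} (h : Rt x) : cr x := ⟨h.choose, h.choose_spec.1⟩

theorem Rt.fr {x : ℕ} (h : Rt x) : Fr x := h.choose_spec.2

theorem skd_ne (s : Bool) : skd s ≠ 0 := by cases s <;> simp [skd]

/-- Two final objects at the same location are equal. -/
theorem Fin.inj {o o' : ℕ} (s : Bool) (h : Fin o) (h' : Fin o') (he : loc s o = loc s o') :
    o = o' := by
  obtain ⟨⟨t1, h1⟩, h2⟩ := h
  obtain ⟨⟨t2, h3⟩, h4⟩ := h'
  have h6 := nn_mono (le_max_left t1 t2)
  have h7 := nn_mono (le_max_right t1 t2)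
  exact (invB (max t1 t2)).li s ⟨by omega, h2 _⟩ ⟨by omega, h4 _⟩ he

/-- An object at the location of a final object is this object or dies. -/
theorem Fin.eq_or_dead {o o' : ℕ} (s : Bool) (h : Fin o) (h' : cr o') (he : loc s o' = loc s o) :
    o' = o ∨ ∃ t, dead t o' := by
  by_cases h1 : ∃ t, dead t o'
  · exact Or.inr h1
  · push Not at h1
    exact Or.inl (Fin.inj s ⟨h', h1⟩ h he)

theorem skd_loc {o : ℕ} (s : Bool) (h : cr o) (hk : (G o).kd = skd s) :
    (G (loc s o)).kd = skd s ∧ (G (loc s o)).tg = (G o).tg := by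
  induction o using Nat.strong_induction_on with
  | _ o ih =>
    rcases fd_cr h with h1 | h1
    · rw [h1.loc s]; exact ⟨hk, rfl⟩
    · have h2 := (h1.skd s).1 hk
      have h3 := h1.tgp s (by rw [hk]; exact skd_ne s)
      have h4 : cr (par s o) := by
        obtain ⟨t, ht⟩ := h1.dead_par h s
        exact cr_of_dead ht
      have h5 := ih (par s o) (h1.par_lt s) h4 h2
      rw [h1.loc s]
      exact ⟨h5.1, h5.2.trans h3.2⟩

theorem at_loc {x : ℕ} (s : Bool) (hk : (G x).kd = skd s) {o : ℕ} (h : cr o)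
    (hl : loc s o = x) : (G o).kd = skd s ∧ (G o).tg = (G x).tg := by
  induction o using Nat.strong_induction_on with
  | _ o ih =>
    rcases fd_cr h with h1 | h1
    · rw [h1.loc s] at hl
      rw [hl]; exact ⟨hk, rfl⟩
    · have h4 : cr (par s o) := by
        obtain ⟨t, ht⟩ := h1.dead_par h s
        exact cr_of_dead ht
      have h5 := ih (par s o) (h1.par_lt s) h4 (by rw [← h1.loc s]; exact hl)
      have h6 := (h1.skd s).2 h5.1
      exact ⟨h6, (h1.tgp s (by rw [h6]; exact skd_ne s)).2.symm.trans h5.2⟩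

/-- In one step, either all living objects with the tag `q` die or none does, and no new object
has the tag `q` in the second case. -/
theorem tag_step (t q : ℕ) (hq : q < nn t) :
    (∀ o, al t o → (G o).kd ≠ 0 → (G o).tg = q → dead (t + 1) o) ∨
    ((∀ o, al t o → (G o).kd ≠ 0 → (G o).tg = q → ¬ dead (t + 1) o) ∧
      ∀ o, nn t ≤ o → o < nn (t + 1) → (G o).kd ≠ 0 → (G o).tg ≠ q) := by
  rcases cases_at t with h1 | ⟨r, h1⟩ | ⟨r, h1⟩ | ⟨r, h1⟩
  · right
    refine ⟨fun o ho _ _ hd => ho.2 ((h1.dead' o).1 hd), fun o h2 h3 hk => ?_⟩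
    have hnn := h1.nn'
    have h4 : o = nn t ∨ o = nn t + 1 ∨ o = nn t + 2 ∨
      o = nn t + 3 ∨ o = nn t + 4 ∨ o = nn t + 5 := by omega
    have b0 := fr_iff h1.g0
    have b1 := fr_iff h1.g1
    have b2 := fr_iff h1.g2
    have b3 := fr_iff h1.g3
    have b4 := fr_iff h1.g4
    have b5 := fr_iff h1.g5
    rcases h4 with rfl | rfl | rfl | rfl | rfl | rfl
    · rw [b0.2.2]; omega
    · rw [b1.2.2]; omega
    · rw [b2.2.2]; omega
    · rw [b3.2.2]; omega
    · exact absurd b4.2.1 hk
    · exact absurd b5.2.1 hk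
  · have F := actF (invA t) (invB t) h1
    have hblk := (invA t).blk h1.isr
    by_cases h2 : q ∈ r.low
    · left
      intro o ho hk hg
      exact (h1.dead' o).2 (Or.inl (F.mem.2 (Or.inr (Or.inr ⟨ho, hk, by rw [hg]; exact h2⟩))))
    · right
      constructor
      · intro o ho hk hg hd
        rcases (h1.dead' o).1 hd with h3 | h3
        · rcases F.mem.1 h3 with h4 | h4 | ⟨_, _, h4⟩
          · rw [h4] at hk; exact hk (fr_iff hblk.g4).2.1
          · rw [h4] at hk; exact hk (fr_iff hblk.g5).2.1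
          · rw [hg] at h4; exact h2 h4
        · exact ho.2 h3
      · intro o h3 h4 hk hg
        by_cases h5 : o < nn t + (cy t r).length
        · obtain ⟨h6, h7⟩ := F.pm h3 h5
          obtain ⟨h8, h9⟩ := h6.tgp true hk
          rcases F.mem.1 (h7 true) with h10 | h10 | ⟨_, _, h10⟩
          · rw [h10] at h8; exact h8 (fr_iff hblk.g4).2.1
          · rw [h10] at h8; exact h8 (fr_iff hblk.g5).2.1
          · rw [h9, hg] at h10; exact h2 h10
        · have := (F.fr (not_lt.1 h5) h4).2.2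
          rw [hg] at this
          exact h2 this
  · right
    refine ⟨fun o ho _ _ hd => ho.2 ((h1.dead' o).1 hd), fun o h2 h3 hk => ?_⟩
    rw [h1.nn'] at h3; omega
  · right
    refine ⟨fun o ho _ _ hd => ho.2 ((h1.dead' o).1 hd), fun o h2 h3 hk => ?_⟩
    rw [h1.nn'] at h3; omega

/-- If a tagged object never dies, then no object with this tag alive later dies, and no new one
is created. -/
theorem tag_final {t q o1 : ℕ} (ho1 : al t o1) (hk : (G o1).kd ≠ 0) (hg : (G o1).tg = q)
    (hf : ∀ t, ¬ dead t o1) {t' : ℕ} (ht : t ≤ t') :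
    (∀ o, al t o → (G o).kd ≠ 0 → (G o).tg = q → al t' o) ∧
      (∀ o, nn t ≤ o → o < nn t' → (G o).kd ≠ 0 → (G o).tg ≠ q) := by
  induction t', ht using Nat.le_induction with
  | base => exact ⟨fun o h _ _ => h, fun o h1 h2 => by omega⟩
  | succ t' ht ih =>
    have hq : q < nn t' := by
      have h1 := ((invB t).tt ho1.1 hk).1
      have h2 := nn_mono ht
      have h3 := ho1.1
      omega
    have ho1' : al t' o1 := ih.1 o1 ho1 hk hg
    have hnn : nn t' ≤ nn (t' + 1) := nn_mono (by omega)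
    rcases tag_step t' q hq with h1 | ⟨h1, h2⟩
    · exact absurd (h1 o1 ho1' hk hg) (hf _)
    · refine ⟨fun o h3 h4 h5 => ?_, fun o h3 h4 h5 h6 => ?_⟩
      · have h6 := ih.1 o h3 h4 h5
        have h7 := h6.1
        exact ⟨by omega, h1 o h6 h4 h5⟩
      · by_cases h7 : o < nn t'
        · exact ih.2 o h3 h7 h5 h6
        · exact h2 o (not_lt.1 h7) h4 h5 h6

/-- Each location has a final object or belongs to a tag all of whose objects die. -/
theorem fin_or_inf (s : Bool) {x : ℕ} (hx : Rt x) :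
    (∃ o, Fin o ∧ loc s o = x) ∨ (∃ q, Inf q ∧ x = q + off s) := by
  by_contra hcon
  rw [not_or] at hcon
  obtain ⟨hno, hcon⟩ := hcon
  have hdie : ∀ o, cr o → loc s o = x → ∃ t, dead t o := by
    intro o h1 h2
    by_contra h3
    push Not at h3
    exact hno ⟨o, ⟨h1, h3⟩, h2⟩
  have hfr := hx.fr
  -- the kind of `x`
  have hk : (G x).kd = skd s := by
    by_contra hk
    obtain ⟨t, ht⟩ := hdie x hx.cr (hfr.loc s)
    obtain ⟨c, hc1, hc2, hc3⟩ := kid_dead s ht
    have hcl : loc s c = x := by rw [hc2.loc s, hc3, hfr.loc s]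
    obtain ⟨t1, ht1⟩ := hdie c hc1 hcl
    have hck : (G c).kd ≠ skd s := fun h => hk (by rw [← hc3]; exact (hc2.skd s).1 h)
    have hc0 : (G c).kd ≠ 0 := fun h => hc2.ne (((invB t1).dn ht1).2 h)
    obtain ⟨c', hd1, hd2, hd3⟩ := kid_dead s ht1
    have hdl : loc s c' = x := by rw [hd2.loc s, hd3, hcl]
    obtain ⟨t2, ht2⟩ := hdie c' hd1 hdl
    have hd0 : (G c').kd ≠ 0 := fun h => hd2.ne (((invB t2).dn ht2).2 h)
    have h5 := hc2.kd
    have h6 := hd2.kd
    have hp := hd3
    cases s with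
    | true =>
      have hk1 : (G c).kd ≠ 1 := hck
      have hp' : (G c').u = c := hp
      rw [hp'] at h6
      rcases ckd_cases (G (G c).u).kd with h7 | ⟨_, h7⟩ | ⟨_, h7⟩
      · omega
      · omega
      · rw [h7] at h5
        rw [h5] at h6
        exact hd0 h6
    | false =>
      have hk1 : (G c).kd ≠ 4 := hck
      have hp' : (G c').v = c := hp
      have g1 := hd2.g1
      have g3 := hd2.g3
      rw [hp'] at g1 g3
      rcases ckd_cases (G (G c).u).kd with h7 | ⟨_, h7⟩ | ⟨_, h7⟩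
      · omega
      · rw [h7] at h5
        rcases ckd_cases (G (G c').u).kd with h8 | ⟨h8, _⟩ | ⟨h8, _⟩
        · rw [h8] at h6; exact hd0 h6
        · have := g1.1 h8; omega
        · have := g3.1 h8; omega
      · omega
  have hk0 : (G x).kd ≠ 0 := by rw [hk]; exact skd_ne s
  have hxq : x = (G x).tg + off s := by
    have := kk_cr s hx.cr hk
    rw [hfr.loc s] at this
    exact this
  refine hcon ⟨(G x).tg, ⟨tt_cr hx.cr hk0, ?_⟩, hxq⟩
  intro o ho hok hog
  by_contra hnd
  push Not at hnd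
  obtain ⟨t1, ht1⟩ := ho
  obtain ⟨t2, ht2⟩ := hx.cr
  have h6 := nn_mono (le_max_left t1 t2)
  have h7 := nn_mono (le_max_right t1 t2)
  have hal : al (max t1 t2) o := ⟨by omega, hnd _⟩
  obtain ⟨o', h8, h9⟩ := (invB (max t1 t2)).le s (by omega : x < nn (max t1 t2)) hfr
  have h10 := at_loc s hk ⟨_, h8.1⟩ h9
  obtain ⟨t', ht'⟩ := hdie o' ⟨_, h8.1⟩ h9
  have h11 := (tag_final hal hok hog hnd (le_max_left (max t1 t2) t')).1 o' h8
    (by rw [h10.1]; exact skd_ne s) h10.2
  exact h11.2 (dead_mono (le_max_right _ _) ht')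

/-- The location of a tag. -/
theorem tg_loc (s : Bool) {q : ℕ} (h : TG q) :
    Rt (q + off s) ∧ (G (q + off s)).kd = skd s ∧ (G (q + off s)).tg = q := by
  obtain ⟨t, ht, hT⟩ := h
  have h1 : 1 ≤ skd s ∧ skd s ≤ 4 := by cases s <;> simp [skd]
  obtain ⟨o, h2, h3, h4⟩ := (invB t).te ht hT h1.1 h1.2
  have h5 := kk_cr s ⟨t, h2.1⟩ h3
  rw [h4] at h5
  have h6 := skd_loc s ⟨t, h2.1⟩ h3
  have h7 := lf_cr s ⟨t, h2.1⟩
  rw [h5] at h6 h7
  exact ⟨h7, h6.1, h6.2.trans h4⟩

theorem Inf.no_fin (s : Bool) {q : ℕ} (h : Inf q) {o : ℕ} (ho : Fin o) : loc s o ≠ q + off s := by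
  intro hl
  obtain ⟨-, h1, h2⟩ := tg_loc s h.1
  obtain ⟨h3, h4⟩ := at_loc s h1 ho.1 hl
  obtain ⟨t, ht⟩ := h.2 o ho.1 (by rw [h3]; exact skd_ne s) (h4.trans h2)
  exact ho.2 t ht

/-- All objects at the location of a dying tag have the tag. -/
theorem Inf.at (s : Bool) {q : ℕ} (h : Inf q) {o : ℕ} (ho : cr o) (hl : loc s o = q + off s) :
    (G o).kd ≠ 0 ∧ (G o).tg = q := by
  obtain ⟨-, h1, h2⟩ := tg_loc s h.1
  obtain ⟨h3, h4⟩ := at_loc s h1 ho hl
  exact ⟨by rw [h3]; exact skd_ne s, h4.trans h2⟩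

/-- Having the tag `q`. -/
def tq (q o : ℕ) : Prop := (G o).kd ≠ 0 ∧ (G o).tg = q

/-- The numbers that an object carries. -/
def nm (m o : ℕ) : Prop := m = o ∨ m = (G o).u ∨ m = (G o).v

/-- A number carried by an object with a dead child, or by a dead object with a dead child. -/
theorem nm_rl {s : Bool} {o c m t t' : ℕ} (ho : dead t o) (hc : Dv c) (hp : par s c = o)
    (hdc : dead t' c) (hm : nm m o) : RL m := by
  have h1 : RL o := by
    have := hc.rl hdc
    rw [← hp]
    cases s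
    · exact this.2
    · exact this.1
  rcases fd_cr (cr_of_dead ho) with h2 | h2
  · rcases hm with rfl | rfl | rfl
    · exact h1
    · rw [h2.2.2.1]; exact h1
    · rw [h2.2.2.2]; exact h1
  · rcases hm with rfl | rfl | rfl
    · exact h1
    · exact (h2.rl ho).1
    · exact (h2.rl ho).2

theorem Fin.nm_iff (s : Bool) {o m : ℕ} (h : Fin o) (hm : ¬ RL m) :
    (∃ o', cr o' ∧ loc s o' = loc s o ∧ nm m o') ↔ nm m o := by
  constructor
  · rintro ⟨o', h1, h2, h3⟩
    rcases h.eq_or_dead s h1 h2 with rfl | ⟨t, ht⟩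
    · exact h3
    · obtain ⟨c, hc1, hc2, hc3⟩ := kid_dead s ht
      have hcl : loc s c = loc s o := by rw [hc2.loc s, hc3, h2]
      rcases h.eq_or_dead s hc1 hcl with rfl | ⟨t', ht'⟩
      · rcases fd_cr h1 with h4 | h4
        · have h5 : m = o' := by
            rcases h3 with h3 | h3 | h3
            · exact h3
            · rw [h4.2.2.1] at h3; exact h3
            · rw [h4.2.2.2] at h3; exact h3
          rw [h5, ← hc3]
          cases s
          · exact Or.inr (Or.inr rfl)
          · exact Or.inr (Or.inl rfl)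
        · rcases h3 with h3 | h3 | h3
          · rw [h3, ← hc3]
            cases s
            · exact Or.inr (Or.inr rfl)
            · exact Or.inr (Or.inl rfl)
          · rw [h3] at hm; exact absurd (h4.rl ht).1 hm
          · rw [h3] at hm; exact absurd (h4.rl ht).2 hm
      · exact absurd (nm_rl ht hc2 hc3 ht' h3) hm
  · intro h1
    exact ⟨o, h.1, rfl, h1⟩

theorem Inf.nm_rl (s : Bool) {q o m : ℕ} (h : Inf q) (ho : cr o) (hl : loc s o = q + off s)
    (hm : nm m o) : RL m := by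
  obtain ⟨h1, h2⟩ := h.at s ho hl
  obtain ⟨t, ht⟩ := h.2 o ho h1 h2
  obtain ⟨c, hc1, hc2, hc3⟩ := kid_dead s ht
  have hcl : loc s c = q + off s := by rw [hc2.loc s, hc3, hl]
  obtain ⟨h3, h4⟩ := h.at s hc1 hcl
  obtain ⟨t', ht'⟩ := h.2 c hc1 h3 h4
  exact Dim.nm_rl ht hc2 hc3 ht' hm

theorem Fin.tq_iff (s : Bool) {o q : ℕ} (h : Fin o) :
    (∃ o', cr o' ∧ loc s o' = loc s o ∧ ¬ tq q o') ↔ ¬ tq q o := by
  constructor
  · rintro ⟨o', ⟨t1, h1⟩, h2, h3⟩ h4
    obtain ⟨t2, h5⟩ := h.1
    have h6 := nn_mono (le_max_left t1 t2)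
    have h7 := nn_mono (le_max_right t1 t2)
    have key : ∀ k o'', nn (max t1 t2) - o'' = k → o'' < nn (max t1 t2) →
        loc s o'' = loc s o → tq q o'' := by
      intro k
      induction k using Nat.strong_induction_on with
      | _ k ih =>
        intro o'' hk ho'' hl
        by_cases hd : dead (max t1 t2) o''
        · obtain ⟨c, hc1, hc2, hc3⟩ := (invB (max t1 t2)).kid s hd
          have h8 := hc2.par_lt s
          rw [hc3] at h8
          have h9 := ih (nn (max t1 t2) - c) (by omega) c rfl hc1 (by rw [hc2.loc s, hc3, hl])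
          have h10 := hc2.tgp s h9.1
          rw [hc3] at h10
          exact ⟨h10.1, h10.2.trans h9.2⟩
        · have := (invB (max t1 t2)).li s ⟨ho'', hd⟩ ⟨by omega, h.2 _⟩ hl
          rw [this]; exact h4
    exact h3 (key _ o' rfl (by omega) h2)
  · intro h1
    exact ⟨o, h.1, rfl, h1⟩

/-! ### The labels of the roots -/

theorem out_even {s : Bool} {x m : ℕ} :
    Out s x (2 * m) ↔ RL m ∨ ∃ o, cr o ∧ loc s o = x ∧ nm m o := by
  unfold Out
  have h1 : 2 * m % 2 = 0 := by omega
  have h2 : 2 * m / 2 = m := by omega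
  rw [h1, h2]
  constructor
  · rintro (⟨_, h | ⟨t, o, h3, h4, h5⟩⟩ | ⟨h, _⟩)
    · exact Or.inl h
    · exact Or.inr ⟨o, ⟨t, h3⟩, h4, h5⟩
    · omega
  · rintro (h | ⟨o, ⟨t, h3⟩, h4, h5⟩)
    · exact Or.inl ⟨rfl, Or.inl h⟩
    · exact Or.inl ⟨rfl, Or.inr ⟨t, o, h3, h4, h5⟩⟩

theorem out_odd {s : Bool} {x q : ℕ} :
    Out s x (2 * q + 1) ↔ TG q ∧ ∃ o, cr o ∧ loc s o = x ∧ ¬ tq q o := by
  unfold Out
  have h1 : (2 * q + 1) % 2 = 1 := by omega
  have h2 : (2 * q + 1) / 2 = q := by omega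
  rw [h1, h2]
  constructor
  · rintro (⟨h, _⟩ | ⟨_, h, t, o, h3, h4, h5⟩)
    · omega
    · exact ⟨h, o, ⟨t, h3⟩, h4, h5⟩
  · rintro ⟨h, o, ⟨t, h3⟩, h4, h5⟩
    exact Or.inr ⟨rfl, h, t, o, h3, h4, h5⟩

theorem cc_even {m : ℕ} : CC (2 * m) ↔ RL m := by
  unfold CC
  have h1 : 2 * m % 2 = 0 := by omega
  have h2 : 2 * m / 2 = m := by omega
  rw [h1, h2]
  simp

theorem cc_odd {q : ℕ} : CC (2 * q + 1) ↔ TG q := by
  unfold CC
  have h1 : (2 * q + 1) % 2 = 1 := by omega
  have h2 : (2 * q + 1) / 2 = q := by omega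
  rw [h1, h2]
  simp

theorem par_cases (n : ℕ) : ∃ m, n = 2 * m ∨ n = 2 * m + 1 := ⟨n / 2, by omega⟩

/-- The label of a final object. -/
theorem Fin.out (s : Bool) {o x : ℕ} (h : Fin o) : Out s x (2 * o) ↔ x = loc s o := by
  rw [out_even]
  constructor
  · rintro (h1 | ⟨o', h1, h2, h3⟩)
    · exact absurd h1 h.not_rl
    · rcases fd_cr h1 with h4 | h4
      · have h5 : o = o' := by
          rcases h3 with h3 | h3 | h3
          · exact h3
          · rw [h4.2.2.1] at h3; exact h3
          · rw [h4.2.2.2] at h3; exact h3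
        rw [h5, h2]
      · rcases h3 with h3 | h3 | h3
        · rw [h3, h2]
        · obtain ⟨t, ht⟩ := h4.dead_par h1 true
          have ht' : dead t (G o').u := ht
          rw [← h3] at ht'
          exact absurd ht' (h.2 t)
        · obtain ⟨t, ht⟩ := h4.dead_par h1 false
          have ht' : dead t (G o').v := ht
          rw [← h3] at ht'
          exact absurd ht' (h.2 t)
  · rintro rfl
    exact Or.inr ⟨o, h.1, rfl, Or.inl rfl⟩

theorem Fin.cc {o : ℕ} (h : Fin o) : ¬ CC (2 * o) := by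
  rw [cc_even]; exact h.not_rl

/-- The label of a dying tag. -/
theorem Inf.out (s : Bool) {q x : ℕ} (h : Inf q) (hx : Rt x) :
    ¬ Out s x (2 * q + 1) ↔ x = q + off s := by
  rw [out_odd]
  constructor
  · intro h1
    have h2 : ∀ o, cr o → loc s o = x → tq q o := by
      intro o h3 h4
      by_contra h5
      exact h1 ⟨h.1, o, h3, h4, h5⟩
    rcases fin_or_inf s hx with ⟨o, h3, h4⟩ | ⟨q', h3, h4⟩
    · obtain ⟨h5, h6⟩ := h2 o h3.1 h4
      obtain ⟨t, ht⟩ := h.2 o h3.1 h5 h6
      exact absurd ht (h3.2 t)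
    · obtain ⟨h5, h6, h7⟩ := tg_loc s h3.1
      rw [← h4] at h7
      have h8 := h2 x hx.cr (hx.fr.loc s)
      rw [h4, ← h7, h8.2]
  · rintro rfl ⟨_, o, h2, h3, h4⟩
    exact h4 (h.at s h2 h3)

theorem Inf.cc {q : ℕ} (h : Inf q) : CC (2 * q + 1) := cc_odd.2 h.1

theorem h1_out (s : Bool) (n : ℕ) (hn : ¬ CC n) : {a | Rt a ∧ Out s a n}.Finite := by
  obtain ⟨m, rfl | rfl⟩ := par_cases n
  · rw [cc_even] at hn
    have h1 : ({c | cr c ∧ Dv c ∧ (G c).u = m} : Set ℕ).Finite := by
      apply Set.Subsingleton.finite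
      rintro c ⟨h1, h2, h3⟩ c' ⟨h1', h2', h3'⟩
      exact ku_cr true h1 h1' h2 h2' (h3.trans h3'.symm)
    have h2 : ({c | cr c ∧ Dv c ∧ (G c).v = m} : Set ℕ).Finite := by
      apply Set.Subsingleton.finite
      rintro c ⟨h1, h2, h3⟩ c' ⟨h1', h2', h3'⟩
      exact ku_cr false h1 h1' h2 h2' (h3.trans h3'.symm)
    refine (((Set.finite_singleton m).union (h1.union h2)).image (loc s)).subset ?_
    rintro a ⟨_, ha⟩
    rw [out_even] at ha
    obtain ⟨o, h3, h4, h5⟩ := ha.resolve_left hn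
    refine ⟨o, ?_, h4⟩
    rcases fd_cr h3 with h6 | h6
    · left
      rcases h5 with h5 | h5 | h5
      · exact h5.symm
      · rw [h6.2.2.1] at h5; exact h5.symm
      · rw [h6.2.2.2] at h5; exact h5.symm
    · rcases h5 with h5 | h5 | h5
      · exact Or.inl h5.symm
      · exact Or.inr (Or.inl ⟨h3, h6, h5.symm⟩)
      · exact Or.inr (Or.inr ⟨h3, h6, h5.symm⟩)
  · rw [cc_odd] at hn
    refine Set.finite_empty.subset ?_
    rintro a ⟨_, ha⟩
    rw [out_odd] at ha
    exact absurd ha.1 hn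

theorem h2_out (s : Bool) (n : ℕ) (hn : CC n) : {a | Rt a ∧ ¬ Out s a n}.Finite := by
  obtain ⟨m, rfl | rfl⟩ := par_cases n
  · rw [cc_even] at hn
    refine Set.finite_empty.subset ?_
    rintro a ⟨_, ha⟩
    rw [out_even] at ha
    exact absurd (Or.inl hn) ha
  · rw [cc_odd] at hn
    by_cases hI : Inf m
    · refine (Set.finite_singleton (m + off s)).subset ?_
      rintro a ⟨ha, hb⟩
      exact (hI.out s ha).1 hb
    · have : ∃ o, cr o ∧ (G o).kd ≠ 0 ∧ (G o).tg = m ∧ ∀ t, ¬ dead t o := by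
        by_contra hcon
        refine hI ⟨hn, fun o h1 h2 h3 => ?_⟩
        by_contra h4
        push Not at h4
        exact hcon ⟨o, h1, h2, h3, h4⟩
      obtain ⟨o, ⟨t, ht⟩, h2, h3, h4⟩ := this
      refine (Set.finite_lt_nat (nn t)).subset ?_
      rintro a ⟨ha, hb⟩
      rw [out_odd] at hb
      have h5 : tq m a := by
        by_contra h5
        exact hb ⟨hn, a, ha.cr, ha.fr.loc s, h5⟩
      show a < nn t
      by_contra h6
      obtain ⟨t', ht'⟩ := ha.cr
      have h7 := nn_mono (le_max_right t t')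
      exact (tag_final ⟨ht, h4 t⟩ h2 h3 h4 (le_max_left t t')).2 a (not_lt.1 h6) (by omega)
        h5.1 h5.2

theorem h3_out (s : Bool) (a : ℕ) (ha : Rt a) :
    (∃ n, ¬ CC n ∧ ∀ b, Rt b → (Out s b n ↔ b = a)) ∨
      (∃ n, CC n ∧ ∀ b, Rt b → (¬ Out s b n ↔ b = a)) := by
  rcases fin_or_inf s ha with ⟨o, h1, rfl⟩ | ⟨q, h1, rfl⟩
  · exact Or.inl ⟨2 * o, h1.cc, fun b _ => h1.out s⟩
  · exact Or.inr ⟨2 * q + 1, h1.cc, fun b hb => h1.out s hb⟩

/-! ### The correspondence between the roots of the two sides -/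

open Classical in
/-- The root of the second side that corresponds to a root of the first side. -/
noncomputable def sg (x : ℕ) : ℕ :=
  if h : ∃ o, Fin o ∧ loc true o = x then loc false h.choose else x + 1

theorem sg_fin {o : ℕ} (h : Fin o) : sg (loc true o) = loc false o := by
  have hex : ∃ o', Fin o' ∧ loc true o' = loc true o := ⟨o, h, rfl⟩
  unfold sg
  rw [dif_pos hex]
  have h1 := hex.choose_spec
  rw [Fin.inj true h1.1 h h1.2]

theorem sg_inf {q : ℕ} (h : Inf q) : sg q = q + 1 := by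
  unfold sg
  rw [dif_neg]
  rintro ⟨o, h1, h2⟩
  exact h.no_fin true h1 h2

theorem fin_or_inf' {x : ℕ} (hx : Rt x) :
    (∃ o, Fin o ∧ loc true o = x) ∨ (∃ q, Inf q ∧ q = x) := by
  rcases fin_or_inf true hx with h | ⟨q, h1, h2⟩
  · exact Or.inl h
  · exact Or.inr ⟨q, h1, h2.symm⟩

theorem sg_bij : Set.BijOn sg {a | Rt a} {a | Rt a} := by
  refine ⟨?_, ?_, ?_⟩
  · intro x hx
    rcases fin_or_inf' hx with ⟨o, h1, rfl⟩ | ⟨q, h1, rfl⟩
    · rw [sg_fin h1]; exact lf_cr false h1.1
    · show Rt (sg q)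
      rw [sg_inf h1]
      exact (tg_loc false h1.1).1
  · intro x hx x' hx' he
    rcases fin_or_inf' hx with ⟨o, h1, rfl⟩ | ⟨q, h1, rfl⟩
    · rcases fin_or_inf' hx' with ⟨o', h2, rfl⟩ | ⟨q', h2, rfl⟩
      · rw [sg_fin h1, sg_fin h2] at he
        rw [Fin.inj false h1 h2 he]
      · rw [sg_fin h1] at he
        have he' : loc false o = sg q' := he
        rw [sg_inf h2] at he'
        exact absurd he' (h2.no_fin false h1)
    · rcases fin_or_inf' hx' with ⟨o', h2, rfl⟩ | ⟨q', h2, rfl⟩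
      · rw [sg_fin h2] at he
        have he' : sg q = loc false o' := he
        rw [sg_inf h1] at he'
        exact absurd he'.symm (h1.no_fin false h2)
      · have he' : sg q = sg q' := he
        rw [sg_inf h1, sg_inf h2] at he'
        omega
  · intro y hy
    rcases fin_or_inf false hy with ⟨o, h1, rfl⟩ | ⟨q, h1, rfl⟩
    · exact ⟨loc true o, lf_cr true h1.1, sg_fin h1⟩
    · exact ⟨q, (tg_loc true h1.1).1, sg_inf h1⟩

theorem sg_out (x : ℕ) (hx : Rt x) (n : ℕ) : Out true x n ↔ Out false (sg x) n := by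
  rcases fin_or_inf' hx with ⟨o, h1, rfl⟩ | ⟨q, h1, rfl⟩
  · rw [sg_fin h1]
    obtain ⟨m, rfl | rfl⟩ := par_cases n
    · rw [out_even, out_even]
      by_cases hm : RL m
      · simp [hm]
      · rw [h1.nm_iff true hm, h1.nm_iff false hm]
    · rw [out_odd, out_odd, h1.tq_iff true, h1.tq_iff false]
  · show Out true q n ↔ Out false (sg q) n
    rw [sg_inf h1]
    obtain ⟨m, rfl | rfl⟩ := par_cases n
    · rw [out_even, out_even]
      constructor
      · rintro (h2 | ⟨o, h2, h3, h4⟩)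
        · exact Or.inl h2
        · exact Or.inl (h1.nm_rl true h2 h3 h4)
      · rintro (h2 | ⟨o, h2, h3, h4⟩)
        · exact Or.inl h2
        · exact Or.inl (h1.nm_rl false h2 h3 h4)
    · rw [out_odd, out_odd]
      have key : ∀ s, (∃ o, cr o ∧ loc s o = q + off s ∧ ¬ tq m o) ↔ m ≠ q := by
        intro s
        constructor
        · rintro ⟨o, h2, h3, h4⟩ rfl
          exact h4 (h1.at s h2 h3)
        · intro h2
          obtain ⟨h3, h4, h5⟩ := tg_loc s h1.1
          refine ⟨q + off s, h3.cr, h3.fr.loc s, fun h6 => h2 ?_⟩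
          rw [← h6.2, h5]
      exact and_congr_right fun _ => (key true).trans (key false).symm

end Pool.Agent.Dim
end

section

/-!
# The true path and the first kind of requirements
-/

namespace Pool.Agent.Dim

open Nat.Partrec (Code)
open Nat.Partrec.Code

/-- The address is visited infinitely often. -/
def Vis (τ : List Bool) : Prop := ∀ t, ∃ t' ≥ t, dl t' = τ

/-- The record at the address is permanent from time `t0` on. -/
def Pm (τ : List Bool) (t0 p : ℕ) (d : Bool) (l : List ℕ) : Prop :=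
  ∀ t ≥ t0, ∃ r, N t τ = some r ∧ r.p = p ∧ r.dn = d ∧ r.low = l

/-- The record is removed at time `t`. -/
def Rmv (τ : List Bool) (t : ℕ) : Prop :=
  (∃ r0, ActAt t r0 ∧ dl t <+: τ ∧ dl t ≠ τ) ∨ (∃ r0, RecAt t r0 ∧ dl t ++ [false] <+: τ)

theorem step_keep {t : ℕ} {τ : List Bool} {r : Rec} (hr : N t τ = some r) (hn : ¬ Rmv τ t) :
    ∃ r', N (t + 1) τ = some r' ∧ r'.p = r.p ∧ r'.low = r.low ∧
      (r'.dn = r.dn ∨ r'.dn = true) := by
  rcases cases_at t with h | ⟨r0, h⟩ | ⟨r0, h⟩ | ⟨r0, h⟩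
  · obtain ⟨r', hr'⟩ := h.fwd hr
    refine ⟨r', hr', ?_⟩
    rcases h.inv hr' with ⟨rfl, _⟩ | ⟨_, r1, h1, h2⟩
    · rw [h.nor] at hr; cases hr
    · rw [hr] at h1
      cases h1
      rcases h2 with ⟨_, rfl⟩ | ⟨_, rfl⟩
      · exact ⟨rfl, rfl, Or.inl rfl⟩
      · exact ⟨rfl, rfl, Or.inl rfl⟩
  · obtain ⟨r', hr'⟩ := h.fwd hr (fun h1 => hn (Or.inl ⟨r0, h, h1.1, fun h2 => h1.2 h2.symm⟩))
    refine ⟨r', hr', ?_⟩
    obtain ⟨r1, h1, h2⟩ := h.inv hr'
    rw [hr] at h1
    cases h1
    rcases h2 with ⟨_, rfl⟩ | ⟨_, rfl⟩ | ⟨_, _, rfl⟩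
    · exact ⟨rfl, rfl, Or.inr rfl⟩
    · exact ⟨rfl, rfl, Or.inl rfl⟩
    · exact ⟨rfl, rfl, Or.inl rfl⟩
  · obtain ⟨r', hr'⟩ := h.fwd hr (fun h1 => hn (Or.inr ⟨r0, h, h1⟩))
    refine ⟨r', hr', ?_⟩
    obtain ⟨_, r1, h1, h2⟩ := h.inv hr'
    rw [hr] at h1
    cases h1
    rcases h2 with ⟨_, rfl, rfl⟩ | ⟨_, rfl⟩
    · exact ⟨rfl, rfl, Or.inl rfl⟩
    · exact ⟨rfl, rfl, Or.inl rfl⟩
  · refine ⟨r, by rw [h.N']; exact hr, rfl, rfl, Or.inl rfl⟩

theorem Rmv.none {t : ℕ} {τ : List Bool} (h : Rmv τ t) : N (t + 1) τ = none := by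
  rcases h with ⟨r0, h, h1, h2⟩ | ⟨r0, h, h1⟩
  · rw [h.N', if_pos ⟨h1, fun h => h2 h.symm⟩]
  · rw [h.N', if_pos h1]

theorem Pm.not_rmv {τ : List Bool} {t0 p : ℕ} {d : Bool} {l : List ℕ} (h : Pm τ t0 p d l)
    {t : ℕ} (ht : t0 ≤ t) : ¬ Rmv τ t := by
  intro h1
  obtain ⟨r, hr, -⟩ := h (t + 1) (by omega)
  rw [h1.none] at hr
  cases hr

theorem Pm.not_act {τ : List Bool} {t0 p : ℕ} {d : Bool} {l : List ℕ} (h : Pm τ t0 p d l)
    {t : ℕ} (ht : t0 ≤ t) {r0 : Rec} (ha : ActAt t r0) : dl t ≠ τ := by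
  intro he
  obtain ⟨r, hr, -, h2, -⟩ := h t ht
  obtain ⟨r', hr', -, h4, -⟩ := h (t + 1) (by omega)
  have h5 := ha.isr
  rw [he, hr] at h5
  cases h5
  obtain ⟨r1, h1, h6⟩ := ha.inv hr'
  rcases h6 with ⟨_, rfl⟩ | ⟨h7, _⟩ | ⟨h7, _⟩
  · have h8 := ha.dn
    rw [h2] at h8
    rw [h8] at h4
    cases h4
  · exact absurd he.symm (pfx_ne h7)
  · exact h7 (by rw [he])

theorem mem_of_lk {l : List (List Bool × Rec)} {τ : List Bool} {r : Rec} (h : lk l τ = some r) :
    (τ, r) ∈ l := by
  induction l with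
  | nil => cases h
  | cons q l ih =>
    rw [lk] at h
    by_cases h1 : q.1 = τ
    · rw [if_pos h1] at h
      have : q = (τ, r) := by
        rw [← h1, ← Option.some_inj.1 h]
      rw [this]; exact List.mem_cons_self
    · rw [if_neg h1] at h
      exact List.mem_cons_of_mem _ (ih h)

theorem exists_reset (t : ℕ) : ∃ t' > t, dl t' = [] := by
  by_contra hcon
  push Not at hcon
  have hstep : ∀ k, (∃ r, RecAt (t + k) r) ∨ (∃ r, WaitAt (t + k) r) := by
    intro k
    rcases cases_at (t + k) with h | ⟨r, h⟩ | h | h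
    · exact absurd h.dl' (hcon (t + k + 1) (by omega))
    · exact absurd h.dl' (hcon (t + k + 1) (by omega))
    · exact Or.inl h
    · exact Or.inr h
  have hlen : ∀ k, (dl (t + k)).length = (dl t).length + k := by
    intro k
    induction k with
    | zero => rfl
    | succ k ih =>
      have h1 : t + (k + 1) = t + k + 1 := by omega
      rw [h1]
      rcases hstep k with ⟨r, h⟩ | ⟨r, h⟩
      · rw [h.dl', List.length_append, ih]; simp; omega
      · rw [h.dl', List.length_append, ih]; simp; omega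
  have hback : ∀ k τ r, N (t + k) τ = some r → ∃ r', N t τ = some r' := by
    intro k
    induction k with
    | zero => intro τ r h; exact ⟨r, h⟩
    | succ k ih =>
      intro τ r h
      have h1 : t + (k + 1) = t + k + 1 := by omega
      rw [h1] at h
      rcases hstep k with ⟨r0, h2⟩ | ⟨r0, h2⟩
      · obtain ⟨_, r1, h3, _⟩ := h2.inv h
        exact ih τ r1 h3
      · rw [h2.N'] at h
        exact ih τ r h
  have hex : ∀ k, ∃ r, N t (dl (t + k)) = some r := by
    intro k
    rcases hstep k with ⟨r, h⟩ | ⟨r, h⟩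
    · exact hback k _ r h.isr
    · exact hback k _ r h.isr
  -- bound on the length of the addresses
  have hB : ∃ B, ∀ q ∈ (run t).nodes, q.1.length ≤ B := by
    induction (run t).nodes with
    | nil => exact ⟨0, fun q hq => by cases hq⟩
    | cons a l ih =>
      obtain ⟨B, hB⟩ := ih
      refine ⟨max B a.1.length, fun q hq => ?_⟩
      rcases List.mem_cons.1 hq with rfl | hq
      · exact le_max_right _ _
      · exact (hB q hq).trans (le_max_left _ _)
  obtain ⟨B, hB⟩ := hB
  obtain ⟨r, hr⟩ := hex (B + 1)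
  have h1 := hB _ (mem_of_lk hr)
  have h2 := hlen (B + 1)
  simp only at h1
  omega

theorem vis_nil : Vis [] := fun t => by
  obtain ⟨t', h1, h2⟩ := exists_reset t
  exact ⟨t', h1.le, h2⟩

theorem settle {τ : List Bool} (hv : Vis τ) {t1 : ℕ} (hn : ∀ t ≥ t1, ¬ Rmv τ t) :
    ∃ t0 p d l, Pm τ t0 p d l := by
  obtain ⟨t2, ht2, hdl⟩ := hv t1
  have h3 : ∃ t3 ≥ t1, ∃ r3, N t3 τ = some r3 := by
    cases hc : N t2 τ with
    | some r => exact ⟨t2, ht2, r, hc⟩
    | none =>
      rcases cases_at t2 with h | ⟨r0, h⟩ | ⟨r0, h⟩ | ⟨r0, h⟩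
      · refine ⟨t2 + 1, by omega, ?_⟩
        rw [h.N', if_pos hdl.symm]
        exact ⟨_, rfl⟩
      · have := h.isr; rw [hdl, hc] at this; cases this
      · have := h.isr; rw [hdl, hc] at this; cases this
      · have := h.isr; rw [hdl, hc] at this; cases this
  obtain ⟨t3, ht3, r3, hr3⟩ := h3
  have h4 : ∀ t ≥ t3, ∃ r, N t τ = some r ∧ r.p = r3.p ∧ r.low = r3.low := by
    intro t ht
    induction t, ht using Nat.le_induction with
    | base => exact ⟨r3, hr3, rfl, rfl⟩
    | succ t ht ih =>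
      obtain ⟨r, h5, h6, h7⟩ := ih
      obtain ⟨r', h8, h9, h10, -⟩ := step_keep h5 (hn t (by omega))
      exact ⟨r', h8, h9.trans h6, h10.trans h7⟩
  by_cases h5 : ∃ t4 ≥ t3, ∃ r4, N t4 τ = some r4 ∧ r4.dn = true
  · obtain ⟨t4, ht4, r4, hr4, hd4⟩ := h5
    refine ⟨t4, r3.p, true, r3.low, fun t ht => ?_⟩
    obtain ⟨r, h6, h7, h8⟩ := h4 t (le_trans ht4 ht)
    refine ⟨r, h6, h7, ?_, h8⟩
    have h9 : ∀ t ≥ t4, ∃ r, N t τ = some r ∧ r.dn = true := by
      intro t ht
      induction t, ht using Nat.le_induction with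
      | base => exact ⟨r4, hr4, hd4⟩
      | succ t ht ih =>
        obtain ⟨r, h5, h6⟩ := ih
        obtain ⟨r', h8, -, -, h11⟩ := step_keep h5 (hn t (by omega))
        exact ⟨r', h8, h11.elim (fun h => h.trans h6) id⟩
    obtain ⟨r', h10, h11⟩ := h9 t ht
    rw [h6] at h10
    cases h10
    exact h11
  · refine ⟨t3, r3.p, false, r3.low, fun t ht => ?_⟩
    obtain ⟨r, h6, h7, h8⟩ := h4 t ht
    refine ⟨r, h6, h7, ?_, h8⟩
    cases hd : r.dn with
    | false => rfl
    | true => exact absurd ⟨t, ht, r, h6, hd⟩ h5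

/-- The true path. -/
theorem exists_tp (k : ℕ) : ∃ τ : List Bool, τ.length = k ∧ Vis τ ∧ ∃ t0 p d l, Pm τ t0 p d l := by
  induction k with
  | zero =>
    refine ⟨[], rfl, vis_nil, settle vis_nil (t1 := 0) ?_⟩
    rintro t - (⟨r0, h, h1, h2⟩ | ⟨r0, h, h1⟩)
    · exact h2 (List.prefix_nil.1 h1)
    · have := h1.length_le
      simp at this
  | succ k ih =>
    obtain ⟨τ, hk, hv, t0, p, d, l, hp⟩ := ih
    have hstep : ∀ t ≥ t0, dl t = τ → (∃ r, RecAt t r) ∨ (∃ r, WaitAt t r) := by
      intro t ht hdl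
      rcases cases_at t with h | ⟨r, h⟩ | h | h
      · obtain ⟨r, hr, -⟩ := hp t ht
        have := h.nor
        rw [hdl, hr] at this
        cases this
      · exact absurd hdl (hp.not_act ht h)
      · exact Or.inl h
      · exact Or.inr h
    have hact : ∀ t ≥ t0, ∀ b, ¬ (∃ r0, ActAt t r0 ∧ dl t <+: τ ++ [b] ∧ dl t ≠ τ ++ [b]) := by
      rintro t ht b ⟨r0, h, h1, h2⟩
      rcases List.prefix_concat_iff.1 h1 with h3 | h3
      · exact h2 h3
      · by_cases he : dl t = τ
        · exact hp.not_act ht h he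
        · exact hp.not_rmv ht (Or.inl ⟨r0, h, h3, he⟩)
    by_cases hR : ∀ t, ∃ t' ≥ t, dl t' = τ ∧ ∃ r, RecAt t' r
    · have hv' : Vis (τ ++ [true]) := by
        intro t
        obtain ⟨t', h1, h2, r, h3⟩ := hR t
        exact ⟨t' + 1, by omega, by rw [h3.dl', h2]⟩
      refine ⟨τ ++ [true], by simp [hk], hv', settle hv' (t1 := t0) ?_⟩
      rintro t ht (h | ⟨r0, h, h1⟩)
      · exact hact t ht true h
      · rcases pfx_last h1 with ⟨_, h2⟩ | h2
        · cases h2
        · exact hp.not_rmv ht (Or.inr ⟨r0, h, h2⟩)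
    · push Not at hR
      obtain ⟨t1, hR⟩ := hR
      have hv' : Vis (τ ++ [false]) := by
        intro t
        obtain ⟨t', h1, h2⟩ := hv (max t (max t0 t1))
        have h3 := le_max_left t (max t0 t1)
        have h4 := le_max_right t (max t0 t1)
        have h5 := le_max_left t0 t1
        have h6 := le_max_right t0 t1
        rcases hstep t' (by omega) h2 with ⟨r, h⟩ | ⟨r, h⟩
        · exact absurd h (hR t' (by omega) h2 r)
        · exact ⟨t' + 1, by omega, by rw [h.dl', h2]⟩
      refine ⟨τ ++ [false], by simp [hk], hv', settle hv' (t1 := max t0 t1) ?_⟩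
      rintro t ht (h | ⟨r0, h, h1⟩)
      · exact hact t ((le_max_left t0 t1).trans ht) false h
      · rcases pfx_last h1 with ⟨h2, _⟩ | h2
        · exact hR t ((le_max_right t0 t1).trans ht) h2 r0 h
        · exact hp.not_rmv ((le_max_left t0 t1).trans ht) (Or.inr ⟨r0, h, h2⟩)

theorem rt_infinite : {a | Rt a}.Infinite := by
  choose τ h1 h2 t0 p d l h3 using exists_tp
  refine Set.infinite_of_injective_forall_mem (f := p) ?_ ?_
  · intro k k' he
    obtain ⟨r, hr, e1, -⟩ := h3 k (max (t0 k) (t0 k')) (le_max_left _ _)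
    obtain ⟨r', hr', e2, -⟩ := h3 k' (max (t0 k) (t0 k')) (le_max_right _ _)
    have h4 := (invA _).pd hr hr' (by rw [e1, e2]; exact he)
    rw [← h1 k, ← h1 k', h4]
  · intro k
    obtain ⟨r, hr, e1, -⟩ := h3 k (t0 k) le_rfl
    have h4 := (invA _).ck1 hr
    have h5 := (invA _).ck2 hr
    refine ⟨t0 k, by omega, ?_⟩
    rw [← e1]
    exact ((invA _).blk hr).tgs.1

theorem nn_unbounded (k : ℕ) : ∃ t, k < nn t := by
  obtain ⟨a, ⟨t, h1, -⟩, h2⟩ := rt_infinite.exists_gt k
  exact ⟨t, by omega⟩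

theorem rdy_iff {c : Code} {s Y : ℕ} : rdy (Encodable.encode c) s Y = true ↔
    evaln s c Y = some Y := by
  unfold rdy
  rw [decide_eq_true_iff, Denumerable.ofNat_encode]

/-- No program computes the correspondence between the roots. -/
theorem hN_sg (g : ℕ →. ℕ) (hg : Partrec g) : ∃ a, Rt a ∧ sg a ∉ g a := by
  obtain ⟨c, rfl⟩ := Nat.Partrec.Code.exists_code.1 (Partrec.nat_iff.1 hg)
  obtain ⟨τ, hk, hv, t0, p, d, l, hp⟩ := exists_tp (Encodable.encode c)
  obtain ⟨r, hr, e1, e2, -⟩ := hp t0 le_rfl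
  have h4 := (invA _).ck1 hr
  have h5 := (invA _).ck2 hr
  have hb := (invA _).blk hr
  rw [e1] at hb h4
  have hY := fr_iff hb.g4
  have hRt : Rt (p + 4) := ⟨t0, by omega, hY.1⟩
  refine ⟨p + 4, hRt, ?_⟩
  cases d with
  | false =>
    have hfin : Fin (p + 4) := by
      refine ⟨hRt.cr, fun t ht => ?_⟩
      obtain ⟨r', hr', e1', e2', -⟩ := hp (max t0 t) (le_max_left _ _)
      have h6 := ((invB _).yy hr' e2').1
      rw [e1'] at h6
      exact h6 (dead_mono (le_max_right _ _) ht)
    have hsg : sg (p + 4) = p + 4 := by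
      have := sg_fin hfin
      rw [hY.1.loc true, hY.1.loc false] at this
      exact this
    rw [hsg]
    intro hmem
    obtain ⟨k, hk1⟩ := Nat.Partrec.Code.evaln_complete.1 hmem
    obtain ⟨t, ht1, ht2⟩ := hv (max t0 k)
    have h6 := le_max_left t0 k
    have h7 := le_max_right t0 k
    obtain ⟨r', hr', e1', e2', -⟩ := hp t (by omega)
    have hrdy : rdy (dl t).length t (r'.p + 4) = true := by
      rw [ht2, hk, rdy_iff, e1']
      exact Nat.Partrec.Code.evaln_mono (by omega) hk1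
    rcases cases_at t with h | ⟨r1, h⟩ | ⟨r1, h⟩ | ⟨r1, h⟩
    · have := h.nor
      rw [ht2, hr'] at this
      cases this
    · exact hp.not_act (by omega) h ht2
    · have := h.isr
      rw [ht2, hr'] at this
      cases this
      exact h.nrdy ⟨e2', hrdy⟩
    · have := h.isr
      rw [ht2, hr'] at this
      cases this
      exact h.nrdy ⟨e2', hrdy⟩
  | true =>
    obtain ⟨⟨o, h6, h7, h8, h9, h10⟩, s, h11⟩ := (invB _).n7 hr e2
    rw [e1] at h8 h9 h11
    rw [hk, rdy_iff] at h11
    have hfin : Fin o := ⟨⟨t0, h6⟩, fun t ht => h7.ne (((invB t).dn ht).2 h10)⟩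
    have h12 : loc true o = p + 4 := by
      rw [h7.loc true]
      show loc true (G o).u = p + 4
      rw [h8, hY.1.loc true]
    have hsg := sg_fin hfin
    rw [h12] at hsg
    rw [hsg]
    intro hmem
    have h13 := Nat.Partrec.Code.evaln_sound h11
    exact h9 (Part.mem_unique hmem h13)

end Pool.Agent.Dim
end
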