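import Mathlib.Order.Filter.AtTopBot.Finite
import Pool.Agent.Lib.MP_0054e7_lc.Mg.G001

section

/-!
# The predicates describing the limit of the construction are recursively enumerable
-/

namespace Pool.Agent.Dim

open Pool.Agent.SJT (primrec_filter primrec_all primrec_any)

section Closure

variable {α β : Type*} [Primcodable α] [Primcodable β]

/-- The projection of a primitive recursive predicate is r.e. -/
theorem re_ex {f : α → ℕ → Bool} (hf : Primrec₂ f) : REPred fun a => ∃ t, f a t = true := by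
  refine (Partrec.rfind (p := fun a t => Part.some (f a t)) hf.to_comp.partrec₂).dom_re.of_eq ?_
  intro a
  refine Nat.rfind_dom.trans ?_
  constructor
  · rintro ⟨n, hn, -⟩
    exact ⟨n, (by simpa using hn : true = f a n).symm⟩
  · rintro ⟨n, hn⟩
    exact ⟨n, by simp [hn], fun _ => trivial⟩

theorem re_dec {f : α → Bool} (hf : Primrec f) : REPred fun a => f a = true :=
  (re_ex (f := fun a _ => f a) (hf.comp Primrec.fst)).of_eq fun _ => ⟨fun ⟨_, h⟩ => h, fun h => ⟨0, h⟩⟩

theorem re_or {p q : α → Prop} (hp : REPred p) (hq : REPred q) : REPred fun a => p a ∨ q a := by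
  obtain ⟨f, hf, -, hpf⟩ := exists_stages hp
  obtain ⟨g, hg, -, hqg⟩ := exists_stages hq
  have h : Primrec₂ fun (a : α) (t : ℕ) => f t a || g t a :=
    Primrec.or.comp (hf.comp Primrec.snd Primrec.fst) (hg.comp Primrec.snd Primrec.fst)
  refine (re_ex h).of_eq fun a => ?_
  rw [hpf, hqg]
  simp only [Bool.or_eq_true, exists_or]

theorem re_and {p q : α → Prop} (hp : REPred p) (hq : REPred q) : REPred fun a => p a ∧ q a := by
  obtain ⟨f, hf, hf1, hpf⟩ := exists_stages hp
  obtain ⟨g, hg, hg1, hqg⟩ := exists_stages hq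
  have h : Primrec₂ fun (a : α) (t : ℕ) => f t a && g t a :=
    Primrec.and.comp (hf.comp Primrec.snd Primrec.fst) (hg.comp Primrec.snd Primrec.fst)
  refine (re_ex h).of_eq fun a => ?_
  rw [hpf, hqg]
  simp only [Bool.and_eq_true]
  constructor
  · rintro ⟨t, h1, h2⟩
    exact ⟨⟨t, h1⟩, ⟨t, h2⟩⟩
  · rintro ⟨⟨t, h1⟩, ⟨t', h2⟩⟩
    exact ⟨max t t', hf1 _ _ _ (le_max_left _ _) h1, hg1 _ _ _ (le_max_right _ _) h2⟩

theorem re_comp {p : β → Prop} (hp : REPred p) {f : α → β} (hf : Primrec f) :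
    REPred fun a => p (f a) := by
  obtain ⟨g, hg, -, hpg⟩ := exists_stages hp
  have h : Primrec₂ fun (a : α) (t : ℕ) => g t (f a) :=
    hg.comp Primrec.snd (hf.comp Primrec.fst)
  exact (re_ex h).of_eq fun a => (hpg (f a)).symm

theorem re_exists {p : α → ℕ → Prop} (hp : REPred fun q : α × ℕ => p q.1 q.2) :
    REPred fun a => ∃ o, p a o := by
  obtain ⟨g, hg, -, hpg⟩ := exists_stages hp
  have h1 : Primrec fun q : α × ℕ => q.2.unpair := Primrec.unpair.comp Primrec.snd
  have h : Primrec₂ fun (a : α) (t : ℕ) => g t.unpair.1 (a, t.unpair.2) :=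
    hg.comp (Primrec.fst.comp h1) (Primrec.fst.pair (Primrec.snd.comp h1))
  refine (re_ex h).of_eq fun a => ?_
  constructor
  · rintro ⟨t, ht⟩
    exact ⟨t.unpair.2, (hpg (a, t.unpair.2)).2 ⟨_, ht⟩⟩
  · rintro ⟨o, ho⟩
    obtain ⟨k, hk⟩ := (hpg (a, o)).1 ho
    exact ⟨Nat.pair k o, by simpa using hk⟩

/-- Properties of an object. -/
theorem re_obj {o : α → ℕ} {p : α × Ob → Bool} (ho : Primrec o) (hp : Primrec p) :
    REPred fun a => ∃ t, o a < nn t ∧ p (a, G (o a)) = true := by
  have hobs : Primrec fun q : α × ℕ => (run q.2).obs :=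
    St.prim_obs.comp (prim_run.comp Primrec.snd)
  have ho' : Primrec fun q : α × ℕ => o q.1 := ho.comp Primrec.fst
  have h : Primrec₂ fun (a : α) (t : ℕ) => decide (o a < (run t).obs.length) &&
      p (a, gob (run t).obs (o a)) :=
    Primrec.and.comp (Primrec.nat_lt.decide.comp ho' (Primrec.list_length.comp hobs))
      (hp.comp (Primrec.fst.pair (prim_gob.comp (hobs.pair ho'))))
  refine (re_ex h).of_eq fun a => exists_congr fun t => ?_
  rw [Bool.and_eq_true, decide_eq_true_iff]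
  refine and_congr_right fun hlt => ?_
  rw [G_eq hlt]

end Closure

theorem primrec_eqb {α : Type*} [Primcodable α] {f g : α → ℕ} (hf : Primrec f) (hg : Primrec g) :
    Primrec fun a => decide (f a = g a) :=
  Primrec.eq.decide.comp hf hg

theorem re_Rt : REPred Rt := by
  have hG : Primrec fun q : ℕ × Ob => q.2 := Primrec.snd
  have h : Primrec fun q : ℕ × Ob => decide (q.2.a = q.1) && (decide (q.2.b = q.1) &&
      (decide (q.2.u = q.1) && decide (q.2.v = q.1))) :=
    Primrec.and.comp (primrec_eqb (Ob.prim_a.comp hG) Primrec.fst)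
      (Primrec.and.comp (primrec_eqb (Ob.prim_b.comp hG) Primrec.fst)
        (Primrec.and.comp (primrec_eqb (Ob.prim_u.comp hG) Primrec.fst)
          (primrec_eqb (Ob.prim_v.comp hG) Primrec.fst)))
  refine (re_obj (o := fun x : ℕ => x) Primrec.id h).of_eq fun x => exists_congr fun t => ?_
  simp only [Fr, Bool.and_eq_true, decide_eq_true_eq]

theorem re_TG : REPred TG := by
  have hG : Primrec fun q : ℕ × Ob => q.2 := Primrec.snd
  have h : Primrec fun q : ℕ × Ob => (decide (q.2.a = q.1) && (decide (q.2.b = q.1) &&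
      (decide (q.2.u = q.1) && decide (q.2.v = q.1)))) &&
      (decide (q.2.kd = 1) && decide (q.2.tg = q.1)) :=
    Primrec.and.comp (Primrec.and.comp (primrec_eqb (Ob.prim_a.comp hG) Primrec.fst)
      (Primrec.and.comp (primrec_eqb (Ob.prim_b.comp hG) Primrec.fst)
        (Primrec.and.comp (primrec_eqb (Ob.prim_u.comp hG) Primrec.fst)
          (primrec_eqb (Ob.prim_v.comp hG) Primrec.fst))))
      (Primrec.and.comp (primrec_eqb (Ob.prim_kd.comp hG) (Primrec.const 1))
        (primrec_eqb (Ob.prim_tg.comp hG) Primrec.fst))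
  refine (re_obj (o := fun x : ℕ => x) Primrec.id h).of_eq fun x => exists_congr fun t => ?_
  simp only [Tgs, Fr, Bool.and_eq_true, decide_eq_true_eq]

theorem re_RL : REPred RL := by
  have h : Primrec₂ fun (o t : ℕ) => decide (o ∈ (run t).rld) :=
    prim_mem.comp ((St.prim_rld.comp (prim_run.comp Primrec.snd)).pair Primrec.fst)
  refine (re_ex h).of_eq fun o => exists_congr fun t => ?_
  simp only [rld, decide_eq_true_eq]

theorem re_parity (i : ℕ) : REPred fun n : ℕ => n % 2 = i :=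
  (re_dec (primrec_eqb (Primrec.nat_mod.comp Primrec.id (Primrec.const 2))
    (Primrec.const i))).of_eq fun _ => by simp only [decide_eq_true_eq, id]

theorem prim_half : Primrec fun n : ℕ => n / 2 :=
  Primrec.nat_div.comp Primrec.id (Primrec.const 2)

/-- L6 (file LimRE.lean). -/
theorem re_CC : REPred CC :=
  re_or (re_and (re_parity 0) (re_comp re_RL prim_half))
    (re_and (re_parity 1) (re_comp re_TG prim_half))

theorem prim_loc (s : Bool) : Primrec fun o : Ob => if s then o.a else o.b := by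
  cases s
  · exact Ob.prim_b.of_eq fun _ => rfl
  · exact Ob.prim_a.of_eq fun _ => rfl

theorem re_Out (s : Bool) : REPred fun p : ℕ × ℕ => Out s p.1 p.2 := by
  have hh : Primrec fun p : ℕ × ℕ => p.2 / 2 := prim_half.comp Primrec.snd
  have h1 : REPred fun p : ℕ × ℕ => ∃ o t, o < nn t ∧ loc s o = p.1 ∧
      (p.2 / 2 = o ∨ p.2 / 2 = (G o).u ∨ p.2 / 2 = (G o).v) := by
    refine re_exists ?_
    have hG : Primrec fun q : ((ℕ × ℕ) × ℕ) × Ob => q.2 := Primrec.snd
    have hn : Primrec fun q : ((ℕ × ℕ) × ℕ) × Ob => q.1.1.2 / 2 :=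
      hh.comp (Primrec.fst.comp Primrec.fst)
    have h : Primrec fun q : ((ℕ × ℕ) × ℕ) × Ob =>
        decide ((if s then q.2.a else q.2.b) = q.1.1.1) &&
          (decide (q.1.1.2 / 2 = q.1.2) || (decide (q.1.1.2 / 2 = q.2.u) ||
            decide (q.1.1.2 / 2 = q.2.v))) :=
      Primrec.and.comp (primrec_eqb ((prim_loc s).comp hG)
          (Primrec.fst.comp (Primrec.fst.comp Primrec.fst)))
        (Primrec.or.comp (primrec_eqb hn (Primrec.snd.comp Primrec.fst))
          (Primrec.or.comp (primrec_eqb hn (Ob.prim_u.comp hG))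
            (primrec_eqb hn (Ob.prim_v.comp hG))))
    refine (re_obj (o := fun q : (ℕ × ℕ) × ℕ => q.2) Primrec.snd h).of_eq
      fun q => exists_congr fun t => ?_
    simp only [loc, Bool.and_eq_true, Bool.or_eq_true, decide_eq_true_eq]
  have h2 : REPred fun p : ℕ × ℕ => ∃ o t, o < nn t ∧ loc s o = p.1 ∧
      ¬ ((G o).kd ≠ 0 ∧ (G o).tg = p.2 / 2) := by
    refine re_exists ?_
    have hG : Primrec fun q : ((ℕ × ℕ) × ℕ) × Ob => q.2 := Primrec.snd
    have hn : Primrec fun q : ((ℕ × ℕ) × ℕ) × Ob => q.1.1.2 / 2 :=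
      hh.comp (Primrec.fst.comp Primrec.fst)
    have h : Primrec fun q : ((ℕ × ℕ) × ℕ) × Ob =>
        decide ((if s then q.2.a else q.2.b) = q.1.1.1) &&
          !(!(decide (q.2.kd = 0)) && decide (q.2.tg = q.1.1.2 / 2)) :=
      Primrec.and.comp (primrec_eqb ((prim_loc s).comp hG)
          (Primrec.fst.comp (Primrec.fst.comp Primrec.fst)))
        (Primrec.not.comp (Primrec.and.comp
          (Primrec.not.comp (primrec_eqb (Ob.prim_kd.comp hG) (Primrec.const 0)))
          (primrec_eqb (Ob.prim_tg.comp hG) hn)))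
    refine (re_obj (o := fun q : (ℕ × ℕ) × ℕ => q.2) Primrec.snd h).of_eq
      fun q => exists_congr fun t => ?_
    simp only [loc, Bool.and_eq_true, Bool.not_eq_true', decide_eq_true_eq]
    rw [← Bool.not_eq_true, Bool.and_eq_true, Bool.not_eq_true', decide_eq_true_eq,
      decide_eq_false_iff_not]
  refine (re_or
    (re_and (re_comp (re_parity 0) Primrec.snd) (re_or (re_comp re_RL hh) h1))
    (re_and (re_comp (re_parity 1) Primrec.snd) (re_and (re_comp re_TG hh) h2))).of_eq fun p => ?_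
  rw [exists_comm (p := fun o t => o < nn t ∧ loc s o = p.1 ∧
      (p.2 / 2 = o ∨ p.2 / 2 = (G o).u ∨ p.2 / 2 = (G o).v)),
    exists_comm (p := fun o t => o < nn t ∧ loc s o = p.1 ∧
      ¬ ((G o).kd ≠ 0 ∧ (G o).tg = p.2 / 2))]
  rfl

/-- Some object matched to `z.1.1` in the record is located at `z.1.2`. -/
def chk (s : Bool) (z : (ℕ × ℕ) × List Ob) (r : Rec) : Bool :=
  r.mu.any fun w => decide (w.2 = z.1.1) && (decide (w.1 < z.2.length) &&
    decide ((if s then (gob z.2 w.1).a else (gob z.2 w.1).b) = z.1.2))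

theorem prim_chk (s : Bool) : Primrec₂ (chk s) := by
  refine primrec_any (Rec.prim_mu.comp Primrec.snd) ?_
  have hq : Primrec fun w : (((ℕ × ℕ) × List Ob) × Rec) × ℕ × ℕ => w.1.1.1 :=
    Primrec.fst.comp (Primrec.fst.comp Primrec.fst)
  have hobs : Primrec fun w : (((ℕ × ℕ) × List Ob) × Rec) × ℕ × ℕ => w.1.1.2 :=
    Primrec.snd.comp (Primrec.fst.comp Primrec.fst)
  have hz : Primrec fun w : (((ℕ × ℕ) × List Ob) × Rec) × ℕ × ℕ => w.2.1 :=
    Primrec.fst.comp Primrec.snd
  refine Primrec.and.comp ?_ (Primrec.and.comp ?_ ?_)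
  · exact primrec_eqb (Primrec.snd.comp Primrec.snd) (Primrec.fst.comp hq)
  · exact Primrec.nat_lt.decide.comp hz (Primrec.list_length.comp hobs)
  · exact primrec_eqb ((prim_loc s).comp (prim_gob.comp (hobs.pair hz))) (Primrec.snd.comp hq)

theorem chk_iff {s : Bool} {z : (ℕ × ℕ) × List Ob} {r : Rec} : chk s z r = true ↔
    ∃ o, (o, z.1.1) ∈ r.mu ∧ o < z.2.length ∧
      (if s then (gob z.2 o).a else (gob z.2 o).b) = z.1.2 := by
  simp only [chk, List.any_eq_true, Bool.and_eq_true, decide_eq_true_eq, Prod.exists]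
  constructor
  · rintro ⟨o, m, hm, rfl, h1, h2⟩
    exact ⟨o, hm, h1, h2⟩
  · rintro ⟨o, hm, h1, h2⟩
    exact ⟨o, z.1.1, hm, rfl, h1, h2⟩

/-- The same for an optional record. -/
def chkO (s : Bool) (z : (ℕ × ℕ) × List Ob) (r : Option Rec) : Bool :=
  Option.casesOn r false fun r => chk s z r

theorem prim_chkO (s : Bool) : Primrec₂ (chkO s) :=
  Primrec.option_casesOn (f := fun _ : ((ℕ × ℕ) × List Ob) × Option Rec => false)
    Primrec.snd (Primrec.const false) ((prim_chk s).comp (Primrec.fst.comp Primrec.fst) Primrec.snd)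

theorem re_W (s : Bool) (τ : List Bool) (t1 : ℕ) : REPred fun p : ℕ × ℕ =>
    ∃ t r o, t1 ≤ t ∧ N t τ = some r ∧ (o, p.1) ∈ r.mu ∧ o < nn t ∧ loc s o = p.2 := by
  have hrun : Primrec fun q : (ℕ × ℕ) × ℕ => run q.2 := prim_run.comp Primrec.snd
  have hlk : Primrec fun q : (ℕ × ℕ) × ℕ => lk (run q.2).nodes τ :=
    prim_lk.comp ((St.prim_nodes.comp hrun).pair (Primrec.const τ))
  have hc : Primrec fun q : (ℕ × ℕ) × ℕ => chkO s (q.1, (run q.2).obs) (lk (run q.2).nodes τ) :=
    (prim_chkO s).comp (Primrec.fst.pair (St.prim_obs.comp hrun)) hlk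
  have h : Primrec₂ fun (p : ℕ × ℕ) (t : ℕ) => decide (t1 ≤ t) &&
      chkO s (p, (run t).obs) (lk (run t).nodes τ) :=
    Primrec.and.comp (Primrec.nat_le.decide.comp (Primrec.const t1) Primrec.snd) hc
  refine (re_ex h).of_eq fun p => exists_congr fun t => ?_
  rw [Bool.and_eq_true, decide_eq_true_iff]
  have hN : N t τ = lk (run t).nodes τ := rfl
  have hnn : nn t = (run t).obs.length := rfl
  rw [hN]
  cases hr : lk (run t).nodes τ with
  | none =>
    constructor
    · rintro ⟨-, h1⟩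
      exact absurd h1 (by simp [chkO])
    · rintro ⟨r, o, -, h1, -⟩
      exact absurd h1 (by simp)
  | some r =>
    have e : chkO s (p, (run t).obs) (some r) = chk s (p, (run t).obs) r := rfl
    rw [e, chk_iff]
    constructor
    · rintro ⟨h1, o, hm, hlt, hl⟩
      refine ⟨r, o, h1, rfl, hm, hlt, ?_⟩
      rw [G_eq hlt] at hl
      exact hl
    · rintro ⟨r', o, h1, h2, hm, hlt, hl⟩
      obtain rfl := Option.some.inj h2
      refine ⟨h1, o, hm, hlt, ?_⟩
      rw [G_eq hlt]
      exact hl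

end Pool.Agent.Dim
end

section

/-!
# The second kind of requirements: infinitely many recoveries
-/

namespace Pool.Agent.Dim

open Nat.Partrec (Code)
open Nat.Partrec.Code

/-- The element `x` has an out-edge with label `k`. -/
def Hs (M : ℕ → ℕ → ℕ → Prop) (x k : ℕ) : Prop := ∃ y, M k x y

/-- An isomorphism of `M` with the forest of the side `s`. -/
structure IsoS (M : ℕ → ℕ → ℕ → Prop) (s : Bool) (θ : ℕ → Vert) : Prop where
  en : Enum CC Rt (Out s) θ
  ed : ∀ n x y, M n x y ↔ Edge n (θ x) (θ y)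

section iso

variable {M : ℕ → ℕ → ℕ → Prop} {s : Bool} {θ : ℕ → Vert}

theorem IsoS.hs_not_cc (h : IsoS M s θ) {x k : ℕ} (hk : ¬ CC k) (hx : Hs M x k) :
    θ x = ((θ x).1, []) ∧ Out s (θ x).1 k := by
  obtain ⟨y, hy⟩ := hx
  rw [h.ed] at hy
  exact root_of_edge hk (enum_valid h.en _) (enum_valid h.en _) hy

theorem IsoS.hs_cc (h : IsoS M s θ) {x k : ℕ} (hk : CC k) (hx : ¬ Hs M x k) :
    θ x = ((θ x).1, []) ∧ ¬ Out s (θ x).1 k := by
  have h1 : (θ x).2 = [] ∧ ¬ Out s (θ x).1 k := by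
    by_contra h1
    obtain ⟨y, hy1, hy2⟩ := exists_succ hk (enum_valid h.en x) h1
    obtain ⟨y', hy'⟩ := (h.en.2 y).1 hy1
    exact hx ⟨y', by rw [h.ed, hy']; exact hy2⟩
  exact ⟨Prod.ext rfl h1.1, h1.2⟩

theorem IsoS.hs_root (h : IsoS M s θ) {x a k : ℕ} (hx : θ x = (a, [])) :
    Hs M x k ↔ Out s a k := by
  have hv := enum_valid h.en x
  rw [hx] at hv
  constructor
  · rintro ⟨y, hy⟩
    rw [h.ed, hx] at hy
    have hvy := enum_valid h.en y
    obtain ⟨h1, h2 | h2⟩ := hy
    · rw [← h1, h2] at hvy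
      rcases hvy.2 with h3 | h3
      · exact h3.2
      · exact absurd h3.1 (by simp)
    · simp at h2
  · intro ho
    have h1 : Valid CC Rt (Out s) a [(k, true)] := ⟨hv, Or.inl ⟨rfl, ho⟩⟩
    obtain ⟨y, hy⟩ := (h.en.2 (a, [(k, true)])).1 h1
    exact ⟨y, by rw [h.ed, hx, hy]; exact ⟨rfl, Or.inl rfl⟩⟩

theorem IsoS.root (h : IsoS M s θ) {a : ℕ} (ha : Rt a) : ∃ x, θ x = (a, []) :=
  (h.en.2 (a, [])).1 ha

theorem IsoS.rt (h : IsoS M s θ) (x : ℕ) : Rt (θ x).1 := valid_root (enum_valid h.en x)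

theorem IsoS.fin (h : IsoS M s θ) {x o : ℕ} (ho : Fin o) (hx : Hs M x (2 * o)) :
    θ x = (loc s o, []) := by
  obtain ⟨h1, h2⟩ := h.hs_not_cc ho.cc hx
  rw [ho.out s] at h2
  rw [h1, h2]

theorem IsoS.inf (h : IsoS M s θ) {x q : ℕ} (hq : Inf q) (hx : ¬ Hs M x (2 * q + 1)) :
    θ x = (q + off s, []) := by
  obtain ⟨h1, h2⟩ := h.hs_cc hq.cc hx
  rw [hq.out s (h.rt x)] at h2
  rw [h1, h2]

theorem IsoS.fin_tag (h : IsoS M s θ) {x o q : ℕ} (ho : Fin o) (hx : θ x = (loc s o, []))
    (hq : TG q) : Hs M x (2 * q + 1) ↔ ¬ tq q o := by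
  rw [h.hs_root hx, out_odd, ho.tq_iff s]
  exact and_iff_right hq

end iso

/-- The program `c` decides `M`. -/
def CodeOf (M : ℕ → ℕ → ℕ → Prop) (c : Code) : Prop :=
  ∀ k x y, M k x y ↔ 1 ∈ eval c (Nat.pair k (Nat.pair x y))

theorem exists_codeOf {M : ℕ → ℕ → ℕ → Prop} (hM : IsComp M) : ∃ c, CodeOf M c := by
  obtain ⟨inst, hc⟩ := hM
  have h1 : Computable fun n : ℕ =>
      ((n.unpair.1, n.unpair.2.unpair.1, n.unpair.2.unpair.2) : ℕ × ℕ × ℕ) :=
    (Primrec.pair (Primrec.fst.comp Primrec.unpair) (Primrec.pair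
      (Primrec.fst.comp (Primrec.unpair.comp (Primrec.snd.comp Primrec.unpair)))
      (Primrec.snd.comp (Primrec.unpair.comp (Primrec.snd.comp Primrec.unpair))))).to_comp
  have h2 : Computable fun n : ℕ =>
      bif decide ((fun p : ℕ × ℕ × ℕ => M p.1 p.2.1 p.2.2)
        (n.unpair.1, n.unpair.2.unpair.1, n.unpair.2.unpair.2)) then 1 else 0 :=
    Computable.cond (hc.comp h1) (Computable.const 1) (Computable.const 0)
  obtain ⟨c, hc'⟩ := Nat.Partrec.Code.exists_code.1 (Partrec.nat_iff.1 h2)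
  refine ⟨c, fun k x y => ?_⟩
  rw [hc']
  simp only [PFun.coe_val, Part.mem_some_iff]
  have h3 : ((fun p : ℕ × ℕ × ℕ => M p.1 p.2.1 p.2.2)
      ((Nat.pair k (Nat.pair x y)).unpair.1, (Nat.pair k (Nat.pair x y)).unpair.2.unpair.1,
        (Nat.pair k (Nat.pair x y)).unpair.2.unpair.2)) ↔ M k x y := by
    simp only [Nat.unpair_pair]
  by_cases h : M k x y
  · rw [decide_eq_true (h3.2 h)]
    simp [h]
  · rw [decide_eq_false (fun h4 => h (h3.1 h4))]
    simp [h]

section code

variable {M : ℕ → ℕ → ℕ → Prop} {c : Code}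

theorem shw_iff {s x k : ℕ} : shw (Encodable.encode c) s x k = true ↔
    ∃ y < s, evaln s c (Nat.pair k (Nat.pair x y)) = some 1 := by
  unfold shw
  rw [List.any_eq_true, Denumerable.ofNat_encode]
  constructor
  · rintro ⟨y, h1, h2⟩
    exact ⟨y, List.mem_range.1 h1, of_decide_eq_true h2⟩
  · rintro ⟨y, h1, h2⟩
    exact ⟨y, List.mem_range.2 h1, decide_eq_true h2⟩

theorem shw_mono {s s' x k : ℕ} (hs : s ≤ s') (h : shw (Encodable.encode c) s x k = true) :
    shw (Encodable.encode c) s' x k = true := by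
  rw [shw_iff] at h ⊢
  obtain ⟨y, h1, h2⟩ := h
  exact ⟨y, by omega, evaln_mono hs h2⟩

theorem CodeOf.hs (h : CodeOf M c) {s x k : ℕ} (hs : shw (Encodable.encode c) s x k = true) :
    Hs M x k := by
  rw [shw_iff] at hs
  obtain ⟨y, -, h2⟩ := hs
  exact ⟨y, (h k x y).2 (evaln_sound h2)⟩

theorem CodeOf.shw (h : CodeOf M c) {x k : ℕ} (hx : Hs M x k) :
    ∀ᶠ s in Filter.atTop, Dim.shw (Encodable.encode c) s x k = true := by
  obtain ⟨y, hy⟩ := hx
  obtain ⟨s0, hs0⟩ := evaln_complete.1 ((h k x y).1 hy)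
  rw [Filter.eventually_atTop]
  refine ⟨max s0 (y + 1), fun s hs => ?_⟩
  rw [shw_iff]
  have h1 := le_max_left s0 (y + 1)
  have h2 := le_max_right s0 (y + 1)
  exact ⟨y, by omega, evaln_mono (by omega) hs0⟩

end code

theorem mof_eq {e s o m : ℕ} (h1 : m < s) (h2 : shw e s m (2 * o) = true)
    (h3 : ∀ x, shw e s x (2 * o) = true → x = m) : mof e s o = m := by
  unfold mof
  have hmem : m ∈ (List.range s).filter fun x => shw e s x (2 * o) := by
    rw [List.mem_filter, List.mem_range]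
    exact ⟨h1, h2⟩
  cases hl : (List.range s).filter fun x => shw e s x (2 * o) with
  | nil => rw [hl] at hmem; cases hmem
  | cons a l =>
    have ha : a ∈ (List.range s).filter fun x => shw e s x (2 * o) := by
      rw [hl]; exact List.mem_cons_self
    rw [List.mem_filter] at ha
    simp only [List.head?_cons, Option.getD_some]
    exact h3 a ha.2

/-! ### The conditions of a recovery -/

section conds

variable {t : ℕ} {r : Rec}

theorem gob_tset {τ : List Bool} (hr : N t τ = some r) {o m : ℕ} (h : (o, m) ∈ nmu (run t) r) :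
    gob (run t).obs o = G o := by
  have h1 := (mem_tset (invA t) hr).1 (mem_nmu.1 h).1
  exact G_eq (lt_of_lt_of_le h1.1 ((invA t).ck2 hr))

theorem c2_iff {τ : List Bool} (hr : N t τ = some r) : c2 (run t) r = true ↔
    ∀ o m, (o, m) ∈ r.mu → ∃ o', (o', m) ∈ nmu (run t) r ∧
      (o' = o ∨ (G o').u = o ∨ (G o').v = o) := by
  unfold c2
  rw [List.all_eq_true]
  constructor
  · intro h o m hm
    have h1 := h _ hm
    rw [List.any_eq_true] at h1
    obtain ⟨⟨o', m'⟩, h2, h3⟩ := h1
    rw [gob_tset hr h2] at h3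
    simp only [Bool.and_eq_true, Bool.or_eq_true, decide_eq_true_iff] at h3
    obtain ⟨rfl, h4⟩ := h3
    exact ⟨o', h2, h4⟩
  · rintro h ⟨o, m⟩ hm
    obtain ⟨o', h1, h2⟩ := h o m hm
    rw [List.any_eq_true]
    refine ⟨(o', m), h1, ?_⟩
    rw [gob_tset hr h1]
    simp only [Bool.and_eq_true, Bool.or_eq_true, decide_eq_true_iff]
    exact ⟨trivial, h2⟩

theorem c3_iff {τ : List Bool} (hr : N t τ = some r) : c3 (run t) r = true ↔
    ∀ o m, (o, m) ∈ nmu (run t) r → (G o).kd ≠ 0 →
      ¬ shw (dl t).length t m (2 * (G o).tg + 1) = true := by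
  unfold c3
  rw [List.all_eq_true]
  constructor
  · intro h o m hm hk
    have h1 := h _ hm
    rw [gob_tset hr hm, run_s] at h1
    simp only [Bool.or_eq_true, decide_eq_true_iff, Bool.not_eq_true'] at h1
    rcases h1 with h1 | h1
    · exact absurd h1 hk
    · rw [dl, h1]; simp
  · rintro h ⟨o, m⟩ hm
    have h1 := h o m hm
    rw [gob_tset hr hm, run_s]
    simp only [Bool.or_eq_true, decide_eq_true_iff, Bool.not_eq_true']
    by_cases hk : (G o).kd = 0
    · exact Or.inl hk
    · right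
      have := h1 hk
      simpa [dl] using this

theorem c4_iff {τ : List Bool} (hr : N t τ = some r) : c4 (run t) r = true ↔
    ∀ o m, (o, m) ∈ nmu (run t) r → ¬ tq r.p o → shw (dl t).length t m (2 * r.p + 1) = true := by
  unfold c4
  rw [List.all_eq_true]
  constructor
  · intro h o m hm hk
    have h1 := h _ hm
    rw [gob_tset hr hm, run_s] at h1
    simp only [Bool.or_eq_true, Bool.and_eq_true, decide_eq_true_iff, Bool.not_eq_true',
      decide_eq_false_iff_not] at h1
    rcases h1 with h1 | h1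
    · exact absurd h1 hk
    · exact h1
  · rintro h ⟨o, m⟩ hm
    have h1 := h o m hm
    rw [gob_tset hr hm, run_s]
    simp only [Bool.or_eq_true, Bool.and_eq_true, decide_eq_true_iff, Bool.not_eq_true',
      decide_eq_false_iff_not]
    by_cases hk : tq r.p o
    · exact Or.inl hk
    · exact Or.inr (h1 hk)

theorem c5_iff : c5 (run t) r = true ↔
    ∀ x < r.cnt, shw (dl t).length t x (2 * r.p + 1) = true ∨ ∃ o, (o, x) ∈ nmu (run t) r := by
  unfold c5
  rw [List.all_eq_true]
  constructor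
  · intro h x hx
    have h1 := h x (List.mem_range.2 hx)
    rw [run_s, Bool.or_eq_true, List.any_eq_true] at h1
    rcases h1 with h1 | ⟨⟨o, m⟩, h1, h2⟩
    · exact Or.inl h1
    · simp only [decide_eq_true_iff] at h2
      subst h2
      exact Or.inr ⟨o, h1⟩
  · intro h x hx
    rw [run_s, Bool.or_eq_true, List.any_eq_true]
    rcases h x (List.mem_range.1 hx) with h1 | ⟨o, h1⟩
    · exact Or.inl h1
    · exact Or.inr ⟨(o, x), h1, by simp⟩

end conds

theorem recov_iff {t : ℕ} {r : Rec} : recov (run t) r = true ↔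
    c1 (run t) r = true ∧ c2 (run t) r = true ∧ c3 (run t) r = true ∧ c4 (run t) r = true ∧
      c5 (run t) r = true := by
  unfold recov
  simp only [Bool.and_eq_true]

theorem inf_rec {M : ℕ → ℕ → ℕ → Prop} {θ : ℕ → Vert} {c : Code} {τ : List Bool} {t0 p : ℕ}
    {d : Bool} {l : List ℕ} (hθ : IsoS M true θ) (hc : CodeOf M c)
    (hτ : τ.length = Encodable.encode c) (hv : Vis τ) (hp : Pm τ t0 p d l) :
    ∀ t, ∃ t' ≥ t, dl t' = τ ∧ ∃ r, RecAt t' r := by
  by_contra hcon
  push Not at hcon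
  obtain ⟨t1, hno⟩ := hcon
  obtain ⟨t2, ht2, hdl2⟩ := exists_reset (max t0 t1)
  have h20 : t0 ≤ t2 := (le_max_left t0 t1).trans ht2.le
  have h21 : t1 ≤ t2 := (le_max_right t0 t1).trans ht2.le
  -- the walker never passes the node with the outcome `true`
  have hbel : ∀ t ≥ t2, ¬ τ ++ [true] <+: dl t := by
    intro t ht
    induction t, ht using Nat.le_induction with
    | base =>
      rw [hdl2]
      intro h
      have := h.length_le
      simp at this
    | succ t ht ih =>
      have hnil : ∀ σ : List Bool, ¬ σ ++ [true] <+: [] := by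
        intro σ h
        have := h.length_le
        simp at this
      rcases cases_at t with h | ⟨r, h⟩ | ⟨r, h⟩ | ⟨r, h⟩
      · rw [h.dl']; exact hnil _
      · rw [h.dl']; exact hnil _
      · rw [h.dl']
        intro h1
        rcases pfx_last h1 with ⟨h2, _⟩ | h2
        · exact hno t (by omega) h2.symm r h
        · exact ih h2
      · rw [h.dl']
        intro h1
        rcases pfx_last h1 with ⟨_, h2⟩ | h2
        · cases h2
        · exact ih h2
  -- the record is constant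
  obtain ⟨R, hR, hRp, hRd, hRl⟩ := hp t2 h20
  have hconst : ∀ t ≥ t2, N t τ = some R := by
    intro t ht
    induction t, ht using Nat.le_induction with
    | base => exact hR
    | succ t ht ih =>
      obtain ⟨r', hr', -⟩ := hp (t + 1) (by omega)
      have hb := hbel t ht
      rcases cases_at t with h | ⟨r, h⟩ | ⟨r, h⟩ | ⟨r, h⟩
      · rcases h.inv hr' with ⟨h1, _⟩ | ⟨_, r1, h1, h2⟩
        · have := h.nor
          rw [← h1, ih] at this
          cases this
        · rw [ih] at h1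
          cases h1
          rcases h2 with ⟨h2, _⟩ | ⟨_, rfl⟩
          · exact absurd h2 hb
          · exact hr'
      · obtain ⟨r1, h1, h2⟩ := h.inv hr'
        rw [ih] at h1
        cases h1
        rcases h2 with ⟨h2, _⟩ | ⟨h2, _⟩ | ⟨_, _, rfl⟩
        · exact absurd h2.symm (hp.not_act (by omega) h)
        · exact absurd h2 hb
        · exact hr'
      · obtain ⟨_, r1, h1, h2⟩ := h.inv hr'
        rw [ih] at h1
        cases h1
        rcases h2 with ⟨h2, _⟩ | ⟨_, rfl⟩
        · exact absurd h ((hno t (by omega) h2.symm) r)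
        · exact hr'
      · rw [h.N']; exact ih
  -- the objects are frozen
  have hfz : ∀ o, al t2 o → o < R.ck → ¬ lo R o → Fin o := by
    intro o h1 h2 h3
    have key : ∀ t ≥ t2, al t o := by
      intro t ht
      induction t, ht using Nat.le_induction with
      | base => exact h1
      | succ t ht ih =>
        refine ⟨lt_of_lt_of_le ih.1 (nn_mono (by omega)), fun hd => ?_⟩
        rcases cases_at t with h | ⟨r, h⟩ | ⟨r, h⟩ | ⟨r, h⟩
        · exact ih.2 ((h.dead' o).1 hd)
        · rcases (h.dead' o).1 hd with h4 | h4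
          · refine h3 (frozen (invA t) (invB t) h (hconst t ht) (hbel t ht) ?_ h4 h2)
            intro h5
            exact hp.not_rmv (by omega : t0 ≤ t) (Or.inl ⟨r, h, h5, hp.not_act (by omega) h⟩)
          · exact ih.2 h4
        · exact ih.2 ((h.dead' o).1 hd)
        · exact ih.2 ((h.dead' o).1 hd)
    refine ⟨⟨t2, h1.1⟩, fun t hd => ?_⟩
    exact (key (max t t2) (le_max_right _ _)).2 (dead_mono (le_max_left _ _) hd)
  have hck := (invA t2).ck2 hR
  have hT : ∀ t ≥ t2, ∀ o, o ∈ tset (run t) R ↔ (o < R.ck ∧ al t2 o ∧ ¬ lo R o) := by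
    intro t ht o
    rw [mem_tset (invA t) (hconst t ht)]
    constructor
    · rintro ⟨h1, h2, h3⟩
      exact ⟨h1, ⟨by omega, fun h4 => h2 (dead_mono ht h4)⟩, h3⟩
    · rintro ⟨h1, h2, h3⟩
      exact ⟨h1, (hfz o h2 h1 h3).2 t, h3⟩
  -- the elements corresponding to the objects
  have hm : ∀ o, (o < R.ck ∧ al t2 o ∧ ¬ lo R o) → ∃ m, θ m = (loc true o, []) ∧ Hs M m (2 * o) := by
    intro o ho
    have hfin := hfz o ho.2.1 ho.1 ho.2.2
    obtain ⟨m, hm⟩ := hθ.root (lf_cr true hfin.1)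
    exact ⟨m, hm, by rw [hθ.hs_root hm, hfin.out true]⟩
  have hmof : ∀ᶠ t in Filter.atTop, ∀ o ∈ Finset.range R.ck, (o < R.ck ∧ al t2 o ∧ ¬ lo R o) →
      θ (mof (Encodable.encode c) t o) = (loc true o, []) ∧ mof (Encodable.encode c) t o < t := by
    rw [Filter.eventually_all_finset]
    intro o _
    by_cases ho : (o < R.ck ∧ al t2 o ∧ ¬ lo R o)
    · obtain ⟨m, h1, h2⟩ := hm o ho
      have hfin := hfz o ho.2.1 ho.1 ho.2.2
      filter_upwards [hc.shw h2, Filter.eventually_gt_atTop m] with t h3 h4 _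
      have h5 : mof (Encodable.encode c) t o = m := by
        refine mof_eq h4 h3 fun x hx => ?_
        have h6 := hθ.fin hfin (hc.hs hx)
        exact hθ.en.1 (h6.trans h1.symm)
      rw [h5]
      exact ⟨h1, h4⟩
    · exact Filter.Eventually.of_forall fun t h => absurd h ho
  -- condition 4, eventually
  have hTGp : TG p := by
    have h1 := (invA t2).blk hR
    have h2 := (invA t2).ck1 hR
    rw [hRp] at h1 h2
    exact ⟨t2, by omega, h1.tgs⟩
  have h4ev : ∀ᶠ t in Filter.atTop, ∀ o ∈ Finset.range R.ck, (o < R.ck ∧ al t2 o ∧ ¬ lo R o) →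
      ¬ tq p o → ∀ m, θ m = (loc true o, []) → shw (Encodable.encode c) t m (2 * p + 1) = true := by
    rw [Filter.eventually_all_finset]
    intro o _
    by_cases ho : (o < R.ck ∧ al t2 o ∧ ¬ lo R o)
    · obtain ⟨m, h1, h2⟩ := hm o ho
      have hfin := hfz o ho.2.1 ho.1 ho.2.2
      by_cases hq : tq p o
      · exact Filter.Eventually.of_forall fun t _ h => absurd hq h
      · have h3 : Hs M m (2 * p + 1) := (hθ.fin_tag hfin h1 hTGp).2 hq
        filter_upwards [hc.shw h3] with t h4 _ _ m' hm'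
        have : m' = m := hθ.en.1 (hm'.trans h1.symm)
        rw [this]; exact h4
    · exact Filter.Eventually.of_forall fun t h => absurd h ho
  -- condition 5, eventually
  have h5ev : ∀ᶠ t in Filter.atTop, ∀ x ∈ Finset.range R.cnt,
      Hs M x (2 * p + 1) → shw (Encodable.encode c) t x (2 * p + 1) = true := by
    rw [Filter.eventually_all_finset]
    intro x _
    by_cases hx : Hs M x (2 * p + 1)
    · filter_upwards [hc.shw hx] with t h _
      exact h
    · exact Filter.Eventually.of_forall fun t h => absurd h hx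
  obtain ⟨t3, ht3⟩ := Filter.eventually_atTop.1 (hmof.and (h4ev.and h5ev))
  obtain ⟨t, ht, hdlt⟩ := hv (max t2 t3)
  have h32 : t2 ≤ t := (le_max_left _ _).trans ht
  obtain ⟨e1, e2, e3⟩ := ht3 t ((le_max_right _ _).trans ht)
  have hRt := hconst t h32
  have hlen : (dl t).length = Encodable.encode c := by rw [hdlt, hτ]
  -- members of the new matching
  have hnm : ∀ o m, (o, m) ∈ nmu (run t) R ↔ ((o < R.ck ∧ al t2 o ∧ ¬ lo R o) ∧
      m = mof (Encodable.encode c) t o) := by
    intro o m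
    rw [mem_nmu, hT t h32, hlen]
  have hθm : ∀ o m, (o, m) ∈ nmu (run t) R → θ m = (loc true o, []) ∧ m < t := by
    intro o m h
    obtain ⟨h1, rfl⟩ := (hnm o m).1 h
    exact e1 o (Finset.mem_range.2 h1.1) h1
  have hin : ∀ o, (o < R.ck ∧ al t2 o ∧ ¬ lo R o) → ∀ m, θ m = (loc true o, []) →
      (o, m) ∈ nmu (run t) R := by
    intro o ho m hm'
    rw [hnm]
    refine ⟨ho, ?_⟩
    exact hθ.en.1 (hm'.trans (e1 o (Finset.mem_range.2 ho.1) ho).1.symm)
  have hrec : recov (run t) R = true := by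
    rw [recov_iff, c1_iff, c2_iff hRt, c3_iff hRt, c4_iff hRt, c5_iff, hlen, hRp]
    refine ⟨?_, ?_, ?_, ?_, ?_⟩
    · intro o m hom
      obtain ⟨h1, h2⟩ := hθm o m hom
      refine ⟨h2, fun o' ho' => ?_⟩
      obtain ⟨h3, -⟩ := hθm o' m ho'
      rw [h1] at h3
      have h4 := ((hnm o m).1 hom).1
      have h5 := ((hnm o' m).1 ho').1
      exact Fin.inj true (hfz o h4.2.1 h4.1 h4.2.2) (hfz o' h5.2.1 h5.1 h5.2.2)
        (congrArg Prod.fst h3)
    · intro o m hom
      obtain ⟨h1, h2, -, s, h3⟩ := (invW t2).k1 hR hom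
      rw [hτ] at h3
      have h4 : ¬ RL o := by
        rintro ⟨t', ht'⟩
        have h5 := rld_mono (le_max_left t' t2) ht'
        exact ((invW _).k1 (hconst _ (le_max_right t' t2)) hom).2.2.1 h5
      have h5 : ¬ CC (2 * o) := by rw [cc_even]; exact h4
      obtain ⟨h6, h7⟩ := hθ.hs_not_cc h5 (hc.hs h3)
      rw [out_even] at h7
      obtain ⟨o'', g1, g2, g3⟩ := h7.resolve_left h4
      have hoo : (nm o o'' → (o = o'' ∨ (Dv o'' ∧ (G o'').u = o) ∨ (Dv o'' ∧ (G o'').v = o))) := by
        intro h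
        rcases fd_cr g1 with h8 | h8
        · left
          rcases h with h | h | h
          · exact h
          · rw [h8.2.2.1] at h; exact h
          · rw [h8.2.2.2] at h; exact h
        · rcases h with h | h | h
          · exact Or.inl h
          · exact Or.inr (Or.inl ⟨h8, h.symm⟩)
          · exact Or.inr (Or.inr ⟨h8, h.symm⟩)
      by_cases hd : dead t2 o
      · obtain ⟨cA, cB, ⟨a1, a2, a3, a4, a5⟩, ⟨b1, b2, b3, b4, b5⟩, -, -⟩ := (invW t2).d hR hom hd
        have hA' : loc true cA = loc true o := by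
          rw [a4.loc true]
          show loc true (G cA).u = _
          rw [a5]
        have hcase : (θ m).1 = loc true cA ∨ (θ m).1 = loc true cB := by
          rw [← g2]
          rcases hoo g3 with h8 | ⟨h8, h9⟩ | ⟨h8, h9⟩
          · left; rw [← h8, hA']
          · left
            rw [ku_cr true g1 ⟨t2, a1.1⟩ h8 a4 (h9.trans a5.symm)]
          · right
            rw [ku_cr false g1 ⟨t2, b1.1⟩ h8 b4 (h9.trans b5.symm)]
        rcases hcase with h8 | h8
        · exact ⟨cA, hin cA ⟨a2, a1, a3⟩ m (by rw [h6, h8]), Or.inr (Or.inl a5)⟩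
        · exact ⟨cB, hin cB ⟨b2, b1, b3⟩ m (by rw [h6, h8]), Or.inr (Or.inr b5)⟩
      · have ho : (o < R.ck ∧ al t2 o ∧ ¬ lo R o) := ⟨h1, ⟨by omega, hd⟩, h2⟩
        have hfin := hfz o ho.2.1 ho.1 ho.2.2
        exact ⟨o, hin o ho m (hθ.fin hfin (hc.hs h3)), Or.inl rfl⟩
    · intro o m hom hk hs
      obtain ⟨h1, -⟩ := hθm o m hom
      have h4 := ((hnm o m).1 hom).1
      have hfin := hfz o h4.2.1 h4.1 h4.2.2
      have h5 := (hθ.fin_tag hfin h1 (tt_cr hfin.1 hk)).1 (hc.hs hs)
      exact h5 ⟨hk, rfl⟩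
    · intro o m hom hk
      obtain ⟨h1, -⟩ := hθm o m hom
      have h4 := ((hnm o m).1 hom).1
      exact e2 o (Finset.mem_range.2 h4.1) h4 hk m h1
    · intro x hx
      by_cases h1 : Hs M x (2 * p + 1)
      · exact Or.inl (e3 x (Finset.mem_range.2 hx) h1)
      · right
        obtain ⟨h2, h3⟩ := hθ.hs_cc (cc_odd.2 hTGp) h1
        have hall : ∀ o, cr o → loc true o = (θ x).1 → tq p o := by
          intro o h4 h5
          by_contra h6
          exact h3 (out_odd.2 ⟨hTGp, o, h4, h5, h6⟩)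
        have hroot := hθ.rt x
        have ha : tq p (θ x).1 := hall _ hroot.cr (hroot.fr.loc true)
        obtain ⟨t', ht'⟩ := hroot.cr
        have ha1 : (θ x).1 < nn (max t' t2) := lt_of_lt_of_le ht' (nn_mono (le_max_left _ _))
        have ha2 := (invB _).j0 (hconst _ (le_max_right t' t2)) ha1 ha.1 (by rw [hRp]; exact ha.2)
        obtain ⟨o, h4, h5⟩ := (invB t2).le true (by omega : (θ x).1 < nn t2) hroot.fr
        have h6 := hall o ⟨t2, h4.1⟩ h5
        have h7 := (invB t2).j0 hR h4.1 h6.1 (by rw [hRp]; exact h6.2)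
        refine ⟨o, hin o ⟨h7, h4, ?_⟩ x (by rw [h2, h5])⟩
        rintro ⟨_, h8⟩
        obtain ⟨τ', r', h9, h10, h11⟩ := (invA t2).l2 hR h8
        have h12 := (invA t2).pd h9 hR (by rw [h11, hRp, h6.2])
        exact pfx_ne h10 h12
  rcases cases_at t with h | ⟨r, h⟩ | ⟨r, h⟩ | ⟨r, h⟩
  · have := h.nor
    rw [hdlt, hRt] at this
    cases this
  · exact hp.not_act (by omega) h hdlt
  · exact hno t (by omega) hdlt r h
  · have h1 := h.isr
    rw [hdlt, hRt] at h1
    cases h1
    have h2 := h.rcv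
    rw [hrec] at h2
    cases h2

end Pool.Agent.Dim
end

section

/-!
# The second kind of requirements: the persistence of the matchings
-/

namespace Pool.Agent.Dim

open Nat.Partrec (Code)
open Nat.Partrec.Code

/-- The pair belongs to the matching of the node at time `t`. -/
def MU (τ : List Bool) (t o m : ℕ) : Prop := ∃ r, N t τ = some r ∧ (o, m) ∈ r.mu

/-- The node recovers at time `t`. -/
def RecT (τ : List Bool) (t : ℕ) : Prop := dl t = τ ∧ ∃ r, RecAt t r

/-- An action below the outcome `true` of the node. -/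
def ActT (τ : List Bool) (t : ℕ) : Prop := τ ++ [true] <+: dl t ∧ ∃ r, ActAt t r

section

variable {τ : List Bool} {t0 p : ℕ} {d : Bool} {l : List ℕ}

/-- The matching is constant except at recoveries. -/
theorem mu_const (hp : Pm τ t0 p d l) {t : ℕ} (ht : t0 ≤ t) (hr : ¬ RecT τ t) (o m : ℕ) :
    MU τ (t + 1) o m ↔ MU τ t o m := by
  have key : ∃ r r', N t τ = some r ∧ N (t + 1) τ = some r' ∧ r'.mu = r.mu := by
    obtain ⟨r', hr', -⟩ := hp (t + 1) (by omega)
    rcases cases_at t with h | ⟨r0, h⟩ | ⟨r0, h⟩ | ⟨r0, h⟩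
    · rcases h.inv hr' with ⟨h1, _⟩ | ⟨_, r, h1, h2⟩
      · obtain ⟨r, h2, -⟩ := hp t ht
        have := h.nor
        rw [← h1, h2] at this
        cases this
      · refine ⟨r, r', h1, hr', ?_⟩
        rcases h2 with ⟨_, rfl⟩ | ⟨_, rfl⟩ <;> rfl
    · obtain ⟨r, h1, h2⟩ := h.inv hr'
      refine ⟨r, r', h1, hr', ?_⟩
      rcases h2 with ⟨h2, _⟩ | ⟨_, rfl⟩ | ⟨_, _, rfl⟩
      · exact absurd h2.symm (hp.not_act ht h)
      · rfl
      · rfl
    · obtain ⟨_, r, h1, h2⟩ := h.inv hr'
      refine ⟨r, r', h1, hr', ?_⟩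
      rcases h2 with ⟨h2, _⟩ | ⟨_, rfl⟩
      · exact absurd ⟨h2.symm, r0, h⟩ hr
      · rfl
    · rw [h.N'] at hr'
      exact ⟨r', r', hr', by rw [h.N']; exact hr', rfl⟩
  obtain ⟨r, r', h1, h2, h3⟩ := key
  unfold MU
  rw [h1, h2]
  simp only [Option.some_inj, exists_eq_left', h3]

/-- The matching after a recovery. -/
theorem mu_rec {t : ℕ} {r : Rec} (h : RecAt t r) (hdl : dl t = τ) (o m : ℕ) :
    MU τ (t + 1) o m ↔ (o, m) ∈ nmu (run t) r := by
  have h1 := h.N' τ
  rw [hdl] at h1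
  have h2 : ¬ τ ++ [false] <+: τ := fun h => pfx_ne h rfl
  rw [if_neg h2] at h1
  have h3 := h.isr
  rw [hdl] at h3
  rw [h3, Option.map_some] at h1
  unfold MU
  rw [h1]
  simp

theorem MU.of {t : ℕ} {r : Rec} {o m : ℕ} (h : MU τ t o m) (hr : N t τ = some r) :
    (o, m) ∈ r.mu := by
  obtain ⟨r', h1, h2⟩ := h
  rw [hr] at h1
  cases h1
  exact h2

/-- An object is living at the time of the recovery. -/
theorem nmu_al {t : ℕ} {r : Rec} (hr : N t τ = some r) {o m : ℕ} (h : (o, m) ∈ nmu (run t) r) :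
    al t o := by
  have h1 := (mem_tset (invA t) hr).1 (mem_nmu.1 h).1
  exact ⟨lt_of_lt_of_le h1.1 ((invA t).ck2 hr), h1.2.1⟩

/-- The parents of an object are dead. -/
theorem par_dead {t o : ℕ} (h : o < nn t) (hv : Dv o) (s : Bool) : dead t (par s o) := by
  rcases (invB t).fd h with h1 | ⟨_, h1, h2⟩
  · exact absurd h1 hv.ne
  · cases s
    · exact h2
    · exact h1

/-- The partner of a key at a recovery. -/
theorem partner {t : ℕ} {r : Rec} (h : RecAt t r) {o m : ℕ} (hm : (o, m) ∈ r.mu) :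
    ∃ o', (o', m) ∈ nmu (run t) r ∧ al t o' ∧
      ((¬ dead t o ∧ o' = o) ∨ (dead t o ∧ Dv o' ∧ ∃ s, par s o' = o)) := by
  have h1 := recov_iff.1 h.rcv
  obtain ⟨o', h2, h3⟩ := (c2_iff h.isr).1 h1.2.1 o m hm
  have h4 := nmu_al h.isr h2
  refine ⟨o', h2, h4, ?_⟩
  rcases fd_cr ⟨t, h4.1⟩ with h5 | h5
  · left
    have h6 : o' = o := by
      rcases h3 with h3 | h3 | h3
      · exact h3
      · rw [h5.2.2.1] at h3; exact h3
      · rw [h5.2.2.2] at h3; exact h3
    exact ⟨by rw [← h6]; exact h4.2, h6⟩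
  · rcases h3 with h3 | h3 | h3
    · left
      exact ⟨by rw [← h3]; exact h4.2, h3⟩
    · right
      have h6 := par_dead h4.1 h5 true
      have h7 : par true o' = o := h3
      rw [h7] at h6
      exact ⟨h6, h5, true, h7⟩
    · right
      have h6 := par_dead h4.1 h5 false
      have h7 : par false o' = o := h3
      rw [h7] at h6
      exact ⟨h6, h5, false, h7⟩

/-- The shift of a matching when a tagged object stays at its location, first side. -/
theorem shift_true {t : ℕ} {r : Rec} (h : RecAt t r) {os os' ms : ℕ}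
    (h1 : (os, ms) ∈ r.mu) (h2 : (os', ms) ∈ nmu (run t) r) (k1 : (G os).kd = 1)
    (k2 : (G os').kd = 1) (g1 : (G os).tg = r.p) (g2 : (G os').tg = r.p) :
    ∀ cA o m, (o, m) ∈ r.mu → dead t o → al t cA → Dv cA → (G cA).u = o →
      (cA, m) ∈ nmu (run t) r := by
  have hW := invW t
  have hr := h.isr
  have hos' := nmu_al hr h2
  intro k
  induction k using Nat.strong_induction_on with
  | _ k ih =>
    intro o m hm hd hac hvc hpc
    obtain ⟨cA, cB, ⟨a1, a2, a3, a4, a5⟩, ⟨b1, b2, b3, b4, b5⟩, hA, -⟩ := hW.d hr hm hd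
    obtain ⟨o', p1, p2, p3⟩ := partner h hm
    obtain ⟨-, p4, s', p5⟩ := p3.resolve_left (fun h => h.1 hd)
    have hc : k = cA := (invB t).ku true hac.1 a1.1 hvc a4 (hpc.trans a5.symm)
    subst hc
    rcases hA with ⟨q1, q2⟩ | ⟨q1, q2, m', q3⟩
    · have e1 : os = o := hW.k4 hr h1 hm (by omega) (by omega) (by omega)
      subst e1
      have e2 : ms = m := hW.k2 hr h1 hm
      subst e2
      have e3 : os' = k := by
        have h3 : (G k).kd = 1 := by rw [a4.kd, a5, q1]; rfl
        have h4 : (G k).tg = (G os).tg := by rw [a4.tg, a5]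
        exact (invB t).tu hos' a1 (by omega) (by omega) (by omega)
      rw [← e3]; exact h2
    · have hcB : (cB, m') ∈ nmu (run t) r := ih cB (by omega) (G cB).u m' q3 q2 b1 b4 rfl
      cases s' with
      | true =>
        have : o' = k := (invB t).ku true p2.1 a1.1 p4 a4 (p5.trans a5.symm)
        rw [← this]; exact p1
      | false =>
        have h6 : o' = cB := (invB t).ku false p2.1 b1.1 p4 b4 (p5.trans b5.symm)
        subst h6
        have h7 : m = m' := (mem_nmu.1 p1).2.trans (mem_nmu.1 hcB).2.symm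
        subst h7
        have h8 := hW.k3 hr hm q3
        exact absurd (h8.symm.trans b5.symm) b4.uv

/-- The shift of a matching when a tagged object stays at its location, second side. -/
theorem shift_false {t : ℕ} {r : Rec} (h : RecAt t r) {os os' ms : ℕ}
    (h1 : (os, ms) ∈ r.mu) (h2 : (os', ms) ∈ nmu (run t) r) (k1 : (G os).kd = 4)
    (k2 : (G os').kd = 4) (g1 : (G os).tg = r.p) (g2 : (G os').tg = r.p) :
    ∀ k o m cA cB, cA + k = nn t → (o, m) ∈ r.mu → dead t o → al t cA → Dv cA → (G cA).u = o →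
      al t cB → Dv cB → (G cB).v = o → (cB, m) ∈ nmu (run t) r := by
  have hW := invW t
  have hr := h.isr
  have hos' := nmu_al hr h2
  intro k
  induction k using Nat.strong_induction_on with
  | _ k ih =>
    intro o m c c' hk hm hd hac hvc hpc hac' hvc' hpc'
    obtain ⟨cA, cB, ⟨a1, a2, a3, a4, a5⟩, ⟨b1, b2, b3, b4, b5⟩, -, hB⟩ := hW.d hr hm hd
    obtain ⟨o', p1, p2, p3⟩ := partner h hm
    obtain ⟨-, p4, s', p5⟩ := p3.resolve_left (fun h => h.1 hd)
    have hc : c = cA := (invB t).ku true hac.1 a1.1 hvc a4 (hpc.trans a5.symm)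
    have hc' : c' = cB := (invB t).ku false hac'.1 b1.1 hvc' b4 (hpc'.trans b5.symm)
    subst hc
    subst hc'
    rcases hB with ⟨q1, q2⟩ | ⟨q2, ⟨m', q3⟩, q4⟩
    · have e1 : os = o := hW.k4 hr h1 hm (by omega) (by omega) (by omega)
      subst e1
      have e2 : ms = m := hW.k2 hr h1 hm
      subst e2
      have e3 : os' = c' := by
        have h3 : (G c').kd = 4 := (b4.skd false).2 (by
            show (G (G c').v).kd = 4
            rw [b5, q1])
        have h4 : (G (G c').v).tg = (G c').tg := (b4.tgp false (by omega)).2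
        rw [b5] at h4
        exact (invB t).tu hos' b1 (by omega) (by omega) (by omega)
      rw [← e3]; exact h2
    · obtain ⟨dA, dB, ⟨f1, f2, f3, f4, f5⟩, ⟨g1', g2', g3', g4', g5'⟩, hA', -⟩ := hW.d hr q3 q2
      have hdB : dB = c := (invB t).ku false g1'.1 a1.1 g4' a4 g5'
      subst hdB
      have hlt : dB + 1 = dA := by
        rcases hA' with h6 | h6
        · exact absurd h6 q4
        · exact h6.1
      have hdA := f1.1
      have hcA : (dB, m') ∈ nmu (run t) r :=
        ih (nn t - dA) (by omega) (G dB).v m' dA dB (by omega) q3 q2 f1 f4 f5 g1' g4' g5'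
      cases s' with
      | false =>
        have : o' = c' := (invB t).ku false p2.1 b1.1 p4 b4 (p5.trans b5.symm)
        rw [← this]; exact p1
      | true =>
        have h6 : o' = dB := (invB t).ku true p2.1 a1.1 p4 a4 (p5.trans a5.symm)
        subst h6
        have h7 : m = m' := (mem_nmu.1 p1).2.trans (mem_nmu.1 hcA).2.symm
        subst h7
        have h8 := hW.k3 hr hm q3
        exact absurd (a5.trans h8) a4.uv

/-- The shift of a matching when a tagged object stays at its location. -/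
theorem shift_rec {t : ℕ} {r : Rec} (h : RecAt t r) (s : Bool) {os os' ms : ℕ}
    (h1 : (os, ms) ∈ r.mu) (h2 : (os', ms) ∈ nmu (run t) r) (k1 : (G os).kd = skd s)
    (k2 : (G os').kd = skd s) (g1 : (G os).tg = r.p) (g2 : (G os').tg = r.p) :
    ∀ o m, (o, m) ∈ r.mu → ∃ o', (o', m) ∈ nmu (run t) r ∧ loc s o' = loc s o := by
  have hW := invW t
  have hr := h.isr
  intro o m hm
  by_cases hd : dead t o
  · obtain ⟨cA, cB, ⟨a1, a2, a3, a4, a5⟩, ⟨b1, b2, b3, b4, b5⟩, -, -⟩ := hW.d hr hm hd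
    cases s with
    | true =>
      refine ⟨cA, shift_true h h1 h2 k1 k2 g1 g2 cA o m hm hd a1 a4 a5, ?_⟩
      rw [a4.loc true]
      show loc true (G cA).u = _
      rw [a5]
    | false =>
      have := a1.1
      refine ⟨cB, shift_false h h1 h2 k1 k2 g1 g2 (nn t - cA) o m cA cB (by omega) hm hd
        a1 a4 a5 b1 b4 b5, ?_⟩
      rw [b4.loc false]
      show loc false (G cB).v = _
      rw [b5]
  · obtain ⟨o', p1, p2, p3⟩ := partner h hm
    have := (p3.resolve_right (fun h => hd h.1)).2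
    subst this
    exact ⟨o', p1, rfl⟩

/-- The kinds of the successive partners of an element. -/
theorem kd_partner {t o o' : ℕ} {q : ℕ} (ho : tq q o) (ho' : tq q o')
    (h : (¬ dead t o ∧ o' = o) ∨ (dead t o ∧ Dv o' ∧ ∃ s, par s o' = o)) (s : Bool)
    (hk : (G o).kd = skd s) : (G o').kd = skd s := by
  rcases h with ⟨_, rfl⟩ | ⟨_, h1, s', h2⟩
  · exact hk
  · have h3 := (h1.skd s').2
    rw [h2] at h3
    cases s with
    | true =>
      cases s' with
      | true => exact h3 hk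
      | false =>
        exfalso
        have h4 : (G o').v = o := h2
        have h5 : (G o).kd = 1 := hk
        have g1 := h1.g1
        have g3 := h1.g3
        rw [h4] at g1 g3
        have h6 := h1.kd
        have h7 := ho'.1
        rcases ckd_cases (G (G o').u).kd with h8 | ⟨h8, _⟩ | ⟨h8, _⟩
        · omega
        · have := g1.1 h8; omega
        · have := g3.1 h8; omega
    | false =>
      cases s' with
      | false => exact h3 hk
      | true =>
        exfalso
        have h4 : (G o').u = o := h2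
        have h5 : (G o).kd = 4 := hk
        have h6 := h1.kd
        rw [h4, h5] at h6
        exact ho'.1 h6

/-- The kind of a new partner of an element. -/
theorem kd_new {o' q : ℕ} (ho' : tq q o') (h1 : Dv o') : ∃ s, (G o').kd = skd s := by
  have h6 := h1.kd
  rcases ckd_cases (G (G o').u).kd with h8 | ⟨_, h8⟩ | ⟨_, h8⟩
  · exact absurd (h6.trans h8) ho'.1
  · exact ⟨true, h6.trans h8⟩
  · exact ⟨false, h6.trans h8⟩

end

end Pool.Agent.Dim
end

section

/-!
# The second kind of requirements: the type of a node, and the covered roots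
-/

namespace Pool.Agent.Dim

open Nat.Partrec (Code)
open Nat.Partrec.Code

section

variable {τ : List Bool} {t0 p : ℕ} {d : Bool} {l : List ℕ}

/-- How the counters of the record change. -/
theorem rec_step (hp : Pm τ t0 p d l) {t : ℕ} (ht : t0 ≤ t) {r r' : Rec} (hr : N t τ = some r)
    (hr' : N (t + 1) τ = some r') : r.ck ≤ r'.ck ∧ r.cnt ≤ r'.cnt ∧
      (RecT τ t → r'.cnt = r.cnt + 1) := by
  rcases cases_at t with h | ⟨r0, h⟩ | ⟨r0, h⟩ | ⟨r0, h⟩
  · have hnr : ¬ RecT τ t := by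
      rintro ⟨h1, r1, h2⟩
      have := h.nor
      rw [h1, hr] at this
      cases this
    have hck := (invA t).ck2 hr
    rcases h.inv hr' with ⟨h1, _⟩ | ⟨_, r1, h1, h2⟩
    · have := h.nor
      rw [← h1, hr] at this
      cases this
    · rw [hr] at h1
      cases h1
      rcases h2 with ⟨_, rfl⟩ | ⟨_, rfl⟩
      · refine ⟨?_, le_rfl, fun h => absurd h hnr⟩
        show r.ck ≤ nn t + 6
        omega
      · exact ⟨le_rfl, le_rfl, fun h => absurd h hnr⟩
  · have hnr : ¬ RecT τ t := by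
      rintro ⟨h1, _⟩
      exact hp.not_act ht h h1
    have hck := (invA t).ck2 hr
    have hnn : nn t ≤ nn (t + 1) := nn_mono (by omega)
    obtain ⟨r1, h1, h2⟩ := h.inv hr'
    rw [hr] at h1
    cases h1
    rcases h2 with ⟨h2, _⟩ | ⟨_, rfl⟩ | ⟨_, _, rfl⟩
    · exact absurd h2.symm (hp.not_act ht h)
    · refine ⟨?_, le_rfl, fun h => absurd h hnr⟩
      show r.ck ≤ nn (t + 1)
      omega
    · exact ⟨le_rfl, le_rfl, fun h => absurd h hnr⟩
  · obtain ⟨_, r1, h1, h2⟩ := h.inv hr'
    rw [hr] at h1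
    cases h1
    rcases h2 with ⟨_, rfl, rfl⟩ | ⟨h3, rfl⟩
    · exact ⟨le_rfl, Nat.le_succ _, fun _ => rfl⟩
    · exact ⟨le_rfl, le_rfl, fun h4 => absurd h4.1.symm h3⟩
  · rw [h.N', hr] at hr'
    cases hr'
    refine ⟨le_rfl, le_rfl, ?_⟩
    rintro ⟨h1, r1, h2⟩
    have h3 := h2.isr
    have h4 := h.isr
    rw [h3] at h4
    cases h4
    have h5 := h2.rcv
    rw [h.rcv] at h5
    cases h5

theorem rec_mono (hp : Pm τ t0 p d l) {t t' : ℕ} (ht : t0 ≤ t) (htt : t ≤ t') {r r' : Rec}
    (hr : N t τ = some r) (hr' : N t' τ = some r') : r.ck ≤ r'.ck ∧ r.cnt ≤ r'.cnt := by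
  induction t', htt using Nat.le_induction generalizing r' with
  | base =>
    rw [hr] at hr'
    cases hr'
    exact ⟨le_rfl, le_rfl⟩
  | succ t' htt ih =>
    obtain ⟨r1, hr1, -⟩ := hp t' (by omega)
    have h1 := ih hr1
    have h2 := rec_step hp (by omega) hr1 hr'
    exact ⟨h1.1.trans h2.1, h1.2.trans h2.2.1⟩

theorem cnt_large (hp : Pm τ t0 p d l) (hrec : ∀ t, ∃ t' ≥ t, RecT τ t') (B : ℕ) :
    ∃ t1 ≥ t0, ∀ t ≥ t1, ∀ r, N t τ = some r → B < r.cnt := by
  have key : ∀ B, ∃ t1 ≥ t0, ∃ r, N t1 τ = some r ∧ B ≤ r.cnt := by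
    intro B
    induction B with
    | zero =>
      obtain ⟨r, hr, -⟩ := hp t0 le_rfl
      exact ⟨t0, le_rfl, r, hr, by omega⟩
    | succ B ih =>
      obtain ⟨t1, h1, r, h2, h3⟩ := ih
      obtain ⟨t2, h4, h5⟩ := hrec t1
      obtain ⟨r2, hr2, -⟩ := hp t2 (by omega)
      obtain ⟨r3, hr3, -⟩ := hp (t2 + 1) (by omega)
      have h6 := (rec_step hp (by omega) hr2 hr3).2.2 h5
      have h7 := (rec_mono hp h1 h4 h2 hr2).2
      exact ⟨t2 + 1, by omega, r3, hr3, by omega⟩
  obtain ⟨t1, h1, r1, h2, h3⟩ := key (B + 1)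
  refine ⟨t1, h1, fun t ht r hr => ?_⟩
  have := (rec_mono hp h1 ht h2 hr).2
  omega

theorem ck_large (hp : Pm τ t0 p d l) (hrec : ∀ t, ∃ t' ≥ t, RecT τ t') (B : ℕ) :
    ∃ t1 ≥ t0, ∀ t ≥ t1, ∀ r, N t τ = some r → B < r.ck := by
  obtain ⟨ta, hta⟩ := nn_unbounded B
  obtain ⟨tb, htb, hdl, rb, hrb⟩ := hrec (max t0 ta)
  have h0b : t0 ≤ tb := (le_max_left _ _).trans htb
  have hab : ta ≤ tb := (le_max_right _ _).trans htb
  classical
  have hex := exists_reset tb
  obtain ⟨he1, he2⟩ := Nat.find_spec hex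
  have hmin := fun {m} (hm : m < Nat.find hex) => Nat.find_min hex hm
  obtain ⟨te, hte⟩ : ∃ te, te = Nat.find hex := ⟨_, rfl⟩
  rw [← hte] at he1 he2
  have hmin' : ∀ m, tb < m → m < te → dl m ≠ [] := by
    intro m h1 h2 h3
    exact hmin (by rw [← hte]; exact h2) ⟨h1, h3⟩
  have hbel : ∀ t, tb + 1 ≤ t → t < te → τ ++ [true] <+: dl t := by
    intro t ht
    induction t, ht using Nat.le_induction with
    | base =>
      intro _
      rw [hrb.dl', hdl]
    | succ t ht ih =>
      intro h2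
      have h3 := ih (by omega)
      rcases cases_at t with h | ⟨r, h⟩ | ⟨r, h⟩ | ⟨r, h⟩
      · exact absurd h.dl' (hmin' (t + 1) (by omega) h2)
      · exact absurd h.dl' (hmin' (t + 1) (by omega) h2)
      · rw [h.dl']; exact h3.trans (List.prefix_append _ _)
      · rw [h.dl']; exact h3.trans (List.prefix_append _ _)
  have hne : te ≠ tb + 1 := by
    intro h
    rw [h, hrb.dl'] at he2
    simp at he2
  obtain ⟨tf, rfl⟩ : ∃ tf, te = tf + 1 := ⟨te - 1, by omega⟩
  have hbf := hbel tf (by omega) (by omega)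
  have hck : ∃ r, N (tf + 1) τ = some r ∧ r.ck = nn (tf + 1) := by
    obtain ⟨r', hr', -⟩ := hp (tf + 1) (by omega)
    refine ⟨r', hr', ?_⟩
    rcases cases_at tf with h | ⟨r, h⟩ | ⟨r, h⟩ | ⟨r, h⟩
    · rcases h.inv hr' with ⟨h1, _⟩ | ⟨_, r1, h1, h2⟩
      · rw [h1] at hbf
        exact absurd rfl (pfx_ne hbf)
      · rcases h2 with ⟨_, rfl⟩ | ⟨h2, _⟩
        · exact h.nn'.symm
        · exact absurd hbf h2
    · obtain ⟨r1, h1, h2⟩ := h.inv hr'
      rcases h2 with ⟨h2, _⟩ | ⟨_, rfl⟩ | ⟨_, h2, _⟩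
      · rw [h2] at hbf
        exact absurd rfl (pfx_ne hbf)
      · rfl
      · exact absurd hbf h2
    · rw [h.dl'] at he2; simp at he2
    · rw [h.dl'] at he2; simp at he2
  obtain ⟨r1, hr1, hck1⟩ := hck
  refine ⟨tf + 1, by omega, fun t ht r hr => ?_⟩
  have h1 := (rec_mono hp (by omega) ht hr1 hr).1
  have h2 : nn ta ≤ nn (tf + 1) := nn_mono (by omega)
  omega

/-- The matchings persist on the side `s`. -/
def Persist (τ : List Bool) (s : Bool) (t1 : ℕ) : Prop :=
  ∀ t ≥ t1, ∀ o m, MU τ t o m → ∃ o', MU τ (t + 1) o' m ∧ loc s o' = loc s o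

theorem Persist.all {s : Bool} {t1 : ℕ} (h : Persist τ s t1) {t t' : ℕ} (ht : t1 ≤ t)
    (htt : t ≤ t') {o m : ℕ} (hm : MU τ t o m) : ∃ o', MU τ t' o' m ∧ loc s o' = loc s o := by
  induction t', htt using Nat.le_induction with
  | base => exact ⟨o, hm, rfl⟩
  | succ t' htt ih =>
    obtain ⟨o', h1, h2⟩ := ih
    obtain ⟨o'', h3, h4⟩ := h t' (by omega) o' m h1
    exact ⟨o'', h3, h4.trans h2⟩

theorem persist_of_rec (hp : Pm τ t0 p d l) {s : Bool} {t1 : ℕ} (h01 : t0 ≤ t1)
    (h : ∀ t ≥ t1, dl t = τ → ∀ r, RecAt t r → ∀ o m, (o, m) ∈ r.mu →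
      ∃ o', (o', m) ∈ nmu (run t) r ∧ loc s o' = loc s o) : Persist τ s t1 := by
  intro t ht o m hm
  by_cases hr : RecT τ t
  · obtain ⟨hdl, r, hrec⟩ := hr
    have h1 := hrec.isr
    rw [hdl] at h1
    obtain ⟨o', h2, h3⟩ := h t ht hdl r hrec o m (hm.of h1)
    exact ⟨o', (mu_rec hrec hdl o' m).2 h2, h3⟩
  · exact ⟨o, (mu_const hp (by omega) hr o m).2 hm, rfl⟩

/-- Between two recoveries. -/
theorem next_rec (hp : Pm τ t0 p d l) (hrec : ∀ t, ∃ t' ≥ t, RecT τ t') {t : ℕ} (ht : t0 ≤ t) :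
    ∃ t' ≥ t, RecT τ t' ∧ ∀ o m, MU τ t' o m ↔ MU τ t o m := by
  classical
  have hex := hrec t
  obtain ⟨t', ht'⟩ : ∃ t', t' = Nat.find hex := ⟨_, rfl⟩
  obtain ⟨h1, h2⟩ := Nat.find_spec hex
  rw [← ht'] at h1 h2
  refine ⟨t', h1, h2, ?_⟩
  have hmin : ∀ k, t ≤ k → k < t' → ¬ RecT τ k := by
    intro k hk1 hk2 hk3
    exact Nat.find_min hex (by rw [← ht']; exact hk2) ⟨hk1, hk3⟩
  have key : ∀ k, t ≤ k → k ≤ t' → ∀ o m, MU τ k o m ↔ MU τ t o m := by
    intro k hk
    induction k, hk using Nat.le_induction with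
    | base => intro _ o m; exact Iff.rfl
    | succ k hk ih =>
      intro hk2 o m
      rw [mu_const hp (by omega) (hmin k hk (by omega)) o m]
      exact ih (by omega) o m
  exact key t' h1 le_rfl

theorem exists_type {M : ℕ → ℕ → ℕ → Prop} {θ : ℕ → Vert} {c : Code} (hθ : IsoS M true θ)
    (hc : CodeOf M c) (hτ : τ.length = Encodable.encode c) (hp : Pm τ t0 p d l)
    (hrec : ∀ t, ∃ t' ≥ t, RecT τ t') : ∃ s, ∃ t1 ≥ t0, Persist τ s t1 := by
  by_cases hact : ∀ t, ∃ t' ≥ t, ActT τ t'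
  · -- infinitely many actions
    have hpt : ∀ t ≥ t0, ∃ r, N t τ = some r ∧ r.p = p := by
      intro t ht
      obtain ⟨r, h1, h2, -⟩ := hp t ht
      exact ⟨r, h1, h2⟩
    have hTG : TG p := by
      obtain ⟨r, h1, h2⟩ := hpt t0 le_rfl
      have h3 := (invA t0).blk h1
      have h4 := (invA t0).ck1 h1
      have h5 := (invA t0).ck2 h1
      rw [h2] at h3 h4
      exact ⟨t0, by omega, h3.tgs⟩
    -- living tagged objects die in an action
    have hkill : ∀ t ≥ t0, ActT τ t → ∀ o, al t o → tq p o → dead (t + 1) o := by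
      rintro t ht ⟨h1, r, h2⟩ o ho hq
      have F := actF (invA t) (invB t) h2
      obtain ⟨r', h3, h4⟩ := hpt t ht
      have h5 := ((invA t).l1 h3 h2.isr h1).subset
        (List.mem_append_right _ (List.mem_singleton_self _))
      rw [h4] at h5
      exact (h2.dead' o).2 (Or.inl (F.mem.2 (Or.inr (Or.inr ⟨ho, hq.1, by rw [hq.2]; exact h5⟩))))
    have hInf : Inf p := by
      refine ⟨hTG, fun o ho hk hg => ?_⟩
      obtain ⟨ta, hta⟩ := ho
      obtain ⟨t, ht, h1⟩ := hact (max t0 ta)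
      have h2 := nn_mono ((le_max_right t0 ta).trans ht)
      by_cases hd : dead t o
      · exact ⟨t, hd⟩
      · exact ⟨t + 1, hkill t ((le_max_left t0 ta).trans ht) h1 o ⟨by omega, hd⟩ ⟨hk, hg⟩⟩
    obtain ⟨hRt, -, -⟩ := tg_loc true hTG
    obtain ⟨ms, hms⟩ := hθ.root hRt
    have hnH : ¬ Hs M ms (2 * p + 1) := by
      rw [hθ.hs_root hms]
      exact (hInf.out true hRt).2 rfl
    obtain ⟨tc, htc, hcnt⟩ := cnt_large hp hrec ms
    -- at each later recovery, the element is matched to a tagged object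
    have hmatch : ∀ t ≥ tc, dl t = τ → ∀ r, RecAt t r → ∃ o, (o, ms) ∈ nmu (run t) r ∧ tq p o := by
      intro t ht hdl r hr
      have h1 := hr.isr
      rw [hdl] at h1
      obtain ⟨r', h2, h3⟩ := hpt t (by omega)
      rw [h1] at h2
      cases h2
      obtain ⟨-, -, -, c4, c5⟩ := recov_iff.1 hr.rcv
      rw [c5_iff, hdl, hτ, h3] at c5
      rw [c4_iff h1, hdl, hτ, h3] at c4
      rcases c5 ms (hcnt t ht r h1) with h4 | ⟨o, h4⟩
      · exact absurd (hc.hs h4) hnH
      · refine ⟨o, h4, ?_⟩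
        by_contra h5
        exact hnH (hc.hs (c4 o ms h4 h5))
    obtain ⟨td, htd, hdld, rd, hrd⟩ := hrec tc
    -- from now on the element is always matched to a tagged object
    have hmt : ∀ t ≥ td + 1, ∃ o, MU τ t o ms ∧ tq p o := by
      intro t ht
      induction t, ht using Nat.le_induction with
      | base =>
        obtain ⟨o, h1, h2⟩ := hmatch td htd hdld rd hrd
        exact ⟨o, (mu_rec hrd hdld o ms).2 h1, h2⟩
      | succ t ht ih =>
        obtain ⟨o, h1, h2⟩ := ih
        by_cases hr : RecT τ t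
        · obtain ⟨hdl, r, hr⟩ := hr
          obtain ⟨o', h3, h4⟩ := hmatch t (by omega) hdl r hr
          exact ⟨o', (mu_rec hr hdl o' ms).2 h3, h4⟩
        · exact ⟨o, (mu_const hp (by omega) hr o ms).2 h1, h2⟩
    -- an action, and the next recovery
    obtain ⟨ta, hta, hacta⟩ := hact (td + 1)
    obtain ⟨oa, hoa, hqa⟩ := hmt ta hta
    have hdead : dead (ta + 1) oa := by
      obtain ⟨r, h1, -⟩ := hpt ta (by omega)
      have h2 := (invW ta).a1 h1 hacta.1 (hoa.of h1)
      have h3 := ((invW ta).k1 h1 (hoa.of h1)).1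
      have h4 := (invA ta).ck2 h1
      exact hkill ta (by omega) hacta oa ⟨by omega, h2⟩ hqa
    have hnr : ¬ RecT τ ta := by
      rintro ⟨h1, _⟩
      have h2 := hacta.1
      rw [h1] at h2
      exact pfx_ne h2 rfl
    obtain ⟨tb, htb, hrb, hmub⟩ := next_rec hp hrec (t := ta + 1) (by omega)
    have hob : MU τ tb oa ms := by
      rw [hmub, mu_const hp (by omega) hnr]
      exact hoa
    obtain ⟨hdlb, rb, hrb⟩ := hrb
    have hNb := hrb.isr
    rw [hdlb] at hNb
    obtain ⟨ob, h1, h2, h3⟩ := partner hrb (hob.of hNb)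
    have h4 := h3.resolve_left (fun h => h.1 (dead_mono htb hdead))
    have hqb : tq p ob := by
      obtain ⟨o, h5, h6⟩ := hmatch tb (by omega) hdlb rb hrb
      have h7 := (c1_iff.1 (recov_iff.1 hrb.rcv).1 o ms h5).2 ob h1
      rw [← h7]; exact h6
    obtain ⟨s, hs⟩ := kd_new hqb h4.2.1
    -- the kind is now constant
    have hks : ∀ t ≥ tb + 1, ∃ o, MU τ t o ms ∧ tq p o ∧ (G o).kd = skd s := by
      intro t ht
      induction t, ht using Nat.le_induction with
      | base => exact ⟨ob, (mu_rec hrb hdlb ob ms).2 h1, hqb, hs⟩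
      | succ t ht ih =>
        obtain ⟨o, h5, h6, h7⟩ := ih
        by_cases hr : RecT τ t
        · obtain ⟨hdl, r, hr⟩ := hr
          have hNt := hr.isr
          rw [hdl] at hNt
          obtain ⟨o', h8, h9, h10⟩ := partner hr (h5.of hNt)
          have h11 : tq p o' := by
            obtain ⟨o2, h11, h12⟩ := hmatch t (by omega) hdl r hr
            have h13 := (c1_iff.1 (recov_iff.1 hr.rcv).1 o2 ms h11).2 o' h8
            rw [← h13]; exact h12
          exact ⟨o', (mu_rec hr hdl o' ms).2 h8, h11, kd_partner h6 h11 h10 s h7⟩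
        · exact ⟨o, (mu_const hp (by omega) hr o ms).2 h5, h6, h7⟩
    refine ⟨s, tb + 1, by omega, persist_of_rec hp (by omega) ?_⟩
    intro t ht hdl r hr
    obtain ⟨o, h5, h6, h7⟩ := hks t ht
    obtain ⟨o', h8, h9, h10⟩ := hks (t + 1) (by omega)
    have hNt := hr.isr
    rw [hdl] at hNt
    obtain ⟨r', h11, h12⟩ := hpt t (by omega)
    rw [hNt] at h11
    cases h11
    exact shift_rec hr s (h5.of hNt) ((mu_rec hr hdl o' ms).1 h8) h7 h10
      (by rw [h12]; exact h6.2) (by rw [h12]; exact h9.2)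
  · -- finitely many actions
    push Not at hact
    obtain ⟨t1, hact⟩ := hact
    obtain ⟨t2, ht2, hdl2, r2, hr2⟩ := hrec (max t0 t1)
    have h02 : t0 ≤ t2 := (le_max_left _ _).trans ht2
    have h12 : t1 ≤ t2 := (le_max_right _ _).trans ht2
    have hal : ∀ t ≥ t2 + 1, ∀ o m, MU τ t o m → ¬ dead t o := by
      intro t ht
      induction t, ht using Nat.le_induction with
      | base =>
        intro o m hm
        rw [mu_rec hr2 hdl2] at hm
        have h1 := (nmu_al hr2.isr hm).2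
        rw [hr2.dead']
        exact h1
      | succ t ht ih =>
        intro o m hm
        by_cases hr : RecT τ t
        · obtain ⟨hdl, r, hr⟩ := hr
          rw [mu_rec hr hdl] at hm
          have h1 := (nmu_al hr.isr hm).2
          rw [hr.dead']
          exact h1
        · rw [mu_const hp (by omega) hr] at hm
          have h1 := ih o m hm
          rcases cases_at t with h | ⟨r, h⟩ | ⟨r, h⟩ | ⟨r, h⟩
          · rw [h.dead']; exact h1
          · rw [h.dead']
            rintro (h2 | h2)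
            · obtain ⟨r', h3, -⟩ := hp t (by omega)
              obtain ⟨h4, h5, -⟩ := (invW t).k1 h3 (hm.of h3)
              have h6 : ¬ τ ++ [true] <+: dl t := fun h6 => hact t (by omega) ⟨h6, r, h⟩
              refine h5 (frozen (invA t) (invB t) h h3 h6 ?_ h2 h4)
              intro h7
              exact hp.not_rmv (by omega : t0 ≤ t) (Or.inl ⟨r, h, h7, hp.not_act (by omega) h⟩)
            · exact h1 h2
          · rw [h.dead']; exact h1
          · rw [h.dead']; exact h1
    refine ⟨true, t2 + 1, by omega, persist_of_rec hp (by omega) ?_⟩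
    intro t ht hdl r hr o m hm
    have hNt := hr.isr
    rw [hdl] at hNt
    obtain ⟨o', h1, h2, h3⟩ := partner hr hm
    have h4 := h3.resolve_right (fun h => hal t ht o m ⟨r, hNt, hm⟩ h.1)
    exact ⟨o', h1, by rw [h4.2]⟩

/-- The matched elements correspond to the locations. -/
theorem pair_ok {M : ℕ → ℕ → ℕ → Prop} {θ : ℕ → Vert} {c : Code} {s : Bool} {t1 : ℕ}
    (hθ : IsoS M s θ) (hc : CodeOf M c) (hτ : τ.length = Encodable.encode c)
    (hp : Pm τ t0 p d l) (hrec : ∀ t, ∃ t' ≥ t, RecT τ t') (h01 : t0 ≤ t1)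
    (hP : Persist τ s t1) {t o m : ℕ} (ht : t1 ≤ t) (hm : MU τ t o m) :
    θ m = (loc s o, []) := by
  have hocr : cr o := by
    obtain ⟨r, h1, h2⟩ := hm
    have h3 := ((invW t).k1 h1 h2).1
    have h4 := (invA t).ck2 h1
    exact ⟨t, by omega⟩
  rcases fin_or_inf s (lf_cr s hocr) with ⟨f, h1, h2⟩ | ⟨q, h1, h2⟩
  · obtain ⟨tf, htf⟩ := h1.1
    obtain ⟨t', ht', hdl, r, hr⟩ := hrec (max t tf)
    have h3 : t ≤ t' := (le_max_left _ _).trans ht'
    have h4 := nn_mono ((le_max_right t tf).trans ht')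
    obtain ⟨o', h5, h6⟩ := hP.all ht (by omega : t ≤ t' + 1) hm
    have h7 := (mu_rec hr hdl o' m).1 h5
    have h8 := nmu_al hr.isr h7
    have h9 : o' = f := (invB t').li s h8 ⟨by omega, h1.2 t'⟩ (h6.trans h2.symm)
    subst h9
    obtain ⟨r', h10, h11⟩ := h5
    obtain ⟨-, -, -, s0, h12⟩ := (invW (t' + 1)).k1 h10 h11
    rw [hτ] at h12
    rw [hθ.fin h1 (hc.hs h12), h2]
  · rw [h2]
    refine hθ.inf h1 fun hH => ?_
    obtain ⟨s0, hs0⟩ := Filter.eventually_atTop.1 (hc.shw hH)
    obtain ⟨t', ht', hdl, r, hr⟩ := hrec (max t s0)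
    have h3 : t ≤ t' := (le_max_left _ _).trans ht'
    obtain ⟨o', h5, h6⟩ := hP.all ht (by omega : t ≤ t' + 1) hm
    have h7 := (mu_rec hr hdl o' m).1 h5
    have h8 := nmu_al hr.isr h7
    obtain ⟨h9, h10⟩ := h1.at s ⟨t', h8.1⟩ (h6.trans h2)
    obtain ⟨-, -, c3, -, -⟩ := recov_iff.1 hr.rcv
    rw [c3_iff hr.isr, hdl, hτ] at c3
    have h11 := c3 o' m h7 h9
    rw [h10] at h11
    exact h11 (hs0 t' ((le_max_right _ _).trans ht'))

/-- A record with a given `p` was there before. -/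
theorem back {t t' : ℕ} (htt : t ≤ t') {ρ : List Bool} {r : Rec} (hr : N t' ρ = some r)
    (hlt : r.p < nn t) : ∃ r', N t ρ = some r' ∧ r'.p = r.p := by
  induction t', htt using Nat.le_induction generalizing r with
  | base => exact ⟨r, hr, rfl⟩
  | succ t' htt ih =>
    have key : ∃ r1, N t' ρ = some r1 ∧ r1.p = r.p := by
      rcases cases_at t' with h | ⟨r0, h⟩ | ⟨r0, h⟩ | ⟨r0, h⟩
      · rcases h.inv hr with ⟨_, rfl⟩ | ⟨_, r1, h1, h2⟩
        · have h3 := nn_mono htt
          have h4 : nn t' < nn t := hlt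
          omega
        · refine ⟨r1, h1, ?_⟩
          rcases h2 with ⟨_, rfl⟩ | ⟨_, rfl⟩ <;> rfl
      · obtain ⟨r1, h1, h2⟩ := h.inv hr
        refine ⟨r1, h1, ?_⟩
        rcases h2 with ⟨_, rfl⟩ | ⟨_, rfl⟩ | ⟨_, _, rfl⟩ <;> rfl
      · obtain ⟨_, r1, h1, h2⟩ := h.inv hr
        refine ⟨r1, h1, ?_⟩
        rcases h2 with ⟨_, rfl, rfl⟩ | ⟨_, rfl⟩ <;> rfl
      · rw [h.N'] at hr
        exact ⟨r, hr, rfl⟩
    obtain ⟨r1, h1, h2⟩ := key
    obtain ⟨r2, h3, h4⟩ := ih h1 (by rw [h2]; exact hlt)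
    exact ⟨r2, h3, h4.trans h2⟩

/-- All roots except those of lower tags are covered. -/
theorem cover {s : Bool} {t1 : ℕ} (hp : Pm τ t0 p d l) (hv : Vis τ)
    (hrec : ∀ t, ∃ t' ≥ t, RecT τ t') (h01 : t0 ≤ t1) {x : ℕ} (hx : Rt x)
    (hl : ∀ q ∈ l, Out s x (2 * q + 1)) : ∃ t ≥ t1, ∃ o m, MU τ t o m ∧ loc s o = x := by
  rcases fin_or_inf s hx with ⟨f, h1, h2⟩ | ⟨q, h1, h2⟩
  · obtain ⟨tc, htc, hck⟩ := ck_large hp hrec f
    obtain ⟨t, ht, hdl, r, hr⟩ := hrec (max t1 tc)
    have h3 : t1 ≤ t := (le_max_left _ _).trans ht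
    have hNt := hr.isr
    rw [hdl] at hNt
    have h4 := hck t ((le_max_right _ _).trans ht) r hNt
    obtain ⟨r', h5, -, -, h6⟩ := hp t (by omega)
    rw [hNt] at h5
    cases h5
    have h7 : f ∈ tset (run t) r := by
      refine (mem_tset (invA t) hNt).2 ⟨h4, h1.2 t, ?_⟩
      rintro ⟨h8, h9⟩
      rw [h6] at h9
      have h10 := hl _ h9
      rw [out_odd, ← h2, h1.tq_iff s] at h10
      exact h10.2 ⟨h8, rfl⟩
    exact ⟨t + 1, by omega, f, _, (mu_rec hr hdl f _).2 (mem_nmu.2 ⟨h7, rfl⟩), h2⟩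
  · obtain ⟨⟨tq', htq', hTq⟩, -⟩ := id h1
    obtain ⟨tx, htx⟩ := hx.cr
    obtain ⟨t, ht, hdl, r, hr⟩ := hrec (max t1 (max tq' tx))
    have h3 : t1 ≤ t := (le_max_left _ _).trans ht
    have h4 := nn_mono (((le_max_left tq' tx).trans (le_max_right t1 _)).trans ht)
    have h5 := nn_mono (((le_max_right tq' tx).trans (le_max_right t1 _)).trans ht)
    have hNt := hr.isr
    rw [hdl] at hNt
    obtain ⟨r', h6, h6', -, h7⟩ := hp t (by omega)
    rw [hNt] at h6
    cases h6
    -- the living object at the location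
    obtain ⟨o, h8, h9⟩ := (invB t).le s (by omega : x < nn t) hx.fr
    obtain ⟨h10, h11⟩ := h1.at s ⟨t, h8.1⟩ (h9.trans h2)
    -- a later action that kills it
    have hql : q ∉ l := by
      intro h12
      exact (h1.out s hx).2 h2 (hl q h12)
    obtain ⟨td, htd⟩ := h1.2 o ⟨t, h8.1⟩ h10 h11
    classical
    have hex : ∃ k, dead k o := ⟨td, htd⟩
    obtain ⟨ta, hta⟩ : ∃ ta, Nat.find hex = ta + 1 := by
      refine ⟨Nat.find hex - 1, ?_⟩
      have : Nat.find hex ≠ 0 := by
        intro h0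
        have := Nat.find_spec hex
        rw [h0] at this
        cases this
      omega
    have hd1 : dead (ta + 1) o := by rw [← hta]; exact Nat.find_spec hex
    have hd2 : ¬ dead ta o := Nat.find_min hex (by omega)
    have htta : t ≤ ta := by
      by_contra hcon
      exact h8.2 (dead_mono (by omega) hd1)
    have hdlt : ta ≠ t := by
      rintro rfl
      exact hd2 ((hr.dead' o).1 hd1)
    have hact : ∃ ra, ActAt ta ra ∧ q ∈ ra.low := by
      rcases cases_at ta with h | ⟨ra, h⟩ | ⟨ra, h⟩ | ⟨ra, h⟩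
      · exact absurd ((h.dead' o).1 hd1) hd2
      · refine ⟨ra, h, ?_⟩
        have F := actF (invA ta) (invB ta) h
        have h12 := ((h.dead' o).1 hd1).resolve_right hd2
        have hb := (invA ta).blk h.isr
        rcases F.mem.1 h12 with h13 | h13 | ⟨_, _, h13⟩
        · rw [h13] at h10; exact absurd (fr_iff hb.g4).2.1 h10
        · rw [h13] at h10; exact absurd (fr_iff hb.g5).2.1 h10
        · rw [h11] at h13; exact h13
      · exact absurd ((h.dead' o).1 hd1) hd2
      · exact absurd ((h.dead' o).1 hd1) hd2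
    obtain ⟨ra, hra, hqa⟩ := hact
    obtain ⟨ρ, rρ, h12, h13, h14⟩ := (invA ta).l2 hra.isr hqa
    obtain ⟨rρ', h15, h16⟩ := back (by omega : t + 1 ≤ ta) h12 (by
      rw [h14]
      have := hr.nn'
      omega)
    obtain ⟨hrm, rρ'', h17, h18⟩ := hr.inv h15
    have h19 : rρ''.p = q := by
      rw [← h14, ← h16]
      rcases h18 with ⟨_, rfl, rfl⟩ | ⟨_, rfl⟩ <;> rfl
    -- the record of the tag is at the node or below its outcome true
    have hcmp : ρ = τ ∨ τ ++ [true] <+: ρ := by
      rw [hdl] at hrm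
      have hlowq : ¬ ρ ++ [true] <+: τ := by
        intro h20
        have h21 := ((invA t).l1 h17 hNt h20).subset
          (List.mem_append_right _ (List.mem_singleton_self _))
        rw [h19, h7] at h21
        exact hql h21
      rcases sep τ ρ with h20 | h20 | ⟨σ, h20, h21⟩ | ⟨σ, h20, h21⟩
      · by_cases he : τ = ρ
        · exact Or.inl he.symm
        · obtain ⟨b, hb⟩ := pfx_snoc h20 he
          cases b with
          | false => exact absurd hb hrm
          | true => exact Or.inr hb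
      · exact absurd h20 hlowq
      · exfalso
        exact (invA t).right h17 (by rw [hdl]; exact h20) h21
      · exfalso
        have h22 : σ ++ [true] <+: dl ta := by
          rcases h21 with rfl | h21
          · exact h13
          · exact h21.trans (pfx_of_snoc h13)
        obtain ⟨r3, h23, -⟩ := hp ta (by omega)
        exact (invA ta).right h23 h22 h20
    have h20 : rρ''.ck ≤ r.ck := by
      rcases hcmp with h20 | h20
      · rw [h20, hNt] at h17
        cases h17
        exact le_rfl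
      · exact (invA t).j2 hNt h17 h20
    have h21 := (invB t).j0 h17 h8.1 h10 (by rw [h19]; exact h11)
    have h22 : o ∈ tset (run t) r := by
      refine (mem_tset (invA t) hNt).2 ⟨by omega, h8.2, ?_⟩
      rintro ⟨_, h23⟩
      rw [h7, h11] at h23
      exact hql h23
    exact ⟨t + 1, by omega, o, _, (mu_rec hr hdl o _).2 (mem_nmu.2 ⟨h22, rfl⟩), h9⟩

end

end Pool.Agent.Dim
end
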